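import Pool.Agent.Helper93.IW.Cong2

/-!
The congruence subgroups of the general linear group over the `p`-adic integers.
-/

set_option autoImplicit false

namespace Pool.Agent.Helper93.IW

open Matrix

section mat

variable {p : ℕ} [Fact p.Prime] {ι : Type} [Fintype ι] [DecidableEq ι]

theorem natCast_pow_mul_apply {A : Type} [CommRing A] (n i : ℕ) (c : Matrix ι ι A) (a b : ι) :
    ((n : Matrix ι ι A) ^ i * c) a b = (n : A) ^ i * c a b := by
  rw [← Nat.cast_pow, ← nsmul_eq_mul, Matrix.smul_apply, nsmul_eq_mul, Nat.cast_pow]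

theorem isUnit_of_toZMod {z : ℤ_[p]} (hz : PadicInt.toZMod z = 1) : IsUnit z := by
  by_contra h
  have h1 : z ∈ IsLocalRing.maximalIdeal ℤ_[p] := (IsLocalRing.mem_maximalIdeal z).2 h
  rw [← PadicInt.ker_toZMod, RingHom.mem_ker, hz] at h1
  exact one_ne_zero h1

theorem hunit (a : Matrix ι ι ℤ_[p]) : IsUnit (1 + (p : Matrix ι ι ℤ_[p]) * a) := by
  rw [Matrix.isUnit_iff_isUnit_det]
  apply isUnit_of_toZMod
  rw [RingHom.map_det]
  have h1 : (PadicInt.toZMod (p := p)).mapMatrix (1 + (p : Matrix ι ι ℤ_[p]) * a) = 1 := by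
    rw [map_add, map_one, map_mul, map_natCast]
    have : ((p : ℕ) : Matrix ι ι (ZMod p)) = 0 := by
      ext i j
      rw [Matrix.natCast_apply]
      simp
    rw [this, zero_mul, add_zero]
  rw [h1, det_one]

theorem map_eq_iff (i : ℕ) (a b : Matrix ι ι ℤ_[p]) :
    a.map (PadicInt.toZModPow i) = b.map (PadicInt.toZModPow i) ↔
      ∃ c, b = a + (p : Matrix ι ι ℤ_[p]) ^ i * c := by
  constructor
  · intro h
    have h1 : ∀ x y, ∃ c : ℤ_[p], b x y - a x y = (p : ℤ_[p]) ^ i * c := by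
      intro x y
      have h2 : PadicInt.toZModPow i (a x y) = PadicInt.toZModPow i (b x y) := by
        have := congrFun (congrFun h x) y
        exact this
      have h3 : b x y - a x y ∈ RingHom.ker (PadicInt.toZModPow (p := p) i) := by
        rw [RingHom.mem_ker, map_sub, h2, sub_self]
      rw [PadicInt.ker_toZModPow, Ideal.mem_span_singleton] at h3
      exact h3
    choose c hc using h1
    refine ⟨Matrix.of c, ?_⟩
    ext x y
    rw [Matrix.add_apply, natCast_pow_mul_apply, Matrix.of_apply, ← hc]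
    ring
  · rintro ⟨c, rfl⟩
    ext x y
    rw [Matrix.map_apply, Matrix.map_apply, Matrix.add_apply, natCast_pow_mul_apply, map_add,
      map_mul]
    have : PadicInt.toZModPow (p := p) i ((p : ℤ_[p]) ^ i) = 0 := by
      have h3 : (p : ℤ_[p]) ^ i ∈ RingHom.ker (PadicInt.toZModPow (p := p) i) := by
        rw [PadicInt.ker_toZModPow]
        exact Ideal.mem_span_singleton_self _
      exact h3
    rw [this, zero_mul, add_zero]

theorem p_inj {a b : Matrix ι ι ℤ_[p]}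
    (h : (p : Matrix ι ι ℤ_[p]) * a = (p : Matrix ι ι ℤ_[p]) * b) : a = b := by
  ext x y
  have h1 := congrFun (congrFun h x) y
  have h2 := natCast_pow_mul_apply p 1 a x y
  have h3 := natCast_pow_mul_apply p 1 b x y
  rw [pow_one, pow_one] at h2 h3
  rw [h2, h3] at h1
  have hp : (p : ℤ_[p]) ≠ 0 := by exact_mod_cast (Fact.out (p := p.Prime)).ne_zero
  exact mul_left_cancel₀ hp h1

variable (p ι)

/-- the group -/
noncomputable abbrev GG : Subgroup (Matrix ι ι ℤ_[p])ˣ := Cg (Matrix ι ι ℤ_[p]) p 1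

/-- the normal subgroups -/
noncomputable abbrev NG (i : ℕ) : Subgroup (GG p ι) := NN (Matrix ι ι ℤ_[p]) p i

variable {p ι}

/-- the coordinate -/
noncomputable def crd (u : GG p ι) : Matrix ι ι ℤ_[p] := Classical.choose u.2

theorem crd_spec (u : GG p ι) :
    (((u : (Matrix ι ι ℤ_[p])ˣ)) : Matrix ι ι ℤ_[p]) = 1 + (p : Matrix ι ι ℤ_[p]) * crd u := by
  have h1 : (((u : (Matrix ι ι ℤ_[p])ˣ)) : Matrix ι ι ℤ_[p]) =
      1 + (p : Matrix ι ι ℤ_[p]) ^ 1 * crd u := Classical.choose_spec u.2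
  rw [pow_one] at h1
  exact h1

/-- the unit -/
noncomputable def mkU (a : Matrix ι ι ℤ_[p]) : GG p ι :=
  ⟨(hunit a).unit, ⟨a, by rw [pow_one]; rfl⟩⟩

theorem mkU_spec (a : Matrix ι ι ℤ_[p]) :
    (((mkU a : GG p ι) : (Matrix ι ι ℤ_[p])ˣ) : Matrix ι ι ℤ_[p]) =
      1 + (p : Matrix ι ι ℤ_[p]) * a := rfl

theorem crd_mkU (a : Matrix ι ι ℤ_[p]) : crd (mkU a) = a := by
  have h1 := crd_spec (mkU a)
  rw [mkU_spec] at h1
  exact (p_inj (add_left_cancel h1)).symm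

theorem rel_iff (i : ℕ) (u v : GG p ι) : u⁻¹ * v ∈ NG p ι i ↔
    (crd u).map (PadicInt.toZModPow i) = (crd v).map (PadicInt.toZModPow i) := by
  rw [map_eq_iff, mem_NN]
  constructor
  · intro h
    obtain ⟨c, hc⟩ := of_div_mem (u := (u : (Matrix ι ι ℤ_[p])ˣ)) (v := (v : (Matrix ι ι ℤ_[p])ˣ)) h
    refine ⟨c, ?_⟩
    rw [crd_spec, crd_spec, pow_succ', mul_assoc, add_assoc, ← mul_add] at hc
    exact p_inj (add_left_cancel hc)
  · rintro ⟨c, hc⟩
    have h1 : ((v : (Matrix ι ι ℤ_[p])ˣ) : Matrix ι ι ℤ_[p]) =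
        ((u : (Matrix ι ι ℤ_[p])ˣ) : Matrix ι ι ℤ_[p]) + (p : Matrix ι ι ℤ_[p]) ^ (i + 1) * c := by
      rw [crd_spec, crd_spec, hc, pow_succ', mul_add, mul_assoc, add_assoc]
    exact div_mem h1

/-- the cosets are the matrices modulo a power -/
noncomputable def cosetEquiv (i : ℕ) : (GG p ι ⧸ NG p ι i) ≃ Matrix ι ι (ZMod (p ^ i)) :=
  Equiv.ofBijective
    (Quotient.lift (fun u : GG p ι => (crd u).map (PadicInt.toZModPow i)) (by
      intro u v huv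
      have h1 : u⁻¹ * v ∈ NG p ι i := QuotientGroup.leftRel_apply.1 huv
      exact (rel_iff i u v).1 h1))
    (by
      constructor
      · intro a b
        refine Quotient.inductionOn₂ a b ?_
        intro u v huv
        apply Quotient.sound
        apply QuotientGroup.leftRel_apply.2
        exact (rel_iff i u v).2 huv
      · intro m
        have hne : NeZero (p ^ i) := ⟨pow_ne_zero _ (Fact.out (p := p.Prime)).ne_zero⟩
        refine ⟨Quotient.mk _ (mkU (m.map fun z => ((z.val : ℕ) : ℤ_[p]))), ?_⟩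
        change (crd (mkU (m.map fun z => ((z.val : ℕ) : ℤ_[p])))).map (PadicInt.toZModPow i) = m
        rw [crd_mkU]
        ext x y
        rw [Matrix.map_apply, Matrix.map_apply, map_natCast, ZMod.natCast_zmod_val])

theorem card_coset (i : ℕ) :
    Nat.card (GG p ι ⧸ NG p ι i) = (p ^ i) ^ Fintype.card (ι × ι) := by
  have hne : NeZero (p ^ i) := ⟨pow_ne_zero _ (Fact.out (p := p.Prime)).ne_zero⟩
  have h2 : Nat.card (GG p ι ⧸ NG p ι i) = Nat.card (ι × ι → ZMod (p ^ i)) :=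
    Nat.card_congr ((cosetEquiv i).trans (Equiv.curry ι ι (ZMod (p ^ i))).symm)
  rw [h2, Nat.card_fun, Nat.card_zmod, Nat.card_eq_fintype_card]

/-- the generators -/
noncomputable def gg (j : Fin (Fintype.card (ι × ι))) : GG p ι :=
  mkU (Matrix.single ((Fintype.equivFin (ι × ι)).symm j).1 ((Fintype.equivFin (ι × ι)).symm j).2 1)

/-- the span -/
noncomputable def TT (p : ℕ) [Fact p.Prime] (ι : Type) [Fintype ι] [DecidableEq ι] (i : ℕ) :
    Submodule (ZMod p) (MonoidAlgebra (ZMod p) (GG p ι ⧸ NG p ι i)) :=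
  Submodule.span (ZMod p) (Set.range fun j =>
    MonoidAlgebra.of (ZMod p) (GG p ι ⧸ NG p ι i) ((gg j : GG p ι) : GG p ι ⧸ NG p ι i) - 1) ⊔
      Fil (ZMod p) (GG p ι ⧸ NG p ι i) 2

theorem TT_mul (i : ℕ) {x y : GG p ι ⧸ NG p ι i}
    (hx : MonoidAlgebra.of (ZMod p) (GG p ι ⧸ NG p ι i) x - 1 ∈ TT p ι i)
    (hy : MonoidAlgebra.of (ZMod p) (GG p ι ⧸ NG p ι i) y - 1 ∈ TT p ι i) :
    MonoidAlgebra.of (ZMod p) (GG p ι ⧸ NG p ι i) (x * y) - 1 ∈ TT p ι i := by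
  have h1 : MonoidAlgebra.of (ZMod p) (GG p ι ⧸ NG p ι i) (x * y) - 1 =
      (MonoidAlgebra.of (ZMod p) (GG p ι ⧸ NG p ι i) x - 1) +
      (MonoidAlgebra.of (ZMod p) (GG p ι ⧸ NG p ι i) y - 1) +
      (MonoidAlgebra.of (ZMod p) (GG p ι ⧸ NG p ι i) x - 1) *
      (MonoidAlgebra.of (ZMod p) (GG p ι ⧸ NG p ι i) y - 1) := by
    rw [map_mul]
    noncomm_ring
  rw [h1]
  refine Submodule.add_mem _ (Submodule.add_mem _ hx hy) (Submodule.mem_sup_right ?_)
  have h2 := Fil_mul (m := 1) (n := 1)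
    (x := MonoidAlgebra.of (ZMod p) (GG p ι ⧸ NG p ι i) x - 1)
    (y := MonoidAlgebra.of (ZMod p) (GG p ι ⧸ NG p ι i) y - 1)
    (by rw [Fil_one]; exact sub_one_mem _) (by rw [Fil_one]; exact sub_one_mem _)
  exact h2

theorem TT_inv (i : ℕ) {x : GG p ι ⧸ NG p ι i}
    (hx : MonoidAlgebra.of (ZMod p) (GG p ι ⧸ NG p ι i) x - 1 ∈ TT p ι i) :
    MonoidAlgebra.of (ZMod p) (GG p ι ⧸ NG p ι i) x⁻¹ - 1 ∈ TT p ι i := by
  have h1 : MonoidAlgebra.of (ZMod p) (GG p ι ⧸ NG p ι i) x⁻¹ - 1 =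
      -((MonoidAlgebra.of (ZMod p) (GG p ι ⧸ NG p ι i) x - 1) +
      (MonoidAlgebra.of (ZMod p) (GG p ι ⧸ NG p ι i) x - 1) *
      (MonoidAlgebra.of (ZMod p) (GG p ι ⧸ NG p ι i) x⁻¹ - 1)) := by
    have h3 : MonoidAlgebra.of (ZMod p) (GG p ι ⧸ NG p ι i) x *
        MonoidAlgebra.of (ZMod p) (GG p ι ⧸ NG p ι i) x⁻¹ = 1 := by
      rw [← map_mul, mul_inv_cancel, map_one]
    rw [sub_mul, mul_sub, h3]
    noncomm_ring
  rw [h1]
  refine Submodule.neg_mem _ (Submodule.add_mem _ hx (Submodule.mem_sup_right ?_))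
  have h2 := Fil_mul (m := 1) (n := 1)
    (x := MonoidAlgebra.of (ZMod p) (GG p ι ⧸ NG p ι i) x - 1)
    (y := MonoidAlgebra.of (ZMod p) (GG p ι ⧸ NG p ι i) x⁻¹ - 1)
    (by rw [Fil_one]; exact sub_one_mem _) (by rw [Fil_one]; exact sub_one_mem _)
  exact h2

/-- the good coordinates -/
def Pm (p : ℕ) [Fact p.Prime] (ι : Type) [Fintype ι] [DecidableEq ι] (i : ℕ)
    (m : Matrix ι ι ℤ_[p]) : Prop :=
  ∀ x : GG p ι, (∃ c, crd x = m + (p : Matrix ι ι ℤ_[p]) * c) →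
    MonoidAlgebra.of (ZMod p) (GG p ι ⧸ NG p ι i) (x : GG p ι ⧸ NG p ι i) - 1 ∈ TT p ι i

theorem Pm_zero (hp : Odd p) (hp3 : 3 ≤ p) (i : ℕ) : Pm p ι i 0 := by
  rintro x ⟨c, hc⟩
  have h1 : (x : (Matrix ι ι ℤ_[p])ˣ) ∈ Cg (Matrix ι ι ℤ_[p]) p (1 + 1) := by
    refine ⟨c, ?_⟩
    rw [crd_spec, hc, zero_add, ← mul_assoc, show (p : Matrix ι ι ℤ_[p]) ^ (1 + 1) = _ from
      pow_two _]
  exact Submodule.mem_sup_right (Fil_le (by omega) (deep hp hunit i i 1 (by omega) le_rfl x h1))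

/-- the coordinate of a quotient -/
theorem crd_div (x y : GG p ι) : ∃ c, crd (y⁻¹ * x) = (crd x - crd y) +
    (p : Matrix ι ι ℤ_[p]) * c := by
  obtain ⟨e, he⟩ := (mem_Cg (R := Matrix ι ι ℤ_[p])).1 (y⁻¹).2
  refine ⟨e * (crd x - crd y), ?_⟩
  apply p_inj
  have h1 := crd_spec (y⁻¹ * x)
  have h2 : (((y⁻¹ * x : GG p ι) : (Matrix ι ι ℤ_[p])ˣ) : Matrix ι ι ℤ_[p]) =
      1 + (((y⁻¹ : GG p ι) : (Matrix ι ι ℤ_[p])ˣ) : Matrix ι ι ℤ_[p]) *
      ((p : Matrix ι ι ℤ_[p]) * (crd x - crd y)) := by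
    have h3 : (((y⁻¹ : GG p ι) : (Matrix ι ι ℤ_[p])ˣ) : Matrix ι ι ℤ_[p]) *
        ((y : (Matrix ι ι ℤ_[p])ˣ) : Matrix ι ι ℤ_[p]) = 1 := by
      rw [← Units.val_mul, ← Subgroup.coe_mul, inv_mul_cancel]
      rfl
    have h4 : ((x : (Matrix ι ι ℤ_[p])ˣ) : Matrix ι ι ℤ_[p]) =
        ((y : (Matrix ι ι ℤ_[p])ˣ) : Matrix ι ι ℤ_[p]) +
        (p : Matrix ι ι ℤ_[p]) * (crd x - crd y) := by
      rw [crd_spec, crd_spec, mul_sub]
      abel
    rw [Subgroup.coe_mul, Units.val_mul, h4, mul_add, h3]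
  rw [h2] at h1
  have h5 := add_left_cancel h1
  rw [← h5, he, pow_one]
  have h6 : (p : Matrix ι ι ℤ_[p]) * e = e * (p : Matrix ι ι ℤ_[p]) := (Nat.cast_commute p e).eq
  calc (1 + (p : Matrix ι ι ℤ_[p]) * e) * ((p : Matrix ι ι ℤ_[p]) * (crd x - crd y))
      = (p : Matrix ι ι ℤ_[p]) * (crd x - crd y) +
        (p : Matrix ι ι ℤ_[p]) * (e * (p : Matrix ι ι ℤ_[p])) * (crd x - crd y) := by noncomm_ring
    _ = _ := by rw [← h6]; noncomm_ring

theorem Pm_add (i : ℕ) {m m' : Matrix ι ι ℤ_[p]} (hm : Pm p ι i m) (hm' : Pm p ι i m') :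
    Pm p ι i (m + m') := by
  rintro x ⟨c, hc⟩
  have h1 := hm (mkU m) ⟨0, by rw [crd_mkU, mul_zero, add_zero]⟩
  have h2 : MonoidAlgebra.of (ZMod p) (GG p ι ⧸ NG p ι i)
      (((mkU m)⁻¹ * x : GG p ι) : GG p ι ⧸ NG p ι i) - 1 ∈ TT p ι i := by
    apply hm'
    obtain ⟨e, he⟩ := crd_div x (mkU m)
    refine ⟨c + e, ?_⟩
    rw [he, crd_mkU, hc, mul_add]
    abel
  have h3 := TT_mul i h1 h2
  rwa [← QuotientGroup.mk_mul, mul_inv_cancel_left] at h3

theorem Pm_p (i : ℕ) {m m' : Matrix ι ι ℤ_[p]} (hm : Pm p ι i m) :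
    Pm p ι i (m + (p : Matrix ι ι ℤ_[p]) * m') := by
  rintro x ⟨c, hc⟩
  apply hm x
  exact ⟨m' + c, by rw [hc, mul_add]; abel⟩

theorem Pm_gen (hp : Odd p) (hp3 : 3 ≤ p) (i : ℕ) (a b : ι) :
    Pm p ι i (Matrix.single a b 1) := by
  rintro x ⟨c, hc⟩
  have h1 : MonoidAlgebra.of (ZMod p) (GG p ι ⧸ NG p ι i)
      ((mkU (Matrix.single a b 1) : GG p ι) : GG p ι ⧸ NG p ι i) - 1 ∈ TT p ι i := by
    apply Submodule.mem_sup_left
    apply Submodule.subset_span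
    refine ⟨Fintype.equivFin (ι × ι) (a, b), ?_⟩
    change MonoidAlgebra.of (ZMod p) (GG p ι ⧸ NG p ι i)
      ((gg (Fintype.equivFin (ι × ι) (a, b)) : GG p ι) : GG p ι ⧸ NG p ι i) - 1 = _
    rw [gg, Equiv.symm_apply_apply]
  have h2 : MonoidAlgebra.of (ZMod p) (GG p ι ⧸ NG p ι i)
      (((mkU (Matrix.single a b 1))⁻¹ * x : GG p ι) : GG p ι ⧸ NG p ι i) - 1 ∈ TT p ι i := by
    apply Pm_zero hp hp3 i
    obtain ⟨e, he⟩ := crd_div x (mkU (Matrix.single a b 1))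
    refine ⟨c + e, ?_⟩
    rw [he, crd_mkU, hc, mul_add]
    abel
  have h3 := TT_mul i h1 h2
  rwa [← QuotientGroup.mk_mul, mul_inv_cancel_left] at h3

theorem Pm_single (hp : Odd p) (hp3 : 3 ≤ p) (i : ℕ) (a b : ι) (z : ℤ_[p]) :
    Pm p ι i (Matrix.single a b z) := by
  have h1 : ∀ n : ℕ, Pm p ι i (Matrix.single a b (n : ℤ_[p])) := by
    intro n
    induction n with
    | zero => rw [Nat.cast_zero, Matrix.single_zero]; exact Pm_zero hp hp3 i
    | succ n ih =>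
      rw [Nat.cast_succ, Matrix.single_add]
      exact Pm_add i ih (Pm_gen hp hp3 i a b)
  have h2 : z - ((PadicInt.toZMod z).val : ℤ_[p]) ∈ RingHom.ker (PadicInt.toZMod (p := p)) := by
    rw [RingHom.mem_ker, map_sub, map_natCast, ZMod.natCast_zmod_val, sub_self]
  rw [PadicInt.ker_toZMod, PadicInt.maximalIdeal_eq_span_p, Ideal.mem_span_singleton] at h2
  obtain ⟨y, hy⟩ := h2
  have h3 : Matrix.single a b z = Matrix.single a b (((PadicInt.toZMod z).val : ℕ) : ℤ_[p]) +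
      (p : Matrix ι ι ℤ_[p]) * Matrix.single a b y := by
    have h4 : z = (((PadicInt.toZMod z).val : ℕ) : ℤ_[p]) + p * y := by rw [← hy]; ring
    conv_lhs => rw [h4]
    rw [Matrix.single_add]
    congr 1
    ext u v
    have h5 := natCast_pow_mul_apply p 1 (Matrix.single a b y) u v
    rw [pow_one, pow_one] at h5
    rw [h5, Matrix.single_apply, Matrix.single_apply]
    split_ifs <;> simp
  rw [h3]
  exact Pm_p i (h1 _)

theorem Pm_all (hp : Odd p) (hp3 : 3 ≤ p) (i : ℕ) (m : Matrix ι ι ℤ_[p]) : Pm p ι i m := by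
  rw [Matrix.matrix_eq_sum_single m]
  refine Finset.sum_induction _ (Pm p ι i) (fun _ _ => Pm_add i) (Pm_zero hp hp3 i) ?_
  intro a _
  refine Finset.sum_induction _ (Pm p ι i) (fun _ _ => Pm_add i) (Pm_zero hp hp3 i) ?_
  intro b _
  exact Pm_single hp hp3 i a b _

/-- **The tower of congruence subgroups is uniform.** -/
theorem UF_cong (hp2 : p ≠ 2) (i : ℕ) :
    UF p (Fintype.card (ι × ι)) i (GG p ι ⧸ NG p ι i)
      (fun j => ((gg j : GG p ι) : GG p ι ⧸ NG p ι i)) := by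
  have hp : Odd p := (Fact.out (p := p.Prime)).odd_of_ne_two hp2
  have hp3 : 3 ≤ p := by
    have := (Fact.out (p := p.Prime)).two_le
    omega
  refine ⟨card_coset i, fun j => NN_pow i _, NN_comm hp hp3 hunit i, ?_⟩
  rw [aug, Submodule.span_le]
  rintro _ ⟨q, rfl⟩
  obtain ⟨x, rfl⟩ := QuotientGroup.mk_surjective q
  exact Pm_all hp hp3 i (crd x) x ⟨0, by rw [mul_zero, add_zero]⟩

end mat

end Pool.Agent.Helper93.IW
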