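import Pool.Agent.Helper93.IW.Bridge
import Pool.Agent.Helper93.IW.Cong3

/-!
Integrality of the kernel dimensions of integer matrices, for the groups which are residually in
the first congruence subgroups.
-/

set_option autoImplicit false
set_option linter.unusedSectionVars false

open scoped InnerProductSpace ENNReal ComplexOrder
open Filter Topology

namespace Pool.Agent.Helper93.IW

open Pool.Agent.H80R2
open Pool.Agent.H80R2.BC (L2 GMat vdim IsTr LInv Equi act kerA)
open Pool.Agent.H812R3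
open Pool.Agent.W656.VA
open Pool.Agent.TH107.AT

section lueck

variable {ι κ G : Type} [Group G] [Fintype ι] [Fintype κ]

theorem rf_of_seq {Q : ℕ → Type} [∀ i, Group (Q i)] [∀ i, Finite (Q i)] (f : ∀ i, G →* Q i)
    (hf : ∀ g, g ≠ 1 → ∀ᶠ i in atTop, f i g ≠ 1) : RF G := by
  intro S hS
  have h1 : ∀ᶠ i in atTop, ∀ s ∈ S, f i s ≠ 1 :=
    (Finset.eventually_all S).2 fun s hs => hf s (hS s hs)
  obtain ⟨i, hi⟩ := h1.exists
  exact ⟨Q i, inferInstance, f i, inferInstance, hi⟩

theorem rf_fin (Q : Type) [Group Q] [Finite Q] : RF Q := by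
  intro S hS
  exact ⟨Q, inferInstance, MonoidHom.id Q, inferInstance, hS⟩

/-- approximation along a sequence of finite quotients -/
theorem lueck {Q : ℕ → Type} [∀ i, Group (Q i)] [∀ i, Finite (Q i)] (f : ∀ i, G →* Q i)
    (hf : ∀ g, g ≠ 1 → ∀ᶠ i in atTop, f i g ≠ 1) (X : Matrix κ ι (MonoidAlgebra ℂ G))
    (hX : Itg X) :
    Tendsto (fun i => vdim (kr (mop (im (f i) X)))) atTop (𝓝 (vdim (kr (mop X)))) := by
  classical
  rw [Metric.tendsto_nhds]
  intro ε hε
  set c : ℝ := 1 / (n1 X ^ 2 + 1) with hcdef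
  have hpos : 0 < n1 X ^ 2 + 1 := by positivity
  have hc : 0 < c := by positivity
  have hc1 : c ≤ 1 := by
    rw [hcdef, div_le_one hpos]
    have := sq_nonneg (n1 X)
    linarith
  have hc2 : c * n1 X ^ 2 ≤ 1 := by
    rw [hcdef, one_div, inv_mul_le_iff₀ hpos]
    linarith
  obtain ⟨L, hL0, hL⟩ : ∃ L : ℕ, 0 < L ∧ (Fintype.card ι : ℝ) * (1 / L) < ε / 4 := by
    obtain ⟨L, hL⟩ := exists_nat_gt ((Fintype.card ι : ℝ) / (ε / 4))
    have hL' : (0 : ℝ) < L := lt_of_le_of_lt (by positivity) hL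
    refine ⟨L, by exact_mod_cast hL', ?_⟩
    rw [mul_one_div, div_lt_iff₀ hL']
    rw [div_lt_iff₀ (by positivity)] at hL
    linarith
  have h1 := (tendsto_err c hc L (Fintype.card ι)).eventually (gt_mem_nhds hL)
  have h2 := (mN_tendsto X c hc hc2).eventually
    (Metric.ball_mem_nhds _ (show 0 < ε / 4 by positivity))
  obtain ⟨N, hN1, hN2, hN0⟩ := (h1.and (h2.and (eventually_gt_atTop 0))).exists
  have hev : ∀ᶠ i in atTop, ∀ s ∈ Ex X c N, f i s ≠ 1 :=
    (Finset.eventually_all _).2 fun s hs => hf s (Finset.mem_filter.1 hs).2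
  filter_upwards [hev] with i hi
  have h3 := mN_im (f i) X c N hi
  have h4 : c * n1 (im (f i) X) ^ 2 ≤ 1 := by
    refine le_trans ?_ hc2
    apply mul_le_mul_of_nonneg_left _ hc.le
    exact pow_le_pow_left₀ (n1_nonneg _) (n1_im_le (f i) X) 2
  have h5 := vdim_rf (rf_fin (Q i)) (im (f i) X) (itg_im (f i) X hX) c hc hc1 h4 N L hN0 hL0
  rw [h3] at h5
  rw [dist_eq_norm] at hN2
  have h6 : ‖((vdim (kr (mop (im (f i) X))) - vdim (kr (mop X)) : ℝ) : ℂ)‖ < ε := by
    have e : ((vdim (kr (mop (im (f i) X))) - vdim (kr (mop X)) : ℝ) : ℂ) =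
        (mN X c N - (vdim (kr (mop X)) : ℂ)) - (mN X c N - (vdim (kr (mop (im (f i) X))) : ℂ)) := by
      push_cast; ring
    rw [e]
    refine lt_of_le_of_lt (norm_sub_le _ _) ?_
    linarith
  rw [Complex.norm_real] at h6
  exact h6

end lueck

section emb

variable {p : ℕ} [Fact p.Prime] {ν : Type} [Fintype ν] [DecidableEq ν]
  {ι κ G : Type} [Group G] [Fintype ι] [Fintype κ]

theorem sep_GG (u : GG p ν) (hu : u ≠ 1) : ∀ᶠ i in atTop, (u : GG p ν ⧸ NG p ν i) ≠ 1 := by
  have h1 : ∃ i, u ∉ NG p ν i := by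
    by_contra hne
    push Not at hne
    apply hu
    have h2 : crd u = crd 1 := by
      ext a b
      rw [← PadicInt.ext_of_toZModPow]
      intro n
      have h3 := (rel_iff n 1 u).1 (by rw [inv_one, one_mul]; exact hne n)
      exact (congrFun (congrFun h3 a) b).symm
    apply Subtype.ext
    apply Units.ext
    rw [crd_spec, h2, ← crd_spec]
  obtain ⟨i, hi⟩ := h1
  filter_upwards [eventually_ge_atTop i] with j hj
  rw [Ne, QuotientGroup.eq_one_iff]
  intro h
  apply hi
  rw [mem_NN] at h ⊢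
  exact Cg_anti (by omega) h

/-- integrality for the subgroups of the congruence subgroup -/
theorem int_emb (hp2 : p ≠ 2) (φ : G →* GG p ν) (hφ : Function.Injective φ)
    (X : Matrix κ ι (MonoidAlgebra ℂ G)) (hX : Itg X) : ∃ z : ℤ, vdim (kr (mop X)) = z := by
  have hU := fun i => UF_cong (p := p) (ι := ν) hp2 i
  have hfin : ∀ i, Finite (GG p ν ⧸ NG p ν i) := fun i => (hU i).finite
  obtain ⟨z, hz⟩ := tendsto_vdim (NG p ν) (NN_anti _ _) hU φ X hX
  refine ⟨z, ?_⟩
  refine tendsto_nhds_unique (lueck (fun i => (QuotientGroup.mk' (NG p ν i)).comp φ) ?_ X hX) hz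
  intro g hg
  exact sep_GG (φ g) (fun h => hg (hφ (by rw [h, map_one])))

end emb

end Pool.Agent.Helper93.IW
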