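import Pool.Agent.Helper93.IW.Filt

/-!
The filtration of a group algebra by the powers of the augmentation ideal.
-/

set_option autoImplicit false

namespace Pool.Agent.Helper93.IW

open MvPolynomial

section general

variable (k : Type) [Field k] (Q : Type) [Group Q]

/-- the augmentation ideal -/
noncomputable def aug : Submodule k (MonoidAlgebra k Q) :=
  Submodule.span k (Set.range fun g : Q => MonoidAlgebra.of k Q g - 1)

/-- the powers of the augmentation ideal -/
noncomputable def Fil : ℕ → Submodule k (MonoidAlgebra k Q)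
  | 0 => ⊤
  | n + 1 => Fil n * aug k Q

variable {k Q}

theorem sub_one_mem (g : Q) : MonoidAlgebra.of k Q g - 1 ∈ aug k Q :=
  Submodule.subset_span ⟨g, rfl⟩

theorem single_eq (g : Q) (r : k) : MonoidAlgebra.single g r = r • MonoidAlgebra.of k Q g := by
  rw [MonoidAlgebra.of_apply, MonoidAlgebra.smul_single, smul_eq_mul, mul_one]

theorem decomp (x : MonoidAlgebra k Q) : ∃ c : k, x - c • (1 : MonoidAlgebra k Q) ∈ aug k Q := by
  induction x using MonoidAlgebra.induction_linear with
  | zero => exact ⟨0, by simp⟩
  | add x y hx hy =>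
    obtain ⟨c, hc⟩ := hx
    obtain ⟨e, he⟩ := hy
    refine ⟨c + e, ?_⟩
    have := Submodule.add_mem _ hc he
    rw [add_smul]
    convert this using 1
    abel
  | single g r =>
    refine ⟨r, ?_⟩
    rw [single_eq, ← smul_sub]
    exact Submodule.smul_mem _ _ (sub_one_mem g)

theorem aug_mul_of (g : Q) {x : MonoidAlgebra k Q} (hx : x ∈ aug k Q) :
    x * MonoidAlgebra.of k Q g ∈ aug k Q := by
  induction hx using Submodule.span_induction with
  | mem x hx =>
    obtain ⟨h, rfl⟩ := hx
    have e : (MonoidAlgebra.of k Q h - 1) * MonoidAlgebra.of k Q g =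
        (MonoidAlgebra.of k Q (h * g) - 1) - (MonoidAlgebra.of k Q g - 1) := by
      rw [map_mul]; noncomm_ring
    rw [e]
    exact Submodule.sub_mem _ (sub_one_mem _) (sub_one_mem _)
  | zero => rw [zero_mul]; exact Submodule.zero_mem _
  | add x y _ _ hx hy => rw [add_mul]; exact Submodule.add_mem _ hx hy
  | smul a x _ hx => rw [smul_mul_assoc]; exact Submodule.smul_mem _ _ hx

theorem of_mul_aug (g : Q) {x : MonoidAlgebra k Q} (hx : x ∈ aug k Q) :
    MonoidAlgebra.of k Q g * x ∈ aug k Q := by
  induction hx using Submodule.span_induction with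
  | mem x hx =>
    obtain ⟨h, rfl⟩ := hx
    have e : MonoidAlgebra.of k Q g * (MonoidAlgebra.of k Q h - 1) =
        (MonoidAlgebra.of k Q (g * h) - 1) - (MonoidAlgebra.of k Q g - 1) := by
      rw [map_mul]; noncomm_ring
    rw [e]
    exact Submodule.sub_mem _ (sub_one_mem _) (sub_one_mem _)
  | zero => rw [mul_zero]; exact Submodule.zero_mem _
  | add x y _ _ hx hy => rw [mul_add]; exact Submodule.add_mem _ hx hy
  | smul a x _ hx => rw [mul_smul_comm]; exact Submodule.smul_mem _ _ hx

theorem aug_mul {x : MonoidAlgebra k Q} (hx : x ∈ aug k Q) (y : MonoidAlgebra k Q) :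
    x * y ∈ aug k Q := by
  induction y using MonoidAlgebra.induction_linear with
  | zero => rw [mul_zero]; exact Submodule.zero_mem _
  | add y z hy hz => rw [mul_add]; exact Submodule.add_mem _ hy hz
  | single g r => rw [single_eq, mul_smul_comm]; exact Submodule.smul_mem _ _ (aug_mul_of g hx)

theorem mul_aug {x : MonoidAlgebra k Q} (hx : x ∈ aug k Q) (y : MonoidAlgebra k Q) :
    y * x ∈ aug k Q := by
  induction y using MonoidAlgebra.induction_linear with
  | zero => rw [zero_mul]; exact Submodule.zero_mem _
  | add y z hy hz => rw [add_mul]; exact Submodule.add_mem _ hy hz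
  | single g r => rw [single_eq, smul_mul_assoc]; exact Submodule.smul_mem _ _ (of_mul_aug g hx)

theorem Fil_one : Fil k Q 1 = aug k Q := by
  apply le_antisymm
  · change (⊤ : Submodule k (MonoidAlgebra k Q)) * aug k Q ≤ _
    rw [Submodule.mul_le]
    intro x _ y hy
    exact mul_aug hy x
  · intro x hx
    have : (1 : MonoidAlgebra k Q) * x ∈ (⊤ : Submodule k (MonoidAlgebra k Q)) * aug k Q :=
      Submodule.mul_mem_mul trivial hx
    rwa [one_mul] at this

theorem Fil_mul_right {n : ℕ} {x : MonoidAlgebra k Q} (hx : x ∈ Fil k Q n)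
    (y : MonoidAlgebra k Q) : x * y ∈ Fil k Q n := by
  cases n with
  | zero => trivial
  | succ n =>
    change x ∈ Fil k Q n * aug k Q at hx
    induction hx using Submodule.mul_induction_on' with
    | mem_mul_mem a ha b hb =>
      rw [mul_assoc]
      exact Submodule.mul_mem_mul ha (aug_mul hb y)
    | add a _ b _ ha hb => rw [add_mul]; exact Submodule.add_mem _ ha hb

theorem Fil_mul {m n : ℕ} {x y : MonoidAlgebra k Q} (hx : x ∈ Fil k Q m) (hy : y ∈ Fil k Q n) :
    x * y ∈ Fil k Q (m + n) := by
  induction n generalizing y with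
  | zero => exact Fil_mul_right hx y
  | succ n ih =>
    change y ∈ Fil k Q n * aug k Q at hy
    induction hy using Submodule.mul_induction_on' with
    | mem_mul_mem a ha b hb =>
      rw [← mul_assoc]
      exact Submodule.mul_mem_mul (ih ha) hb
    | add a _ b _ ha hb => rw [mul_add]; exact Submodule.add_mem _ ha hb

theorem Fil_anti (n : ℕ) : Fil k Q (n + 1) ≤ Fil k Q n := by
  change Fil k Q n * aug k Q ≤ _
  rw [Submodule.mul_le]
  intro x hx y _
  exact Fil_mul_right hx y

theorem Fil_le {m n : ℕ} (h : m ≤ n) : Fil k Q n ≤ Fil k Q m := by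
  induction h with
  | refl => exact le_rfl
  | step h ih => exact (Fil_anti _).trans ih

theorem Fil_succ (n : ℕ) : Fil k Q (n + 1) = Fil k Q n * aug k Q := rfl

theorem Fil_zero : Fil k Q 0 = ⊤ := rfl

attribute [irreducible] Fil

theorem comm_all (hc : ∀ x y : Q, MonoidAlgebra.of k Q x * MonoidAlgebra.of k Q y -
    MonoidAlgebra.of k Q y * MonoidAlgebra.of k Q x ∈ Fil k Q 3) (x y : MonoidAlgebra k Q) :
    x * y - y * x ∈ Fil k Q 3 := by
  induction x using MonoidAlgebra.induction_linear with
  | zero => simp
  | add a b ha hb =>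
    have := Submodule.add_mem _ ha hb
    convert this using 1
    noncomm_ring
  | single g r =>
    induction y using MonoidAlgebra.induction_linear with
    | zero => simp
    | add a b ha hb =>
      have := Submodule.add_mem _ ha hb
      convert this using 1
      noncomm_ring
    | single h s =>
      rw [single_eq, single_eq, smul_mul_smul_comm, smul_mul_smul_comm, mul_comm s r, ← smul_sub]
      exact Submodule.smul_mem _ _ (hc g h)

theorem comm_small (hc : ∀ x y : Q, MonoidAlgebra.of k Q x * MonoidAlgebra.of k Q y -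
    MonoidAlgebra.of k Q y * MonoidAlgebra.of k Q x ∈ Fil k Q 3) {b : ℕ} (hb : b ≤ 1) (a : ℕ)
    {x y : MonoidAlgebra k Q} (hx : x ∈ Fil k Q a) (hy : y ∈ Fil k Q b) :
    x * y - y * x ∈ Fil k Q (a + b + 1) := by
  induction a generalizing x with
  | zero => exact Fil_le (by omega) (comm_all hc x y)
  | succ a ih =>
    rw [Fil_succ] at hx
    induction hx using Submodule.mul_induction_on' with
    | mem_mul_mem u hu v hv =>
      have e : u * v * y - y * (u * v) = u * (v * y - y * v) + (u * y - y * u) * v := by
        noncomm_ring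
      rw [e]
      have hv' : v ∈ Fil k Q 1 := by rw [Fil_one]; exact hv
      refine Submodule.add_mem _ ?_ ?_
      · exact Fil_le (by omega) (Fil_mul hu (comm_all hc v y))
      · exact Fil_le (by omega) (Fil_mul (ih hu) hv')
    | add u _ v _ hu hv =>
      have := Submodule.add_mem _ hu hv
      convert this using 1
      noncomm_ring

theorem filt_Fil (hc : ∀ x y : Q, MonoidAlgebra.of k Q x * MonoidAlgebra.of k Q y -
    MonoidAlgebra.of k Q y * MonoidAlgebra.of k Q x ∈ Fil k Q 3) : Filt (Fil k Q) where
  zero := Fil_zero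
  anti := Fil_anti
  mul a b x y hx hy := Fil_mul hx hy
  comm a b x y hx hy := by
    induction b generalizing y with
    | zero => exact comm_small hc (by omega) a hx hy
    | succ b ih =>
      rw [Fil_succ] at hy
      induction hy using Submodule.mul_induction_on' with
      | mem_mul_mem u hu v hv =>
        have e : x * (u * v) - u * v * x = (x * u - u * x) * v + u * (x * v - v * x) := by
          noncomm_ring
        rw [e]
        have hv' : v ∈ Fil k Q 1 := by rw [Fil_one]; exact hv
        refine Submodule.add_mem _ ?_ ?_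
        · exact Fil_le (by omega) (Fil_mul (ih u hu) hv')
        · exact Fil_le (by omega) (Fil_mul hu (comm_small hc le_rfl a hx hv'))
      | add u _ v _ hu hv =>
        have := Submodule.add_mem _ hu hv
        convert this using 1
        noncomm_ring

end general

theorem mo_zero {B : Type} [Ring B] : ∀ {d : ℕ} (b : Fin d → B), mo b 0 = 1 := by
  intro d b
  simp [mo]

theorem mo_single {B : Type} [Ring B] : ∀ {d : ℕ} (b : Fin d → B) (j : Fin d),
    mo b (Pi.single j 1) = b j := by
  intro d
  induction d with
  | zero => intro b j; exact j.elim0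
  | succ d ih =>
    intro b j
    rw [mo_succ]
    refine Fin.cases ?_ (fun j => ?_) j
    · have h1 : (fun i : Fin d => (Pi.single (0 : Fin (d + 1)) 1 : Fin (d + 1) → ℕ) i.succ) = 0 := by
        ext i
        simp [Pi.single_apply]
      rw [h1, mo_zero]
      simp
    · have h1 : (fun i : Fin d => (Pi.single j.succ 1 : Fin (d + 1) → ℕ) i.succ) =
          Pi.single j 1 := by
        ext i
        simp [Pi.single_apply]
      rw [h1, ih]
      simp [Pi.single_apply]

section gen

variable {k B : Type} [Field k] [Ring B] [Algebra k B]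

theorem Mo_C {d : ℕ} (b : Fin d → B) (c : k) : Mo b (C c) = c • (1 : B) := by
  rw [← monomial_zero', Mo_monomial]
  congr 1
  exact mo_zero b

theorem Mo_X {d : ℕ} (b : Fin d → B) (j : Fin d) : Mo b (X j : MvPolynomial (Fin d) k) = b j := by
  rw [X, Mo_monomial, one_smul]
  have : ((Finsupp.single j 1 : Fin d →₀ ℕ) : Fin d → ℕ) = Pi.single j 1 := by
    ext i
    rw [Finsupp.single_apply, Pi.single_apply]
    by_cases h : j = i
    · subst h; simp
    · rw [if_neg h, if_neg (fun h' => h h'.symm)]
  rw [this, mo_single]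

variable {Q : Type} [Group Q]

/-- the elements of the powers of the augmentation ideal have symbols -/
theorem gen_Fil (hF : Filt (Fil k Q)) {d : ℕ} (b : Fin d → MonoidAlgebra k Q)
    (hb : ∀ j, b j ∈ Fil k Q 1)
    (hg : aug k Q ≤ Submodule.span k (Set.range b) ⊔ Fil k Q 2) (n : ℕ) (x : MonoidAlgebra k Q)
    (hx : x ∈ Fil k Q n) : ∃ f : MvPolynomial (Fin d) k, f.IsHomogeneous n ∧
      x - Mo b f ∈ Fil k Q (n + 1) := by
  induction n generalizing x with
  | zero =>
    obtain ⟨c, hc⟩ := decomp x
    exact ⟨C c, isHomogeneous_C _ _, by rw [Mo_C, zero_add, Fil_one]; exact hc⟩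
  | succ n ih =>
    rw [Fil_succ] at hx
    induction hx using Submodule.mul_induction_on' with
    | mem_mul_mem u hu v hv =>
      obtain ⟨f, hf, hf2⟩ := ih u hu
      obtain ⟨v1, hv1, v2, hv2, hv12⟩ := Submodule.mem_sup.1 (hg hv)
      have hl : ∃ l : MvPolynomial (Fin d) k, l.IsHomogeneous 1 ∧ Mo b l = v1 := by
        clear hv12
        induction hv1 using Submodule.span_induction with
        | mem y hy =>
          obtain ⟨j, rfl⟩ := hy
          exact ⟨X j, isHomogeneous_X _ _, Mo_X b j⟩
        | zero => exact ⟨0, isHomogeneous_zero _ _ _, map_zero _⟩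
        | add y z _ _ hy hz =>
          obtain ⟨l1, h1, h1'⟩ := hy
          obtain ⟨l2, h2, h2'⟩ := hz
          exact ⟨l1 + l2, h1.add h2, by rw [map_add, h1', h2']⟩
        | smul a y _ hy =>
          obtain ⟨l1, h1, h1'⟩ := hy
          exact ⟨C a * l1, by simpa using (isHomogeneous_C (Fin d) a).mul h1,
            by rw [← smul_eq_C_mul, map_smul, h1']⟩
      obtain ⟨l, hl, hl2⟩ := hl
      refine ⟨f * l, hf.mul hl, ?_⟩
      have e : u * v - Mo b (f * l) = (u - Mo b f) * v + Mo b f * (v - Mo b l) +
          (Mo b f * Mo b l - Mo b (f * l)) := by noncomm_ring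
      rw [e]
      have hv' : v ∈ Fil k Q 1 := by rw [Fil_one]; exact hv
      have hvl : v - Mo b l ∈ Fil k Q 2 := by
        rw [hl2, ← hv12, add_sub_cancel_left]; exact hv2
      refine Submodule.add_mem _ (Submodule.add_mem _ ?_ ?_) ?_
      · exact Fil_mul (m := n + 1) hf2 hv'
      · exact Fil_mul (m := n) (Mo_mem hF b hb hf) hvl
      · exact Mo_mul hF b hb hf hl
    | add u _ v _ hu hv =>
      obtain ⟨f, hf, hf2⟩ := hu
      obtain ⟨g, hg, hg2⟩ := hv
      refine ⟨f + g, hf.add hg, ?_⟩
      have := Submodule.add_mem _ hf2 hg2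
      rw [map_add]
      convert this using 1
      abel

end gen

end Pool.Agent.Helper93.IW
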