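import Pool.Agent.Helper93.IW.Free

/-!
Groups of automorphisms acting trivially on the abelianisation modulo `p`: the algebraic part.
-/

set_option autoImplicit false

namespace Pool.Agent.Helper93.IW

open scoped commutatorElement

/-- the subgroup generated by the commutators and the `p`-th powers -/
def Dp (H : Type) [Group H] (p : ℕ) : Subgroup H :=
  commutator H ⊔ Subgroup.closure (Set.range fun h : H => h ^ p)

section abs

variable {R B : Type} [CommRing R] [Ring B] [Algebra R B] {H : Type} [Group H]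

/-- the augmentation -/
def I1 (R : Type) [CommRing R] {B : Type} [Ring B] [Algebra R B] {H : Type} [Group H]
    (τ : H →* B) : Submodule R B := Submodule.span R (Set.range fun h => τ h - 1)

/-- the ideal of `p` -/
def PP (R : Type) [CommRing R] (B : Type) [Ring B] [Algebra R B] (p : ℕ) : Submodule R B :=
  Submodule.span R {(p : B)}

/-- the maximal ideal -/
def MM (R : Type) [CommRing R] {B : Type} [Ring B] [Algebra R B] {H : Type} [Group H]
    (τ : H →* B) (p : ℕ) : Submodule R B := I1 R τ ⊔ PP R B p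

variable (τ : H →* B) (p : ℕ)

theorem sub_one_mem_I1 (h : H) : τ h - 1 ∈ I1 R τ := Submodule.subset_span ⟨h, rfl⟩

theorem I1_mul : I1 R τ * I1 R τ ≤ I1 R τ := by
  rw [I1, Submodule.span_mul_span, Submodule.span_le]
  rintro _ ⟨_, ⟨x, rfl⟩, _, ⟨y, rfl⟩, rfl⟩
  change (τ x - 1) * (τ y - 1) ∈ I1 R τ
  have e : (τ x - 1) * (τ y - 1) = (τ (x * y) - 1) - (τ x - 1) - (τ y - 1) := by
    rw [map_mul]; noncomm_ring
  rw [e]
  exact Submodule.sub_mem _ (Submodule.sub_mem _ (sub_one_mem_I1 τ _) (sub_one_mem_I1 τ _))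
    (sub_one_mem_I1 τ _)

theorem mem_PP {x : B} (hx : x ∈ PP R B p) : ∃ c : R, x = c • (p : B) := by
  obtain ⟨c, hc⟩ := Submodule.mem_span_singleton.1 hx
  exact ⟨c, hc.symm⟩

theorem PP_comm (S : Submodule R B) : S * PP R B p = PP R B p * S := by
  apply le_antisymm
  · rw [Submodule.mul_le]
    intro x hx y hy
    obtain ⟨c, rfl⟩ := mem_PP p hy
    have e : x * c • (p : B) = (p : B) * (c • x) := by
      rw [mul_smul_comm, mul_smul_comm, (Nat.cast_commute p x).eq]
    rw [e]
    exact Submodule.mul_mem_mul (Submodule.mem_span_singleton_self _) (S.smul_mem c hx)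
  · rw [Submodule.mul_le]
    intro y hy x hx
    obtain ⟨c, rfl⟩ := mem_PP p hy
    have e : c • (p : B) * x = (c • x) * (p : B) := by
      rw [smul_mul_assoc, smul_mul_assoc, (Nat.cast_commute p x).eq]
    rw [e]
    exact Submodule.mul_mem_mul (S.smul_mem c hx) (Submodule.mem_span_singleton_self _)

theorem mul_PP_le (S : Submodule R B) : S * PP R B p ≤ S := by
  rw [Submodule.mul_le]
  intro x hx y hy
  obtain ⟨c, rfl⟩ := mem_PP p hy
  have e : x * c • (p : B) = p • (c • x) := by
    rw [mul_smul_comm, nsmul_eq_mul, mul_smul_comm, (Nat.cast_commute p x).eq]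
  rw [e]
  exact Submodule.smul_of_tower_mem _ _ (S.smul_mem c hx)

theorem PP_mul_le (S : Submodule R B) : PP R B p * S ≤ S := by
  rw [← PP_comm]
  exact mul_PP_le p S

theorem I1_le_MM : I1 R τ ≤ MM R τ p := le_sup_left

theorem PP_le_MM : PP R B p ≤ MM R τ p := le_sup_right

theorem MM_mul : MM R τ p * MM R τ p ≤ MM R τ p := by
  conv_lhs => rw [MM]
  rw [Submodule.sup_mul, Submodule.mul_sup, Submodule.mul_sup]
  refine sup_le (sup_le ((I1_mul τ).trans (I1_le_MM τ p)) ((mul_PP_le p _).trans (I1_le_MM τ p)))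
    (sup_le ((PP_mul_le p _).trans (I1_le_MM τ p)) ((mul_PP_le p _).trans (PP_le_MM τ p)))

theorem MM_anti {k : ℕ} (hk : 1 ≤ k) : MM R τ p ^ (k + 1) ≤ MM R τ p ^ k := by
  obtain ⟨j, rfl⟩ := Nat.exists_eq_add_of_le' hk
  rw [pow_succ, pow_succ, mul_assoc]
  exact mul_le_mul' le_rfl (MM_mul τ p)

theorem MM_mul_tau {k : ℕ} (hk : 1 ≤ k) {x : B} (hx : x ∈ MM R τ p ^ k) (h : H) :
    x * τ h ∈ MM R τ p ^ k := by
  have e : x * τ h = x * (τ h - 1) + x := by noncomm_ring
  rw [e]
  refine Submodule.add_mem _ (MM_anti τ p hk ?_) hx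
  rw [pow_succ]
  exact Submodule.mul_mem_mul hx (I1_le_MM τ p (sub_one_mem_I1 τ h))

theorem mul_mem_MM2 {x y : B} (hx : x ∈ MM R τ p) (hy : y ∈ MM R τ p) :
    x * y ∈ MM R τ p ^ 2 := by
  rw [pow_two]
  exact Submodule.mul_mem_mul hx hy

theorem tau_Dp {g : H} (hg : g ∈ Dp H p) : τ g - 1 ∈ MM R τ p ^ 2 := by
  let S : Subgroup H :=
    { carrier := {g | τ g - 1 ∈ MM R τ p ^ 2}
      mul_mem' := by
        intro x y hx hy
        have e : τ (x * y) - 1 = (τ x - 1) * τ y + (τ y - 1) := by
          rw [map_mul]; noncomm_ring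
        rw [Set.mem_setOf_eq, e]
        exact Submodule.add_mem _ (MM_mul_tau τ p (by norm_num) hx y) hy
      one_mem' := by
        rw [Set.mem_setOf_eq, map_one, sub_self]
        exact Submodule.zero_mem _
      inv_mem' := by
        intro x hx
        have h1 : τ x * τ x⁻¹ = 1 := by rw [← map_mul, mul_inv_cancel, map_one]
        have e : τ x⁻¹ - 1 = -((τ x - 1) * τ x⁻¹) := by
          rw [sub_mul, h1]; noncomm_ring
        rw [Set.mem_setOf_eq, e]
        exact Submodule.neg_mem _ (MM_mul_tau τ p (by norm_num) hx _) }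
  have h1 : Dp H p ≤ S := by
    rw [Dp]
    apply sup_le
    · rw [commutator_def, Subgroup.commutator_le]
      intro x _ y _
      change τ ⁅x, y⁆ - 1 ∈ MM R τ p ^ 2
      have hx : τ x * τ x⁻¹ = 1 := by rw [← map_mul, mul_inv_cancel, map_one]
      have hy : τ y * τ y⁻¹ = 1 := by rw [← map_mul, mul_inv_cancel, map_one]
      have e : τ ⁅x, y⁆ - 1 = ((τ x - 1) * (τ y - 1) - (τ y - 1) * (τ x - 1)) * τ (x⁻¹ * y⁻¹) := by
        have e1 : (τ x - 1) * (τ y - 1) - (τ y - 1) * (τ x - 1) = τ x * τ y - τ y * τ x := by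
          noncomm_ring
        rw [e1, commutatorElement_def, map_mul, map_mul, map_mul, map_mul, sub_mul]
        have e2 : τ y * τ x * (τ x⁻¹ * τ y⁻¹) = 1 := by
          calc τ y * τ x * (τ x⁻¹ * τ y⁻¹) = τ y * (τ x * τ x⁻¹) * τ y⁻¹ := by
                simp only [mul_assoc]
            _ = 1 := by rw [hx, mul_one, hy]
        rw [e2]
        simp only [mul_assoc]
      rw [e]
      apply MM_mul_tau τ p (by norm_num)
      exact Submodule.sub_mem _
        (mul_mem_MM2 τ p (I1_le_MM τ p (sub_one_mem_I1 τ x)) (I1_le_MM τ p (sub_one_mem_I1 τ y)))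
        (mul_mem_MM2 τ p (I1_le_MM τ p (sub_one_mem_I1 τ y)) (I1_le_MM τ p (sub_one_mem_I1 τ x)))
    · rw [Subgroup.closure_le]
      rintro _ ⟨x, rfl⟩
      change τ (x ^ p) - 1 ∈ MM R τ p ^ 2
      have h2 : ∀ n : ℕ, τ x ^ n - 1 - n • (τ x - 1) ∈ MM R τ p ^ 2 := by
        intro n
        induction n with
        | zero => rw [pow_zero, sub_self, zero_smul, sub_zero]; exact Submodule.zero_mem _
        | succ n ih =>
          have e : τ x ^ (n + 1) - 1 - (n + 1) • (τ x - 1) =
              (τ x ^ n - 1 - n • (τ x - 1)) * τ x + n • ((τ x - 1) * (τ x - 1)) := by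
            have e0 : (τ x - 1) * (τ x - 1) = (τ x - 1) * τ x - (τ x - 1) := by noncomm_ring
            have e1 : n • ((τ x - 1) * (τ x - 1)) = n • ((τ x - 1) * τ x) - n • (τ x - 1) := by
              rw [← smul_sub, e0]
            have e2 : (τ x ^ n - 1 - n • (τ x - 1)) * τ x =
                τ x ^ (n + 1) - τ x - n • ((τ x - 1) * τ x) := by
              rw [sub_mul, sub_mul, one_mul, smul_mul_assoc, pow_succ]
            have e3 : (n + 1) • (τ x - 1) = n • (τ x - 1) + (τ x - 1) := by
              rw [add_smul, one_smul]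
            rw [e1, e2, e3]
            generalize n • (τ x - 1) = u
            generalize n • ((τ x - 1) * τ x) = v
            abel
          rw [e]
          refine Submodule.add_mem _ (MM_mul_tau τ p (by norm_num) ih x)
            (Submodule.smul_of_tower_mem _ _ (mul_mem_MM2 τ p
              (I1_le_MM τ p (sub_one_mem_I1 τ x)) (I1_le_MM τ p (sub_one_mem_I1 τ x))))
      have h3 : p • (τ x - 1) ∈ MM R τ p ^ 2 := by
        rw [nsmul_eq_mul]
        exact mul_mem_MM2 τ p (PP_le_MM τ p (Submodule.mem_span_singleton_self _))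
          (I1_le_MM τ p (sub_one_mem_I1 τ x))
      rw [map_pow]
      have := Submodule.add_mem _ (h2 p) h3
      rwa [sub_add_cancel] at this
  exact h1 hg

/-- the action moves the powers deeper -/
theorem act_MM (r : B →ₐ[R] B) (α : H → H) (hα : ∀ h, r (τ h) = τ (α h))
    (hD : ∀ h, α h * h⁻¹ ∈ Dp H p) (k : ℕ) :
    ∀ x ∈ MM R τ p ^ k, r x - x ∈ MM R τ p ^ (k + 1) := by
  have base : ∀ x ∈ MM R τ p, r x - x ∈ MM R τ p ^ 2 := by
    intro x hx
    obtain ⟨a, ha, b, hb, rfl⟩ := Submodule.mem_sup.1 hx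
    have h1 : ∀ a ∈ I1 R τ, r a - a ∈ MM R τ p ^ 2 := by
      intro a ha
      induction ha using Submodule.span_induction with
      | mem x hx =>
        obtain ⟨h, rfl⟩ := hx
        change r (τ h - 1) - (τ h - 1) ∈ _
        have e : r (τ h - 1) - (τ h - 1) = (τ (α h * h⁻¹) - 1) * τ h := by
          rw [map_sub, map_one, hα, sub_mul, ← map_mul, inv_mul_cancel_right]
          noncomm_ring
        rw [e]
        exact MM_mul_tau τ p (by norm_num) (tau_Dp τ p (hD h)) h
      | zero => rw [map_zero, sub_zero]; exact Submodule.zero_mem _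
      | add x y _ _ hx hy =>
        have e : r (x + y) - (x + y) = (r x - x) + (r y - y) := by rw [map_add]; abel
        rw [e]
        exact Submodule.add_mem _ hx hy
      | smul c x _ hx =>
        rw [map_smul, ← smul_sub]
        exact Submodule.smul_mem _ _ hx
    obtain ⟨c, rfl⟩ := mem_PP p hb
    rw [map_add, map_smul, map_natCast, add_sub_add_right_eq_sub]
    exact h1 a ha
  induction k with
  | zero =>
    intro x hx
    rw [pow_zero] at hx
    obtain ⟨c, rfl⟩ := Submodule.mem_one.1 hx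
    rw [AlgHom.commutes, sub_self]
    exact Submodule.zero_mem _
  | succ k ih =>
    intro x hx
    rw [pow_succ] at hx
    induction hx using Submodule.mul_induction_on' with
    | mem_mul_mem a ha b hb =>
      have e : r (a * b) - a * b = (r a - a) * r b + a * (r b - b) := by
        rw [map_mul]; noncomm_ring
      rw [e]
      apply Submodule.add_mem
      · rw [pow_succ]
        refine Submodule.mul_mem_mul (ih a ha) ?_
        have h2 := MM_anti τ p (k := 1) le_rfl (base b hb)
        rw [pow_one] at h2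
        have h3 := Submodule.add_mem _ h2 hb
        rwa [sub_add_cancel] at h3
      · have h4 := Submodule.mul_mem_mul ha (base b hb)
        rwa [← pow_add] at h4
    | add a _ b _ ha hb =>
      have e : r (a + b) - (a + b) = (r a - a) + (r b - b) := by rw [map_add]; abel
      rw [e]
      exact Submodule.add_mem _ ha hb

theorem MM_pow_le (k : ℕ) : MM R τ p ^ (k + 1) ≤ I1 R τ ^ (k + 1) ⊔ PP R B p * MM R τ p ^ k := by
  induction k with
  | zero => rw [zero_add, pow_one, pow_one, pow_zero, mul_one]; exact le_rfl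
  | succ k ih =>
    have hle : ∀ j, I1 R τ ^ j ≤ MM R τ p ^ j := fun j => pow_le_pow_left' (I1_le_MM τ p) j
    rw [pow_succ (MM R τ p) (k + 1)]
    refine (mul_le_mul' ih le_rfl).trans ?_
    rw [Submodule.sup_mul]
    apply sup_le
    · conv_lhs => rw [MM]
      rw [Submodule.mul_sup, ← pow_succ, PP_comm]
      exact sup_le le_sup_left (le_sup_of_le_right (mul_le_mul' le_rfl (hle (k + 1))))
    · rw [mul_assoc, ← pow_succ]
      exact le_sup_right

theorem mem_PP_mul {S : Submodule R B} {x : B} (hx : x ∈ PP R B p * S) :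
    ∃ y ∈ S, x = (p : B) * y := by
  induction hx using Submodule.mul_induction_on' with
  | mem_mul_mem a ha b hb =>
    obtain ⟨c, rfl⟩ := mem_PP p ha
    exact ⟨c • b, S.smul_mem c hb, by rw [smul_mul_assoc, mul_smul_comm]⟩
  | add a _ b _ ha hb =>
    obtain ⟨u, hu, rfl⟩ := ha
    obtain ⟨v, hv, rfl⟩ := hb
    exact ⟨u + v, S.add_mem hu hv, by rw [mul_add]⟩

/-- finite generation -/
theorem I1_fg [Group.FG H] {m : ℕ} (hm : I1 R τ ^ m = ⊥) (hm1 : 1 ≤ m) : (I1 R τ).FG := by
  classical
  obtain ⟨S, hS⟩ := (Group.fg_def.1 (inferInstance : Group.FG H))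
  set X : Submodule R B := Submodule.span R ((S.image fun h => τ h - 1 : Finset B) : Set B) with hX
  have hXI : X ≤ I1 R τ := by
    rw [hX, Submodule.span_le]
    intro x hx
    rw [Finset.mem_coe, Finset.mem_image] at hx
    obtain ⟨h, -, rfl⟩ := hx
    exact sub_one_mem_I1 τ h
  have hle : I1 R τ ≤ X ⊔ I1 R τ * I1 R τ := by
    let T : Subgroup H :=
      { carrier := {g | τ g - 1 ∈ X ⊔ I1 R τ * I1 R τ}
        mul_mem' := by
          intro x y hx hy
          have e : τ (x * y) - 1 = (τ x - 1) + (τ y - 1) + (τ x - 1) * (τ y - 1) := by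
            rw [map_mul]; noncomm_ring
          rw [Set.mem_setOf_eq, e]
          exact Submodule.add_mem _ (Submodule.add_mem _ hx hy) (Submodule.mem_sup_right
            (Submodule.mul_mem_mul (sub_one_mem_I1 τ x) (sub_one_mem_I1 τ y)))
        one_mem' := by
          rw [Set.mem_setOf_eq, map_one, sub_self]
          exact Submodule.zero_mem _
        inv_mem' := by
          intro x hx
          have h1 : τ x * τ x⁻¹ = 1 := by rw [← map_mul, mul_inv_cancel, map_one]
          have e : τ x⁻¹ - 1 = -((τ x - 1) + (τ x - 1) * (τ x⁻¹ - 1)) := by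
            rw [mul_sub, mul_one, sub_mul, h1]; noncomm_ring
          rw [Set.mem_setOf_eq, e]
          exact Submodule.neg_mem _ (Submodule.add_mem _ hx (Submodule.mem_sup_right
            (Submodule.mul_mem_mul (sub_one_mem_I1 τ x) (sub_one_mem_I1 τ x⁻¹)))) }
    have hT : (⊤ : Subgroup H) ≤ T := by
      rw [← hS, Subgroup.closure_le]
      intro h hh
      exact Submodule.mem_sup_left (Submodule.subset_span
        (Finset.mem_coe.2 (Finset.mem_image_of_mem _ hh)))
    conv_lhs => rw [I1]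
    rw [Submodule.span_le]
    rintro _ ⟨h, rfl⟩
    exact hT (Subgroup.mem_top h)
  have hanti : ∀ j, 1 ≤ j → I1 R τ ^ (j + 1) ≤ I1 R τ ^ j := by
    intro j hj
    obtain ⟨i, rfl⟩ := Nat.exists_eq_add_of_le' hj
    rw [pow_succ, pow_succ, mul_assoc]
    exact mul_le_mul' le_rfl (I1_mul τ)
  have hstep : ∀ j, 1 ≤ j → I1 R τ ^ j ≤ X ^ j ⊔ I1 R τ ^ (j + 1) := by
    intro j hj
    induction j, hj using Nat.le_induction with
    | base => rw [pow_one, pow_one, pow_two]; exact hle
    | succ j hj ih =>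
      rw [pow_succ (I1 R τ) j]
      refine (mul_le_mul' ih hle).trans ?_
      rw [Submodule.sup_mul, Submodule.mul_sup, ← pow_succ X j]
      refine sup_le (sup_le le_sup_left (le_sup_of_le_right ?_)) (le_sup_of_le_right ?_)
      · calc X ^ j * (I1 R τ * I1 R τ) ≤ I1 R τ ^ j * (I1 R τ * I1 R τ) :=
              mul_le_mul' (pow_le_pow_left' hXI j) le_rfl
          _ = I1 R τ ^ (j + 1 + 1) := by rw [pow_succ, pow_succ, mul_assoc]
      · calc I1 R τ ^ (j + 1) * (X ⊔ I1 R τ * I1 R τ) ≤ I1 R τ ^ (j + 1) * I1 R τ :=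
              mul_le_mul' le_rfl (sup_le hXI (I1_mul τ))
          _ = I1 R τ ^ (j + 1 + 1) := by rw [pow_succ _ (j + 1)]
  have hfg : ∀ k j, 1 ≤ j → j + k = m → (I1 R τ ^ j).FG := by
    intro k
    induction k with
    | zero =>
      intro j _ hj
      rw [add_zero] at hj
      rw [hj, hm]
      exact Submodule.fg_bot
    | succ k ih =>
      intro j hj hjm
      have h1 : I1 R τ ^ j = X ^ j ⊔ I1 R τ ^ (j + 1) :=
        le_antisymm (hstep j hj) (sup_le (pow_le_pow_left' hXI j) (hanti j hj))
      rw [h1]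
      exact Submodule.FG.sup (Submodule.FG.pow (Submodule.fg_span (Finset.finite_toSet _)) j)
        (ih (j + 1) (by omega) (by omega))
  have := hfg (m - 1) 1 le_rfl (by omega)
  rwa [pow_one] at this

theorem MM_fg [Group.FG H] {m : ℕ} (hm : I1 R τ ^ m = ⊥) (hm1 : 1 ≤ m) (k : ℕ) :
    (MM R τ p ^ k).FG :=
  Submodule.FG.pow ((I1_fg τ hm hm1).sup (Submodule.fg_span_singleton _)) k

end abs

end Pool.Agent.Helper93.IW
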