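import Pool.Agent.Helper93.IW.AutA

/-!
Groups of automorphisms acting trivially on the abelianisation modulo `p` are residually congruent
to the identity.
-/

set_option autoImplicit false

namespace Pool.Agent.Helper93.IW

section conc

variable {A : Type} [CommRing A] {H Γ : Type} [Group H] [Group Γ] {m : ℕ}

/-- unitriangular representations -/
def Uni (T : H →* Matrix (Fin m) (Fin m) A) : Prop :=
  ∀ h i j, (j < i → T h i j = 0) ∧ T h i i = 1

/-- the filtration by the diagonals -/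
def FF (A Γ : Type) [CommRing A] (m k : ℕ) : Submodule A (Γ → Matrix (Fin m) (Fin m) A) where
  carrier := {b | ∀ (β : Γ) (i j : Fin m), (j : ℕ) < i + k → b β i j = 0}
  add_mem' := by
    intro b c hb hc β i j hij
    rw [Pi.add_apply, Matrix.add_apply, hb β i j hij, hc β i j hij, add_zero]
  zero_mem' := by
    intro β i j _
    rfl
  smul_mem' := by
    intro a b hb β i j hij
    rw [Pi.smul_apply, Matrix.smul_apply, hb β i j hij, smul_zero]

theorem FF_mul (k l : ℕ) : FF A Γ m k * FF A Γ m l ≤ FF A Γ m (k + l) := by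
  rw [Submodule.mul_le]
  intro b hb c hc β i j hij
  rw [Pi.mul_apply, Matrix.mul_apply]
  refine Finset.sum_eq_zero fun s _ => ?_
  by_cases h1 : (s : ℕ) < i + k
  · rw [hb β i s h1, zero_mul]
  · rw [hc β s j (by omega), mul_zero]

theorem FF_top : FF A Γ m m = ⊥ := by
  rw [eq_bot_iff]
  intro b hb
  rw [Submodule.mem_bot]
  funext β
  ext i j
  exact hb β i j (by have := j.2; omega)

variable (act : Γ →* MulAut H) (T : H →* Matrix (Fin m) (Fin m) A)

/-- the universal representation -/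
def tau : H →* (Γ → Matrix (Fin m) (Fin m) A) where
  toFun h γ := T (act γ h)
  map_one' := by
    funext γ
    rw [map_one, map_one]
    rfl
  map_mul' x y := by
    funext γ
    rw [map_mul, map_mul]
    rfl

theorem tau_apply (h : H) (γ : Γ) : tau act T h γ = T (act γ h) := rfl

/-- the action -/
def rr (A : Type) [CommRing A] (Γ : Type) [Group Γ] (m : ℕ) (γ : Γ) :
    (Γ → Matrix (Fin m) (Fin m) A) →ₐ[A] (Γ → Matrix (Fin m) (Fin m) A) where
  toFun b β := b (β * γ)
  map_one' := rfl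
  map_mul' _ _ := rfl
  map_zero' := rfl
  map_add' _ _ := rfl
  commutes' _ := rfl

theorem rr_apply (γ : Γ) (b : Γ → Matrix (Fin m) (Fin m) A) (β : Γ) :
    rr A Γ m γ b β = b (β * γ) := rfl

theorem rr_tau (γ : Γ) (h : H) : rr A Γ m γ (tau act T h) = tau act T (act γ h) := by
  funext β
  rw [rr_apply, tau_apply, tau_apply, map_mul]
  rfl

theorem I1_le_FF (hT : Uni T) : I1 A (tau act T) ≤ FF A Γ m 1 := by
  rw [I1, Submodule.span_le]
  rintro _ ⟨h, rfl⟩ β i j hij
  change T (act β h) i j - (1 : Matrix (Fin m) (Fin m) A) i j = 0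
  by_cases h1 : i = j
  · subst h1
    rw [(hT _ i i).2, Matrix.one_apply_eq, sub_self]
  · have h2 : j < i := by
      rw [Fin.lt_def]
      have h3 : (i : ℕ) ≠ j := fun e => h1 (Fin.ext e)
      omega
    rw [(hT _ i j).1 h2, Matrix.one_apply_ne h1, sub_self]

theorem I1_pow_le (hT : Uni T) (k : ℕ) : I1 A (tau act T) ^ (k + 1) ≤ FF A Γ m (k + 1) := by
  induction k with
  | zero => rw [zero_add, pow_one]; exact I1_le_FF act T hT
  | succ k ih =>
    rw [pow_succ]
    exact (mul_le_mul' ih (I1_le_FF act T hT)).trans (FF_mul _ _)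

theorem I1_nilp (hT : Uni T) (hm : 1 ≤ m) : I1 A (tau act T) ^ m = ⊥ := by
  obtain ⟨k, rfl⟩ := Nat.exists_eq_add_of_le' hm
  rw [eq_bot_iff, ← FF_top]
  exact I1_pow_le act T hT k

end conc

section main

variable {A : Type} [CommRing A] [IsDomain A] [IsPrincipalIdealRing A] [CharZero A]
  {H Γ : Type} [Group H] [Group Γ]

/-- the action on the lattice -/
noncomputable def latt {m : ℕ} (act : Γ →* MulAut H) (T : H →* Matrix (Fin m) (Fin m) A) (p k : ℕ)
    (hL : ∀ γ : Γ, ∀ x ∈ MM A (tau act T) p ^ k, rr A Γ m γ x ∈ MM A (tau act T) p ^ k) :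
    Γ →* Module.End A (MM A (tau act T) p ^ k : Submodule A (Γ → Matrix (Fin m) (Fin m) A)) where
  toFun γ := (rr A Γ m γ).toLinearMap.restrict (hL γ)
  map_one' := by
    ext1 x
    apply Subtype.ext
    funext β
    change (x : Γ → Matrix (Fin m) (Fin m) A) (β * 1) = (x : Γ → Matrix (Fin m) (Fin m) A) β
    rw [mul_one]
  map_mul' γ γ' := by
    ext1 x
    apply Subtype.ext
    funext β
    change (x : Γ → Matrix (Fin m) (Fin m) A) (β * (γ * γ')) =
      (x : Γ → Matrix (Fin m) (Fin m) A) (β * γ * γ')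
    rw [mul_assoc]

theorem CM_aut [Group.FG H] (p : ℕ) (hp : p ≠ 0)
    (hH : ∀ h : H, h ≠ 1 → ∃ (m : ℕ) (T : H →* Matrix (Fin m) (Fin m) A), Uni T ∧ T h ≠ 1)
    (act : Γ →* MulAut H) (hinj : Function.Injective act)
    (hact : ∀ γ h, act γ h * h⁻¹ ∈ Dp H p) : CM A (p : A) Γ := by
  intro γ hγ
  obtain ⟨h, hh⟩ : ∃ h, act γ h ≠ h := by
    by_contra hcon
    push Not at hcon
    apply hγ
    apply hinj
    rw [map_one]
    ext h
    exact hcon h
  obtain ⟨m, T, hT, hne⟩ := hH (act γ h * h⁻¹) (fun e => hh (mul_inv_eq_one.1 e))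
  have hm : 1 ≤ m := by
    rcases Nat.eq_zero_or_pos m with h0 | h0
    · subst h0
      exact absurd (Subsingleton.elim _ _) hne
    · exact h0
  have hnil := I1_nilp act T hT hm
  set τ := tau act T with hτ
  have hmove : ∀ γ : Γ, ∀ x ∈ MM A τ p ^ m, rr A Γ m γ x - x ∈ MM A τ p ^ (m + 1) := by
    intro γ
    exact act_MM τ p (rr A Γ m γ) (act γ) (rr_tau act T γ) (hact γ) m
  have hL : ∀ γ : Γ, ∀ x ∈ MM A τ p ^ m, rr A Γ m γ x ∈ MM A τ p ^ m := by
    intro γ x hx
    have h1 := Submodule.add_mem _ (MM_anti τ p hm (hmove γ x hx)) hx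
    rwa [sub_add_cancel] at h1
  have hdiv : ∀ x ∈ MM A τ p ^ (m + 1), ∃ y ∈ MM A τ p ^ m, x = (p : Γ → Matrix (Fin m) (Fin m) A) * y := by
    intro x hx
    apply mem_PP_mul p (R := A)
    have h1 := MM_pow_le τ p m hx
    rwa [pow_succ (I1 A τ), hnil, Submodule.bot_mul, bot_sup_eq] at h1
  have hfin : Module.Finite A (MM A τ p ^ m : Submodule A (Γ → Matrix (Fin m) (Fin m) A)) :=
    Module.Finite.iff_fg.2 (MM_fg τ p hnil hm m)
  have htf : ∀ (x : Γ → Matrix (Fin m) (Fin m) A) (a : A), a ≠ 0 → a • x = 0 → x = 0 := by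
    intro x a ha hx
    funext β
    ext i j
    have h1 := congrFun (congrFun (congrFun hx β) i) j
    exact (mul_eq_zero.1 (show a * x β i j = 0 from h1)).resolve_left ha
  have hfree : Module.Free A (MM A τ p ^ m : Submodule A (Γ → Matrix (Fin m) (Fin m) A)) := by
    infer_instance
  refine ⟨(MM A τ p ^ m : Submodule A (Γ → Matrix (Fin m) (Fin m) A)), inferInstance,
    inferInstance, hfree, hfin, latt act T p m hL, ?_, ?_⟩
  · intro β v
    obtain ⟨y, hy, hxy⟩ := hdiv _ (hmove β v.1 v.2)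
    refine ⟨⟨y, hy⟩, ?_⟩
    apply Subtype.ext
    change rr A Γ m β v.1 = v.1 + (p : A) • y
    have h2 : (p : A) • y = (p : Γ → Matrix (Fin m) (Fin m) A) * y := by
      rw [Nat.cast_smul_eq_nsmul, nsmul_eq_mul]
    rw [h2, ← hxy]
    abel
  · intro e
    apply hne
    have hmem : (p : A) ^ m • (τ h - 1) ∈ MM A τ p ^ m := by
      apply MM_anti τ p hm
      rw [pow_succ]
      have h2 : (p : A) ^ m • (τ h - 1) = (p : Γ → Matrix (Fin m) (Fin m) A) ^ m * (τ h - 1) := by
        rw [← Nat.cast_pow, Nat.cast_smul_eq_nsmul, nsmul_eq_mul, Nat.cast_pow]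
      rw [h2]
      exact Submodule.mul_mem_mul (Submodule.pow_mem_pow _
        (PP_le_MM τ p (Submodule.mem_span_singleton_self _)) m) (I1_le_MM τ p (sub_one_mem_I1 τ h))
    have h3 := congrArg Subtype.val (LinearMap.congr_fun e ⟨_, hmem⟩)
    change rr A Γ m γ ((p : A) ^ m • (τ h - 1)) = (p : A) ^ m • (τ h - 1) at h3
    rw [map_smul, map_sub, map_one, rr_tau] at h3
    have h4 : (p : A) ^ m • (τ (act γ h) - τ h) = 0 := by
      have h5 : τ (act γ h) - τ h = (τ (act γ h) - 1) - (τ h - 1) := by abel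
      rw [h5, smul_sub, h3, sub_self]
    have h6 := htf _ _ (pow_ne_zero m (by exact_mod_cast hp)) h4
    have h7 : T (act γ h) = T h := by
      have h8 := congrFun (sub_eq_zero.1 h6) 1
      rw [hτ, tau_apply, tau_apply, map_one] at h8
      exact h8
    rw [map_mul, h7, ← map_mul, mul_inv_cancel, map_one]

end main

end Pool.Agent.Helper93.IW
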