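import Pool.Agent.Helper93.IW.Intg

/-!
The rank of a family of integer vectors does not depend on the ring.
-/

set_option autoImplicit false

namespace Pool.Agent.Helper93.IW

section rkz

variable {K : Type} [CommRing K] [IsDomain K] [IsNoetherianRing K] [CharZero K]
  {a b : Type} [Fintype a] [Fintype b]

theorem finrank_cast (v : a → b → ℤ) (s : Set a) (hs : LinearIndepOn ℤ v s)
    (hmax : ∀ j, ∃ c : ℤ, c ≠ 0 ∧ c • v j ∈ Submodule.span ℤ (v '' s)) :
    Module.finrank K (Submodule.span K (Set.range fun (j : a) (x : b) => (v j x : K))) =
      s.ncard := by
  classical
  set vK : a → b → K := fun j x => (v j x : K) with hvK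
  have h1 : LinearIndependent K (fun j : s => vK j) := by
    have h2 : LinearIndependent ℤ (fun j : s => v j) := hs
    have h3 := (linearIndependent_algebraMap_comp_iff (R := ℤ) (S := K)).2 h2
    exact h3
  have h4 : Module.finrank K (Submodule.span K (vK '' s)) = s.ncard := by
    have h5 := finrank_span_eq_card h1
    have h6 : Set.range (fun j : s => vK j) = vK '' s := by
      rw [Set.image_eq_range]
    rw [h6] at h5
    rw [h5, ← Nat.card_eq_fintype_card]
    rfl
  apply le_antisymm
  · have h7 : ∀ t : Finset a, Module.finrank K
        (Submodule.span K (vK '' s) ⊔ Submodule.span K (vK '' t) : Submodule K (b → K)) ≤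
        s.ncard := by
      intro t
      induction t using Finset.induction_on with
      | empty =>
        rw [Finset.coe_empty, Set.image_empty, Submodule.span_empty, sup_bot_eq, h4]
      | insert j t hj ih =>
        rw [Finset.coe_insert, Set.image_insert_eq, Submodule.span_insert,
          sup_comm (Submodule.span _ {vK j}), ← sup_assoc]
        obtain ⟨c, hc, hcj⟩ := hmax j
        have h8 := finrank_sup_le (Submodule.span K (vK '' s) ⊔ Submodule.span K (vK '' t))
          (LinearMap.toSpanSingleton K (b → K) (vK j)) (Submodule.span K {(c : K)}) (by
            rw [Submodule.map_span_le]
            rintro x hx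
            rw [Set.mem_singleton_iff] at hx
            subst hx
            apply Submodule.mem_sup_left
            change (c : K) • vK j ∈ _
            have h9 : ∀ w ∈ Submodule.span ℤ (v '' s), (fun x => (w x : K)) ∈
                Submodule.span K (vK '' s) := by
              intro w hw
              induction hw using Submodule.span_induction with
              | mem x hx =>
                obtain ⟨k, hk, rfl⟩ := hx
                exact Submodule.subset_span ⟨k, hk, rfl⟩
              | zero =>
                have : (fun x => (((0 : b → ℤ) x : ℤ) : K)) = 0 := by
                  funext x
                  simp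
                rw [this]
                exact Submodule.zero_mem _
              | add x y _ _ hx hy =>
                have : (fun z => (((x + y) z : ℤ) : K)) =
                    (fun z => ((x z : ℤ) : K)) + (fun z => ((y z : ℤ) : K)) := by
                  funext z
                  simp
                rw [this]
                exact Submodule.add_mem _ hx hy
              | smul r x _ hx =>
                have : (fun z => (((r • x) z : ℤ) : K)) = (r : K) • (fun z => ((x z : ℤ) : K)) := by
                  funext z
                  simp
                rw [this]
                exact Submodule.smul_mem _ _ hx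
            have h10 := h9 _ hcj
            have h11 : (c : K) • vK j = fun x => (((c • v j) x : ℤ) : K) := by
              funext z
              simp [hvK]
            rw [h11]
            exact h10)
        have h12 : Module.finrank K (Submodule.span K {(c : K)}) = 1 := by
          have hcK : (c : K) ≠ 0 := by exact_mod_cast hc
          have := finrank_span_eq_card (R := K) (b := fun _ : Unit => (c : K)) (by
            rw [linearIndependent_unique_iff]
            exact hcK)
          rw [Set.range_const] at this
          rw [this, Fintype.card_unit]
        have h13 : LinearMap.range (LinearMap.toSpanSingleton K (b → K) (vK j)) =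
            Submodule.span K {vK j} := LinearMap.range_toSpanSingleton _
        rw [h12, h13, Module.finrank_self] at h8
        omega
    refine le_trans (Submodule.finrank_mono ?_) (h7 Finset.univ)
    rw [Finset.coe_univ, Set.image_univ]
    exact le_sup_right
  · rw [← h4]
    exact Submodule.finrank_mono (Submodule.span_mono (Set.image_subset_range _ _))

/-- the rank does not depend on the ring -/
theorem finrank_cast_eq {K' : Type} [CommRing K'] [IsDomain K'] [IsNoetherianRing K']
    [CharZero K'] (v : a → b → ℤ) :
    Module.finrank K (Submodule.span K (Set.range fun (j : a) (x : b) => (v j x : K))) =
    Module.finrank K' (Submodule.span K' (Set.range fun (j : a) (x : b) => (v j x : K'))) := by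
  obtain ⟨s, -, hs, hmax⟩ := exists_ext (R := ℤ) v ∅ (linearIndepOn_empty _ _)
  rw [finrank_cast v s hs hmax, finrank_cast v s hs hmax]

end rkz

end Pool.Agent.Helper93.IW
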