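import Pool.Agent.Helper93.IW.LFin
import Pool.Agent.Helper93.IW.RkZ

/-!
The dimensions over the quotients of a uniform tower converge to an integer.
-/

set_option autoImplicit false
set_option linter.unusedSectionVars false

open scoped InnerProductSpace ENNReal ComplexOrder
open Filter Topology

namespace Pool.Agent.Helper93.IW

open Pool.Agent.H80R2
open Pool.Agent.H80R2.BC (L2 GMat vdim IsTr LInv Equi act kerA)
open Pool.Agent.H812R3
open Pool.Agent.W656.VA
open Pool.Agent.TH107.AT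

section bridge

variable {p : ℕ} [Fact p.Prime] {G : Type} [Group G] (N : ℕ → Subgroup G) [∀ i, (N i).Normal]
  (hN : ∀ i, N (i + 1) ≤ N i) {d : ℕ} {g : Fin d → G}
  (hU : ∀ i, UF p d i (G ⧸ N i) (fun j => (g j : G ⧸ N i)))
  {ι κ : Type} [Fintype ι] [Fintype κ] {H : Type} [Group H]

/-- the component is the span of the translates of the rows -/
theorem Wc_span (w : κ → ι → Lim N hN ℤ_[p]) (i : ℕ) :
    Wc N hN (Submodule.span _ (Set.range w)) i = Submodule.span ℤ_[p]
      (Set.range fun (a : κ × (G ⧸ N i)) =>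
        MonoidAlgebra.of ℤ_[p] (G ⧸ N i) a.2 • Ev N hN ι i (w a.1)) := by
  set S := Submodule.span ℤ_[p] (Set.range fun (a : κ × (G ⧸ N i)) =>
        MonoidAlgebra.of ℤ_[p] (G ⧸ N i) a.2 • Ev N hN ι i (w a.1)) with hS
  have hmul : ∀ (x : MonoidAlgebra ℤ_[p] (G ⧸ N i)), ∀ v ∈ S, x • v ∈ S := by
    intro x v hv
    induction hv using Submodule.span_induction with
    | mem v hv =>
      obtain ⟨⟨k, q⟩, rfl⟩ := hv
      induction x using MonoidAlgebra.induction_linear with
      | zero => rw [zero_smul]; exact S.zero_mem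
      | add a b ha hb => rw [add_smul]; exact S.add_mem ha hb
      | single a r =>
        have h1 : (MonoidAlgebra.single a r : MonoidAlgebra ℤ_[p] (G ⧸ N i)) =
            r • MonoidAlgebra.of ℤ_[p] (G ⧸ N i) a := by
          rw [MonoidAlgebra.of_apply, MonoidAlgebra.smul_single', mul_one]
        rw [h1, smul_assoc, ← mul_smul, ← map_mul]
        exact S.smul_mem _ (Submodule.subset_span ⟨(k, a * q), rfl⟩)
    | zero => rw [smul_zero]; exact S.zero_mem
    | add a b _ _ ha hb => rw [smul_add]; exact S.add_mem ha hb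
    | smul r a _ ha =>
      have : x • r • a = r • x • a := by
        rw [smul_comm]
      rw [this]
      exact S.smul_mem _ ha
  apply le_antisymm
  · rintro _ ⟨v, hv, rfl⟩
    rw [SetLike.mem_coe, Submodule.restrictScalars_mem] at hv
    induction hv using Submodule.span_induction with
    | mem v hv =>
      obtain ⟨k, rfl⟩ := hv
      refine Submodule.subset_span ⟨(k, 1), ?_⟩
      change MonoidAlgebra.of ℤ_[p] (G ⧸ N i) 1 • Ev N hN ι i (w k) = _
      rw [map_one, one_smul]
    | zero => rw [map_zero]; exact S.zero_mem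
    | add a b _ _ ha hb => rw [map_add]; exact S.add_mem ha hb
    | smul r a _ ha => rw [Ev_smul]; exact hmul _ _ ha
  · rw [hS, Submodule.span_le]
    rintro _ ⟨⟨k, q⟩, rfl⟩
    obtain ⟨y, hy⟩ := ev_surj N hN ℤ_[p] i (MonoidAlgebra.of ℤ_[p] (G ⧸ N i) q)
    refine ⟨y • w k, ?_, ?_⟩
    · exact Submodule.smul_mem (Submodule.span (Lim N hN ℤ_[p]) (Set.range w)) y
        (Submodule.subset_span ⟨k, rfl⟩)
    · rw [Ev_smul, hy]

/-- the coefficients -/
noncomputable def coE (p : ℕ) [Fact p.Prime] (ι Q : Type) :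
    (ι → MonoidAlgebra ℤ_[p] Q) →ₗ[ℤ_[p]] (ι × Q → ℤ_[p]) where
  toFun := fun F a => (F a.1).coeff a.2
  map_add' := fun _ _ => rfl
  map_smul' := fun _ _ => rfl

theorem coE_inj (Q : Type) : Function.Injective (coE p ι Q) := by
  intro F F' h
  funext l
  apply MonoidAlgebra.ext
  ext q
  exact congrFun h (l, q)

theorem finrank_Wc (w : κ → ι → Lim N hN ℤ_[p]) (i : ℕ)
    (v : κ × (G ⧸ N i) → ι × (G ⧸ N i) → ℤ)
    (hv : ∀ k q l h, ((v (k, q) (l, h) : ℤ) : ℤ_[p]) =
      (ev N hN ℤ_[p] i (w k l)).coeff (q⁻¹ * h)) :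
    Module.finrank ℤ_[p] (Wc N hN (Submodule.span _ (Set.range w)) i) =
      Module.finrank ℤ_[p] (Submodule.span ℤ_[p]
        (Set.range fun (a : κ × (G ⧸ N i)) (b : ι × (G ⧸ N i)) => ((v a b : ℤ) : ℤ_[p]))) := by
  rw [Wc_span, LinearEquiv.finrank_eq (Submodule.equivMapOfInjective (coE p ι (G ⧸ N i))
    (coE_inj (G ⧸ N i)) _)]
  rw [Submodule.map_span, ← Set.range_comp]
  have hfun : (coE p ι (G ⧸ N i) ∘ fun (a : κ × (G ⧸ N i)) =>
      MonoidAlgebra.of ℤ_[p] (G ⧸ N i) a.2 • Ev N hN ι i (w a.1)) =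
      fun (a : κ × (G ⧸ N i)) (b : ι × (G ⧸ N i)) => ((v a b : ℤ) : ℤ_[p]) := by
    funext a
    funext b
    obtain ⟨k, q⟩ := a
    obtain ⟨l, h⟩ := b
    rw [hv]
    change (MonoidAlgebra.of ℤ_[p] (G ⧸ N i) q * ev N hN ℤ_[p] i (w k l)).coeff h = _
    rw [MonoidAlgebra.of_apply, MonoidAlgebra.coeff_single_mul_apply, one_mul]
  rw [hfun]

/-- an integer element and its images -/
theorem exists_int (x : MonoidAlgebra ℂ H) (hx : ∀ g, ∃ z : ℤ, x.coeff g = (z : ℂ)) :
    ∃ y : MonoidAlgebra ℤ H, MonoidAlgebra.mapRingHom H (Int.castRingHom ℂ) y = x := by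
  choose z hz using hx
  have h0 : ∀ g, z g ≠ 0 → g ∈ x.coeff.support := by
    intro g hg
    rw [Finsupp.mem_support_iff, hz g]
    exact_mod_cast hg
  refine ⟨MonoidAlgebra.ofCoeff (Finsupp.onFinset x.coeff.support z h0), ?_⟩
  apply MonoidAlgebra.ext
  ext g
  rw [MonoidAlgebra.coeff_mapRingHom]
  exact (hz g).symm

theorem hm_int {Q : Type} [Group Q] (f : H →* Q) (y : MonoidAlgebra ℤ H) (h : Q) :
    (hm f (MonoidAlgebra.mapRingHom H (Int.castRingHom ℂ) y)).coeff h =
      (((MonoidAlgebra.mapDomain f y).coeff h : ℤ) : ℂ) := by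
  classical
  induction y using MonoidAlgebra.induction_linear with
  | zero => simp
  | add a b ha hb =>
    rw [map_add, map_add, MonoidAlgebra.coeff_add, Finsupp.add_apply, ha, hb,
      MonoidAlgebra.mapDomain_add, MonoidAlgebra.coeff_add, Finsupp.add_apply]
    push_cast
    rfl
  | single a r =>
    rw [MonoidAlgebra.mapRingHom_single, hm_single, MonoidAlgebra.mapDomain_single,
      MonoidAlgebra.coeff_single, MonoidAlgebra.coeff_single, Finsupp.single_apply,
      Finsupp.single_apply]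
    split_ifs <;> simp

theorem ev_int (φ : H →* G) (y : MonoidAlgebra ℤ H) (i : ℕ) (h : G ⧸ N i) :
    (ev N hN ℤ_[p] i (MonoidAlgebra.lift ℤ (Lim N hN ℤ_[p]) H
      ((toLim N hN ℤ_[p]).comp φ) y)).coeff h =
      (((MonoidAlgebra.mapDomain ((QuotientGroup.mk' (N i)).comp φ) y).coeff h : ℤ) : ℤ_[p]) := by
  classical
  induction y using MonoidAlgebra.induction_linear with
  | zero => simp
  | add a b ha hb =>
    rw [map_add, map_add, MonoidAlgebra.coeff_add, Finsupp.add_apply, ha, hb,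
      MonoidAlgebra.mapDomain_add, MonoidAlgebra.coeff_add, Finsupp.add_apply]
    push_cast
    rfl
  | single a r =>
    rw [MonoidAlgebra.lift_single, map_zsmul, MonoidHom.comp_apply, ev_toLim,
      MonoidAlgebra.mapDomain_single, MonoidAlgebra.coeff_single, MonoidAlgebra.of_apply,
      MonoidAlgebra.coeff_smul, MonoidAlgebra.coeff_single, Finsupp.smul_apply,
      Finsupp.single_apply, Finsupp.single_apply]
    change _ = (((if ((φ a : G) : G ⧸ N i) = h then r else 0) : ℤ) : ℤ_[p])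
    split_ifs <;> simp

/-- **The dimensions over the quotients of a uniform tower converge to an integer.** -/
theorem tendsto_vdim (hN : ∀ i, N (i + 1) ≤ N i)
    (hU : ∀ i, UF p d i (G ⧸ N i) (fun j => (g j : G ⧸ N i))) (φ : H →* G)
    (X : Matrix κ ι (MonoidAlgebra ℂ H)) (hX : Itg X) :
    ∃ z : ℤ, Tendsto (fun i => vdim (kr (mop (im ((QuotientGroup.mk' (N i)).comp φ) X))))
      atTop (𝓝 (z : ℝ)) := by
  classical
  have hfin : ∀ i, Finite (G ⧸ N i) := fun i => (hU i).finite
  choose y hy using fun k l => exists_int (X k l) (hX k l)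
  set w : κ → ι → Lim N hN ℤ_[p] := fun k l => MonoidAlgebra.lift ℤ (Lim N hN ℤ_[p]) H
      ((toLim N hN ℤ_[p]).comp φ) (y k l) with hw
  obtain ⟨r, hr⟩ := tendsto_rank N hN hU w
  refine ⟨Fintype.card ι - r, ?_⟩
  have h1 : ∀ i, vdim (kr (mop (im ((QuotientGroup.mk' (N i)).comp φ) X))) =
      Fintype.card ι - (Module.finrank ℤ_[p]
      (Wc N hN (Submodule.span _ (Set.range w)) i) : ℝ) / ((p ^ i) ^ d : ℝ) := by
    intro i
    have hF : Fintype (G ⧸ N i) := Fintype.ofFinite _
    have h2 := vdim_fin (im ((QuotientGroup.mk' (N i)).comp φ) X)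
    have h3 : Fintype.card (G ⧸ N i) = (p ^ i) ^ d := by
      rw [← Nat.card_eq_fintype_card, (hU i).card]
    set v : κ × (G ⧸ N i) → ι × (G ⧸ N i) → ℤ := fun a b =>
      (MonoidAlgebra.mapDomain ((QuotientGroup.mk' (N i)).comp φ) (y a.1 b.1)).coeff
        (a.2⁻¹ * b.2) with hv
    have h4 := finrank_Wc N hN w i v (by
      intro k q l h
      rw [hw, ev_int])
    have h5 : (Mt (im ((QuotientGroup.mk' (N i)).comp φ) X)).rank =
        Module.finrank ℂ (Submodule.span ℂ
        (Set.range fun (a : κ × (G ⧸ N i)) (b : ι × (G ⧸ N i)) => ((v a b : ℤ) : ℂ))) := by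
      rw [Matrix.rank_eq_finrank_span_row]
      have h6 : (Mt (im ((QuotientGroup.mk' (N i)).comp φ) X)).row =
          fun (a : κ × (G ⧸ N i)) (b : ι × (G ⧸ N i)) => ((v a b : ℤ) : ℂ) := by
        funext a
        funext b
        obtain ⟨k, q⟩ := a
        obtain ⟨l, h⟩ := b
        change Mt (im ((QuotientGroup.mk' (N i)).comp φ) X) (k, q) (l, h) = _
        rw [Mt_apply]
        change (hm ((QuotientGroup.mk' (N i)).comp φ) (X k l)).coeff _ = _
        rw [← hy k l, hm_int]
      rw [h6]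
    rw [h4, ← finrank_cast_eq (K := ℂ) (K' := ℤ_[p]) v, ← h5]
    rw [h3] at h2
    have hpos : (0 : ℝ) < ((p ^ i) ^ d : ℝ) := by
      have : (0 : ℝ) < p := by exact_mod_cast (Fact.out (p := p.Prime)).pos
      positivity
    push_cast at h2
    rw [eq_sub_iff_add_eq, ← mul_left_inj' hpos.ne', add_mul, div_mul_cancel₀ _ hpos.ne',
      mul_comm (vdim _), h2]
    ring
  simp only [h1]
  push_cast
  exact tendsto_const_nhds.sub hr

end bridge

end Pool.Agent.Helper93.IW
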