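import Pool.Agent.Helper93.IW.Appr

/-!
The class of the groups which are residually congruent to the identity.
-/

set_option autoImplicit false
set_option linter.unusedSectionVars false

open scoped InnerProductSpace ENNReal ComplexOrder
open Filter Topology

namespace Pool.Agent.Helper93.IW

open Pool.Agent.H80R2
open Pool.Agent.H80R2.BC (L2 GMat vdim IsTr LInv Equi act kerA)
open Pool.Agent.H812R3
open Pool.Agent.W656.VA
open Pool.Agent.TH107.AT

section cls

/-- congruent to the identity -/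
def Cong {R : Type} [CommRing R] (t : R) {ν : Type} [Fintype ν] [DecidableEq ν]
    {G : Type} [Group G] (ρ : G →* Matrix ν ν R) : Prop :=
  ∀ y a b, t ∣ (ρ y - 1) a b

/-- residually congruent to the identity -/
def CR (R : Type) [CommRing R] (t : R) (G : Type) [Group G] : Prop :=
  ∀ x : G, x ≠ 1 → ∃ (ν : Type) (_ : Fintype ν) (_ : DecidableEq ν) (ρ : G →* Matrix ν ν R),
    Cong t ρ ∧ ρ x ≠ 1

variable {R : Type} [CommRing R] {t : R} {G : Type} [Group G]

theorem CR.of_inj {G' : Type} [Group G'] (f : G' →* G) (hf : Function.Injective f)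
    (h : CR R t G) : CR R t G' := by
  intro x hx
  obtain ⟨ν, i1, i2, ρ, hρ, hx'⟩ := h (f x) (fun e => hx (hf (by rw [e, map_one])))
  exact ⟨ν, i1, i2, ρ.comp f, fun y a b => hρ (f y) a b, hx'⟩

theorem CR.pi {I : Type} {X : I → Type} [∀ i, Group (X i)] (h : ∀ i, CR R t (X i)) :
    CR R t (∀ i, X i) := by
  intro x hx
  obtain ⟨i, hi⟩ : ∃ i, x i ≠ 1 := by
    by_contra hne
    push Not at hne
    exact hx (funext hne)
  obtain ⟨ν, i1, i2, ρ, hρ, hx'⟩ := h i (x i) hi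
  exact ⟨ν, i1, i2, ρ.comp (Pi.evalMonoidHom X i), fun y a b => hρ (y i) a b, hx'⟩

theorem CR.prod {G' : Type} [Group G'] (h : CR R t G) (h' : CR R t G') : CR R t (G × G') := by
  intro x hx
  by_cases h1 : x.1 = 1
  · have h2 : x.2 ≠ 1 := fun e => hx (Prod.ext h1 e)
    obtain ⟨ν, i1, i2, ρ, hρ, hx'⟩ := h' x.2 h2
    exact ⟨ν, i1, i2, ρ.comp (MonoidHom.snd G G'), fun y a b => hρ y.2 a b, hx'⟩
  · obtain ⟨ν, i1, i2, ρ, hρ, hx'⟩ := h x.1 h1
    exact ⟨ν, i1, i2, ρ.comp (MonoidHom.fst G G'), fun y a b => hρ y.1 a b, hx'⟩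

/-- finitely many elements are separated by one representation -/
theorem CR.finset (h : CR R t G) (S : Finset G) (hS : ∀ s ∈ S, s ≠ 1) :
    ∃ (ν : Type) (_ : Fintype ν) (_ : DecidableEq ν) (ρ : G →* Matrix ν ν R),
      Cong t ρ ∧ ∀ s ∈ S, ρ s ≠ 1 := by
  classical
  choose ν i1 i2 ρ hρ hne using fun s : S => h s.1 (hS s.1 s.2)
  let ρ' : G →* Matrix (Σ s : S, ν s) (Σ s : S, ν s) R :=
    (Matrix.blockDiagonal'RingHom ν R).toMonoidHom.comp (Pi.monoidHom ρ)
  have hρ' : ∀ g, ρ' g = Matrix.blockDiagonal' (fun s => ρ s g) := fun _ => rfl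
  refine ⟨Σ s : S, ν s, inferInstance, inferInstance, ρ', ?_, ?_⟩
  · rintro y ⟨s, a⟩ ⟨s', b⟩
    have h1 : ρ' y - 1 = Matrix.blockDiagonal' (fun s => ρ s y - 1) := by
      have h2 := Matrix.blockDiagonal'_sub (fun s => ρ s y) (fun s => (1 : Matrix (ν s) (ν s) R))
      have h3 := Matrix.blockDiagonal'_one (m' := ν) (α := R)
      rw [hρ', ← h3]
      exact h2.symm
    rw [h1, Matrix.blockDiagonal'_apply]
    split_ifs with h4
    · exact hρ s y _ _
    · exact dvd_zero _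
  · intro s hs e
    have h3 := Matrix.blockDiagonal'_one (m' := ν) (α := R)
    rw [hρ', ← h3] at e
    have h4 := congrFun (Matrix.blockDiagonal'_injective e) ⟨s, hs⟩
    exact hne ⟨s, hs⟩ h4

end cls

section int

variable {p : ℕ} [Fact p.Prime] {ν : Type} [Fintype ν] [DecidableEq ν] {G : Type} [Group G]

/-- the homomorphism to the congruence subgroup -/
noncomputable def toGG (ρ : G →* Matrix ν ν ℤ_[p]) (hρ : Cong (p : ℤ_[p]) ρ) : G →* GG p ν :=
  MonoidHom.codRestrict ρ.toHomUnits (GG p ν) (by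
    intro g
    choose a ha using hρ g
    refine ⟨Matrix.of a, ?_⟩
    change ρ g = _
    ext x y
    rw [Matrix.add_apply, natCast_pow_mul_apply, pow_one, Matrix.of_apply, ← ha,
      Matrix.sub_apply]
    ring)

theorem toGG_ne (ρ : G →* Matrix ν ν ℤ_[p]) (hρ : Cong (p : ℤ_[p]) ρ) (g : G) (hg : ρ g ≠ 1) :
    toGG ρ hρ g ≠ 1 := by
  intro h
  apply hg
  have h1 : ((toGG ρ hρ g : (Matrix ν ν ℤ_[p])ˣ) : Matrix ν ν ℤ_[p]) = ρ g := rfl
  rw [← h1, h]
  rfl

variable {ι κ : Type} [Fintype ι] [Fintype κ]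

theorem rf_emb (hp2 : p ≠ 2) (φ : G →* GG p ν) (hφ : Function.Injective φ) : RF G := by
  have hfin : ∀ i, Finite (GG p ν ⧸ NG p ν i) := fun i => (UF_cong (p := p) (ι := ν) hp2 i).finite
  exact rf_of_seq (fun i => (QuotientGroup.mk' (NG p ν i)).comp φ)
    (fun g hg => sep_GG (φ g) (fun h => hg (hφ (by rw [h, map_one]))))

/-- the groups which embed in the congruence subgroup -/
def CE (p : ℕ) [Fact p.Prime] (G : Type) [Group G] : Prop :=
  ∃ (ν : Type) (_ : Fintype ν) (_ : DecidableEq ν) (φ : G →* GG p ν), Function.Injective φ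

theorem CR.resBy (h : CR ℤ_[p] (p : ℤ_[p]) G) : ResBy (fun Q _ => CE p Q) G := by
  intro S hS
  obtain ⟨ν, i1, i2, ρ, hρ, hne⟩ := h.finset S hS
  refine ⟨GG p ν, inferInstance, toGG ρ hρ, ⟨ν, i1, i2, MonoidHom.id _, Function.injective_id⟩,
    fun s hs => toGG_ne ρ hρ s (hne s hs)⟩

/-- **Integrality for integer matrices.** -/
theorem CR.int (hp2 : p ≠ 2) (h : CR ℤ_[p] (p : ℤ_[p]) G)
    (X : Matrix κ ι (MonoidAlgebra ℂ G)) (hX : Itg X) : ∃ z : ℤ, vdim (kr (mop X)) = z := by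
  refine integral_of_res h.resBy ?_ ?_ X hX
  · rintro Q _ ⟨ν, i1, i2, φ, hφ⟩
    exact rf_emb hp2 φ hφ
  · rintro Q _ ⟨ν, i1, i2, φ, hφ⟩ Y hY
    exact int_emb hp2 φ hφ Y hY

end int

end Pool.Agent.Helper93.IW
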