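import Mathlib

/-!
Free products of groups which are residually congruent to the identity.
-/

set_option autoImplicit false

namespace Pool.Agent.Helper93.IW

open Monoid.CoprodI

section em

variable {R : Type} [CommRing R] (t : R)

/-- a representation congruent to the identity -/
def EM {V : Type} [AddCommGroup V] [Module R V] {G : Type} [Group G]
    (ρ : G →* Module.End R V) : Prop :=
  ∀ y v, ∃ w, ρ y v = v + t • w

/-- residually congruent to the identity, in terms of modules -/
def CM (R : Type) [CommRing R] (t : R) (G : Type) [Group G] : Prop :=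
  ∀ x : G, x ≠ 1 → ∃ (V : Type) (_ : AddCommGroup V) (_ : Module R V) (_ : Module.Free R V)
    (_ : Module.Finite R V) (ρ : G →* Module.End R V), EM t ρ ∧ ρ x ≠ 1

variable {t} {V V' : Type} [AddCommGroup V] [Module R V] [AddCommGroup V'] [Module R V']
  {G : Type} [Group G]

/-- the direct sum of two representations -/
def prodRep (ρ : G →* Module.End R V) (ρ' : G →* Module.End R V') :
    G →* Module.End R (V × V') where
  toFun g := (ρ g).prodMap (ρ' g)
  map_one' := by
    rw [map_one, map_one]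
    rfl
  map_mul' g h := by
    rw [map_mul, map_mul]
    rfl

theorem prodRep_apply (ρ : G →* Module.End R V) (ρ' : G →* Module.End R V') (g : G)
    (v : V × V') : prodRep ρ ρ' g v = (ρ g v.1, ρ' g v.2) := rfl

theorem EM.prod {ρ : G →* Module.End R V} {ρ' : G →* Module.End R V'} (h : EM t ρ)
    (h' : EM t ρ') : EM t (prodRep ρ ρ') := by
  rintro y ⟨v, v'⟩
  obtain ⟨w, hw⟩ := h y v
  obtain ⟨w', hw'⟩ := h' y v'
  exact ⟨(w, w'), by rw [prodRep_apply, hw, hw']; rfl⟩

/-- the conjugate of a representation -/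
def conjRep (S : V ≃ₗ[R] V') (ρ : G →* Module.End R V') : G →* Module.End R V where
  toFun g := S.symm.toLinearMap ∘ₗ ρ g ∘ₗ S.toLinearMap
  map_one' := by
    rw [map_one]
    ext v
    exact S.symm_apply_apply v
  map_mul' g h := by
    rw [map_mul]
    ext v
    change S.symm (ρ g (ρ h (S v))) = S.symm (ρ g (S (S.symm (ρ h (S v)))))
    rw [S.apply_symm_apply]

theorem conjRep_apply (S : V ≃ₗ[R] V') (ρ : G →* Module.End R V') (g : G) (v : V) :
    conjRep S ρ g v = S.symm (ρ g (S v)) := rfl

theorem EM.conj (S : V ≃ₗ[R] V') {ρ : G →* Module.End R V'} (h : EM t ρ) :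
    EM t (conjRep S ρ) := by
  intro y v
  obtain ⟨w, hw⟩ := h y (S v)
  refine ⟨S.symm w, ?_⟩
  rw [conjRep_apply, hw, map_add, map_smul, S.symm_apply_apply]

theorem EM.comp {G' : Type} [Group G'] (f : G' →* G) {ρ : G →* Module.End R V} (h : EM t ρ) :
    EM t (ρ.comp f) := fun y v => h (f y) v

theorem EM_triv : EM t (1 : G →* Module.End R V) := by
  intro y v
  exact ⟨0, by rw [smul_zero, add_zero]; rfl⟩

end em

section free

variable {R : Type} [CommRing R] {t : R} {I : Type} {X : I → Type} [∀ i, Group (X i)]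

theorem EM.lift {V : Type} [AddCommGroup V] [Module R V]
    (ρ : Monoid.CoprodI X →* Module.End R V) (h : ∀ i, EM t (ρ.comp (of : X i →* _))) :
    EM t ρ := by
  intro y
  induction y using Monoid.CoprodI.induction_on with
  | one => intro v; exact ⟨0, by rw [smul_zero, add_zero, map_one]; rfl⟩
  | of i m => exact h i m
  | mul a b ha hb =>
    intro v
    obtain ⟨w, hw⟩ := hb v
    obtain ⟨w', hw'⟩ := ha (v + t • w)
    refine ⟨w + w', ?_⟩
    rw [map_mul]
    change ρ a (ρ b v) = _
    rw [hw, hw', smul_add, add_assoc]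

/-- the product of a list of letters -/
def pr (T : List (Σ i, X i)) : Monoid.CoprodI X := (T.map fun l => of l.2).prod

theorem pr_cons (l : Σ i, X i) (T : List (Σ i, X i)) : pr (l :: T) = of l.2 * pr T := by
  rw [pr, List.map_cons, List.prod_cons]
  rfl

/-- the separating representations -/
def PW (t : R) (w : Word X) : Prop :=
  ∃ (V : Type) (_ : AddCommGroup V) (_ : Module R V) (_ : Module.Free R V)
    (_ : Module.Finite R V) (ρ : Monoid.CoprodI X →* Module.End R V) (e : V →ₗ[R] R) (f : V),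
    EM t ρ ∧ (∀ i, w.fstIdx ≠ some i → ∀ (x : X i) (v : V), e (ρ (of x) v) = e v) ∧
    (∀ T : List (Σ i, X i), T.length < w.toList.length → e (ρ (pr T) f) = 0) ∧
    e (ρ w.prod f) ≠ 0

/-- the shear -/
def shear {U V : Type} [AddCommGroup U] [Module R U] [AddCommGroup V] [Module R V]
    (r : U →ₗ[R] R) (c : U) (e : V →ₗ[R] R) : (R × U × V) ≃ₗ[R] (R × U × V) where
  toFun v := (v.1 - r v.2.1, v.2.1 + e v.2.2 • c, v.2.2)
  map_add' v w := by
    ext
    · change (v.1 + w.1) - r (v.2.1 + w.2.1) = (v.1 - r v.2.1) + (w.1 - r w.2.1)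
      rw [map_add]; ring
    · change (v.2.1 + w.2.1) + e (v.2.2 + w.2.2) • c =
        (v.2.1 + e v.2.2 • c) + (w.2.1 + e w.2.2 • c)
      rw [map_add, add_smul]; abel
    · rfl
  map_smul' a v := by
    ext
    · change a • v.1 - r (a • v.2.1) = a • (v.1 - r v.2.1)
      rw [map_smul, smul_sub]
    · change a • v.2.1 + e (a • v.2.2) • c = a • (v.2.1 + e v.2.2 • c)
      rw [map_smul, smul_add, smul_assoc]
    · rfl
  invFun v := (v.1 + r (v.2.1 - e v.2.2 • c), v.2.1 - e v.2.2 • c, v.2.2)
  left_inv v := by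
    ext
    · change (v.1 - r v.2.1) + r ((v.2.1 + e v.2.2 • c) - e v.2.2 • c) = v.1
      rw [add_sub_cancel_right]; ring
    · change (v.2.1 + e v.2.2 • c) - e v.2.2 • c = v.2.1
      rw [add_sub_cancel_right]
    · rfl
  right_inv v := by
    ext
    · change (v.1 + r (v.2.1 - e v.2.2 • c)) - r (v.2.1 - e v.2.2 • c) = v.1
      ring
    · change (v.2.1 - e v.2.2 • c) + e v.2.2 • c = v.2.1
      rw [sub_add_cancel]
    · rfl

theorem shear_apply {U V : Type} [AddCommGroup U] [Module R U] [AddCommGroup V] [Module R V]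
    (r : U →ₗ[R] R) (c : U) (e : V →ₗ[R] R) (v : R × U × V) :
    shear r c e v = (v.1 - r v.2.1, v.2.1 + e v.2.2 • c, v.2.2) := rfl

theorem shear_symm_apply {U V : Type} [AddCommGroup U] [Module R U] [AddCommGroup V] [Module R V]
    (r : U →ₗ[R] R) (c : U) (e : V →ₗ[R] R) (v : R × U × V) :
    (shear r c e).symm v = (v.1 + r (v.2.1 - e v.2.2 • c), v.2.1 - e v.2.2 • c, v.2.2) := rfl

theorem PW_empty [Nontrivial R] : PW t (Word.empty : Word X) := by
  refine ⟨R, inferInstance, inferInstance, inferInstance, inferInstance, 1, LinearMap.id, 1,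
    EM_triv, ?_, ?_, ?_⟩
  · intro i _ x v
    rfl
  · intro T hT
    exact absurd hT (Nat.not_lt_zero _)
  · change (1 : R) ≠ 0
    exact one_ne_zero

theorem PW_cons [IsDomain R] (hX : ∀ i, CM R t (X i)) (i : I) (m : X i) (w : Word X)
    (h1 : w.fstIdx ≠ some i) (h2 : m ≠ 1) (hw : PW t w) : PW t (Word.cons m w h1 h2) := by
  classical
  obtain ⟨V, _, _, _, _, ρ, e, f, hρ, he, hT, hne⟩ := hw
  obtain ⟨U, _, _, _, _, φ, hφ, hφm⟩ := hX i m h2
  obtain ⟨c, hc⟩ : ∃ c, φ m c ≠ c := by
    by_contra hcon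
    push Not at hcon
    exact hφm (LinearMap.ext hcon)
  obtain ⟨r, hr⟩ : ∃ r : U →ₗ[R] R, r (φ m c - c) ≠ 0 := by
    by_contra hcon
    push Not at hcon
    let b := Module.Free.chooseBasis R U
    apply hc
    rw [← sub_eq_zero, ← b.forall_coord_eq_zero_iff]
    intro j
    exact hcon (b.coord j)
  let π : Monoid.CoprodI X →* X i := Monoid.CoprodI.lift fun j =>
    (Pi.evalMonoidHom X i).comp (MonoidHom.mulSingle X j)
  have hπ : ∀ x : X i, π (of x) = x := by
    intro x
    change Monoid.CoprodI.lift _ (of x) = x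
    rw [Monoid.CoprodI.lift_of]
    exact Pi.mulSingle_eq_same i x
  have hπ' : ∀ j (x : X j), j ≠ i → π (of x) = 1 := by
    intro j x hj
    change Monoid.CoprodI.lift _ (of x) = 1
    rw [Monoid.CoprodI.lift_of]
    exact Pi.mulSingle_eq_of_ne (Ne.symm hj) x
  let D : Monoid.CoprodI X →* Module.End R (R × U × V) :=
    prodRep 1 (prodRep (φ.comp π) ρ)
  have hD : EM t D := EM_triv.prod ((hφ.comp π).prod hρ)
  let S := shear r c e
  let Ψ : Monoid.CoprodI X →* Module.End R (R × U × V) := Monoid.CoprodI.lift fun j =>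
    if j = i then (conjRep S D).comp of else D.comp of
  have hΨi : ∀ x : X i, Ψ (of x) = conjRep S D (of x) := by
    intro x
    change Monoid.CoprodI.lift _ (of x) = _
    rw [Monoid.CoprodI.lift_of, if_pos rfl]
    rfl
  have hΨj : ∀ j (x : X j), j ≠ i → Ψ (of x) = D (of x) := by
    intro j x hj
    change Monoid.CoprodI.lift _ (of x) = _
    rw [Monoid.CoprodI.lift_of, if_neg hj]
    rfl
  have hDapp : ∀ g v, D g v = (v.1, φ (π g) v.2.1, ρ g v.2.2) := fun _ _ => rfl
  -- the explicit form
  have key : ∀ (x : X i) (z : V), Ψ (of x) (0, 0, z) =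
      (e z * r (φ x c - c), e z • (φ x c - c), ρ (of x) z) := by
    intro x z
    have h3 : e (ρ (of x) z) = e z := he i h1 x z
    rw [hΨi, conjRep_apply, shear_apply, hDapp, shear_symm_apply]
    simp only [hπ, h3, zero_add, map_zero, sub_zero, map_smul, ← smul_sub, smul_eq_mul]
  have key' : ∀ j (x : X j), j ≠ i → ∀ z : V, Ψ (of x) (0, 0, z) = (0, 0, ρ (of x) z) := by
    intro j x hj z
    rw [hΨj j x hj, hDapp]
    simp only [map_zero]
  -- short words
  have short : ∀ T : List (Σ i, X i), T.length ≤ w.toList.length →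
      Ψ (pr T) (0, 0, f) = (0, 0, ρ (pr T) f) := by
    intro T
    induction T with
    | nil =>
      intro _
      rw [show pr ([] : List (Σ i, X i)) = 1 from rfl, map_one, map_one]
      rfl
    | cons l T ih =>
      intro hl
      rw [List.length_cons] at hl
      have h4 := ih (by omega)
      rw [pr_cons, map_mul, map_mul]
      change Ψ (of l.2) (Ψ (pr T) (0, 0, f)) = (0, 0, ρ (of l.2) (ρ (pr T) f))
      rw [h4]
      obtain ⟨j, x⟩ := l
      by_cases hj : j = i
      · subst hj
        rw [key, hT T (by omega), zero_mul, zero_smul]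
      · rw [key' j x hj]
  refine ⟨R × U × V, inferInstance, inferInstance, inferInstance, inferInstance, Ψ,
    LinearMap.fst R R (U × V), (0, 0, f), ?_, ?_, ?_, ?_⟩
  · apply EM.lift
    intro j y v
    by_cases hj : j = i
    · subst hj
      obtain ⟨w', hw'⟩ := (hD.conj S) (of y) v
      exact ⟨w', by rw [MonoidHom.comp_apply, hΨi, hw']⟩
    · obtain ⟨w', hw'⟩ := hD (of y) v
      exact ⟨w', by rw [MonoidHom.comp_apply, hΨj j y hj, hw']⟩
  · intro j hj x v
    rw [Word.fstIdx_cons] at hj
    have hj' : j ≠ i := fun h => hj (by rw [h])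
    rw [hΨj j x hj', hDapp]
    rfl
  · intro T hlen
    have hlen' : T.length ≤ w.toList.length := by
      have : (Word.cons m w h1 h2).toList = ⟨i, m⟩ :: w.toList := rfl
      rw [this, List.length_cons] at hlen
      omega
    rw [short T hlen']
    rfl
  · rw [Word.prod_cons, map_mul]
    change LinearMap.fst R R (U × V) (Ψ (of m) (Ψ w.prod (0, 0, f))) ≠ 0
    have h5 : w.prod = pr w.toList := rfl
    rw [h5, short _ le_rfl, key]
    exact mul_ne_zero hne hr

theorem PW_all [IsDomain R] (hX : ∀ i, CM R t (X i)) (w : Word X) : PW t w := by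
  induction w using Word.consRecOn with
  | empty => exact PW_empty
  | cons i m w h1 h2 ih => exact PW_cons hX i m w h1 h2 ih

/-- **Free products.** -/
theorem CM_free [IsDomain R] (hX : ∀ i, CM R t (X i)) : CM R t (Monoid.CoprodI X) := by
  classical
  intro x hx
  obtain ⟨w, rfl⟩ : ∃ w : Word X, w.prod = x := ⟨Word.equiv x, Word.equiv.symm_apply_apply x⟩
  obtain ⟨V, i1, i2, i3, i4, ρ, e, f, hρ, he, hT, hne⟩ := PW_all (t := t) hX w
  refine ⟨V, i1, i2, i3, i4, ρ, hρ, ?_⟩
  intro h
  have hlen : 0 < w.toList.length := by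
    rw [List.length_pos_iff]
    intro hnil
    apply hx
    rw [Word.prod, hnil]
    rfl
  apply hne
  rw [h]
  have h3 := hT [] hlen
  rw [show pr ([] : List (Σ i, X i)) = 1 from rfl, map_one] at h3
  exact h3

end free

end Pool.Agent.Helper93.IW
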