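import Pool.Agent.Helper93.IW.Cls
import Pool.Agent.Helper93.IW.Free

/-!
Closure properties of the class, torsion-freeness.
-/

set_option autoImplicit false
set_option linter.unusedSectionVars false

open scoped InnerProductSpace ENNReal ComplexOrder
open Filter Topology

namespace Pool.Agent.Helper93.IW

section equ

variable {R : Type} [CommRing R] {t : R} {G : Type} [Group G]

theorem CR.toCM (h : CR R t G) : CM R t G := by
  intro x hx
  obtain ⟨ν, i1, i2, ρ, hρ, hne⟩ := h x hx
  let ρ' : G →* Module.End R (ν → R) :=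
    ((Matrix.toLinAlgEquiv' : Matrix ν ν R ≃ₐ[R] _).toAlgHom : Matrix ν ν R →* _).comp ρ
  have hρ' : ∀ g v, ρ' g v = (ρ g).mulVec v := fun _ _ => rfl
  refine ⟨ν → R, inferInstance, inferInstance, inferInstance, inferInstance, ρ', ?_, ?_⟩
  · intro y v
    choose c hc using fun a b => hρ y a b
    refine ⟨(Matrix.of c).mulVec v, ?_⟩
    have h1 : ρ y = 1 + t • Matrix.of c := by
      ext a b
      rw [Matrix.add_apply, Matrix.smul_apply, Matrix.of_apply, smul_eq_mul, ← hc,
        Matrix.sub_apply]
      ring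
    rw [hρ', h1, Matrix.add_mulVec, Matrix.one_mulVec, Matrix.smul_mulVec]
  · intro e
    apply hne
    have h2 : Matrix.toLinAlgEquiv' (ρ x) = (1 : Module.End R (ν → R)) := e
    have h3 : (Matrix.toLinAlgEquiv' (1 : Matrix ν ν R)) = (1 : Module.End R (ν → R)) :=
      map_one _
    rw [← h3] at h2
    exact Matrix.toLinAlgEquiv'.injective h2

theorem CM.toCR (h : CM R t G) : CR R t G := by
  classical
  intro x hx
  obtain ⟨V, i1, i2, i3, i4, ρ, hρ, hne⟩ := h x hx
  let b := Module.Free.chooseBasis R V
  let ρ' : G →* Matrix (Module.Free.ChooseBasisIndex R V) (Module.Free.ChooseBasisIndex R V) R :=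
    ((LinearMap.toMatrixAlgEquiv b).toAlgHom : Module.End R V →* _).comp ρ
  have hρ' : ∀ g, ρ' g = LinearMap.toMatrixAlgEquiv b (ρ g) := fun _ => rfl
  refine ⟨Module.Free.ChooseBasisIndex R V, inferInstance, inferInstance, ρ', ?_, ?_⟩
  · intro y i j
    obtain ⟨w, hw⟩ := hρ y (b j)
    have h1 : ρ' y - 1 = LinearMap.toMatrixAlgEquiv b (ρ y - 1) := by
      rw [map_sub, map_one, hρ']
    rw [h1, LinearMap.toMatrixAlgEquiv_apply]
    have h2 : (ρ y - 1) (b j) = t • w := by
      rw [LinearMap.sub_apply, hw]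
      change b j + t • w - b j = _
      abel
    rw [h2, map_smul]
    exact ⟨b.repr w i, rfl⟩
  · intro e
    apply hne
    rw [hρ', ← map_one (LinearMap.toMatrixAlgEquiv b)] at e
    exact (LinearMap.toMatrixAlgEquiv b).injective e

theorem CR_iff_CM : CR R t G ↔ CM R t G := ⟨CR.toCM, CM.toCR⟩

/-- the integers -/
theorem CR_int [CharZero R] [IsDomain R] (ht : t ≠ 0) : CR R t (Multiplicative ℤ) := by
  intro x hx
  have hmul : ∀ a b : R, (!![1, a; 0, 1] : Matrix (Fin 2) (Fin 2) R) * !![1, b; 0, 1] =
      !![1, a + b; 0, 1] := by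
    intro a b
    ext i j
    fin_cases i <;> fin_cases j <;> simp [Matrix.mul_apply, Fin.sum_univ_two, add_comm]
  let ρ : Multiplicative ℤ →* Matrix (Fin 2) (Fin 2) R :=
    { toFun := fun n => !![1, t * (Multiplicative.toAdd n : ℤ); 0, 1]
      map_one' := by
        ext i j
        fin_cases i <;> fin_cases j <;> simp
      map_mul' := fun a b => by
        rw [hmul, toAdd_mul]
        push_cast
        rw [mul_add] }
  refine ⟨Fin 2, inferInstance, inferInstance, ρ, ?_, ?_⟩
  · intro y a b
    change t ∣ ((!![1, t * (Multiplicative.toAdd y : ℤ); 0, 1] : Matrix (Fin 2) (Fin 2) R) - 1) a b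
    fin_cases a <;> fin_cases b <;> simp
  · intro e
    have h1 : (!![1, t * (Multiplicative.toAdd x : ℤ); 0, 1] : Matrix (Fin 2) (Fin 2) R) 0 1 =
      (1 : Matrix (Fin 2) (Fin 2) R) 0 1 := congrFun (congrFun e 0) 1
    have h2 : t * ((Multiplicative.toAdd x : ℤ) : R) = 0 := by
      simpa using h1
    rcases mul_eq_zero.1 h2 with h3 | h3
    · exact ht h3
    · apply hx
      have h4 : Multiplicative.toAdd x = 0 := by exact_mod_cast h3
      exact h4

theorem CR_coprodI [IsDomain R] {I : Type} {X : I → Type} [∀ i, Group (X i)]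
    (hX : ∀ i, CR R t (X i)) : CR R t (Monoid.CoprodI X) :=
  (CM_free fun i => (hX i).toCM).toCR

end equ

section coprod

/-- the factors -/
def XO (G : Type) (m : ℕ) : Option (Fin m) → Type
  | none => G
  | some _ => Multiplicative ℤ

instance (G : Type) [Group G] (m : ℕ) : ∀ o, Group (XO G m o)
  | none => inferInstanceAs (Group G)
  | some _ => inferInstanceAs (Group (Multiplicative ℤ))

variable {G : Type} [Group G] (m : ℕ)

/-- the embedding -/
noncomputable def emb : Monoid.Coprod G (FreeGroup (Fin m)) →* Monoid.CoprodI (XO G m) :=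
  Monoid.Coprod.lift (Monoid.CoprodI.of (M := XO G m) (i := none))
    (FreeGroup.lift fun j => Monoid.CoprodI.of (M := XO G m) (i := some j)
      (Multiplicative.ofAdd (1 : ℤ)))

/-- the inverse on the factors -/
noncomputable def ibm : ∀ o, XO G m o →* Monoid.Coprod G (FreeGroup (Fin m))
  | none => (Monoid.Coprod.inl : G →* _)
  | some j => (Monoid.Coprod.inr : FreeGroup (Fin m) →* _).comp
      (zpowersHom _ (FreeGroup.of j))

theorem emb_injective : Function.Injective (emb (G := G) m) := by
  have h1 : (Monoid.CoprodI.lift (ibm (G := G) m)).comp (emb m) = MonoidHom.id _ := by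
    apply Monoid.Coprod.hom_ext
    · ext x
      rw [MonoidHom.comp_apply, MonoidHom.comp_apply, emb, Monoid.Coprod.lift_apply_inl]
      exact Monoid.CoprodI.lift_of (ibm (G := G) m) (i := none) x
    · apply FreeGroup.ext_hom
      intro j
      rw [MonoidHom.comp_apply, MonoidHom.comp_apply, emb, Monoid.Coprod.lift_apply_inr,
        FreeGroup.lift_apply_of]
      refine (Monoid.CoprodI.lift_of (ibm (G := G) m) (i := some j)
        (Multiplicative.ofAdd (1 : ℤ))).trans ?_
      change Monoid.Coprod.inr ((zpowersHom _ (FreeGroup.of j)) (Multiplicative.ofAdd (1 : ℤ))) = _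
      rw [zpowersHom_apply]
      change Monoid.Coprod.inr (FreeGroup.of j ^ (1 : ℤ)) = _
      rw [zpow_one]
      rfl
  intro a b hab
  have h2 := congrArg (Monoid.CoprodI.lift (ibm (G := G) m)) hab
  have h3 : ∀ x, Monoid.CoprodI.lift (ibm (G := G) m) (emb m x) = x :=
    fun x => DFunLike.congr_fun h1 x
  rwa [h3, h3] at h2

theorem CR_free {R : Type} [CommRing R] [IsDomain R] [CharZero R] {t : R} (ht : t ≠ 0)
    (h : CR R t G) : CR R t (Monoid.Coprod G (FreeGroup (Fin m))) := by
  apply CR.of_inj (emb m) (emb_injective m)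
  apply CR_coprodI
  rintro (_ | j)
  · exact h
  · exact CR_int ht

end coprod

end Pool.Agent.Helper93.IW
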