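import Pool.Agent.Helper93.IW.Rank

/-!
Congruence subgroups of the units of a ring.
-/

set_option autoImplicit false

namespace Pool.Agent.Helper93.IW

section ring

variable {R : Type} [Ring R]

theorem cen (p m : ℕ) (x : R) : (p : R) ^ m * x = x * (p : R) ^ m :=
  ((Nat.cast_commute p x).pow_left m).eq

theorem one_add_pow3 (x : R) (n : ℕ) :
    ∃ q : R, (1 + x) ^ n = 1 + (n : R) * x + (n.choose 2 : R) * x ^ 2 + x ^ 3 * q := by
  induction n with
  | zero => exact ⟨0, by simp⟩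
  | succ n ih =>
    obtain ⟨q, hq⟩ := ih
    refine ⟨(n.choose 2 : R) + q + q * x, ?_⟩
    rw [pow_succ, hq, Nat.choose_succ_succ', Nat.choose_one_right]
    have h1 : (n.choose 2 : R) * x ^ 3 = x ^ 3 * (n.choose 2 : R) := (Nat.cast_commute _ _).eq
    have h2 : (n : R) * x ^ 2 = (n : R) * x * x := by rw [pow_two, mul_assoc]
    have h3 : (n.choose 2 : R) * x ^ 2 * x = (n.choose 2 : R) * x ^ 3 := by
      rw [mul_assoc, ← pow_succ]
    push_cast
    rw [mul_add, mul_add, mul_one, add_mul, add_mul, add_mul, one_mul, h3, h1,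
      add_mul (n : R) _ (x ^ 2), h2]
    noncomm_ring

/-- the congruence subgroups -/
def Cg (R : Type) [Ring R] (p m : ℕ) : Subgroup Rˣ where
  carrier := {u | ∃ a : R, (u : R) = 1 + (p : R) ^ m * a}
  mul_mem' := by
    rintro u v ⟨a, ha⟩ ⟨b, hb⟩
    refine ⟨a + b + a * ((p : R) ^ m * b), ?_⟩
    rw [Units.val_mul, ha, hb]
    noncomm_ring
  one_mem' := ⟨0, by simp⟩
  inv_mem' := by
    rintro u ⟨a, ha⟩
    refine ⟨-((↑u⁻¹ : R) * a), ?_⟩
    have h1 : (↑u⁻¹ : R) * (1 + (p : R) ^ m * a) = 1 := by rw [← ha]; exact u.inv_mul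
    rw [mul_add, mul_one, ← mul_assoc, ← cen, mul_assoc] at h1
    rw [mul_neg]
    exact eq_add_neg_of_add_eq h1

theorem mem_Cg {p m : ℕ} {u : Rˣ} : u ∈ Cg R p m ↔ ∃ a : R, (u : R) = 1 + (p : R) ^ m * a := Iff.rfl

instance Cg_normal (p m : ℕ) : (Cg R p m).Normal := by
  constructor
  rintro u ⟨a, ha⟩ v
  refine ⟨(v : R) * a * (↑v⁻¹ : R), ?_⟩
  rw [Units.val_mul, Units.val_mul, ha, mul_add, mul_one, add_mul, Units.mul_inv,
    ← mul_assoc (v : R), ← cen, mul_assoc ((p : R) ^ m), mul_assoc ((p : R) ^ m)]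

theorem Cg_anti {p m n : ℕ} (h : m ≤ n) : Cg R p n ≤ Cg R p m := by
  rintro u ⟨a, ha⟩
  obtain ⟨k, rfl⟩ := Nat.exists_eq_add_of_le h
  refine ⟨(p : R) ^ k * a, ?_⟩
  rw [ha, pow_add, mul_assoc]

theorem div_mem {p m : ℕ} {u v : Rˣ} {c : R} (h : (v : R) = u + (p : R) ^ m * c) :
    u⁻¹ * v ∈ Cg R p m := by
  refine ⟨(↑u⁻¹ : R) * c, ?_⟩
  rw [Units.val_mul, h, mul_add, Units.inv_mul, ← mul_assoc, ← cen, mul_assoc]

theorem of_div_mem {p m : ℕ} {u v : Rˣ} (h : u⁻¹ * v ∈ Cg R p m) :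
    ∃ c, (v : R) = u + (p : R) ^ m * c := by
  obtain ⟨a, ha⟩ := h
  refine ⟨u * a, ?_⟩
  have h1 : (v : R) = u * (↑u⁻¹ * v) := by rw [← mul_assoc, Units.mul_inv, one_mul]
  rw [Units.val_mul] at ha
  rw [h1, ha, mul_add, mul_one, ← mul_assoc, ← cen, mul_assoc]

theorem pow_mem_Cg {p m : ℕ} (hm : 1 ≤ m) {u : Rˣ} (hu : u ∈ Cg R p m) :
    u ^ p ∈ Cg R p (m + 1) := by
  obtain ⟨a, ha⟩ := hu
  obtain ⟨q, hq⟩ := one_add_pow3 ((p : R) ^ m * a) p
  obtain ⟨k, rfl⟩ := Nat.exists_eq_add_of_le hm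
  refine ⟨a + (p.choose 2 : R) * ((p : R) ^ k * a * a) +
    (p : R) ^ k * a * a * ((p : R) ^ (1 + k) * a * q), ?_⟩
  rw [Units.val_pow_eq_pow_val, ha, hq]
  have h1 : (p : R) * ((p : R) ^ (1 + k) * a) = (p : R) ^ (1 + k + 1) * a := by
    rw [← mul_assoc, ← pow_succ']
  have h2 : ((p : R) ^ (1 + k) * a) ^ 2 = (p : R) ^ (1 + k + 1) * ((p : R) ^ k * a * a) := by
    have h3 : ((p : R) ^ (1 + k) * a) ^ 2 = (p : R) ^ (1 + k) * (p : R) ^ (1 + k) * (a * a) := by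
      rw [pow_two]
      have := cen p (1 + k) a
      calc (p : R) ^ (1 + k) * a * ((p : R) ^ (1 + k) * a)
          = (p : R) ^ (1 + k) * (a * (p : R) ^ (1 + k)) * a := by noncomm_ring
        _ = _ := by rw [← this]; noncomm_ring
    rw [h3, ← pow_add, mul_assoc ((p : R) ^ k), ← mul_assoc ((p : R) ^ (1 + k + 1)), ← pow_add]
    congr 2
    ring
  have h4 : ((p : R) ^ (1 + k) * a) ^ 3 = ((p : R) ^ (1 + k) * a) ^ 2 *
      ((p : R) ^ (1 + k) * a) := pow_succ _ _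
  rw [h4, h2, h1, ← mul_assoc (p.choose 2 : R), (Nat.cast_commute (p.choose 2) _).eq]
  noncomm_ring

/-- the sharp form of the `p`-th power -/
theorem pow_sharp {p j : ℕ} (hp : Odd p) (hj : 1 ≤ j) {b : Rˣ} {y : R}
    (hb : (b : R) = 1 + (p : R) ^ j * y) :
    ∃ q, ((b ^ p : Rˣ) : R) = 1 + (p : R) ^ (j + 1) * y + (p : R) ^ (j + 2) * q := by
  obtain ⟨r, hr⟩ := hp
  obtain ⟨q, hq⟩ := one_add_pow3 ((p : R) ^ j * y) p
  obtain ⟨k, rfl⟩ := Nat.exists_eq_add_of_le hj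
  have hc : p.choose 2 = p * r := by
    rw [Nat.choose_two_right]
    have h0 : p - 1 = 2 * r := by omega
    rw [h0, ← mul_assoc, mul_comm p 2, mul_assoc, Nat.mul_div_cancel_left _ (by norm_num)]
  have h1 : (p : R) * ((p : R) ^ (1 + k) * y) = (p : R) ^ (1 + k + 1) * y := by
    rw [← mul_assoc, ← pow_succ']
  have h2 : ((p : R) ^ (1 + k) * y) ^ 2 = (p : R) ^ (1 + k + (1 + k)) * (y * y) := by
    rw [pow_two, pow_add (p : R) (1 + k) (1 + k)]
    have := cen p (1 + k) y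
    calc (p : R) ^ (1 + k) * y * ((p : R) ^ (1 + k) * y)
        = (p : R) ^ (1 + k) * (y * (p : R) ^ (1 + k)) * y := by simp only [mul_assoc]
      _ = _ := by rw [← this]; simp only [mul_assoc]
  have h3 : ((p : R) ^ (1 + k) * y) ^ 3 = (p : R) ^ (1 + k + (1 + k) + (1 + k)) * (y * y * y) := by
    rw [pow_succ, h2, pow_add (p : R) (1 + k + (1 + k)) (1 + k)]
    have := cen p (1 + k) (y * y)
    calc (p : R) ^ (1 + k + (1 + k)) * (y * y) * ((p : R) ^ (1 + k) * y)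
        = (p : R) ^ (1 + k + (1 + k)) * ((y * y) * (p : R) ^ (1 + k)) * y := by
          simp only [mul_assoc]
      _ = _ := by rw [← this]; simp only [mul_assoc]
  refine ⟨(r : R) * ((p : R) ^ k * (y * y)) + (p : R) ^ (k + k) * (y * y * y) * q, ?_⟩
  rw [Units.val_pow_eq_pow_val, hb, hq, h1, h2, h3, hc]
  have h4 : ((p * r : ℕ) : R) * ((p : R) ^ (1 + k + (1 + k)) * (y * y)) =
      (p : R) ^ (1 + k + 2) * ((r : R) * ((p : R) ^ k * (y * y))) := by
    have e1 : (p : R) ^ (1 + k + 2) * ((r : R) * ((p : R) ^ k * (y * y))) =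
        ((p ^ (1 + k + 2) * r * p ^ k : ℕ) : R) * (y * y) := by
      push_cast
      noncomm_ring
    have e2 : ((p * r : ℕ) : R) * ((p : R) ^ (1 + k + (1 + k)) * (y * y)) =
        ((p * r * p ^ (1 + k + (1 + k)) : ℕ) : R) * (y * y) := by
      push_cast
      noncomm_ring
    rw [e1, e2]
    congr 2
    ring
  have h5 : (p : R) ^ (1 + k + (1 + k) + (1 + k)) = (p : R) ^ (1 + k + 2) * (p : R) ^ (k + k) := by
    rw [← pow_add]
    congr 1
    ring
  rw [h4, h5]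
  noncomm_ring

end ring

end Pool.Agent.Helper93.IW
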