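import Pool.Agent.Helper93.IW.Cong

/-!
The tower of congruence subgroups.
-/

set_option autoImplicit false

namespace Pool.Agent.Helper93.IW

section tow

variable (R : Type) [Ring R] (p : ℕ)

/-- the tower -/
def NN (i : ℕ) : Subgroup (Cg R p 1) := (Cg R p (i + 1)).subgroupOf (Cg R p 1)

instance NN_normal (i : ℕ) : (NN R p i).Normal := Subgroup.Normal.subgroupOf (Cg_normal p (i + 1)) _

variable {R p}

theorem mem_NN {i : ℕ} {c : Cg R p 1} : c ∈ NN R p i ↔ (c : Rˣ) ∈ Cg R p (i + 1) :=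
  Subgroup.mem_subgroupOf

variable (R p)

theorem NN_anti (i : ℕ) : NN R p (i + 1) ≤ NN R p i := by
  intro c hc
  rw [mem_NN] at hc ⊢
  exact Cg_anti (Nat.le_succ _) hc

variable {R p} [Fact p.Prime]

theorem pow_sub_one {Q : Type} [Group Q] (b : Q) :
    MonoidAlgebra.of (ZMod p) Q (b ^ p) - 1 ∈ Fil (ZMod p) Q p := by
  have : CharP (MonoidAlgebra (ZMod p) Q) p := by
    have h1 : Function.Injective (algebraMap (ZMod p) (MonoidAlgebra (ZMod p) Q)) :=
      (algebraMap (ZMod p) (MonoidAlgebra (ZMod p) Q)).injective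
    exact charP_of_injective_algebraMap h1 p
  have h2 : MonoidAlgebra.of (ZMod p) Q (b ^ p) - 1 = (MonoidAlgebra.of (ZMod p) Q b - 1) ^ p := by
    rw [sub_pow_char_of_commute _ (Commute.one_right _), one_pow, ← map_pow]
  rw [h2]
  have h3 : ∀ n, (MonoidAlgebra.of (ZMod p) Q b - 1) ^ n ∈ Fil (ZMod p) Q n := by
    intro n
    induction n with
    | zero => rw [Fil_zero]; exact Submodule.mem_top
    | succ n ih =>
      rw [pow_succ]
      exact Fil_mul ih (by rw [Fil_one]; exact sub_one_mem b)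
  exact h3 p

theorem of_mul_sub {Q : Type} [Group Q] (x y : Q) :
    MonoidAlgebra.of (ZMod p) Q (x * y) - 1 = (MonoidAlgebra.of (ZMod p) Q x - 1) *
      MonoidAlgebra.of (ZMod p) Q y + (MonoidAlgebra.of (ZMod p) Q y - 1) := by
  rw [map_mul]
  noncomm_ring

/-- elements of the lower congruence subgroups are deep in the filtration -/
theorem deep (hp : Odd p) (hunit : ∀ a : R, IsUnit (1 + (p : R) * a)) (i n : ℕ) :
    ∀ j, i ≤ j + n → 1 ≤ j → ∀ c : Cg R p 1, (c : Rˣ) ∈ Cg R p (j + 1) →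
      MonoidAlgebra.of (ZMod p) (Cg R p 1 ⧸ NN R p i) (c : Cg R p 1 ⧸ NN R p i) - 1 ∈
        Fil (ZMod p) (Cg R p 1 ⧸ NN R p i) p := by
  induction n with
  | zero =>
    intro j hij hj c hc
    have h1 : (c : Cg R p 1 ⧸ NN R p i) = 1 := by
      rw [QuotientGroup.eq_one_iff, mem_NN]
      exact Cg_anti (by omega) hc
    rw [h1, map_one, sub_self]
    exact Submodule.zero_mem _
  | succ n ih =>
    intro j hij hj c hc
    obtain ⟨y, hy⟩ := hc
    obtain ⟨k, rfl⟩ := Nat.exists_eq_add_of_le hj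
    obtain ⟨b, hb⟩ := hunit ((p : R) ^ k * y)
    have hb' : (b : R) = 1 + (p : R) ^ (1 + k) * y := by
      rw [hb, ← mul_assoc, ← pow_succ', add_comm k 1]
    have hb1 : b ∈ Cg R p 1 := ⟨(p : R) ^ k * y, by rw [hb, pow_one]⟩
    obtain ⟨q, hq⟩ := pow_sharp hp hj hb'
    have hz : (b ^ p)⁻¹ * (c : Rˣ) ∈ Cg R p (1 + k + 2) := by
      apply div_mem (c := -q)
      rw [hy, hq]
      noncomm_ring
    have hz' : (⟨b, hb1⟩ ^ p)⁻¹ * c ∈ (Cg R p (1 + k + 2)).subgroupOf (Cg R p 1) := by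
      rw [Subgroup.mem_subgroupOf]
      exact hz
    have h2 : c = (⟨b, hb1⟩ : Cg R p 1) ^ p * ((⟨b, hb1⟩ ^ p)⁻¹ * c) := by
      rw [mul_inv_cancel_left]
    have h3 : (c : Cg R p 1 ⧸ NN R p i) = ((⟨b, hb1⟩ : Cg R p 1) : Cg R p 1 ⧸ NN R p i) ^ p *
        (((⟨b, hb1⟩ ^ p)⁻¹ * c : Cg R p 1) : Cg R p 1 ⧸ NN R p i) := by
      conv_lhs => rw [h2]
      rw [QuotientGroup.mk_mul, QuotientGroup.mk_pow]
    rw [h3, of_mul_sub]
    refine Submodule.add_mem _ (Fil_mul_right (pow_sub_one _) _) ?_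
    exact ih (1 + k + 1) (by omega) (by omega) _ hz

theorem NN_comm (hp : Odd p) (hp3 : 3 ≤ p) (hunit : ∀ a : R, IsUnit (1 + (p : R) * a)) (i : ℕ)
    (x y : Cg R p 1 ⧸ NN R p i) :
    MonoidAlgebra.of (ZMod p) (Cg R p 1 ⧸ NN R p i) x *
      MonoidAlgebra.of (ZMod p) (Cg R p 1 ⧸ NN R p i) y -
    MonoidAlgebra.of (ZMod p) (Cg R p 1 ⧸ NN R p i) y *
      MonoidAlgebra.of (ZMod p) (Cg R p 1 ⧸ NN R p i) x ∈
      Fil (ZMod p) (Cg R p 1 ⧸ NN R p i) 3 := by
  obtain ⟨x, rfl⟩ := QuotientGroup.mk_surjective x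
  obtain ⟨y, rfl⟩ := QuotientGroup.mk_surjective y
  have h1 : (((y * x)⁻¹ * (x * y) : Cg R p 1) : Rˣ) ∈ Cg R p (1 + 1) := by
    obtain ⟨a, ha⟩ := x.2
    obtain ⟨b, hb⟩ := y.2
    have h2 : ((y * x : Cg R p 1) : Rˣ)⁻¹ * ((x * y : Cg R p 1) : Rˣ) ∈ Cg R p (1 + 1) := by
      apply div_mem (c := a * b - b * a)
      rw [Subgroup.coe_mul, Subgroup.coe_mul, Units.val_mul, Units.val_mul, ha, hb, pow_one,
        show (p : R) ^ (1 + 1) = (p : R) * (p : R) from pow_two _]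
      have e1 : (p : R) * a = a * (p : R) := (Nat.cast_commute p a).eq
      have e2 : (p : R) * b = b * (p : R) := (Nat.cast_commute p b).eq
      have e3 : (p : R) * a * ((p : R) * b) = (p : R) * (p : R) * (a * b) := by
        calc (p : R) * a * ((p : R) * b) = (p : R) * (a * (p : R)) * b := by noncomm_ring
          _ = _ := by rw [← e1]; noncomm_ring
      have e4 : (p : R) * b * ((p : R) * a) = (p : R) * (p : R) * (b * a) := by
        calc (p : R) * b * ((p : R) * a) = (p : R) * (b * (p : R)) * a := by noncomm_ring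
          _ = _ := by rw [← e2]; noncomm_ring
      have e5 : (1 + (p : R) * a) * (1 + (p : R) * b) = 1 + (p : R) * a + (p : R) * b +
        (p : R) * a * ((p : R) * b) := by noncomm_ring
      have e6 : (1 + (p : R) * b) * (1 + (p : R) * a) = 1 + (p : R) * a + (p : R) * b +
        (p : R) * b * ((p : R) * a) := by noncomm_ring
      rw [e5, e6, e3, e4]
      noncomm_ring
    exact h2
  have h3 := deep hp hunit i i 1 (by omega) le_rfl _ h1
  have h4 : MonoidAlgebra.of (ZMod p) (Cg R p 1 ⧸ NN R p i) (x : Cg R p 1 ⧸ NN R p i) *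
      MonoidAlgebra.of (ZMod p) (Cg R p 1 ⧸ NN R p i) (y : Cg R p 1 ⧸ NN R p i) -
    MonoidAlgebra.of (ZMod p) (Cg R p 1 ⧸ NN R p i) (y : Cg R p 1 ⧸ NN R p i) *
      MonoidAlgebra.of (ZMod p) (Cg R p 1 ⧸ NN R p i) (x : Cg R p 1 ⧸ NN R p i) =
    MonoidAlgebra.of (ZMod p) (Cg R p 1 ⧸ NN R p i) ((y * x : Cg R p 1) : Cg R p 1 ⧸ NN R p i) *
      (MonoidAlgebra.of (ZMod p) (Cg R p 1 ⧸ NN R p i)
        (((y * x)⁻¹ * (x * y) : Cg R p 1) : Cg R p 1 ⧸ NN R p i) - 1) := by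
    rw [mul_sub, mul_one, ← map_mul, ← map_mul, ← map_mul, ← QuotientGroup.mk_mul,
      ← QuotientGroup.mk_mul, ← QuotientGroup.mk_mul, mul_inv_cancel_left]
  rw [h4]
  have h5 := Fil_mul (m := 0) (n := p) (x := MonoidAlgebra.of (ZMod p) (Cg R p 1 ⧸ NN R p i)
    ((y * x : Cg R p 1) : Cg R p 1 ⧸ NN R p i)) (by rw [Fil_zero]; exact Submodule.mem_top) h3
  exact Fil_le (by omega) h5

theorem NN_pow (i : ℕ) (x : Cg R p 1) : (x : Cg R p 1 ⧸ NN R p i) ^ p ^ i = 1 := by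
  rw [← QuotientGroup.mk_pow, QuotientGroup.eq_one_iff, mem_NN]
  induction i with
  | zero => rw [pow_zero, pow_one]; exact x.2
  | succ i ih =>
    rw [pow_succ, pow_mul, Subgroup.coe_pow]
    exact pow_mem_Cg (by omega) ih

end tow

end Pool.Agent.Helper93.IW
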