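import Pool.Agent.Helper93.IW.Zp

/-!
The ranks of the components of a nonzero element of the completed group ring.
-/

set_option autoImplicit false

namespace Pool.Agent.Helper93.IW

open Filter Topology

variable {p : ℕ} [Fact p.Prime]

section alg

variable {Q : Type} [Group Q] [Finite Q]

instance : Module.Finite ℤ_[p] (MonoidAlgebra ℤ_[p] Q) := by
  have : Fintype Q := Fintype.ofFinite Q
  infer_instance

instance : Module.Free ℤ_[p] (MonoidAlgebra ℤ_[p] Q) := by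
  exact Module.Free.of_equiv (MonoidAlgebra.coeffLinearEquiv ℤ_[p]).symm

/-- the rank of the left ideal generated by an element -/
noncomputable def rkr (y : MonoidAlgebra ℤ_[p] Q) : ℕ :=
  Module.finrank ℤ_[p] (LinearMap.range (LinearMap.mulRight ℤ_[p] y))

theorem rkr_le_red (y : MonoidAlgebra ℤ_[p] Q) :
    Module.finrank (ZMod p) (LinearMap.range (LinearMap.mulRight (ZMod p) (rd p Q y))) ≤ rkr y := by
  classical
  set V := LinearMap.range (LinearMap.mulRight ℤ_[p] y) with hV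
  let b := Module.Free.chooseBasis ℤ_[p] V
  have hle : LinearMap.range (LinearMap.mulRight (ZMod p) (rd p Q y)) ≤
      Submodule.span (ZMod p) (Set.range fun j => rd p Q (b j : MonoidAlgebra ℤ_[p] Q)) := by
    rintro _ ⟨x, rfl⟩
    obtain ⟨x', rfl⟩ := rd_surj x
    change rd p Q x' * rd p Q y ∈ _
    rw [← map_mul]
    have h1 : x' * y ∈ V := ⟨x', rfl⟩
    have h2 := b.sum_repr ⟨x' * y, h1⟩
    have h3 : x' * y = ∑ j, b.repr ⟨x' * y, h1⟩ j • (b j : MonoidAlgebra ℤ_[p] Q) := by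
      have h5 := congrArg V.subtype h2
      rw [map_sum] at h5
      exact h5.symm
    rw [h3, map_sum]
    refine Submodule.sum_mem _ fun j _ => ?_
    have h4 : rd p Q (b.repr ⟨x' * y, h1⟩ j • (b j : MonoidAlgebra ℤ_[p] Q)) =
        PadicInt.toZMod (b.repr ⟨x' * y, h1⟩ j) • rd p Q (b j : MonoidAlgebra ℤ_[p] Q) := by
      apply MonoidAlgebra.ext
      ext q
      rw [rd_coeff]
      change PadicInt.toZMod (_ * _) = PadicInt.toZMod _ * (rd p Q _).coeff q
      rw [map_mul, rd_coeff]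
      rfl
    rw [h4]
    exact Submodule.smul_mem _ _ (Submodule.subset_span ⟨j, rfl⟩)
  calc _ ≤ Module.finrank (ZMod p) (Submodule.span (ZMod p)
        (Set.range fun j => rd p Q (b j : MonoidAlgebra ℤ_[p] Q))) := Submodule.finrank_mono hle
    _ ≤ Fintype.card (Module.Free.ChooseBasisIndex ℤ_[p] V) := finrank_range_le_card _
    _ = rkr y := by rw [rkr, Module.finrank_eq_card_chooseBasisIndex]

theorem rkr_smul (k : ℕ) (y : MonoidAlgebra ℤ_[p] Q) : rkr ((p : ℤ_[p]) ^ k • y) = rkr y := by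
  rw [rkr, rkr]
  have hinj : Function.Injective
      (LinearMap.lsmul ℤ_[p] (MonoidAlgebra ℤ_[p] Q) ((p : ℤ_[p]) ^ k)) := by
    intro a b h
    exact alg_inj k h
  have h1 : LinearMap.range (LinearMap.mulRight ℤ_[p] ((p : ℤ_[p]) ^ k • y)) =
      (LinearMap.range (LinearMap.mulRight ℤ_[p] y)).map
        (LinearMap.lsmul ℤ_[p] (MonoidAlgebra ℤ_[p] Q) ((p : ℤ_[p]) ^ k)) := by
    rw [← LinearMap.range_comp]
    congr 1
    apply LinearMap.ext
    intro x
    change x * ((p : ℤ_[p]) ^ k • y) = (p : ℤ_[p]) ^ k • (x * y)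
    rw [mul_smul_comm]
  rw [h1]
  exact (LinearEquiv.finrank_eq (Submodule.equivMapOfInjective _ hinj _)).symm

end alg

variable {G : Type} [Group G] (N : ℕ → Subgroup G) [∀ i, (N i).Normal]
  (hN : ∀ i, N (i + 1) ≤ N i)

variable {d : ℕ} {g : Fin d → G}
  (hU : ∀ i, UF p d i (G ⧸ N i) (fun j => (g j : G ⧸ N i)))

theorem finrank_alg (hU : ∀ i, UF p d i (G ⧸ N i) (fun j => (g j : G ⧸ N i))) (i : ℕ) :
    Module.finrank ℤ_[p] (MonoidAlgebra ℤ_[p] (G ⧸ N i)) = (p ^ i) ^ d := by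
  have := (hU i).finite
  have hF : Fintype (G ⧸ N i) := Fintype.ofFinite _
  rw [(MonoidAlgebra.coeffLinearEquiv ℤ_[p]).finrank_eq, Module.finrank_finsupp_self,
    ← Nat.card_eq_fintype_card, (hU i).card]

include hU in
theorem rkr_ge (x : Lim N hN ℤ_[p]) (hx : x ≠ 0) : ∃ K i0 : ℕ, ∀ i, i0 ≤ i → K ≤ p ^ i →
    (p ^ i - K) ^ d ≤ rkr (ev N hN ℤ_[p] i x) := by
  classical
  have hfin : ∀ i, Finite (G ⧸ N i) := fun i => (hU i).finite
  have hex : ∃ m, x ∉ FP N hN m := by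
    by_contra hne
    push Not at hne
    exact hx (FP_sep N hN x hne)
  obtain ⟨k, y, rfl, hy⟩ : ∃ (k : ℕ) (y : Lim N hN ℤ_[p]), x = (p : ℤ_[p]) ^ k • y ∧
      Rd N hN p y ≠ 0 := by
    have h1 := Nat.find_spec hex
    rcases hn : Nat.find hex with _ | k
    · rw [hn] at h1
      exfalso
      apply h1
      rw [FP_zero]
      trivial
    · have h2 := Nat.find_min hex (m := k) (by omega)
      rw [not_not] at h2
      obtain ⟨y, hy⟩ := h2
      refine ⟨k, y, hy, fun h0 => ?_⟩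
      obtain ⟨z, hz⟩ := Rd_eq_zero N hN h0
      rw [hn] at h1
      apply h1
      exact ⟨z, by rw [hy, hz, pow_succ, mul_smul]⟩
  obtain ⟨i0, hi0⟩ : ∃ i0, ev N hN (ZMod p) i0 (Rd N hN p y) ≠ 0 := by
    by_contra hne
    push Not at hne
    apply hy
    apply ev_ext
    intro i
    rw [hne, map_zero]
  obtain ⟨K, hK⟩ := Fil_nilp (p := p) (hU i0).pgroup
  refine ⟨K, i0, fun i hi hKi => ?_⟩
  have hdown : ∀ m, ev N hN (ZMod p) (i0 + m) (Rd N hN p y) ∉ Fil (ZMod p) _ K := by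
    intro m
    induction m with
    | zero =>
      intro h
      apply hi0
      have h' : ev N hN (ZMod p) i0 (Rd N hN p y) ∈ Fil (ZMod p) (G ⧸ N i0) K := h
      rwa [hK, Submodule.mem_bot] at h'
    | succ m ih =>
      intro h
      apply ih
      have h' : ev N hN (ZMod p) (i0 + m + 1) (Rd N hN p y) ∈ Fil (ZMod p) _ K := h
      have h2 := tr_Fil N hN (ZMod p) (i0 + m) K h'
      rwa [tr_ev] at h2
  obtain ⟨m, rfl⟩ := Nat.exists_eq_add_of_le hi
  rw [map_smul, rkr_smul]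
  refine le_trans ?_ (rkr_le_red _)
  rw [← ev_Rd]
  exact (hU (i0 + m)).rank_ge hKi (hdown m)

/-- the defect of an element at a level -/
noncomputable def dft (d : ℕ) (x : Lim N hN ℤ_[p]) (i : ℕ) : ℝ :=
  ((p ^ i) ^ d : ℝ) - rkr (ev N hN ℤ_[p] i x)

include hU in
theorem dft_nonneg (x : Lim N hN ℤ_[p]) (i : ℕ) : 0 ≤ dft N hN d x i := by
  have hfin : ∀ i, Finite (G ⧸ N i) := fun i => (hU i).finite
  rw [dft, sub_nonneg]
  have h1 : rkr (ev N hN ℤ_[p] i x) ≤ (p ^ i) ^ d := by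
    rw [← finrank_alg N hU i]
    exact LinearMap.finrank_range_le _
  exact_mod_cast h1

include hU in
theorem dft_tendsto (x : Lim N hN ℤ_[p]) (hx : x ≠ 0) :
    Tendsto (fun i => dft N hN d x i / ((p ^ i) ^ d : ℝ)) atTop (𝓝 0) := by
  obtain ⟨K, i0, hK⟩ := rkr_ge N hN hU x hx
  have hp1 : 1 < (p : ℝ) := by exact_mod_cast (Fact.out (p := p.Prime)).one_lt
  have hpt : Tendsto (fun i : ℕ => (p : ℝ) ^ i) atTop atTop := tendsto_pow_atTop_atTop_of_one_lt hp1
  have h1 : Tendsto (fun i : ℕ => 1 - (1 - (K : ℝ) / (p : ℝ) ^ i) ^ d) atTop (𝓝 0) := by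
    have h2 : Tendsto (fun i : ℕ => (K : ℝ) / (p : ℝ) ^ i) atTop (𝓝 0) :=
      Tendsto.div_atTop tendsto_const_nhds hpt
    have h3 := (((tendsto_const_nhds (x := (1 : ℝ))).sub h2).pow d)
    have h4 := (tendsto_const_nhds (x := (1 : ℝ))).sub h3
    simpa using h4
  refine tendsto_of_tendsto_of_tendsto_of_le_of_le' tendsto_const_nhds h1 ?_ ?_
  · filter_upwards with i
    exact div_nonneg (dft_nonneg N hN hU x i) (by positivity)
  · filter_upwards [eventually_ge_atTop i0, hpt.eventually_ge_atTop (K : ℝ)] with i hi hi2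
    have hpos : (0 : ℝ) < (p : ℝ) ^ i := by positivity
    have h5 : K ≤ p ^ i := by exact_mod_cast hi2
    have h6 : (((p ^ i - K : ℕ) ^ d : ℕ) : ℝ) ≤ rkr (ev N hN ℤ_[p] i x) := by
      exact_mod_cast hK i hi h5
    rw [Nat.cast_pow, Nat.cast_sub h5] at h6
    push_cast at h6
    rw [div_le_iff₀ (by positivity), dft]
    have h7 : (1 - (1 - (K : ℝ) / (p : ℝ) ^ i) ^ d) * ((p : ℝ) ^ i) ^ d =
        ((p : ℝ) ^ i) ^ d - ((p : ℝ) ^ i - K) ^ d := by
      rw [sub_mul, one_mul, ← mul_pow, sub_mul, one_mul, div_mul_cancel₀ _ hpos.ne']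
    rw [h7]
    linarith

end Pool.Agent.Helper93.IW
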