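import Mathlib

/-!
Filtered algebras which are commutative up to higher terms, and ordered monomials.
-/

set_option autoImplicit false

namespace Pool.Agent.Helper93.IW

open MvPolynomial

variable {k B : Type} [Field k] [Ring B] [Algebra k B]

/-- A filtration of an algebra, commutative up to terms of higher degree. -/
structure Filt (F : ℕ → Submodule k B) : Prop where
  zero : F 0 = ⊤
  anti : ∀ n, F (n + 1) ≤ F n
  mul : ∀ a b x y, x ∈ F a → y ∈ F b → x * y ∈ F (a + b)
  comm : ∀ a b x y, x ∈ F a → y ∈ F b → x * y - y * x ∈ F (a + b + 1)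

variable {F : ℕ → Submodule k B}

theorem Filt.le (hF : Filt F) {m n : ℕ} (h : m ≤ n) : F n ≤ F m := by
  induction h with
  | refl => exact le_rfl
  | step h ih => exact (hF.anti _).trans ih

theorem Filt.top (hF : Filt F) (x : B) : x ∈ F 0 := by rw [hF.zero]; trivial

theorem Filt.mul_left (hF : Filt F) {a : ℕ} {y : B} (x : B) (hy : y ∈ F a) : x * y ∈ F a := by
  have := hF.mul 0 a x y (hF.top x) hy
  rwa [zero_add] at this

theorem Filt.mul_right (hF : Filt F) {a : ℕ} {x : B} (y : B) (hx : x ∈ F a) : x * y ∈ F a := by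
  have := hF.mul a 0 x y hx (hF.top y)
  rwa [add_zero] at this

theorem Filt.pow (hF : Filt F) {x : B} (hx : x ∈ F 1) (n : ℕ) : x ^ n ∈ F n := by
  induction n with
  | zero => exact hF.top _
  | succ n ih => rw [pow_succ]; exact hF.mul _ _ _ _ ih hx

/-- ordered monomials -/
def mo {d : ℕ} (b : Fin d → B) (α : Fin d → ℕ) : B := (List.ofFn fun j => b j ^ α j).prod

theorem mo_zero_dim (b : Fin 0 → B) (α : Fin 0 → ℕ) : mo b α = 1 := by
  simp [mo]

theorem mo_succ {d : ℕ} (b : Fin (d + 1) → B) (α : Fin (d + 1) → ℕ) :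
    mo b α = b 0 ^ α 0 * mo (fun j => b j.succ) (fun j => α j.succ) := by
  rw [mo, List.ofFn_succ, List.prod_cons]; rfl

theorem mo_mem (hF : Filt F) : ∀ {d : ℕ} (b : Fin d → B) (_ : ∀ j, b j ∈ F 1) (α : Fin d → ℕ),
    mo b α ∈ F (∑ j, α j) := by
  intro d
  induction d with
  | zero => intro b hb α; simpa using hF.top _
  | succ d ih =>
    intro b hb α
    rw [mo_succ, Fin.sum_univ_succ]
    exact hF.mul _ _ _ _ (hF.pow (hb 0) _) (ih _ (fun j => hb _) _)

theorem mo_mul (hF : Filt F) : ∀ {d : ℕ} (b : Fin d → B) (_ : ∀ j, b j ∈ F 1) (α β : Fin d → ℕ),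
    mo b α * mo b β - mo b (α + β) ∈ F (∑ j, α j + ∑ j, β j + 1) := by
  intro d
  induction d with
  | zero => intro b hb α β; simp [mo_zero_dim]
  | succ d ih =>
    intro b hb α β
    rw [mo_succ, mo_succ b β, mo_succ b (α + β), Fin.sum_univ_succ, Fin.sum_univ_succ]
    set A := mo (fun j => b j.succ) (fun j => α j.succ) with hA
    set C := mo (fun j => b j.succ) (fun j => β j.succ) with hC
    have e1 : (fun j => (α + β) (Fin.succ j)) = (fun j => α j.succ) + (fun j => β j.succ) := rfl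
    rw [e1]
    have h1 := ih (fun j => b j.succ) (fun j => hb _) (fun j => α j.succ) (fun j => β j.succ)
    rw [← hA, ← hC] at h1
    set E := mo (fun j => b j.succ) ((fun j => α j.succ) + (fun j => β j.succ)) with hE
    have hAm : A ∈ F (∑ j : Fin d, α j.succ) := mo_mem hF _ (fun j => hb _) _
    have hCm : C ∈ F (∑ j : Fin d, β j.succ) := mo_mem hF _ (fun j => hb _) _
    have e2 : b 0 ^ α 0 * A * (b 0 ^ β 0 * C) - b 0 ^ (α + β) 0 * E =
        b 0 ^ α 0 * (A * b 0 ^ β 0 - b 0 ^ β 0 * A) * C +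
        b 0 ^ (α 0 + β 0) * (A * C - E) := by
      rw [Pi.add_apply, pow_add]
      noncomm_ring
    rw [e2]
    refine Submodule.add_mem _ ?_ ?_
    · have h2 := hF.comm _ _ _ _ hAm (hF.pow (hb 0) (β 0))
      have h3 := hF.mul _ _ _ _ (hF.mul _ _ _ _ (hF.pow (hb 0) (α 0)) h2) hCm
      refine hF.le (le_of_eq ?_) h3
      ring
    · have h3 := hF.mul _ _ _ _ (hF.pow (hb 0) (α 0 + β 0)) h1
      refine hF.le (le_of_eq ?_) h3
      ring

/-- the linear map from the polynomials given by ordered monomials -/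
noncomputable def Mo {d : ℕ} (b : Fin d → B) : MvPolynomial (Fin d) k →ₗ[k] B :=
  (basisMonomials (Fin d) k).constr k (fun α => mo b α)

theorem Mo_monomial {d : ℕ} (b : Fin d → B) (α : Fin d →₀ ℕ) (c : k) :
    Mo b (monomial α c) = c • mo b α := by
  have h : (monomial α c : MvPolynomial (Fin d) k) = c • basisMonomials (Fin d) k α := by
    rw [coe_basisMonomials, smul_monomial, smul_eq_mul, mul_one]
  rw [h, map_smul, Mo, Module.Basis.constr_basis]

theorem sum_of_hom {d n : ℕ} {f : MvPolynomial (Fin d) k} (hf : f.IsHomogeneous n)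
    {α : Fin d →₀ ℕ} (hα : α ∈ f.support) : ∑ j, α j = n := by
  have h1 := hf (mem_support_iff.1 hα)
  rw [← h1, Finsupp.weight_apply, Finsupp.sum_fintype _ _ (fun _ => by simp)]
  simp

theorem Mo_mem (hF : Filt F) {d : ℕ} (b : Fin d → B) (hb : ∀ j, b j ∈ F 1) {n : ℕ}
    {f : MvPolynomial (Fin d) k} (hf : f.IsHomogeneous n) : Mo b f ∈ F n := by
  rw [f.as_sum, map_sum]
  refine Submodule.sum_mem _ fun α hα => ?_
  rw [Mo_monomial]
  refine Submodule.smul_mem _ _ ?_
  rw [← sum_of_hom hf hα]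
  exact mo_mem hF b hb _

theorem Mo_mul (hF : Filt F) {d : ℕ} (b : Fin d → B) (hb : ∀ j, b j ∈ F 1) {m n : ℕ}
    {f g : MvPolynomial (Fin d) k} (hf : f.IsHomogeneous m) (hg : g.IsHomogeneous n) :
    Mo b f * Mo b g - Mo b (f * g) ∈ F (m + n + 1) := by
  have key : ∀ α ∈ f.support, ∀ β ∈ g.support,
      Mo b (monomial α (f.coeff α)) * Mo b (monomial β (g.coeff β)) -
        Mo b (monomial α (f.coeff α) * monomial β (g.coeff β)) ∈ F (m + n + 1) := by
    intro α hα β hβ
    rw [monomial_mul, Mo_monomial, Mo_monomial, Mo_monomial, smul_mul_smul_comm, ← smul_sub]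
    refine Submodule.smul_mem _ _ ?_
    rw [← sum_of_hom hf hα, ← sum_of_hom hg hβ]
    exact mo_mul hF b hb _ _
  have e : Mo b f * Mo b g - Mo b (f * g) = ∑ α ∈ f.support, ∑ β ∈ g.support,
      (Mo b (monomial α (f.coeff α)) * Mo b (monomial β (g.coeff β)) -
        Mo b (monomial α (f.coeff α) * monomial β (g.coeff β))) := by
    conv_lhs => rw [f.as_sum, g.as_sum]
    simp only [Finset.sum_sub_distrib, map_sum, Finset.sum_mul_sum]
  rw [e]
  exact Submodule.sum_mem _ fun α hα => Submodule.sum_mem _ fun β hβ => key α hα β hβ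

end Pool.Agent.Helper93.IW
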