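import Pool.Agent.Helper93.IW.Wrap

/-!
The automorphisms which act trivially on the abelianisation modulo `p` form a subgroup of finite
index.
-/

set_option autoImplicit false

namespace Pool.Agent.Helper93.IW

open scoped commutatorElement

section

variable {H : Type} [Group H] {p : ℕ}

instance Dp_normal : (Dp H p).Normal := by
  have h2 : (Subgroup.closure (Set.range fun h : H => h ^ p)).Normal := by
    apply Subgroup.Normal.mk
    intro n hn g
    induction hn using Subgroup.closure_induction with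
    | mem x hx =>
      obtain ⟨y, rfl⟩ := hx
      apply Subgroup.subset_closure
      exact ⟨g * y * g⁻¹, conj_pow⟩
    | one => rw [mul_one, mul_inv_cancel]; exact Subgroup.one_mem _
    | mul x y _ _ hx hy =>
      have e : g * (x * y) * g⁻¹ = (g * x * g⁻¹) * (g * y * g⁻¹) := by group
      rw [e]
      exact Subgroup.mul_mem _ hx hy
    | inv x _ hx =>
      have e : g * x⁻¹ * g⁻¹ = (g * x * g⁻¹)⁻¹ := by group
      rw [e]
      exact Subgroup.inv_mem _ hx
  rw [Dp]
  infer_instance

theorem pow_mem_Dp (h : H) : h ^ p ∈ Dp H p :=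
  Subgroup.mem_sup_right (Subgroup.subset_closure ⟨h, rfl⟩)

theorem comm_mem_Dp {h : H} (hh : h ∈ commutator H) : h ∈ Dp H p := Subgroup.mem_sup_left hh

theorem map_Dp (α : H →* H) {h : H} (hh : h ∈ Dp H p) : α h ∈ Dp H p := by
  have h1 : Dp H p ≤ (Dp H p).comap α := by
    conv_lhs => rw [Dp]
    apply sup_le
    · rw [commutator_def, Subgroup.commutator_le]
      intro x _ y _
      rw [Subgroup.mem_comap, map_commutatorElement]
      apply comm_mem_Dp
      rw [commutator_def]
      exact Subgroup.commutator_mem_commutator (Subgroup.mem_top _) (Subgroup.mem_top _)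
    · rw [Subgroup.closure_le]
      rintro _ ⟨x, rfl⟩
      change α (x ^ p) ∈ Dp H p
      rw [map_pow]
      exact pow_mem_Dp _
  exact h1 hh

theorem finite_quot_Dp [Group.FG H] (hp : 0 < p) : Finite (H ⧸ Dp H p) := by
  let inst : CommGroup (H ⧸ Dp H p) :=
    { (inferInstance : Group (H ⧸ Dp H p)) with
      mul_comm := by
        intro a b
        obtain ⟨a, rfl⟩ := QuotientGroup.mk_surjective a
        obtain ⟨b, rfl⟩ := QuotientGroup.mk_surjective b
        rw [← QuotientGroup.mk_mul, ← QuotientGroup.mk_mul, QuotientGroup.eq]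
        have h1 : (a * b)⁻¹ * (b * a) = ⁅b⁻¹, a⁻¹⁆ := by
          rw [commutatorElement_def]; group
        rw [h1]
        apply comm_mem_Dp
        rw [commutator_def]
        exact Subgroup.commutator_mem_commutator (Subgroup.mem_top _) (Subgroup.mem_top _) }
  have hfg : Group.FG (H ⧸ Dp H p) := inferInstance
  have htor : IsMulTorsion (H ⧸ Dp H p) := by
    intro a
    obtain ⟨a, rfl⟩ := QuotientGroup.mk_surjective a
    rw [isOfFinOrder_iff_pow_eq_one]
    refine ⟨p, hp, ?_⟩
    rw [← QuotientGroup.mk_pow, QuotientGroup.eq_one_iff]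
    exact pow_mem_Dp _
  exact CommGroup.finite_of_fg_isMulTorsion (H ⧸ Dp H p) htor

/-- the action on the quotient -/
def quotAct {G : Type} [Group G] (act : G →* MulAut H) (p : ℕ) :
    G →* Monoid.End (H ⧸ Dp H p) where
  toFun g := QuotientGroup.map (Dp H p) (Dp H p) (act g).toMonoidHom (fun _ hh => map_Dp _ hh)
  map_one' := by
    refine MonoidHom.ext fun x => ?_
    obtain ⟨x, rfl⟩ := QuotientGroup.mk_surjective x
    change ((act 1 x : H) : H ⧸ Dp H p) = (x : H ⧸ Dp H p)
    rw [map_one]
    rfl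
  map_mul' g g' := by
    refine MonoidHom.ext fun x => ?_
    obtain ⟨x, rfl⟩ := QuotientGroup.mk_surjective x
    change ((act (g * g') x : H) : H ⧸ Dp H p) = ((act g (act g' x) : H) : H ⧸ Dp H p)
    rw [map_mul]
    rfl

theorem quotAct_eq_one {G : Type} [Group G] (act : G →* MulAut H) (g : G) :
    quotAct act p g = 1 ↔ ∀ h, act g h * h⁻¹ ∈ Dp H p := by
  constructor
  · intro h1 h
    have h2 : ((act g h : H) : H ⧸ Dp H p) = (h : H ⧸ Dp H p) :=
      DFunLike.congr_fun h1 (h : H ⧸ Dp H p)
    have h3 := QuotientGroup.eq.1 h2.symm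
    have h4 := (inferInstance : (Dp H p).Normal).conj_mem _ h3 h
    have e : h * (h⁻¹ * act g h) * h⁻¹ = act g h * h⁻¹ := by group
    rwa [e] at h4
  · intro h1
    refine MonoidHom.ext fun x => ?_
    obtain ⟨x, rfl⟩ := QuotientGroup.mk_surjective x
    change ((act g x : H) : H ⧸ Dp H p) = (x : H ⧸ Dp H p)
    symm
    rw [QuotientGroup.eq]
    have h4 := (inferInstance : (Dp H p).Normal).conj_mem _ (h1 x) x⁻¹
    have e : x⁻¹ * (act g x * x⁻¹) * x⁻¹⁻¹ = x⁻¹ * act g x := by group
    rwa [e] at h4

theorem finiteIndex_level [Group.FG H] (hp : 0 < p) {G : Type} [Group G] (act : G →* MulAut H)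
    (N : Subgroup G) (hN : ∀ g : G, g ∈ N ↔ ∀ h, act g h * h⁻¹ ∈ Dp H p) : N.FiniteIndex := by
  have h1 := finite_quot_Dp (H := H) (p := p) hp
  have h2 : Finite (Monoid.End (H ⧸ Dp H p)) :=
    Finite.of_injective (fun f : Monoid.End (H ⧸ Dp H p) => (f : H ⧸ Dp H p → H ⧸ Dp H p))
      DFunLike.coe_injective
  have h3 : N = (quotAct act p).toHomUnits.ker := by
    ext g
    rw [hN, MonoidHom.mem_ker, ← quotAct_eq_one]
    constructor
    · intro h; exact Units.ext h
    · intro h; exact congrArg Units.val h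
  rw [h3]
  infer_instance

end

end Pool.Agent.Helper93.IW
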