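import Pool.Agent.Helper93.IW.Defect

/-!
The normalised ranks of the components of a submodule converge to an integer.
-/

set_option autoImplicit false

namespace Pool.Agent.Helper93.IW

open Filter Topology

section general

variable {K X R : Type} [CommRing K] [IsDomain K] [IsNoetherianRing K] [AddCommGroup X] [Module K X]
  [Module.Finite K X] [AddCommGroup R] [Module K R] [Module.Finite K R]

theorem rn {V Y : Type} [AddCommGroup V] [Module K V] [Module.Finite K V] [AddCommGroup Y]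
    [Module K Y] (f : V →ₗ[K] Y) : Module.finrank K (LinearMap.range f) +
      Module.finrank K (LinearMap.ker f) = Module.finrank K V := by
  rw [← f.quotKerEquivRange.finrank_eq]
  exact Submodule.finrank_quotient_add_finrank _

theorem finrank_sup_le' {Y : Type} [AddCommGroup Y] [Module K Y] (q : X →ₗ[K] Y) (φ : R →ₗ[K] X)
    (L : Submodule K R) (hL : L.map φ ≤ LinearMap.ker q) :
    Module.finrank K (LinearMap.ker q ⊔ LinearMap.range φ : Submodule K X) +
      Module.finrank K L ≤ Module.finrank K (LinearMap.ker q) + Module.finrank K R := by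
  have h1 := rn (q.comp φ)
  have h2 : L ≤ LinearMap.ker (q.comp φ) := by
    intro x hx
    exact hL ⟨x, hx, rfl⟩
  have h3 : Module.finrank K L ≤ Module.finrank K (LinearMap.ker (q.comp φ)) :=
    Submodule.finrank_mono h2
  set B : Submodule K X := LinearMap.ker q ⊔ LinearMap.range φ with hB
  have h4 := rn (q.comp B.subtype)
  have h5 : Module.finrank K (LinearMap.ker (q.comp B.subtype)) ≤
      Module.finrank K (LinearMap.ker q) := by
    have h6 : ∀ x : LinearMap.ker (q.comp B.subtype), ((x : B) : X) ∈ LinearMap.ker q :=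
      fun x => x.2
    let θ : LinearMap.ker (q.comp B.subtype) →ₗ[K] LinearMap.ker q :=
      LinearMap.codRestrict _ (B.subtype.comp (LinearMap.ker (q.comp B.subtype)).subtype) h6
    have hθ : Function.Injective θ := by
      intro a b hab
      apply Subtype.ext
      apply Subtype.ext
      have h9 := congrArg Subtype.val hab
      exact h9
    exact LinearMap.finrank_le_finrank_of_injective hθ
  have h7 : LinearMap.range (q.comp B.subtype) ≤ LinearMap.range (q.comp φ) := by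
    rintro _ ⟨⟨x, hx⟩, rfl⟩
    obtain ⟨a, ha, b, ⟨r, rfl⟩, rfl⟩ := Submodule.mem_sup.1 hx
    refine ⟨r, ?_⟩
    change q (φ r) = q (a + φ r)
    rw [map_add, LinearMap.mem_ker.1 ha, zero_add]
  have h8 : Module.finrank K (LinearMap.range (q.comp B.subtype)) ≤
      Module.finrank K (LinearMap.range (q.comp φ)) := Submodule.finrank_mono h7
  omega

theorem finrank_sup_le (A : Submodule K X) (φ : R →ₗ[K] X) (L : Submodule K R)
    (hL : L.map φ ≤ A) : Module.finrank K (A ⊔ LinearMap.range φ : Submodule K X) +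
      Module.finrank K L ≤ Module.finrank K A + Module.finrank K R := by
  have h := finrank_sup_le' A.mkQ φ L (by rw [Submodule.ker_mkQ]; exact hL)
  rwa [Submodule.ker_mkQ] at h

end general

section ext

variable {R M ι : Type} [Ring R] [Nontrivial R] [AddCommGroup M] [Module R M] [Finite ι]

theorem exists_ext (v : ι → M) (s0 : Set ι) (h0 : LinearIndepOn R v s0) :
    ∃ s : Set ι, s0 ⊆ s ∧ LinearIndepOn R v s ∧
      ∀ i, ∃ a : R, a ≠ 0 ∧ a • v i ∈ Submodule.span R (v '' s) := by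
  classical
  obtain ⟨I, hI, hmax⟩ := Finite.exists_le_maximal (α := Set ι)
    (p := fun s => LinearIndepOn R v s) h0
  refine ⟨I, hI, hmax.1, ?_⟩
  intro i
  by_cases hi : i ∈ I
  · exact ⟨1, one_ne_zero, by rw [one_smul]; exact Submodule.subset_span ⟨i, hi, rfl⟩⟩
  set J := I ∪ {i} with hJ
  have memJ : ∀ {x}, x ∈ J ↔ x = i ∨ x ∈ I := by simp [hJ]
  have hiJ : i ∈ J := by simp [J]
  have h : ¬ LinearIndepOn R v J := by
    intro h2
    exact hi (hmax.2 h2 (Set.subset_union_left) hiJ)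
  obtain ⟨f, supp_f, sum_f, f_ne⟩ := linearDepOn_iff.mp h
  have hfi : f i ≠ 0 := by
    intro hf0
    apply (linearDepOn_iff.mpr ⟨f, ?_, sum_f, f_ne⟩ : ¬ LinearIndepOn R v I) hmax.1
    rw [Finsupp.mem_supported] at supp_f ⊢
    intro x hx
    refine (memJ.mp (supp_f hx)).resolve_left ?_
    rintro rfl
    exact (Finsupp.mem_support_iff.mp hx) hf0
  refine ⟨f i, hfi, ?_⟩
  have hfi' : i ∈ f.support := Finsupp.mem_support_iff.mpr hfi
  rw [← Finset.insert_erase hfi', Finset.sum_insert (Finset.notMem_erase _ _),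
    add_eq_zero_iff_eq_neg] at sum_f
  rw [sum_f]
  refine neg_mem (sum_mem fun c hc => Submodule.smul_mem _ _ (Submodule.subset_span ⟨c, ?_, rfl⟩))
  exact (memJ.mp (supp_f (Finset.erase_subset _ _ hc))).resolve_left (Finset.ne_of_mem_erase hc)

end ext

section main

variable {p : ℕ} [Fact p.Prime] {G : Type} [Group G] (N : ℕ → Subgroup G) [∀ i, (N i).Normal]
  (hN : ∀ i, N (i + 1) ≤ N i) {d : ℕ} {g : Fin d → G}
  (hU : ∀ i, UF p d i (G ⧸ N i) (fun j => (g j : G ⧸ N i)))
  {ι : Type} [Fintype ι]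

/-- evaluation of vectors -/
noncomputable def Ev (ι : Type) (i : ℕ) : (ι → Lim N hN ℤ_[p]) →ₗ[ℤ_[p]] (ι → MonoidAlgebra ℤ_[p] (G ⧸ N i)) :=
  (ev N hN ℤ_[p] i).toLinearMap.compLeft ι

theorem Ev_apply (i : ℕ) (v : ι → Lim N hN ℤ_[p]) (l : ι) :
    Ev N hN ι i v l = ev N hN ℤ_[p] i (v l) := rfl

theorem Ev_smul (i : ℕ) (x : Lim N hN ℤ_[p]) (v : ι → Lim N hN ℤ_[p]) :
    Ev N hN ι i (x • v) = ev N hN ℤ_[p] i x • Ev N hN ι i v := by
  funext l
  rw [Ev_apply, Pi.smul_apply, Pi.smul_apply, Ev_apply, smul_eq_mul, smul_eq_mul, map_mul]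

/-- the component of a submodule at a level -/
noncomputable def Wc (W : Submodule (Lim N hN ℤ_[p]) (ι → Lim N hN ℤ_[p])) (i : ℕ) :
    Submodule ℤ_[p] (ι → MonoidAlgebra ℤ_[p] (G ⧸ N i)) :=
  (W.restrictScalars ℤ_[p]).map (Ev N hN ι i)

theorem mem_Wc {W : Submodule (Lim N hN ℤ_[p]) (ι → Lim N hN ℤ_[p])} {i : ℕ}
    {v : ι → MonoidAlgebra ℤ_[p] (G ⧸ N i)} :
    v ∈ Wc N hN W i ↔ ∃ w ∈ W, Ev N hN ι i w = v := Iff.rfl

theorem Wc_mono {W W' : Submodule (Lim N hN ℤ_[p]) (ι → Lim N hN ℤ_[p])} (h : W ≤ W') (i : ℕ) :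
    Wc N hN W i ≤ Wc N hN W' i := by
  rintro _ ⟨w, hw, rfl⟩
  exact ⟨w, h hw, rfl⟩

theorem Wc_top (i : ℕ) : Wc N hN (⊤ : Submodule (Lim N hN ℤ_[p]) (ι → Lim N hN ℤ_[p])) i = ⊤ := by
  rw [eq_top_iff]
  intro v _
  choose w hw using fun l => ev_surj N hN ℤ_[p] i (v l)
  exact ⟨w, trivial, funext hw⟩

theorem Wc_sup (W : Submodule (Lim N hN ℤ_[p]) (ι → Lim N hN ℤ_[p])) (w : ι → Lim N hN ℤ_[p])
    (i : ℕ) : Wc N hN (W ⊔ Submodule.span _ {w}) i = Wc N hN W i ⊔
      LinearMap.range ((LinearMap.toSpanSingleton (MonoidAlgebra ℤ_[p] (G ⧸ N i))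
        (ι → MonoidAlgebra ℤ_[p] (G ⧸ N i)) (Ev N hN ι i w)).restrictScalars ℤ_[p]) := by
  apply le_antisymm
  · rintro _ ⟨v, hv, rfl⟩
    obtain ⟨a, ha, b, hb, rfl⟩ := Submodule.mem_sup.1 hv
    obtain ⟨x, rfl⟩ := Submodule.mem_span_singleton.1 hb
    rw [map_add]
    refine Submodule.add_mem_sup ⟨a, ha, rfl⟩ ⟨ev N hN ℤ_[p] i x, ?_⟩
    change ev N hN ℤ_[p] i x • Ev N hN ι i w = _
    rw [Ev_smul]
  · refine sup_le (Wc_mono N hN le_sup_left i) ?_
    rintro _ ⟨x, rfl⟩
    obtain ⟨y, rfl⟩ := ev_surj N hN ℤ_[p] i x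
    refine ⟨y • w, Submodule.mem_sup_right (Submodule.mem_span_singleton.2 ⟨y, rfl⟩), ?_⟩
    rw [Ev_smul]
    rfl

include hU in
theorem Wc_step (W : Submodule (Lim N hN ℤ_[p]) (ι → Lim N hN ℤ_[p])) (w : ι → Lim N hN ℤ_[p])
    (l : Lim N hN ℤ_[p]) (hl : l • w ∈ W) (i : ℕ) :
    (Module.finrank ℤ_[p] (Wc N hN (W ⊔ Submodule.span _ {w}) i) : ℝ) ≤
      Module.finrank ℤ_[p] (Wc N hN W i) + dft N hN d l i := by
  have hfin : ∀ i, Finite (G ⧸ N i) := fun i => (hU i).finite
  rw [Wc_sup]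
  have h := finrank_sup_le (Wc N hN W i)
    ((LinearMap.toSpanSingleton (MonoidAlgebra ℤ_[p] (G ⧸ N i))
        (ι → MonoidAlgebra ℤ_[p] (G ⧸ N i)) (Ev N hN ι i w)).restrictScalars ℤ_[p])
    (LinearMap.range (LinearMap.mulRight ℤ_[p] (ev N hN ℤ_[p] i l))) (by
      rintro _ ⟨_, ⟨x, rfl⟩, rfl⟩
      obtain ⟨y, rfl⟩ := ev_surj N hN ℤ_[p] i x
      refine ⟨y • l • w, W.smul_mem y hl, ?_⟩
      change _ = (ev N hN ℤ_[p] i y * ev N hN ℤ_[p] i l) • Ev N hN ι i w
      rw [Ev_smul, Ev_smul, mul_smul])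
  rw [finrank_alg N hU i] at h
  rw [dft, rkr]
  have h' : ((_ : ℕ) : ℝ) ≤ ((_ : ℕ) : ℝ) := Nat.cast_le.2 h
  push_cast at h'
  linarith

include hU in
theorem Wc_steps {κ : Type} (s : Finset κ) (w : κ → ι → Lim N hN ℤ_[p]) (l : κ → Lim N hN ℤ_[p])
    (W : Submodule (Lim N hN ℤ_[p]) (ι → Lim N hN ℤ_[p])) (hl : ∀ j, l j • w j ∈ W) (i : ℕ) :
    (Module.finrank ℤ_[p] (Wc N hN (W ⊔ Submodule.span _ (w '' s)) i) : ℝ) ≤
      Module.finrank ℤ_[p] (Wc N hN W i) + ∑ j ∈ s, dft N hN d (l j) i := by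
  classical
  induction s using Finset.induction_on with
  | empty =>
    rw [Finset.coe_empty, Set.image_empty, Submodule.span_empty, sup_bot_eq, Finset.sum_empty,
      add_zero]
  | insert a s ha ih =>
    rw [Finset.sum_insert ha, Finset.coe_insert, Set.image_insert_eq, Submodule.span_insert,
      sup_comm (Submodule.span _ {w a}), ← sup_assoc]
    have := Wc_step N hN hU (W ⊔ Submodule.span _ (w '' s)) (w a) (l a)
      (Submodule.mem_sup_left (hl a)) i
    linarith

/-- **The normalised ranks converge to an integer.** -/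
theorem tendsto_rank (hU : ∀ i, UF p d i (G ⧸ N i) (fun j => (g j : G ⧸ N i)))
    {κ : Type} [Fintype κ] (w : κ → ι → Lim N hN ℤ_[p]) :
    ∃ r : ℕ, Tendsto (fun i => (Module.finrank ℤ_[p]
      (Wc N hN (Submodule.span _ (Set.range w)) i) : ℝ) / ((p ^ i) ^ d : ℝ)) atTop (𝓝 r) := by
  classical
  have hfin : ∀ i, Finite (G ⧸ N i) := fun i => (hU i).finite
  have hnoeth : IsNoetherianRing (Lim N hN ℤ_[p]) := noeth_Zp N hN (noeth_LF N hN hU)
  have hnt : Nontrivial (Lim N hN ℤ_[p]) := by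
    refine ⟨⟨0, 1, fun h => ?_⟩⟩
    have h1 := congrArg (ev N hN ℤ_[p] 0) h
    rw [map_zero, map_one] at h1
    exact zero_ne_one h1
  set D : ℕ → ℝ := fun i => ((p ^ i) ^ d : ℝ) with hD
  have hDpos : ∀ i, 0 < D i := by
    intro i
    have : (0 : ℝ) < p := by exact_mod_cast (Fact.out (p := p.Prime)).pos
    positivity
  obtain ⟨s, hs, hsmax⟩ := exists_ext (R := Lim N hN ℤ_[p]) w ∅ (linearIndepOn_empty _ _) |>.imp
    fun s h => h.2
  choose a ha0 ha using hsmax
  set U := Submodule.span (Lim N hN ℤ_[p]) (w '' s) with hUd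
  set W := Submodule.span (Lim N hN ℤ_[p]) (Set.range w) with hW
  have hUW : U ≤ W := Submodule.span_mono (Set.image_subset_range _ _)
  -- upper bound for `U`
  have hup : ∀ (T : Finset (ι → Lim N hN ℤ_[p])) (V : Submodule (Lim N hN ℤ_[p])
      (ι → Lim N hN ℤ_[p])) (i : ℕ),
      (Module.finrank ℤ_[p] (Wc N hN (V ⊔ Submodule.span _ (T : Set _)) i) : ℝ) ≤
        Module.finrank ℤ_[p] (Wc N hN V i) + T.card * D i := by
    intro T V i
    have h1 := Wc_steps N hN hU T (fun v => v) (fun _ => 0) V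
      (fun j => by rw [zero_smul]; exact V.zero_mem) i
    rw [Set.image_id'] at h1
    refine h1.trans (add_le_add le_rfl ?_)
    calc _ ≤ ∑ j ∈ T, D i := Finset.sum_le_sum fun j _ => by
          rw [dft]
          linarith [Nat.cast_nonneg (α := ℝ) (rkr (ev N hN ℤ_[p] i (0 : Lim N hN ℤ_[p])))]
      _ = _ := by rw [Finset.sum_const, nsmul_eq_mul]
  have hbot : ∀ i, (Module.finrank ℤ_[p] (Wc N hN
      (⊥ : Submodule (Lim N hN ℤ_[p]) (ι → Lim N hN ℤ_[p])) i) : ℝ) = 0 := by
    intro i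
    have : Wc N hN (⊥ : Submodule (Lim N hN ℤ_[p]) (ι → Lim N hN ℤ_[p])) i = ⊥ := by
      rw [eq_bot_iff]
      rintro _ ⟨v, hv, rfl⟩
      rw [SetLike.mem_coe, Submodule.restrictScalars_mem, Submodule.mem_bot] at hv
      rw [hv, map_zero]
      exact Submodule.zero_mem _
    rw [this, finrank_bot, Nat.cast_zero]
  set r : ℕ := Nat.card s with hr
  have hsfin : s.Finite := Set.toFinite s
  have hUup : ∀ i, (Module.finrank ℤ_[p] (Wc N hN U i) : ℝ) ≤ r * D i := by
    intro i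
    have hT : ((w '' s).toFinset : Set (ι → Lim N hN ℤ_[p])) = w '' s := Set.coe_toFinset _
    have h1 := hup (w '' s).toFinset ⊥ i
    rw [hT, bot_sup_eq, hbot, zero_add] at h1
    refine h1.trans (mul_le_mul_of_nonneg_right ?_ (hDpos i).le)
    rw [Set.toFinset_card, ← Nat.card_eq_fintype_card, hr]
    exact_mod_cast Set.ncard_image_le hsfin
  have hWup : ∀ i, (Module.finrank ℤ_[p] (Wc N hN W i) : ℝ) ≤ r * D i +
      ∑ j, dft N hN d (a j) i := by
    intro i
    have h1 := Wc_steps N hN hU Finset.univ w a U ha i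
    rw [Finset.coe_univ, Set.image_univ, sup_eq_right.2 hUW] at h1
    linarith [hUup i]
  -- lower bound
  let v : κ ⊕ ι → (ι → Lim N hN ℤ_[p]) := Sum.elim w (fun l => Pi.single l 1)
  have hv0 : LinearIndepOn (Lim N hN ℤ_[p]) v (Sum.inl '' s) := by
    let e := Equiv.Set.image (Sum.inl : κ → κ ⊕ ι) s Sum.inl_injective
    have h1 : LinearIndependent (Lim N hN ℤ_[p]) ((fun x : s => w x) ∘ e.symm) :=
      LinearIndependent.comp hs e.symm e.symm.injective
    have h2 : (fun x : (Sum.inl '' s : Set (κ ⊕ ι)) => v x) = (fun x : s => w x) ∘ e.symm := by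
      funext x
      obtain ⟨y, rfl⟩ := e.surjective x
      rw [Function.comp_apply, Equiv.symm_apply_apply]
      rfl
    change LinearIndependent _ (fun x : (Sum.inl '' s : Set (κ ⊕ ι)) => v x)
    rw [h2]
    exact h1
  obtain ⟨T, hsT, hT, hTmax⟩ := exists_ext (R := Lim N hN ℤ_[p]) v _ hv0
  choose b hb0 hb using hTmax
  let S : Finset ι := Finset.univ.filter fun l => Sum.inr l ∈ T
  have hcard : r + S.card ≤ Fintype.card ι := by
    have h1 : LinearIndependent (Lim N hN ℤ_[p]) (fun x : T => v x) := hT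
    have h2 := h1.fintype_card_le_finrank
    rw [Module.finrank_fintype_fun_eq_card] at h2
    have h3 : (Sum.inl '' s ∪ Sum.inr '' (S : Set ι) : Set (κ ⊕ ι)) ⊆ T := by
      rintro _ (h | ⟨l, hl, rfl⟩)
      · exact hsT h
      · exact (Finset.mem_filter.1 hl).2
    have h4 := Set.ncard_le_ncard h3 (Set.toFinite T)
    rw [Set.ncard_union_eq (by
      rw [Set.disjoint_left]
      rintro _ ⟨x, -, rfl⟩ ⟨y, -, h⟩
      exact Sum.inr_ne_inl h) (Set.toFinite _) (Set.toFinite _),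
      Set.ncard_image_of_injective _ Sum.inl_injective,
      Set.ncard_image_of_injective _ Sum.inr_injective, Set.ncard_coe_finset] at h4
    have h5 : T.ncard = Fintype.card T := by
      rw [← Nat.card_eq_fintype_card]; rfl
    have h6 : r = s.ncard := rfl
    omega
  have hTle : Submodule.span (Lim N hN ℤ_[p]) (v '' T) ≤ W ⊔ Submodule.span _
      ((S.image fun l => (Pi.single l 1 : ι → Lim N hN ℤ_[p]) : Finset _) : Set _) := by
    rw [Submodule.span_le]
    rintro _ ⟨x | l, hx, rfl⟩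
    · exact Submodule.mem_sup_left (Submodule.subset_span ⟨x, rfl⟩)
    · apply Submodule.mem_sup_right
      apply Submodule.subset_span
      rw [Finset.coe_image]
      exact ⟨l, Finset.mem_filter.2 ⟨Finset.mem_univ l, hx⟩, rfl⟩
  have hlow : ∀ i, (r : ℝ) * D i ≤ Module.finrank ℤ_[p] (Wc N hN W i) +
      ∑ l : ι, dft N hN d (b (Sum.inr l)) i := by
    intro i
    have h1 := Wc_steps N hN hU Finset.univ (fun l : ι => v (Sum.inr l)) (fun l => b (Sum.inr l))
      (Submodule.span (Lim N hN ℤ_[p]) (v '' T)) (fun l => hb (Sum.inr l)) i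
    have htop : (Submodule.span (Lim N hN ℤ_[p]) (v '' T)) ⊔ Submodule.span _
        ((fun l : ι => v (Sum.inr l)) '' ((Finset.univ : Finset ι) : Set ι)) = ⊤ := by
      rw [eq_top_iff, Finset.coe_univ, Set.image_univ]
      refine le_trans ?_ le_sup_right
      intro x _
      have h9 : x = ∑ l, x l • (Pi.single l 1 : ι → Lim N hN ℤ_[p]) := by
        funext j
        rw [Finset.sum_apply, Finset.sum_eq_single j]
        · simp
        · intro l _ hl
          rw [Pi.smul_apply, Pi.single_eq_of_ne hl.symm, smul_zero]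
        · intro h
          exact absurd (Finset.mem_univ j) h
      rw [h9]
      exact Submodule.sum_mem _ fun l _ => Submodule.smul_mem _ _ (Submodule.subset_span ⟨l, rfl⟩)
    rw [htop, Wc_top] at h1
    have h2 : (Module.finrank ℤ_[p] (⊤ : Submodule ℤ_[p] (ι → MonoidAlgebra ℤ_[p] (G ⧸ N i))) : ℝ) =
        Fintype.card ι * D i := by
      rw [finrank_top, Module.finrank_pi_fintype]
      simp only [finrank_alg N hU i]
      rw [Finset.sum_const, Finset.card_univ, smul_eq_mul]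
      push_cast
      rfl
    have h3 := hup (S.image fun l => (Pi.single l 1 : ι → Lim N hN ℤ_[p])) W i
    have h4 : (Module.finrank ℤ_[p] (Wc N hN (Submodule.span (Lim N hN ℤ_[p]) (v '' T)) i) : ℝ) ≤
        Module.finrank ℤ_[p] (Wc N hN (W ⊔ Submodule.span _
      ((S.image fun l => (Pi.single l 1 : ι → Lim N hN ℤ_[p]) : Finset _) : Set _)) i) := by
      exact_mod_cast Submodule.finrank_mono (Wc_mono N hN hTle i)
    have h5 : (((S.image fun l => (Pi.single l 1 : ι → Lim N hN ℤ_[p])).card : ℕ) : ℝ) ≤ S.card := by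
      exact_mod_cast Finset.card_image_le
    have h6 : ((r : ℝ) + S.card) ≤ Fintype.card ι := by exact_mod_cast hcard
    rw [h2] at h1
    have h7 := mul_le_mul_of_nonneg_right h5 (hDpos i).le
    have h8 := mul_le_mul_of_nonneg_right h6 (hDpos i).le
    rw [add_mul] at h8
    linarith
  refine ⟨r, ?_⟩
  have hA : Tendsto (fun i => (r : ℝ) - ∑ l : ι, dft N hN d (b (Sum.inr l)) i / D i) atTop
      (𝓝 (r - ∑ l : ι, (0 : ℝ))) := by
    refine tendsto_const_nhds.sub (tendsto_finset_sum _ fun l _ => ?_)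
    exact dft_tendsto N hN hU _ (hb0 _)
  have hB : Tendsto (fun i => (r : ℝ) + ∑ j : κ, dft N hN d (a j) i / D i) atTop
      (𝓝 (r + ∑ j : κ, (0 : ℝ))) := by
    refine tendsto_const_nhds.add (tendsto_finset_sum _ fun l _ => ?_)
    exact dft_tendsto N hN hU _ (ha0 _)
  rw [Finset.sum_const_zero, sub_zero] at hA
  rw [Finset.sum_const_zero, add_zero] at hB
  refine tendsto_of_tendsto_of_tendsto_of_le_of_le hA hB ?_ ?_
  · intro i
    change (r : ℝ) - ∑ l : ι, dft N hN d (b (Sum.inr l)) i / D i ≤ _ / D i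
    rw [le_div_iff₀ (hDpos i), sub_mul, ← Finset.sum_div, div_mul_cancel₀ _ (hDpos i).ne']
    linarith [hlow i]
  · intro i
    change _ / D i ≤ (r : ℝ) + ∑ j : κ, dft N hN d (a j) i / D i
    rw [div_le_iff₀ (hDpos i), add_mul, ← Finset.sum_div, div_mul_cancel₀ _ (hDpos i).ne']
    exact hWup i

end main

end Pool.Agent.Helper93.IW
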