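import Pool.Graph.R_seed8.TH107.AT.Bc
import Pool.Agent.Helper93.IW.Intg

/-!
The von Neumann dimension over a finite group.
-/

set_option autoImplicit false
set_option linter.unusedSectionVars false

open scoped InnerProductSpace ENNReal ComplexOrder
open Filter Topology

namespace Pool.Agent.Helper93.IW

open Pool.Agent.H80R2
open Pool.Agent.H80R2.BC (L2 GMat vdim IsTr LInv Equi act kerA)
open Pool.Agent.H812R3
open Pool.Agent.W656.VA
open Pool.Agent.TH107.AT

section gen

variable {X : Type} [Fintype X]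

/-- the linear equivalence with functions -/
noncomputable def l2e (X : Type) [Fintype X] : L2 X ≃ₗ[ℂ] (X → ℂ) where
  toFun := fun x a => x a
  map_add' := fun x y => rfl
  map_smul' := fun c x => rfl
  invFun := fun f => (⟨f, memℓp_gen (by
    have : Summable fun a : X => ‖f a‖ ^ (2 : ℝ≥0∞).toReal := (hasSum_fintype _).summable
    exact this)⟩ : lp (fun _ : X => ℂ) 2)
  left_inv := fun x => lp.ext rfl
  right_inv := fun f => rfl

theorem l2e_apply (x : L2 X) (a : X) : l2e X x a = x a := rfl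

instance finDim : FiniteDimensional ℂ (L2 X) := Module.Finite.equiv (l2e X).symm

theorem norm_sq_l2 (x : L2 X) : ‖x‖ ^ 2 = ∑ a, ‖x a‖ ^ 2 := by
  have h1 : ((‖x‖ ^ 2 : ℝ) : ℂ) = ((∑ a, ‖x a‖ ^ 2 : ℝ) : ℂ) := by
    have h2 := inner_self_eq_norm_sq_to_K (𝕜 := ℂ) x
    rw [lp.inner_eq_tsum, tsum_fintype] at h2
    push_cast
    refine Eq.trans (Eq.symm h2) ?_
    refine Finset.sum_congr rfl fun a _ => ?_
    rw [inner_self_eq_norm_sq_to_K]
    rfl
  exact_mod_cast h1

theorem finrank_eq_sum (K : Submodule ℂ (L2 X)) (u : X → L2 X) (hu : ∀ a, u a ∈ K)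
    (h : ∀ a, ∀ x ∈ K, ⟪u a, x⟫_ℂ = x a) :
    (Module.finrank ℂ K : ℝ) = ∑ a, (u a a).re := by
  let b := stdOrthonormalBasis ℂ K
  have h1 : ∀ a, ∑ j, ‖((b j : K) : L2 X) a‖ ^ 2 = (u a a).re := by
    intro a
    have h2 := b.sum_sq_norm_inner_left ⟨u a, hu a⟩
    have h3 : ∀ j, ⟪(⟨u a, hu a⟩ : K), b j⟫_ℂ = ((b j : K) : L2 X) a := by
      intro j
      rw [Submodule.coe_inner]
      exact h a _ (b j).2
    simp only [h3] at h2
    rw [h2, ← h a (u a) (hu a), inner_self_eq_norm_sq_to_K]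
    change ‖u a‖ ^ 2 = ((‖u a‖ : ℂ) ^ 2).re
    norm_cast
  simp only [← h1]
  rw [Finset.sum_comm]
  have h4 : ∀ j, ∑ a, ‖((b j : K) : L2 X) a‖ ^ 2 = 1 := by
    intro j
    rw [← norm_sq_l2]
    have := b.norm_eq_one j
    rw [Submodule.coe_norm] at this
    rw [this, one_pow]
  rw [Finset.sum_congr rfl fun j _ => h4 j]
  simp

end gen

variable {ι κ F : Type} [Group F] [Fintype F] [Fintype ι] [Fintype κ]

theorem card_mul_vdim {K : Submodule ℂ (L2 (ι × F))} (hK : LInv K) :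
    (Fintype.card F : ℝ) * vdim K = Module.finrank ℂ K := by
  have hc : IsClosed (K : Set (L2 (ι × F))) := K.closed_of_finiteDimensional
  obtain ⟨u, hu, hu2, hu3⟩ := exists_vec hc
  rw [finrank_eq_sum K (fun a => lt ι a.2⁻¹ (u a.1)) (fun a => linv_lt hK _ (hu a.1)), hu3,
    Fintype.sum_prod_type, Finset.mul_sum]
  · refine Finset.sum_congr rfl fun i _ => ?_
    have : ∀ g : F, (lt ι g⁻¹ (u i) (i, g)).re = (u i (i, 1)).re := by
      intro g
      rw [lt_apply, inv_mul_cancel]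
    simp only [this, Finset.sum_const, Finset.card_univ, nsmul_eq_mul]
  · rintro ⟨i, g⟩ x hx
    rw [inner_lt_left, inv_inv, hu2 i _ (linv_lt hK _ hx), lt_apply, mul_one]

theorem mop_eq_Mt (Y : Matrix κ ι (MonoidAlgebra ℂ F)) (x : L2 (ι × F)) (k : κ) (g : F) :
    mop Y x (k, g) = (Mt Y).mulVec (fun a => x a) (k, g) := by
  rw [mop_apply, Matrix.mulVec, dotProduct, Fintype.sum_prod_type]
  refine Finset.sum_congr rfl fun i _ => ?_
  rw [ra_apply, Finsupp.sum_fintype _ _ (fun _ => zero_mul _)]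
  rw [← Equiv.sum_comp (Equiv.mulLeft g) (fun u => Mt Y (k, g) (i, u) * x (i, u))]
  refine Finset.sum_congr rfl fun u _ => ?_
  rw [Equiv.coe_mulLeft, Mt_apply, inv_mul_cancel_left]

theorem vdim_fin (Y : Matrix κ ι (MonoidAlgebra ℂ F)) :
    (Fintype.card F : ℝ) * vdim (kr (mop Y)) =
      Fintype.card ι * Fintype.card F - (Mt Y).rank := by
  rw [card_mul_vdim (linv_kr (equi_mop Y))]
  have h1 : (kr (mop Y)).map (l2e (ι × F)).toLinearMap = LinearMap.ker (Mt Y).mulVecLin := by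
    ext f
    constructor
    · rintro ⟨x, hx, rfl⟩
      rw [SetLike.mem_coe, mem_kr] at hx
      rw [LinearMap.mem_ker]
      funext ⟨k, g⟩
      change (Mt Y).mulVec (fun a => x a) (k, g) = 0
      rw [← mop_eq_Mt, hx]
      rfl
    · intro hf
      refine ⟨(l2e (ι × F)).symm f, ?_, (l2e (ι × F)).apply_symm_apply f⟩
      rw [SetLike.mem_coe, mem_kr]
      apply lp.ext
      funext ⟨k, g⟩
      rw [mop_eq_Mt]
      exact congrFun (LinearMap.mem_ker.1 hf) (k, g)
  have h2 : Module.finrank ℂ (kr (mop Y)) = Module.finrank ℂ (LinearMap.ker (Mt Y).mulVecLin) := by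
    rw [← h1]
    exact (LinearEquiv.finrank_eq ((l2e (ι × F)).submoduleMap (kr (mop Y))))
  have h3 := LinearMap.finrank_range_add_finrank_ker (Mt Y).mulVecLin
  rw [← h2, Module.finrank_fintype_fun_eq_card, Fintype.card_prod] at h3
  have h4 : (Mt Y).rank + Module.finrank ℂ (kr (mop Y)) = Fintype.card ι * Fintype.card F := h3
  have h5 : (((Mt Y).rank : ℕ) : ℝ) + (Module.finrank ℂ (kr (mop Y)) : ℕ) =
    Fintype.card ι * Fintype.card F := by exact_mod_cast h4
  linarith

end Pool.Agent.Helper93.IW
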