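import Pool.Agent.Helper93.IW.Filt

/-!
Noetherian rings from complete filtrations.
-/

set_option autoImplicit false

namespace Pool.Agent.Helper93.IW

open MvPolynomial

/-- completeness of a filtration -/
def Compl {B : Type} [Ring B] (F : ℕ → AddSubgroup B) : Prop :=
  ∀ x : ℕ → B, (∀ n, x n ∈ F n) → ∃ s, ∀ n, s - ∑ i ∈ Finset.range n, x i ∈ F n

theorem Compl.shift {B : Type} [Ring B] {F : ℕ → AddSubgroup B} (hc : Compl F) (h0 : F 0 = ⊤)
    (e : ℕ) (x : ℕ → B) (hx : ∀ n, x n ∈ F (n - e)) :
    ∃ s, ∀ n, s - ∑ i ∈ Finset.range n, x i ∈ F (n - e) := by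
  obtain ⟨s, hs⟩ := hc (fun m => x (m + e)) (fun m => by simpa using hx (m + e))
  refine ⟨s + ∑ i ∈ Finset.range e, x i, fun n => ?_⟩
  rcases le_total e n with h | h
  · obtain ⟨m, rfl⟩ := Nat.exists_eq_add_of_le h
    have h1 := hs m
    rw [Nat.add_sub_cancel_left]
    have h2 : ∑ i ∈ Finset.range (e + m), x i =
        ∑ i ∈ Finset.range e, x i + ∑ i ∈ Finset.range m, x (i + e) := by
      rw [Finset.sum_range_add]
      simp only [add_comm e]
    rw [h2]
    convert h1 using 1
    abel
  · rw [Nat.sub_eq_zero_of_le h, h0]; trivial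

/-- the approximation lemma -/
theorem approx {B : Type} [Ring B] {F : ℕ → AddSubgroup B} (hc : Compl F) (h0 : F 0 = ⊤)
    (hmul : ∀ n x y, x ∈ F n → x * y ∈ F n) (hanti : ∀ n, F (n + 1) ≤ F n)
    (hsep : ∀ x, (∀ n, x ∈ F n) → x = 0) (W : Submodule B B) {T : Type} [Fintype T] (w : T → B)
    (hw : ∀ t, w t ∈ W) (e : ℕ)
    (h : ∀ n, ∀ u ∈ W, u ∈ F n → ∃ r : T → B, (∀ t, r t ∈ F (n - e)) ∧
      u - ∑ t, r t * w t ∈ F (n + 1)) : W = Submodule.span B (Set.range w) := by
  have hle : ∀ {m n : ℕ}, m ≤ n → F n ≤ F m := by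
    intro m n hmn
    induction hmn with
    | refl => exact le_rfl
    | step _ ih => exact (hanti _).trans ih
  apply le_antisymm
  swap
  · rw [Submodule.span_le]
    rintro _ ⟨t, rfl⟩
    exact hw t
  intro v hv
  classical
  have h' : ∀ (n : ℕ) (u : B), ∃ r : T → B, (u ∈ W → u ∈ F n → (∀ t, r t ∈ F (n - e)) ∧
      u - ∑ t, r t * w t ∈ F (n + 1)) := by
    intro n u
    by_cases h1 : u ∈ W ∧ u ∈ F n
    · obtain ⟨r, hr⟩ := h n u h1.1 h1.2
      exact ⟨r, fun _ _ => hr⟩
    · exact ⟨0, fun h2 h3 => absurd ⟨h2, h3⟩ h1⟩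
  choose R hR using h'
  let u : ℕ → B := fun n => Nat.rec v (fun n u => u - ∑ t, R n u t * w t) n
  have hu0 : u 0 = v := rfl
  have hus : ∀ n, u (n + 1) = u n - ∑ t, R n (u n) t * w t := fun n => rfl
  have hu : ∀ n, u n ∈ W ∧ u n ∈ F n := by
    intro n
    induction n with
    | zero => exact ⟨by rw [hu0]; exact hv, by rw [h0]; trivial⟩
    | succ n ih =>
      refine ⟨?_, ?_⟩
      · rw [hus]
        exact W.sub_mem ih.1 (W.sum_mem fun t _ => W.smul_mem _ (hw t))
      · rw [hus]
        exact (hR n (u n) ih.1 ih.2).2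
  have hsum : ∀ n, u n = v - ∑ t, (∑ i ∈ Finset.range n, R i (u i) t) * w t := by
    intro n
    induction n with
    | zero => simp [hu0]
    | succ n ih =>
      have e1 : ∑ t, (∑ i ∈ Finset.range (n + 1), R i (u i) t) * w t =
          ∑ t, (∑ i ∈ Finset.range n, R i (u i) t) * w t + ∑ t, R n (u n) t * w t := by
        simp only [Finset.sum_range_succ, add_mul, Finset.sum_add_distrib]
      rw [hus, e1, ← sub_sub, ← ih]
  have hs : ∀ t, ∃ s, ∀ n, s - ∑ i ∈ Finset.range n, R i (u i) t ∈ F (n - e) := fun t =>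
    hc.shift h0 e (fun n => R n (u n) t) (fun n => (hR n (u n) (hu n).1 (hu n).2).1 t)
  choose s hs using hs
  have hv2 : v = ∑ t, s t * w t := by
    rw [← sub_eq_zero]
    apply hsep
    intro n
    have h1 : v - ∑ t, s t * w t = u (n + e) -
        ∑ t, (s t - ∑ i ∈ Finset.range (n + e), R i (u i) t) * w t := by
      rw [hsum (n + e)]
      simp only [sub_mul, Finset.sum_sub_distrib]
      abel
    rw [h1]
    refine (F n).sub_mem (hle (Nat.le_add_right n e) (hu (n + e)).2) ?_
    refine (F n).sum_mem fun t _ => ?_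
    have h2 := hs t (n + e)
    rw [Nat.add_sub_cancel] at h2
    exact hmul _ _ _ h2
  rw [hv2]
  exact Submodule.sum_mem _ fun t _ => Submodule.smul_mem _ _ (Submodule.subset_span ⟨t, rfl⟩)

variable {k B : Type} [Field k] [Ring B] [Algebra k B] {F : ℕ → Submodule k B}

theorem comp_mul {d : ℕ} {a t : MvPolynomial (Fin d) k} {m : ℕ} (ht : t.IsHomogeneous m) (n : ℕ) :
    homogeneousComponent n (a * t) =
      (if m ≤ n then homogeneousComponent (n - m) a else 0) * t := by
  classical
  conv_lhs => rw [← sum_homogeneousComponent a, Finset.sum_mul, map_sum]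
  have h1 : ∀ i ∈ Finset.range (a.totalDegree + 1),
      homogeneousComponent n (homogeneousComponent i a * t) =
        if i + m = n then homogeneousComponent i a * t else 0 := by
    intro i _
    have h2 : (homogeneousComponent i a * t) ∈ homogeneousSubmodule (Fin d) k (i + m) :=
      (homogeneousComponent_isHomogeneous i a).mul ht
    rw [homogeneousComponent_of_mem h2]
    by_cases h3 : i + m = n
    · rw [if_pos h3, if_pos h3.symm]
    · rw [if_neg h3, if_neg (fun h => h3 h.symm)]
  rw [Finset.sum_congr rfl h1]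
  split_ifs with h
  · by_cases h4 : n - m ∈ Finset.range (a.totalDegree + 1)
    · rw [Finset.sum_eq_single_of_mem (n - m) h4]
      · rw [if_pos (Nat.sub_add_cancel h)]
      · intro i _ hi
        rw [if_neg]
        omega
    · rw [Finset.sum_eq_zero, homogeneousComponent_eq_zero, zero_mul]
      · rw [Finset.mem_range] at h4
        omega
      · intro i hi
        rw [if_neg]
        rintro rfl
        apply h4
        rwa [Nat.add_sub_cancel]
  · rw [zero_mul]
    apply Finset.sum_eq_zero
    intro i _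
    rw [if_neg]
    omega

/-- A complete filtered algebra generated by monomials which commute up to higher terms is left
noetherian. -/
theorem noeth (hF : Filt F) (hc : Compl (fun n => (F n).toAddSubgroup))
    (hsep : ∀ x, (∀ n, x ∈ F n) → x = 0) {d : ℕ} (b : Fin d → B) (hb : ∀ j, b j ∈ F 1)
    (gen : ∀ n x, x ∈ F n → ∃ f : MvPolynomial (Fin d) k, f.IsHomogeneous n ∧
      x - Mo b f ∈ F (n + 1)) : IsNoetherianRing B := by
  classical
  rw [isNoetherianRing_iff, isNoetherian_def]
  intro W
  let S : Set (MvPolynomial (Fin d) k) := {f | ∃ n, f.IsHomogeneous n ∧ ∃ w ∈ W, w ∈ F n ∧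
    w - Mo b f ∈ F (n + 1)}
  have hfg : (Submodule.span (MvPolynomial (Fin d) k) S).FG := IsNoetherian.noetherian _
  rw [Submodule.fg_span_iff_fg_span_finset_subset] at hfg
  obtain ⟨T, hTS, hT⟩ := hfg
  have hex : ∀ t : T, ∃ n, (t : MvPolynomial (Fin d) k).IsHomogeneous n ∧ ∃ w ∈ W, w ∈ F n ∧
    w - Mo b (t : MvPolynomial (Fin d) k) ∈ F (n + 1) := fun t => hTS t.2
  choose n hn w hw hwn hwt using hex
  let e := Finset.univ.sup n
  have he : ∀ t, n t ≤ e := fun t => Finset.le_sup (Finset.mem_univ t)
  have hmain : W = Submodule.span B (Set.range w) := by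
    apply approx hc (by rw [hF.zero]; rfl) (fun n x y hx => hF.mul_right y hx) (fun n => hF.anti n)
      hsep W w hw e
    intro N u hu huN
    obtain ⟨f, hf, huf⟩ := gen N u huN
    have hfS : f ∈ Submodule.span (MvPolynomial (Fin d) k) S :=
      Submodule.subset_span ⟨N, hf, u, hu, huN, huf⟩
    rw [hT, Submodule.mem_span_finset] at hfS
    obtain ⟨a, -, ha⟩ := hfS
    rw [← Finset.sum_coe_sort] at ha
    let c : T → MvPolynomial (Fin d) k := fun t =>
      if n t ≤ N then homogeneousComponent (N - n t) (a t) else 0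
    have hc1 : f = ∑ t : T, c t * (t : MvPolynomial (Fin d) k) := by
      have h1 : homogeneousComponent N f = f := by
        rw [homogeneousComponent_of_mem (show f ∈ homogeneousSubmodule (Fin d) k N from hf),
          if_pos rfl]
      rw [← h1, ← ha, map_sum]
      refine Finset.sum_congr rfl fun t _ => ?_
      rw [smul_eq_mul, comp_mul (hn t)]
    refine ⟨fun t => Mo b (c t), fun t => ?_, ?_⟩
    · change Mo b (c t) ∈ F (N - e)
      simp only [c]
      split_ifs with h
      · exact hF.le (Nat.sub_le_sub_left (he t) N)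
          (Mo_mem hF b hb (homogeneousComponent_isHomogeneous _ _))
      · rw [map_zero]; exact Submodule.zero_mem _
    · change u - ∑ t, Mo b (c t) * w t ∈ F (N + 1)
      have h2 : u - ∑ t, Mo b (c t) * w t = (u - Mo b f) -
          ∑ t : T, ((Mo b (c t) * Mo b (t : MvPolynomial (Fin d) k) - Mo b (c t * (t : MvPolynomial (Fin d) k))) +
            Mo b (c t) * (w t - Mo b (t : MvPolynomial (Fin d) k))) := by
        conv_rhs => rw [hc1]
        simp only [map_sum, Finset.sum_add_distrib, Finset.sum_sub_distrib, mul_sub]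
        abel
      rw [h2]
      refine Submodule.sub_mem _ huf (Submodule.sum_mem _ fun t _ => ?_)
      simp only [c]
      split_ifs with h
      · have e1 : N - n t + n t + 1 = N + 1 := by omega
        refine Submodule.add_mem _ ?_ ?_
        · have h3 := Mo_mul hF b hb (homogeneousComponent_isHomogeneous (N - n t) (a t)) (hn t)
          rwa [e1] at h3
        · have h3 := hF.mul _ _ _ _ (Mo_mem hF b hb
            (homogeneousComponent_isHomogeneous (N - n t) (a t))) (hwt t)
          rwa [← add_assoc, e1] at h3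
      · simp
  rw [hmain]
  exact Submodule.fg_span (Set.finite_range w)

end Pool.Agent.Helper93.IW
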