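import Pool.Agent.Helper93.IW.Rank
import Pool.Agent.Helper93.IW.Noeth

/-!
The completed group ring of a tower of finite quotients.
-/

set_option autoImplicit false

namespace Pool.Agent.Helper93.IW

open MvPolynomial

variable {G : Type} [Group G] (N : ℕ → Subgroup G) [∀ i, (N i).Normal]
  (hN : ∀ i, N (i + 1) ≤ N i)

/-- the transition map of the quotients -/
def qm (i : ℕ) : G ⧸ N (i + 1) →* G ⧸ N i :=
  QuotientGroup.map (N (i + 1)) (N i) (MonoidHom.id G) (by rw [Subgroup.comap_id]; exact hN i)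

theorem qm_mk (i : ℕ) (x : G) : qm N hN i (x : G ⧸ N (i + 1)) = (x : G ⧸ N i) := rfl

theorem qm_surj (i : ℕ) : Function.Surjective (qm N hN i) := by
  intro x
  obtain ⟨y, rfl⟩ := QuotientGroup.mk_surjective x
  exact ⟨y, rfl⟩

section ring

variable (K : Type) [CommRing K]

/-- the transition map of the group rings -/
noncomputable def tr (i : ℕ) : MonoidAlgebra K (G ⧸ N (i + 1)) →ₐ[K] MonoidAlgebra K (G ⧸ N i) :=
  MonoidAlgebra.mapDomainAlgHom K K (qm N hN i)

theorem tr_of (i : ℕ) (x : G ⧸ N (i + 1)) :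
    tr N hN K i (MonoidAlgebra.of K _ x) = MonoidAlgebra.of K _ (qm N hN i x) := by
  rw [tr, MonoidAlgebra.of_apply, MonoidAlgebra.of_apply]
  simp

/-- the completed group ring -/
noncomputable def Lim : Subalgebra K (∀ i, MonoidAlgebra K (G ⧸ N i)) where
  carrier := {x | ∀ i, tr N hN K i (x (i + 1)) = x i}
  mul_mem' {x y} hx hy i := by rw [Pi.mul_apply, Pi.mul_apply, map_mul, hx i, hy i]
  add_mem' {x y} hx hy i := by rw [Pi.add_apply, Pi.add_apply, map_add, hx i, hy i]
  algebraMap_mem' c i := by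
    rw [Pi.algebraMap_apply, Pi.algebraMap_apply, AlgHom.commutes]

/-- evaluation -/
noncomputable def ev (i : ℕ) : Lim N hN K →ₐ[K] MonoidAlgebra K (G ⧸ N i) :=
  (Pi.evalAlgHom K (fun i => MonoidAlgebra K (G ⧸ N i)) i).comp (Lim N hN K).val

theorem tr_ev (i : ℕ) (x : Lim N hN K) : tr N hN K i (ev N hN K (i + 1) x) = ev N hN K i x := x.2 i

theorem ev_ext {x y : Lim N hN K} (h : ∀ i, ev N hN K i x = ev N hN K i y) : x = y :=
  Subtype.ext (funext h)

/-- an element from its components -/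
def mkL (x : ∀ i, MonoidAlgebra K (G ⧸ N i)) (hx : ∀ i, tr N hN K i (x (i + 1)) = x i) :
    Lim N hN K := ⟨x, hx⟩

theorem ev_mkL (x : ∀ i, MonoidAlgebra K (G ⧸ N i)) (hx : ∀ i, tr N hN K i (x (i + 1)) = x i)
    (i : ℕ) : ev N hN K i (mkL N hN K x hx) = x i := rfl

/-- the group elements in the completed group ring -/
noncomputable def toLim : G →* Lim N hN K where
  toFun x := mkL N hN K (fun i => MonoidAlgebra.of K _ (x : G ⧸ N i)) (fun i => tr_of N hN K i _)
  map_one' := ev_ext N hN K fun i => by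
    rw [ev_mkL, map_one, QuotientGroup.mk_one, map_one]
  map_mul' x y := ev_ext N hN K fun i => by
    rw [map_mul, ev_mkL, ev_mkL, ev_mkL, QuotientGroup.mk_mul, map_mul]

theorem ev_toLim (i : ℕ) (x : G) :
    ev N hN K i (toLim N hN K x) = MonoidAlgebra.of K _ (x : G ⧸ N i) := rfl

theorem tr_surj (i : ℕ) : Function.Surjective (tr N hN K i) := by
  intro x
  induction x using MonoidAlgebra.induction_linear with
  | zero => exact ⟨0, map_zero _⟩
  | add x y hx hy =>
    obtain ⟨a, rfl⟩ := hx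
    obtain ⟨b, rfl⟩ := hy
    exact ⟨a + b, map_add _ _ _⟩
  | single q r =>
    obtain ⟨q', rfl⟩ := qm_surj N hN i q
    refine ⟨MonoidAlgebra.single q' r, ?_⟩
    rw [tr]
    simp

theorem ev_surj (i : ℕ) : Function.Surjective (ev N hN K i) := by
  intro x
  induction x using MonoidAlgebra.induction_linear with
  | zero => exact ⟨0, map_zero _⟩
  | add x y hx hy =>
    obtain ⟨a, rfl⟩ := hx
    obtain ⟨b, rfl⟩ := hy
    exact ⟨a + b, map_add _ _ _⟩
  | single q r =>
    obtain ⟨q', rfl⟩ := QuotientGroup.mk_surjective q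
    refine ⟨r • toLim N hN K q', ?_⟩
    rw [map_smul, ev_toLim, MonoidAlgebra.of_apply, MonoidAlgebra.smul_single, smul_eq_mul, mul_one]

end ring

section field

variable (k : Type) [Field k]

theorem tr_aug (i : ℕ) {x : MonoidAlgebra k (G ⧸ N (i + 1))} (hx : x ∈ aug k _) :
    tr N hN k i x ∈ aug k _ := by
  induction hx using Submodule.span_induction with
  | mem x hx =>
    obtain ⟨g, rfl⟩ := hx
    change tr N hN k i (MonoidAlgebra.of k _ g - 1) ∈ _
    rw [map_sub, tr_of, map_one]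
    exact sub_one_mem _
  | zero => rw [map_zero]; exact Submodule.zero_mem _
  | add x y _ _ hx hy => rw [map_add]; exact Submodule.add_mem _ hx hy
  | smul a x _ hx => rw [map_smul]; exact Submodule.smul_mem _ _ hx

theorem tr_Fil (i n : ℕ) {x : MonoidAlgebra k (G ⧸ N (i + 1))} (hx : x ∈ Fil k _ n) :
    tr N hN k i x ∈ Fil k _ n := by
  induction n generalizing x with
  | zero => rw [Fil_zero]; trivial
  | succ n ih =>
    rw [Fil_succ] at hx ⊢
    induction hx using Submodule.mul_induction_on' with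
    | mem_mul_mem u hu v hv =>
      rw [map_mul]
      exact Submodule.mul_mem_mul (ih hu) (tr_aug N hN k i hv)
    | add u _ v _ hu hv => rw [map_add]; exact Submodule.add_mem _ hu hv

/-- the filtration of the completed group ring -/
noncomputable def LF (n : ℕ) : Submodule k (Lim N hN k) where
  carrier := {x | ∀ i, ev N hN k i x ∈ Fil k _ n}
  add_mem' {x y} hx hy i := by rw [map_add]; exact Submodule.add_mem _ (hx i) (hy i)
  zero_mem' i := by rw [map_zero]; exact Submodule.zero_mem _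
  smul_mem' c x hx i := by rw [map_smul]; exact Submodule.smul_mem _ _ (hx i)

theorem mem_LF {n : ℕ} {x : Lim N hN k} : x ∈ LF N hN k n ↔ ∀ i, ev N hN k i x ∈ Fil k _ n := Iff.rfl

end field

theorem map_mo {B B' : Type} [Ring B] [Ring B'] (φ : B →+* B') {d : ℕ} (b : Fin d → B)
    (α : Fin d → ℕ) : φ (mo b α) = mo (fun j => φ (b j)) α := by
  rw [mo, mo, map_list_prod, List.map_ofFn]
  congr 1
  congr 1
  funext j
  simp

theorem map_Mo {k B B' : Type} [Field k] [Ring B] [Algebra k B] [Ring B'] [Algebra k B']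
    (φ : B →ₐ[k] B') {d : ℕ} (b : Fin d → B) (f : MvPolynomial (Fin d) k) :
    φ (Mo b f) = Mo (fun j => φ (b j)) f := by
  rw [f.as_sum, map_sum, map_sum, map_sum]
  refine Finset.sum_congr rfl fun α _ => ?_
  rw [Mo_monomial, Mo_monomial, map_smul]
  congr 1
  exact map_mo φ.toRingHom b α

section tower

variable {p d : ℕ} [Fact p.Prime] {g : Fin d → G}
  (hU : ∀ i, UF p d i (G ⧸ N i) (fun j => (g j : G ⧸ N i)))

include hU in
theorem exists_bound : ∃ M : ℕ → ℕ, Monotone M ∧ ∀ i, Fil (ZMod p) (G ⧸ N i) (M i) = ⊥ := by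
  have h1 : ∀ i, ∃ n, Fil (ZMod p) (G ⧸ N i) n = ⊥ := fun i => by
    have := (hU i).finite
    exact Fil_nilp (hU i).pgroup
  choose m hm using h1
  refine ⟨fun i => ∑ j ∈ Finset.range (i + 1), m j, ?_, ?_⟩
  · intro i j hij
    exact Finset.sum_le_sum_of_subset (Finset.range_subset_range.2 (by omega))
  · intro i
    rw [eq_bot_iff, ← hm i]
    exact Fil_le (Finset.single_le_sum (f := m) (fun _ _ => Nat.zero_le _)
      (Finset.mem_range.2 (Nat.lt_succ_self i)))

include hU in
theorem filt_LF : Filt (LF N hN (ZMod p)) where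
  zero := by
    rw [eq_top_iff]
    intro x _ i
    rw [Fil_zero]; trivial
  anti n x hx i := Fil_anti n (hx i)
  mul a b x y hx hy i := by rw [map_mul]; exact Fil_mul (hx i) (hy i)
  comm a b x y hx hy i := by
    rw [map_sub, map_mul, map_mul]
    exact (hU i).filt.comm a b _ _ (hx i) (hy i)

include hU in
theorem sep_LF (x : Lim N hN (ZMod p)) (hx : ∀ n, x ∈ LF N hN (ZMod p) n) : x = 0 := by
  obtain ⟨M, -, hM⟩ := exists_bound N hU
  apply ev_ext
  intro i
  have := hx (M i) i
  rw [hM i, Submodule.mem_bot] at this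
  rw [this, map_zero]

include hU in
theorem compl_LF : Compl (fun n => (LF N hN (ZMod p) n).toAddSubgroup) := by
  obtain ⟨M, hMm, hM⟩ := exists_bound N hU
  intro x hx
  have hx' : ∀ n i, ev N hN (ZMod p) i (x n) ∈ Fil (ZMod p) _ n := fun n => hx n
  have hzero : ∀ n i, M i ≤ n → ev N hN (ZMod p) i (x n) = 0 := by
    intro n i h
    have := Fil_le h (hx' n i)
    rwa [hM i, Submodule.mem_bot] at this
  have hsum : ∀ i m, M i ≤ m → ∑ n ∈ Finset.range m, ev N hN (ZMod p) i (x n) =
      ∑ n ∈ Finset.range (M i), ev N hN (ZMod p) i (x n) := by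
    intro i m h
    symm
    apply Finset.sum_subset (Finset.range_subset_range.2 h)
    intro n _ hn
    apply hzero
    rw [Finset.mem_range] at hn
    omega
  let s : Lim N hN (ZMod p) := mkL N hN (ZMod p)
    (fun i => ∑ n ∈ Finset.range (M i), ev N hN (ZMod p) i (x n)) (fun i => by
      rw [map_sum]
      simp only [tr_ev]
      exact hsum i (M (i + 1)) (hMm (Nat.le_succ i)))
  refine ⟨s, fun m => ?_⟩
  change ∀ i, ev N hN (ZMod p) i (s - ∑ n ∈ Finset.range m, x n) ∈ Fil (ZMod p) _ m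
  intro i
  rw [map_sub, map_sum]
  have hs : ev N hN (ZMod p) i s = ∑ n ∈ Finset.range (M i), ev N hN (ZMod p) i (x n) := rfl
  rw [hs]
  rcases le_total (M i) m with h | h
  · rw [hsum i m h, sub_self]
    exact Submodule.zero_mem _
  · rw [← Finset.sum_sdiff (Finset.range_subset_range.2 h), add_sub_cancel_right]
    refine Submodule.sum_mem _ fun n hn => ?_
    rw [Finset.mem_sdiff, Finset.mem_range, Finset.mem_range] at hn
    exact Fil_le (show m ≤ n by omega) (hx' n i)

/-- the generators -/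
noncomputable def LB (k : Type) [Field k] {d : ℕ} (g : Fin d → G) (j : Fin d) : Lim N hN k :=
  toLim N hN k (g j) - 1

theorem ev_LB (k : Type) [Field k] {d : ℕ} (g : Fin d → G) (i : ℕ) (j : Fin d) :
    ev N hN k i (LB N hN k g j) = bb k (fun j => (g j : G ⧸ N i)) j := by
  rw [LB, map_sub, ev_toLim, map_one, bb]

theorem ev_Mo (k : Type) [Field k] {d : ℕ} (g : Fin d → G) (i : ℕ) (f : MvPolynomial (Fin d) k) :
    ev N hN k i (Mo (LB N hN k g) f) = Mo (bb k (fun j => (g j : G ⧸ N i))) f := by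
  rw [map_Mo]
  congr 1

theorem tr_Mo (k : Type) [Field k] {d : ℕ} (g : Fin d → G) (i : ℕ) (f : MvPolynomial (Fin d) k) :
    tr N hN k i (Mo (bb k (fun j => (g j : G ⧸ N (i + 1)))) f) =
      Mo (bb k (fun j => (g j : G ⧸ N i))) f := by
  rw [← ev_Mo N hN, tr_ev, ev_Mo]

theorem finite_hom (n : ℕ) : Finite (homogeneousSubmodule (Fin d) (ZMod p) n) := by
  classical
  let φ : homogeneousSubmodule (Fin d) (ZMod p) n → ((Fin d → Fin (n + 1)) → ZMod p) :=
    fun f α => (f : MvPolynomial (Fin d) (ZMod p)).coeff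
      (Finsupp.equivFunOnFinite.symm (fun j => (α j : ℕ)))
  apply Finite.of_injective φ
  intro f f' h
  apply Subtype.ext
  apply MvPolynomial.ext
  intro γ
  by_cases hγ : ∀ j, γ j < n + 1
  · have h1 := congrFun h (fun j => ⟨γ j, hγ j⟩)
    have h2 : Finsupp.equivFunOnFinite.symm (fun j => γ j) = γ := by ext j; rfl
    simp only [φ, h2] at h1
    exact h1
  · push Not at hγ
    obtain ⟨j, hj⟩ := hγ
    have h3 : ∀ u : homogeneousSubmodule (Fin d) (ZMod p) n,
        (u : MvPolynomial (Fin d) (ZMod p)).coeff γ = 0 := by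
      intro u
      by_contra hne
      have h4 := sum_of_hom (show (u : MvPolynomial (Fin d) (ZMod p)).IsHomogeneous n from u.2)
        (mem_support_iff.2 hne)
      have h5 := Finset.single_le_sum (f := fun j => γ j) (fun _ _ => Nat.zero_le _)
        (Finset.mem_univ j)
      omega
    rw [h3, h3]

include hU in
theorem gen_LF (n : ℕ) (x : Lim N hN (ZMod p)) (hx : x ∈ LF N hN (ZMod p) n) :
    ∃ f : MvPolynomial (Fin d) (ZMod p), f.IsHomogeneous n ∧
      x - Mo (LB N hN (ZMod p) g) f ∈ LF N hN (ZMod p) (n + 1) := by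
  have h1 : ∀ i, ∃ f : homogeneousSubmodule (Fin d) (ZMod p) n,
      ev N hN (ZMod p) i x - Mo (bb (ZMod p) (fun j => (g j : G ⧸ N i)))
        (f : MvPolynomial (Fin d) (ZMod p)) ∈ Fil (ZMod p) _ (n + 1) := by
    intro i
    obtain ⟨f, hf, hf2⟩ := gen_Fil (hU i).filt (bb (ZMod p) (fun j => (g j : G ⧸ N i)))
      (bb_mem _ _) (hU i).gen n _ (hx i)
    exact ⟨⟨f, hf⟩, hf2⟩
  choose F hF using h1
  have hfin : Finite (homogeneousSubmodule (Fin d) (ZMod p) n) := finite_hom n
  obtain ⟨f, hf⟩ := Finite.exists_infinite_fiber F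
  have hdown : ∀ i m, ev N hN (ZMod p) (i + m) x - Mo (bb (ZMod p) (fun j => (g j : G ⧸ N (i + m))))
      (f : MvPolynomial (Fin d) (ZMod p)) ∈ Fil (ZMod p) _ (n + 1) →
      ev N hN (ZMod p) i x - Mo (bb (ZMod p) (fun j => (g j : G ⧸ N i)))
      (f : MvPolynomial (Fin d) (ZMod p)) ∈ Fil (ZMod p) _ (n + 1) := by
    intro i m
    induction m with
    | zero => exact id
    | succ m ih =>
      intro h
      apply ih
      have h' : ev N hN (ZMod p) (i + m + 1) x -
        Mo (bb (ZMod p) (fun j => (g j : G ⧸ N (i + m + 1)))) (f : MvPolynomial (Fin d) (ZMod p)) ∈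
          Fil (ZMod p) _ (n + 1) := h
      have h2 := tr_Fil N hN (ZMod p) (i + m) (n + 1) h'
      rwa [map_sub, tr_ev, tr_Mo] at h2
  refine ⟨f, f.2, fun i => ?_⟩
  rw [map_sub, ev_Mo]
  obtain ⟨j, hj, hij⟩ : ∃ j ∈ F ⁻¹' {f}, i ≤ j := by
    by_contra hne
    push Not at hne
    exact hf.not_finite ((Set.finite_Iio i).subset fun j hj => hne j hj)
  obtain ⟨m, rfl⟩ := Nat.exists_eq_add_of_le hij
  apply hdown i m
  have h3 := hF (i + m)
  have h4 : F (i + m) = f := hj
  rwa [h4] at h3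

include hU in
theorem noeth_LF : IsNoetherianRing (Lim N hN (ZMod p)) :=
  noeth (filt_LF N hN hU) (compl_LF N hN hU) (sep_LF N hN hU) (LB N hN (ZMod p) g)
    (fun j i => by rw [ev_LB]; exact bb_mem _ _ _) (gen_LF N hN hU)

end tower

end Pool.Agent.Helper93.IW
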