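import Pool.Agent.Helper93.IW.Cls2

/-!
Torsion-freeness, and integrality of the kernel dimensions over the complex group ring.
-/

set_option autoImplicit false
set_option linter.unusedSectionVars false

open scoped InnerProductSpace ENNReal ComplexOrder
open Filter Topology

namespace Pool.Agent.Helper93.IW

open Pool.Agent.H80R2
open Pool.Agent.H80R2.BC (L2 GMat vdim IsTr LInv Equi act kerA Coef)
open Pool.Agent.H812R3
open Pool.Agent.W656.VA
open Pool.Agent.TH107.AT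

section tf

variable {p : ℕ} [Fact p.Prime] {ν : Type} [Fintype ν] [DecidableEq ν]

theorem step_tf (hp2 : p ≠ 2) {ℓ : ℕ} (hℓ : ℓ.Prime) {j : ℕ} (u : GG p ν)
    (hu : u ∈ NG p ν j) (h1 : u ^ ℓ = 1) : u ∈ NG p ν (j + 1) := by
  rw [mem_NN] at hu ⊢
  obtain ⟨a, ha⟩ := hu
  have hpow : (((u ^ ℓ : GG p ν) : (Matrix ν ν ℤ_[p])ˣ) : Matrix ν ν ℤ_[p]) = 1 := by
    rw [h1]; rfl
  have hpinj : ∀ (m : ℕ) (x : Matrix ν ν ℤ_[p]), (p : Matrix ν ν ℤ_[p]) ^ m * x = 0 → x = 0 := by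
    intro m x hx
    ext b c
    have h2 := congrFun (congrFun hx b) c
    rw [natCast_pow_mul_apply] at h2
    have hp : (p : ℤ_[p]) ^ m ≠ 0 :=
      pow_ne_zero _ (by exact_mod_cast (Fact.out (p := p.Prime)).ne_zero)
    exact (mul_eq_zero.1 h2).resolve_left hp
  -- it is enough that `a` is divisible by `p`
  suffices h : ∃ b, a = (p : Matrix ν ν ℤ_[p]) * b by
    obtain ⟨b, rfl⟩ := h
    exact ⟨b, by rw [ha, ← mul_assoc, ← pow_succ]⟩
  by_cases hlp : ℓ = p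
  · subst hlp
    have hodd : Odd ℓ := hℓ.odd_of_ne_two hp2
    obtain ⟨q, hq⟩ := pow_sharp hodd (j := j + 1) (by omega) ha
    have h3 : (((u : (Matrix ν ν ℤ_[ℓ])ˣ) ^ ℓ : (Matrix ν ν ℤ_[ℓ])ˣ) : Matrix ν ν ℤ_[ℓ]) = 1 :=
      hpow
    rw [h3, add_assoc, left_eq_add, pow_succ _ (j + 1 + 1), mul_assoc, ← mul_add] at hq
    have h4 := hpinj _ _ hq
    exact ⟨-q, by rw [mul_neg]; exact eq_neg_of_add_eq_zero_left h4⟩
  · obtain ⟨q, hq⟩ := one_add_pow3 ((p : Matrix ν ν ℤ_[p]) ^ (j + 1) * a) ℓ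
    have h3 : (1 + (p : Matrix ν ν ℤ_[p]) ^ (j + 1) * a) ^ ℓ = 1 := by
      rw [← ha, ← Units.val_pow_eq_pow_val]
      exact hpow
    set P := (p : Matrix ν ν ℤ_[p]) with hP
    have h4 : ∃ e, (ℓ : Matrix ν ν ℤ_[p]) * a = P * e := by
      -- `P^(j+1) (ℓ a + C a P^(j+1) a + ...) = 0`
      have e1 : (P ^ (j + 1) * a) ^ 2 = P ^ (j + 1) * (P ^ (j + 1) * (a * a)) := by
        rw [pow_two]
        have := cen p (j + 1) a
        calc P ^ (j + 1) * a * (P ^ (j + 1) * a) = P ^ (j + 1) * (a * P ^ (j + 1)) * a := by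
              simp only [mul_assoc]
          _ = _ := by rw [← this]; simp only [mul_assoc]; rfl
      have e2 : (P ^ (j + 1) * a) ^ 3 = P ^ (j + 1) * (P ^ (j + 1) * (a * a) *
          (P ^ (j + 1) * a)) := by
        rw [pow_succ, e1]
        simp only [mul_assoc]
      rw [e2, e1] at hq
      have e3 : (ℓ : Matrix ν ν ℤ_[p]) * (P ^ (j + 1) * a) =
          P ^ (j + 1) * ((ℓ : Matrix ν ν ℤ_[p]) * a) := by
        rw [← mul_assoc, (Nat.cast_commute ℓ (P ^ (j + 1))).eq, mul_assoc]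
      have e4 : ((ℓ.choose 2 : ℕ) : Matrix ν ν ℤ_[p]) * (P ^ (j + 1) * (P ^ (j + 1) * (a * a))) =
          P ^ (j + 1) * (((ℓ.choose 2 : ℕ) : Matrix ν ν ℤ_[p]) * (P ^ (j + 1) * (a * a))) := by
        rw [← mul_assoc, (Nat.cast_commute (ℓ.choose 2) (P ^ (j + 1))).eq, mul_assoc]
      rw [h3, e3, e4, add_assoc, add_assoc, left_eq_add, mul_assoc (P ^ (j + 1)), ← mul_add,
        ← mul_add] at hq
      have h5 := hpinj _ _ hq
      refine ⟨-(((ℓ.choose 2 : ℕ) : Matrix ν ν ℤ_[p]) * (P ^ j * (a * a)) +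
        P ^ j * (a * a) * (P ^ (j + 1) * a) * q), ?_⟩
      rw [mul_neg]
      refine (eq_neg_of_add_eq_zero_left h5).trans ?_
      congr 1
      rw [mul_add, ← mul_assoc P, ← (Nat.cast_commute (ℓ.choose 2) P).eq]
      simp only [pow_succ', mul_assoc]
    obtain ⟨e, he⟩ := h4
    have hcop : Nat.Coprime ℓ p := (Nat.coprime_primes hℓ (Fact.out (p := p.Prime))).2 hlp
    have hbez : (ℓ : ℤ) * Nat.gcdA ℓ p + p * Nat.gcdB ℓ p = 1 := by
      rw [← Nat.gcd_eq_gcd_ab, hcop]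
      rfl
    have hbez' : (Nat.gcdA ℓ p : Matrix ν ν ℤ_[p]) * ℓ + P * (Nat.gcdB ℓ p : ℤ) = 1 := by
      have := congrArg (Int.cast : ℤ → Matrix ν ν ℤ_[p]) hbez
      push_cast at this
      rw [← (Int.cast_commute (Nat.gcdA ℓ p) ((ℓ : ℕ) : Matrix ν ν ℤ_[p])).eq] at this
      exact this
    refine ⟨(Nat.gcdA ℓ p : Matrix ν ν ℤ_[p]) * e + (Nat.gcdB ℓ p : Matrix ν ν ℤ_[p]) * a, ?_⟩
    calc a = ((Nat.gcdA ℓ p : Matrix ν ν ℤ_[p]) * ℓ + P * (Nat.gcdB ℓ p : ℤ)) * a := by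
          rw [hbez', one_mul]
      _ = (Nat.gcdA ℓ p : Matrix ν ν ℤ_[p]) * ((ℓ : Matrix ν ν ℤ_[p]) * a) +
          P * ((Nat.gcdB ℓ p : Matrix ν ν ℤ_[p]) * a) := by
        rw [add_mul, mul_assoc, mul_assoc]
      _ = _ := by
        rw [he, ← mul_assoc, (Int.cast_commute (Nat.gcdA ℓ p) P).eq, mul_add, mul_assoc]

theorem GG_tf (hp2 : p ≠ 2) (u : GG p ν) (n : ℕ) (hn : 0 < n) (h : u ^ n = 1) : u = 1 := by
  induction n using Nat.strong_induction_on generalizing u with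
  | _ n ih =>
    by_cases h1 : n = 1
    · rw [h1, pow_one] at h
      exact h
    · obtain ⟨ℓ, hℓ, m, rfl⟩ := Nat.exists_prime_and_dvd h1
      have hm : 0 < m := Nat.pos_of_mul_pos_left hn |> fun _ => by
        rcases Nat.eq_zero_or_pos m with h0 | h0
        · rw [h0, mul_zero] at hn; exact absurd hn (lt_irrefl _)
        · exact h0
      have hml : m < ℓ * m := by
        have := hℓ.two_le
        nlinarith
      have h2 : (u ^ m) ^ ℓ = 1 := by rw [← pow_mul, mul_comm, h]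
      have h3 : ∀ j, u ^ m ∈ NG p ν j := by
        intro j
        induction j with
        | zero =>
          rw [mem_NN]
          exact (u ^ m).2
        | succ j ihj => exact step_tf hp2 hℓ _ ihj h2
      have h4 : u ^ m = 1 := by
        by_contra hne
        obtain ⟨i, hi⟩ := (sep_GG (u ^ m) hne).exists
        apply hi
        rw [QuotientGroup.eq_one_iff]
        exact h3 i
      exact ih m hml u hm h4

theorem CR.tf {G : Type} [Group G] (hp2 : p ≠ 2) (h : CR ℤ_[p] (p : ℤ_[p]) G) :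
    ∀ g : G, ∀ n : ℕ, 0 < n → g ^ n = 1 → g = 1 := by
  intro g n hn hg
  by_contra hne
  obtain ⟨ν, i1, i2, ρ, hρ, hx⟩ := h g hne
  apply toGG_ne ρ hρ g hx
  exact GG_tf hp2 _ n hn (by rw [← map_pow, hg, map_one])

end tf

section final

variable {p : ℕ} [Fact p.Prime] {G : Type} [Group G]

theorem p_ne_zero : (p : ℤ_[p]) ≠ 0 := by
  exact_mod_cast (Fact.out (p := p.Prime)).ne_zero

/-- integer matrices -/
theorem CR.val_int (hp2 : p ≠ 2) (h : CR ℤ_[p] (p : ℤ_[p]) G) (v : ℝ)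
    (hv : Val (Int.castRingHom ℂ).range G v) : ∃ z : ℤ, v = z := by
  obtain ⟨m, n, A, hA, rfl⟩ := hv
  let X : Matrix (Fin n) (Fin m) (MonoidAlgebra ℂ G) :=
    Matrix.of fun k i => MonoidAlgebra.ofCoeff (A k i)
  have hX : Itg X := by
    intro k i g
    obtain ⟨z, hz⟩ := hA k i g
    exact ⟨z, hz.symm⟩
  obtain ⟨z, hz⟩ := h.int hp2 X hX
  refine ⟨z, ?_⟩
  rw [← hz, kr_mop]
  rfl

/-- complex matrices -/
theorem CR.val_int' (hp2 : p ≠ 2) (h : CR ℤ_[p] (p : ℤ_[p]) G) (v : ℝ)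
    (hv : Val (⊤ : Subring ℂ) G v) : ∃ z : ℤ, v = z := by
  have h1 := base_change (fun G _ => CR ℤ_[p] (p : ℤ_[p]) G)
    (fun G H _ _ hG hH => CR.prod hG hH)
    (fun G _ m hG => CR_free m p_ne_zero hG) (Int.castRingHom ℂ).range (by
      intro G _ hG d hd v hv
      obtain ⟨z, hz⟩ := CR.val_int hp2 hG v hv
      exact ⟨d * z, by rw [hz]; push_cast; ring⟩) ⊤ G h 1 (isLcm_one (h.tf hp2)) v hv
  obtain ⟨z, hz⟩ := h1
  exact ⟨z, by rw [← hz]; simp⟩

/-- **The strong Atiyah conjecture over the complex numbers.** -/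
theorem CR.dim_int {ι κ : Type} [Fintype ι] [Fintype κ] (hp2 : p ≠ 2)
    (h : CR ℤ_[p] (p : ℤ_[p]) G) (A : GMat κ ι G) : ∃ z : ℤ, vdim (kerA A) = z :=
  h.val_int' hp2 _ (val_of A fun _ _ _ => Subring.mem_top _)

/-- finite extensions -/
theorem CR.dim_fi {ι κ : Type} [Fintype ι] [Fintype κ] (hp2 : p ≠ 2) (H : Subgroup G)
    [Finite (G ⧸ H)] (h : CR ℤ_[p] (p : ℤ_[p]) H) (A : GMat κ ι G) :
    ∃ z : ℤ, (H.index : ℝ) * vdim (kerA A) = z := by
  classical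
  have : Fintype (G ⧸ H) := Fintype.ofFinite _
  obtain ⟨z, hz⟩ := h.dim_int hp2 (res H A)
  refine ⟨z, ?_⟩
  rw [← hz, vdim_res, Subgroup.index, Nat.card_eq_fintype_card]

end final

end Pool.Agent.Helper93.IW
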