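import Mathlib

/-!
Number theory for the Minkowski bound.
-/

set_option autoImplicit false

namespace Pool.Agent.Helper93.IW

/-- the exponent of the prime `l` in the Minkowski number -/
def mE (l n : ℕ) : ℕ := n / (l - 1) + padicValNat l (n / (l - 1)).factorial

theorem dvd_iff_zmod (m p i : ℕ) (hp : 0 < p) : m ∣ p ^ i - 1 ↔ (p : ZMod m) ^ i = 1 := by
  have h1 : 1 ≤ p ^ i := Nat.one_le_pow _ _ hp
  rw [← ZMod.natCast_eq_zero_iff, Nat.cast_sub h1, sub_eq_zero, Nat.cast_pow, Nat.cast_one]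

/-- primes with small valuations, odd case -/
theorem exists_prime_odd (l : ℕ) (hl : l.Prime) (hl2 : l ≠ 2) (B : ℕ) :
    ∃ p, B < p ∧ p.Prime ∧ p ≠ l ∧ ∀ i, 0 < i → padicValNat l (p ^ i - 1) =
      if (l - 1) ∣ i then 1 + padicValNat l (i / (l - 1)) else 0 := by
  have : Fact l.Prime := ⟨hl⟩
  have hodd : Odd l := hl.odd_of_ne_two hl2
  have hl1 : 0 < l - 1 := by have := hl.two_le; omega
  have hne : NeZero (l ^ 2) := ⟨pow_ne_zero _ hl.ne_zero⟩
  have hcyc := ZMod.isCyclic_units_of_prime_pow l hl hl2 2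
  obtain ⟨u, hu⟩ := hcyc.exists_generator
  have hord : orderOf u = l * (l - 1) := by
    rw [orderOf_eq_card_of_forall_mem_zpowers hu, Nat.card_eq_fintype_card,
      ZMod.card_units_eq_totient, Nat.totient_prime_pow hl (by norm_num)]
    norm_num
  obtain ⟨p, hpB, hp, hpu⟩ := Nat.forall_exists_prime_gt_and_eq_mod (q := l ^ 2) u.isUnit (max B l)
  have hpl : p ≠ l := by
    have := le_max_right B l
    omega
  have hlp : ¬ l ∣ p := fun h => hpl ((Nat.prime_dvd_prime_iff_eq hl hp).1 h).symm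
  have hlpi : ∀ i, ¬ l ∣ p ^ i := fun i h => hlp (hl.dvd_of_dvd_pow h)
  have hsq : ∀ i, l ^ 2 ∣ p ^ i - 1 ↔ l * (l - 1) ∣ i := by
    intro i
    rw [dvd_iff_zmod _ _ _ hp.pos, hpu, ← Units.val_pow_eq_pow_val, Units.val_eq_one, ← hord,
      orderOf_dvd_iff_pow_eq_one]
  have hpow1 : ∀ i, 0 < i → 1 < p ^ i := fun i hi => Nat.one_lt_pow hi.ne' hp.one_lt
  have hone : ∀ i, 0 < i → (l ∣ p ^ i - 1 ↔ (l - 1) ∣ i) := by
    intro i hi
    constructor
    · intro h
      have h1 := padicValNat.pow_sub_pow (p := l) hodd (x := p ^ i) (y := 1) (hpow1 i hi) h (hlpi i)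
        (n := l) hl.ne_zero
      rw [one_pow, ← pow_mul, padicValNat_self] at h1
      have h2 : 1 ≤ padicValNat l (p ^ i - 1) :=
        one_le_padicValNat_of_dvd (by have := hpow1 i hi; omega) h
      have h3 : l ^ 2 ∣ p ^ (i * l) - 1 := by
        rw [padicValNat_dvd_iff_le (by
          have := hpow1 (i * l) (Nat.mul_pos hi hl.pos)
          omega)]
        omega
      rw [hsq, mul_comm i l] at h3
      exact Nat.dvd_of_mul_dvd_mul_left hl.pos h3
    · rintro ⟨j, rfl⟩
      rw [dvd_iff_zmod _ _ _ hp.pos, pow_mul]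
      have h1 : (p : ZMod l) ≠ 0 := by
        rw [Ne, ZMod.natCast_eq_zero_iff]
        exact hlp
      rw [ZMod.pow_card_sub_one_eq_one h1, one_pow]
  have hval : padicValNat l (p ^ (l - 1) - 1) = 1 := by
    have h1 : l ∣ p ^ (l - 1) - 1 := (hone _ hl1).2 dvd_rfl
    have h0 : p ^ (l - 1) - 1 ≠ 0 := by have := hpow1 _ hl1; omega
    have h2 : 1 ≤ padicValNat l (p ^ (l - 1) - 1) := one_le_padicValNat_of_dvd h0 h1
    by_contra hcon
    have h3 : l ^ 2 ∣ p ^ (l - 1) - 1 := by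
      rw [padicValNat_dvd_iff_le h0]
      omega
    rw [hsq] at h3
    have h4 := Nat.le_of_dvd hl1 h3
    have := hl.two_le
    nlinarith
  refine ⟨p, lt_of_le_of_lt (le_max_left _ _) hpB, hp, hpl, ?_⟩
  intro i hi
  split_ifs with h
  · obtain ⟨j, rfl⟩ := h
    have hj : j ≠ 0 := by rintro rfl; simp at hi
    have h1 := padicValNat.pow_sub_pow (p := l) hodd (x := p ^ (l - 1)) (y := 1)
      (hpow1 _ hl1) ((hone _ hl1).2 dvd_rfl) (hlpi _) (n := j) hj
    rw [one_pow, ← pow_mul, hval] at h1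
    rw [h1, Nat.mul_div_cancel_left _ hl1]
  · apply padicValNat.eq_zero_of_not_dvd
    intro h2
    exact h ((hone i hi).1 h2)

theorem exists_prime_two (B : ℕ) :
    ∃ p, B < p ∧ p.Prime ∧ p ≠ 2 ∧ ∀ i, 0 < i → padicValNat 2 (p ^ i - 1) =
      if 2 ∣ i then 2 + padicValNat 2 i else 1 := by
  obtain ⟨p, hpB, hp, hp8⟩ := Nat.forall_exists_prime_gt_and_modEq (max B 2) (q := 8) (a := 3)
    (by norm_num) (by norm_num)
  have hp2 : p ≠ 2 := by
    have := le_max_right B 2
    omega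
  have hmod : p % 8 = 3 := hp8
  have h2p : ¬ 2 ∣ p := by omega
  have hplus : padicValNat 2 (p + 1) = 2 := by
    have h1 : 2 ^ 2 ∣ p + 1 := by norm_num; omega
    have h2 : ¬ 2 ^ 3 ∣ p + 1 := by norm_num; omega
    rw [padicValNat_dvd_iff_le (by omega)] at h1 h2
    omega
  have hminus : padicValNat 2 (p - 1) = 1 := by
    have h1 : 2 ^ 1 ∣ p - 1 := by norm_num; omega
    have h2 : ¬ 2 ^ 2 ∣ p - 1 := by norm_num; omega
    rw [padicValNat_dvd_iff_le (by omega)] at h1 h2
    omega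
  refine ⟨p, lt_of_le_of_lt (le_max_left _ _) hpB, hp, hp2, ?_⟩
  intro i hi
  split_ifs with h
  · have h1 := padicValNat.pow_two_sub_one hp.one_lt h2p hi.ne' (even_iff_two_dvd.2 h)
    rw [hplus, hminus] at h1
    omega
  · have h3 : p ^ i % 4 = 3 := by
      have h4 : p % 4 = 3 := by omega
      obtain ⟨j, rfl⟩ : ∃ j, i = 2 * j + 1 := ⟨i / 2, by omega⟩
      rw [pow_succ, pow_mul, Nat.mul_mod, Nat.pow_mod, Nat.pow_mod p, h4]
      norm_num
    have h0 : p ^ i - 1 ≠ 0 := by omega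
    have h1 : 2 ^ 1 ∣ p ^ i - 1 := by norm_num; omega
    have h2 : ¬ 2 ^ 2 ∣ p ^ i - 1 := by norm_num; omega
    rw [padicValNat_dvd_iff_le h0] at h1 h2
    omega

theorem sum_odd (l : ℕ) (hl : l.Prime) (n : ℕ) :
    ∑ i ∈ Finset.range n, (if (l - 1) ∣ i + 1 then 1 + padicValNat l ((i + 1) / (l - 1)) else 0) =
      mE l n := by
  have : Fact l.Prime := ⟨hl⟩
  have hl1 : 0 < l - 1 := by have := hl.two_le; omega
  induction n with
  | zero => simp [mE]
  | succ n ih =>
    rw [Finset.sum_range_succ, ih, mE, mE, Nat.succ_div]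
    split_ifs with h
    · rw [Nat.factorial_succ, padicValNat.mul (Nat.succ_ne_zero _) (Nat.factorial_ne_zero _)]
      ring
    · rfl

theorem sum_two (n : ℕ) :
    ∑ i ∈ Finset.range n, (if 2 ∣ i + 1 then 2 + padicValNat 2 (i + 1) else 1) =
      n / 2 + mE 2 n := by
  induction n with
  | zero => simp [mE]
  | succ n ih =>
    have e1 : ∀ m : ℕ, m / (2 - 1) = m := fun m => Nat.div_one m
    have e2 : (n + 1) / 2 = n / 2 + if 2 ∣ n + 1 then 1 else 0 := Nat.succ_div
    rw [Finset.sum_range_succ, ih, mE, mE, e2, e1, e1, Nat.factorial_succ, padicValNat.mul (by omega) (Nat.factorial_ne_zero _)]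
    split_ifs with h
    · ring
    · have h1 : padicValNat 2 (n + 1) = 0 := padicValNat.eq_zero_of_not_dvd h
      rw [h1]
      ring

/-- the valuation of the order of the general linear group -/
theorem val_GL (l p n : ℕ) (hl : l.Prime) [Fact p.Prime] (hlp : p ≠ l) :
    (Nat.card (Matrix.GeneralLinearGroup (Fin n) (ZMod p))).factorization l =
      ∑ i ∈ Finset.range n, padicValNat l (p ^ (i + 1) - 1) := by
  have hp : p.Prime := Fact.out
  have hF : Fact l.Prime := ⟨hl⟩
  rw [Matrix.card_GL_field, ZMod.card, Fin.prod_univ_eq_prod_range (fun i => p ^ n - p ^ i) n]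
  have h1 : ∀ i ∈ Finset.range n, p ^ n - p ^ i = p ^ i * (p ^ (n - 1 - i + 1) - 1) := by
    intro i hi
    rw [Finset.mem_range] at hi
    rw [Nat.mul_sub, mul_one, ← pow_add]
    congr 2
    omega
  rw [Finset.prod_congr rfl h1]
  have h0 : ∀ i, p ^ (i + 1) - 1 ≠ 0 := by
    intro i
    have : 1 < p ^ (i + 1) := Nat.one_lt_pow (Nat.succ_ne_zero i) hp.one_lt
    omega
  rw [Nat.factorization_prod (fun i _ => mul_ne_zero (pow_ne_zero _ hp.ne_zero) (h0 _)),
    Finset.sum_apply']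
  have h2 : ∀ i ∈ Finset.range n, (p ^ i * (p ^ (n - 1 - i + 1) - 1)).factorization l =
      padicValNat l (p ^ (n - 1 - i + 1) - 1) := by
    intro i _
    rw [Nat.factorization_mul (pow_ne_zero _ hp.ne_zero) (h0 _), Finsupp.add_apply,
      Nat.factorization_def _ hl, Nat.factorization_def _ hl]
    have h3 : padicValNat l (p ^ i) = 0 := by
      apply padicValNat.eq_zero_of_not_dvd
      intro h4
      exact hlp ((Nat.prime_dvd_prime_iff_eq hl hp).1 (hl.dvd_of_dvd_pow h4)).symm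
    rw [h3, zero_add]
  rw [Finset.sum_congr rfl h2]
  exact Finset.sum_range_reflect (fun i => padicValNat l (p ^ (i + 1) - 1)) n

/-- the Minkowski number -/
def mink (n : ℕ) : ℕ := ∏ l ∈ (Finset.range (n + 2)).filter Nat.Prime, l ^ mE l n

theorem mink_ne_zero (n : ℕ) : mink n ≠ 0 := by
  rw [mink]
  apply Finset.prod_ne_zero_iff.2
  intro l hl
  exact pow_ne_zero _ (Finset.mem_filter.1 hl).2.ne_zero

theorem mink_fact (n l : ℕ) (hl : l.Prime) : (mink n).factorization l = mE l n := by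
  rw [mink, Nat.factorization_prod (fun q hq =>
    pow_ne_zero _ (Finset.mem_filter.1 hq).2.ne_zero), Finset.sum_apply']
  have h1 : ∀ q ∈ (Finset.range (n + 2)).filter Nat.Prime,
      (q ^ mE q n).factorization l = if q = l then mE l n else 0 := by
    intro q hq
    rw [(Finset.mem_filter.1 hq).2.factorization_pow, Finsupp.single_apply]
    split_ifs with h
    · rw [h]
    · rfl
  rw [Finset.sum_congr rfl h1, Finset.sum_ite_eq']
  split_ifs with h
  · rfl
  · have h2 : n + 2 ≤ l := by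
      by_contra hcon
      exact h (Finset.mem_filter.2 ⟨Finset.mem_range.2 (by omega), hl⟩)
    have h3 : n / (l - 1) = 0 := Nat.div_eq_of_lt (by omega)
    rw [mE, h3]
    simp

theorem const_fact (n l : ℕ) (hl : l.Prime) : (2 ^ (n / 2) * mink n).factorization l =
    (if l = 2 then n / 2 else 0) + mE l n := by
  rw [Nat.factorization_mul (by positivity) (mink_ne_zero n), Finsupp.add_apply, mink_fact n l hl,
    Nat.prime_two.factorization_pow, Finsupp.single_apply]
  congr 1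
  by_cases h : l = 2
  · rw [if_pos h, if_pos h.symm]
  · rw [if_neg h, if_neg (Ne.symm h)]

/-- **The choice of the primes.** -/
theorem exists_good_prime (n l : ℕ) (hl : l.Prime) (B : ℕ) :
    ∃ p, B < p ∧ ∃ _ : Fact p.Prime,
      (Nat.card (Matrix.GeneralLinearGroup (Fin n) (ZMod p))).factorization l ≤
        (2 ^ (n / 2) * mink n).factorization l := by
  by_cases h2 : l = 2
  · subst h2
    obtain ⟨p, hpB, hp, hp2, hv⟩ := exists_prime_two B
    refine ⟨p, hpB, ⟨hp⟩, ?_⟩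
    have : Fact p.Prime := ⟨hp⟩
    rw [val_GL 2 p n hl hp2, const_fact n 2 hl, if_pos rfl, ← sum_two]
    exact le_of_eq (Finset.sum_congr rfl fun i _ => hv (i + 1) (Nat.succ_pos i))
  · obtain ⟨p, hpB, hp, hpl, hv⟩ := exists_prime_odd l hl h2 B
    refine ⟨p, hpB, ⟨hp⟩, ?_⟩
    have : Fact p.Prime := ⟨hp⟩
    rw [val_GL l p n hl hpl, const_fact n l hl, if_neg h2, zero_add, ← sum_odd l hl]
    exact le_of_eq (Finset.sum_congr rfl fun i _ => hv (i + 1) (Nat.succ_pos i))

/-- combining the bounds for the different primes -/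
theorem combine (v : ℝ) (C : ℕ) (hC : C ≠ 0)
    (h : ∀ l : ℕ, l.Prime → ∃ D : ℕ, D ≠ 0 ∧ D.factorization l ≤ C.factorization l ∧
      ∃ z : ℤ, (D : ℝ) * v = z) : ∃ z : ℤ, (C : ℝ) * v = z := by
  obtain ⟨D, hD, -, z, hz⟩ := h 2 Nat.prime_two
  obtain ⟨q, hq⟩ : ∃ q : ℚ, v = (q : ℝ) := by
    refine ⟨z / D, ?_⟩
    have hD' : (D : ℝ) ≠ 0 := by exact_mod_cast hD
    push_cast
    rw [eq_div_iff hD', mul_comm]
    exact hz
  subst hq
  have hden : ∀ E : ℕ, (∃ z : ℤ, (E : ℝ) * q = z) → q.den ∣ E := by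
    rintro E ⟨z, hz⟩
    have h1 : (E : ℚ) * q = z := by exact_mod_cast hz
    have h2 : (E : ℤ) * q.num = z * q.den := by
      have h3 : (E : ℚ) * q.num = z * q.den := by
        rw [← h1, mul_assoc, Rat.mul_den_eq_num]
      exact_mod_cast h3
    have h4 : (q.den : ℤ) ∣ E * q.num := ⟨z, by rw [h2]; ring⟩
    have h5 : IsCoprime (q.den : ℤ) q.num := by
      rw [Int.isCoprime_iff_nat_coprime]
      simpa using q.reduced.symm
    exact_mod_cast h5.dvd_of_dvd_mul_right h4
  have hdC : q.den ∣ C := by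
    rw [← Nat.factorization_prime_le_iff_dvd q.den_nz hC]
    intro l hl
    obtain ⟨E, hE, hle, hz⟩ := h l hl
    exact ((Nat.factorization_le_iff_dvd q.den_nz hE).2 (hden E hz) l).trans hle
  obtain ⟨k, hk⟩ := hdC
  refine ⟨k * q.num, ?_⟩
  have h6 : (C : ℚ) * q = k * q.num := by
    rw [hk]
    push_cast
    rw [mul_comm (q.den : ℚ) k, mul_assoc, mul_comm (q.den : ℚ) q, Rat.mul_den_eq_num]
  exact_mod_cast h6

end Pool.Agent.Helper93.IW
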