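import Pool.Agent.Helper93.IW.Mink
import Pool.Agent.Helper93.IW.Idx

/-!
The action on the abelianisation modulo torsion.
-/

set_option autoImplicit false

namespace Pool.Agent.Helper93.IW

section lin

variable {H : Type} [Group H]

/-- the class in the abelianisation -/
def cls (h : H) : Additive (Abelianization H) := Additive.ofMul (Abelianization.of h)

theorem cls_surj (x : Additive (Abelianization H)) : ∃ h : H, cls h = x := by
  obtain ⟨h, hh⟩ := QuotientGroup.mk_surjective (Additive.toMul x)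
  exact ⟨h, hh⟩

theorem cls_mul (h k : H) : cls (h * k) = cls h + cls k := by
  rw [cls, map_mul]
  rfl

theorem cls_inv (h : H) : cls h⁻¹ = - cls h := by
  rw [cls, map_inv]
  rfl

theorem cls_pow (h : H) (n : ℕ) : cls (h ^ n) = n • cls h := by
  rw [cls, map_pow]
  rfl

theorem cls_eq (h k : H) (e : cls h = cls k) : h * k⁻¹ ∈ commutator H := by
  have h1 : Abelianization.of (h * k⁻¹) = 1 := by
    have h2 : Abelianization.of h = Abelianization.of k := e
    rw [map_mul, map_inv, h2, mul_inv_cancel]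
  have h3 : h * k⁻¹ ∈ (Abelianization.of : H →* Abelianization H).ker := h1
  rwa [Abelianization.ker_of] at h3

variable {G : Type} [Group G] (act : G →* MulAut H)

/-- the action on the abelianisation -/
noncomputable def aa (g : G) : Additive (Abelianization H) →ₗ[ℤ] Additive (Abelianization H) :=
  (MonoidHom.toAdditive (Abelianization.map (act g).toMonoidHom)).toIntLinearMap

theorem aa_cls (g : G) (h : H) : aa act g (cls h) = cls (act g h) := rfl

theorem aa_mul (g g' : G) (x : Additive (Abelianization H)) :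
    aa act (g * g') x = aa act g (aa act g' x) := by
  obtain ⟨h, rfl⟩ := cls_surj x
  rw [aa_cls, aa_cls, aa_cls, map_mul]
  rfl

theorem aa_one (x : Additive (Abelianization H)) : aa act 1 x = x := by
  obtain ⟨h, rfl⟩ := cls_surj x
  rw [aa_cls, map_one]
  rfl

variable {n : ℕ} (F : Additive (Abelianization H) →ₗ[ℤ] (Fin n → ℤ))
  (s : (Fin n → ℤ) →ₗ[ℤ] Additive (Abelianization H)) (hs : ∀ v, F (s v) = v) {N : ℕ}
  (hN : 0 < N) (hF : ∀ x, F x = 0 → N • x = 0)

include hN hF in
theorem F_aa (g : G) (x : Additive (Abelianization H)) (hx : F x = 0) : F (aa act g x) = 0 := by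
  have h1 : N • F (aa act g x) = 0 := by
    rw [← map_nsmul, ← map_nsmul, hF x hx, map_zero, map_zero]
  funext i
  have h2 : N • F (aa act g x) i = 0 := congrFun h1 i
  rw [nsmul_eq_mul] at h2
  exact (mul_eq_zero.1 h2).resolve_left (by exact_mod_cast hN.ne')

include hs hN hF in
theorem F_aa' (g : G) (x : Additive (Abelianization H)) :
    F (aa act g x) = F (aa act g (s (F x))) := by
  have h1 : F (aa act g (x - s (F x))) = 0 := by
    apply F_aa act F hN hF
    rw [map_sub, hs, sub_self]
  rw [map_sub, map_sub, sub_eq_zero] at h1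
  exact h1

/-- the integral representation -/
noncomputable def Ahat : G →* Module.End ℤ (Fin n → ℤ) where
  toFun g := F ∘ₗ aa act g ∘ₗ s
  map_one' := by
    ext1 i
    apply LinearMap.ext
    intro v
    change F (aa act 1 (s _)) = _
    rw [aa_one, hs]
    rfl
  map_mul' g g' := by
    apply LinearMap.ext
    intro v
    change F (aa act (g * g') (s v)) = F (aa act g (s (F (aa act g' (s v)))))
    rw [aa_mul, F_aa' act F s hs hN hF]

theorem Ahat_apply (g : G) (v : Fin n → ℤ) :
    Ahat act F s hs hN hF g v = F (aa act g (s v)) := rfl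

/-- the representation modulo `p` -/
noncomputable def theta (p : ℕ) [Fact p.Prime] :
    G →* Matrix.GeneralLinearGroup (Fin n) (ZMod p) :=
  MonoidHom.toHomUnits (((Int.castRingHom (ZMod p)).mapMatrix.toMonoidHom).comp
    (((LinearMap.toMatrixAlgEquiv' : Module.End ℤ (Fin n → ℤ) ≃ₐ[ℤ] _).toAlgHom :
      Module.End ℤ (Fin n → ℤ) →* _).comp (Ahat act F s hs hN hF)))

theorem theta_ker (p : ℕ) [Fact p.Prime] (g : G)
    (hg : theta act F s hs hN hF p g = 1) (v : Fin n → ℤ) :
    ∃ w, F (aa act g (s v)) = v + p • w := by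
  set T := LinearMap.toMatrixAlgEquiv' (Ahat act F s hs hN hF g) with hT
  have h1 : (Int.castRingHom (ZMod p)).mapMatrix T = 1 := congrArg Units.val hg
  have h2 : ∀ i j, ∃ c : ℤ, T i j = (1 : Matrix (Fin n) (Fin n) ℤ) i j + p * c := by
    intro i j
    have h3 : ((T i j : ℤ) : ZMod p) = (1 : Matrix (Fin n) (Fin n) (ZMod p)) i j :=
      congrFun (congrFun h1 i) j
    have h4 : ((T i j - (1 : Matrix (Fin n) (Fin n) ℤ) i j : ℤ) : ZMod p) = 0 := by
      push_cast
      rw [h3, Matrix.one_apply, Matrix.one_apply]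
      split_ifs <;> simp
    rw [ZMod.intCast_zmod_eq_zero_iff_dvd] at h4
    obtain ⟨c, hc⟩ := h4
    exact ⟨c, by rw [← hc]; ring⟩
  choose c hc using h2
  have h5 : T = 1 + p • Matrix.of c := by
    ext i j
    rw [hc, Matrix.add_apply, Matrix.smul_apply, nsmul_eq_mul, Matrix.of_apply]
  refine ⟨(Matrix.of c).mulVec v, ?_⟩
  have h6 : Ahat act F s hs hN hF g = Matrix.toLinAlgEquiv' T := by
    rw [hT, Matrix.toLinAlgEquiv'_toMatrixAlgEquiv']
  rw [← Ahat_apply act F s hs hN hF, h6, Matrix.toLinAlgEquiv'_apply, h5, Matrix.add_mulVec,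
    Matrix.one_mulVec, Matrix.smul_mulVec]

theorem ker_le (p : ℕ) [Fact p.Prime] (hpN : Nat.Coprime N p) (g : G)
    (hg : theta act F s hs hN hF p g = 1) (h : H) : act g h * h⁻¹ ∈ Dp H p := by
  set x := cls h with hx
  obtain ⟨w, hw⟩ := theta_ker act F s hs hN hF p g hg (F x)
  rw [← F_aa' act F s hs hN hF] at hw
  set y := (aa act g x - x) - p • s w with hy
  have h1 : F y = 0 := by
    rw [hy, map_sub, map_sub, map_nsmul, hs, hw]
    abel
  have h2 := hF y h1
  have hbez : (N : ℤ) * Nat.gcdA N p + p * Nat.gcdB N p = 1 := by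
    rw [← Nat.gcd_eq_gcd_ab, hpN]
    rfl
  have h3 : y = (p : ℤ) • ((Nat.gcdB N p) • y) := by
    have h4 : y = ((N : ℤ) * Nat.gcdA N p + p * Nat.gcdB N p) • y := by rw [hbez, one_smul]
    have h5 : (N : ℤ) • y = 0 := by rw [natCast_zsmul, h2]
    conv_lhs => rw [h4]
    rw [add_smul, mul_comm (N : ℤ), mul_smul, h5, smul_zero, zero_add, mul_smul]
  obtain ⟨k, hk⟩ := cls_surj (s w + (Nat.gcdB N p) • y)
  have h6 : cls (act g h * h⁻¹) = cls (k ^ p) := by
    rw [cls_mul, cls_inv, cls_pow, hk, ← aa_cls, ← hx, smul_add, ← natCast_zsmul _ p,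
      ← natCast_zsmul _ p, ← h3, hy, natCast_zsmul]
    abel
  have h7 := cls_eq _ _ h6
  have h8 := Subgroup.mul_mem _ (comm_mem_Dp (p := p) h7) (pow_mem_Dp (p := p) k)
  rwa [inv_mul_cancel_right] at h8

include F s hs hN hF in
theorem index_dvd (p : ℕ) [Fact p.Prime] (hpN : Nat.Coprime N p) (L : Subgroup G)
    (hL : ∀ g : G, g ∈ L ↔ ∀ h : H, act g h * h⁻¹ ∈ Dp H p) :
    L.index ∣ Nat.card (Matrix.GeneralLinearGroup (Fin n) (ZMod p)) := by
  have h1 : (theta act F s hs hN hF p).ker ≤ L := by
    intro g hg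
    rw [hL]
    exact ker_le act F s hs hN hF p hpN g hg
  refine (Subgroup.index_dvd_of_le h1).trans ?_
  rw [Subgroup.index_ker]
  exact Subgroup.card_subgroup_dvd_card _

end lin

section exist

variable (H : Type) [Group H] [Group.FG H]

theorem exists_F : ∃ (F : Additive (Abelianization H) →ₗ[ℤ]
      (Fin (Module.finrank ℤ (Additive (Abelianization H))) → ℤ))
    (s : (Fin (Module.finrank ℤ (Additive (Abelianization H))) → ℤ) →ₗ[ℤ]
      Additive (Abelianization H)) (N : ℕ),
    (∀ v, F (s v) = v) ∧ 0 < N ∧ ∀ x, F x = 0 → N • x = 0 := by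
  set M := Additive (Abelianization H) with hM
  have hfg : Group.FG (Abelianization H) :=
    Group.fg_of_surjective (f := (Abelianization.of : H →* Abelianization H))
      QuotientGroup.mk_surjective
  have hfin : Module.Finite ℤ M := by
    rw [Module.Finite.iff_addGroup_fg]
    exact GroupFG.iff_add_fg.1 hfg
  set T := Submodule.torsion ℤ M with hT
  have hTF : Module.IsTorsionFree ℤ (M ⧸ T) := inferInstance
  have hfree : Module.Free ℤ (M ⧸ T) := inferInstance
  have hTt : Module.IsTorsion ℤ T := Submodule.torsion_isTorsion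
  have hT0 : Module.finrank ℤ T = 0 := Module.finrank_eq_zero_iff_isTorsion.2 hTt
  have hrank : Module.finrank ℤ (M ⧸ T) = Module.finrank ℤ M := by
    have h1 := Submodule.finrank_quotient_add_finrank T
    omega
  have hTfin : Finite T := Module.finite_of_fg_torsion T hTt
  let b := (Module.finBasisOfFinrankEq ℤ (M ⧸ T) hrank)
  let e : (M ⧸ T) ≃ₗ[ℤ] (Fin (Module.finrank ℤ M) → ℤ) := b.equivFun
  let F : M →ₗ[ℤ] (Fin (Module.finrank ℤ M) → ℤ) := e.toLinearMap ∘ₗ T.mkQ
  have hsurj : Function.Surjective F := e.surjective.comp (Submodule.mkQ_surjective T)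
  obtain ⟨s, hs⟩ := Module.projective_lifting_property F LinearMap.id hsurj
  refine ⟨F, s, Nat.card T, fun v => LinearMap.congr_fun hs v, Nat.card_pos, ?_⟩
  intro x hx
  have h1 : T.mkQ x = 0 := e.injective (by rw [map_zero]; exact hx)
  have h2 : x ∈ T := by
    rw [Submodule.mkQ_apply, Submodule.Quotient.mk_eq_zero] at h1
    exact h1
  have h3 : Nat.card T • (⟨x, h2⟩ : T) = 0 := card_nsmul_eq_zero'
  exact congrArg Subtype.val h3

end exist

end Pool.Agent.Helper93.IW
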