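import Pool.Agent.Helper93.IW.Aug

/-!
The augmentation ideal of the group algebra of a finite `p`-group in characteristic `p` is
nilpotent.
-/

set_option autoImplicit false

namespace Pool.Agent.Helper93.IW

variable {p : ℕ} [Fact p.Prime] {Q : Type} [Group Q] [Finite Q]

/-- right multiplication by a group element on a power of the augmentation ideal -/
noncomputable def rmul (n : ℕ) (g : Q) : Fil (ZMod p) Q n →ₗ[ZMod p] Fil (ZMod p) Q n where
  toFun x := ⟨x.1 * MonoidAlgebra.of (ZMod p) Q g, Fil_mul_right x.2 _⟩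
  map_add' x y := Subtype.ext (add_mul _ _ _)
  map_smul' c x := Subtype.ext (smul_mul_assoc _ _ _)

theorem Fil_nilp (hQ : IsPGroup p Q) : ∃ N, Fil (ZMod p) Q N = ⊥ := by
  classical
  have hfin : Module.Finite (ZMod p) (MonoidAlgebra (ZMod p) Q) := by
    have : Fintype Q := Fintype.ofFinite Q
    infer_instance
  let f : ℕ →o (Submodule (ZMod p) (MonoidAlgebra (ZMod p) Q))ᵒᵈ :=
    ⟨fun n => OrderDual.toDual (Fil (ZMod p) Q n), fun a b h => Fil_le h⟩
  obtain ⟨n, hn⟩ := IsArtinian.monotone_stabilizes f
  have h1 : Fil (ZMod p) Q n = Fil (ZMod p) Q (n + 1) := hn (n + 1) (Nat.le_succ n)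
  refine ⟨n, ?_⟩
  by_contra hne
  let D := Module.Dual (ZMod p) (Fil (ZMod p) Q n)
  let act : MulAction Q D :=
    { smul := fun g φ => φ.comp (rmul n g)
      one_smul := fun φ => by
        apply LinearMap.ext
        intro x
        change φ (rmul n 1 x) = φ x
        congr 1
        apply Subtype.ext
        change x.1 * MonoidAlgebra.of (ZMod p) Q 1 = x.1
        rw [map_one, mul_one]
      mul_smul := fun g h φ => by
        apply LinearMap.ext
        intro x
        change φ (rmul n (g * h) x) = φ (rmul n h (rmul n g x))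
        congr 1
        apply Subtype.ext
        change x.1 * MonoidAlgebra.of (ZMod p) Q (g * h) =
          x.1 * MonoidAlgebra.of (ZMod p) Q g * MonoidAlgebra.of (ZMod p) Q h
        rw [map_mul, mul_assoc] }
  have hD : Finite D := Module.finite_of_finite (ZMod p)
  have hnt : Nontrivial D := by
    have : Nontrivial (Fil (ZMod p) Q n) := (Submodule.nontrivial_iff_ne_bot).2 hne
    infer_instance
  have hdvd : p ∣ Nat.card D := by
    have : Fintype D := Fintype.ofFinite D
    rw [Nat.card_eq_fintype_card, Module.card_eq_pow_finrank (K := ZMod p) (V := D), ZMod.card]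
    exact dvd_pow_self p (Module.finrank_pos (R := ZMod p) (M := D)).ne'
  have h0 : (0 : D) ∈ MulAction.fixedPoints Q D := by
    intro g
    change (0 : D).comp (rmul n g) = 0
    exact LinearMap.zero_comp _
  obtain ⟨φ, hφ, hne0⟩ := hQ.exists_fixed_point_of_prime_dvd_card_of_fixed_point D hdvd h0
  apply hne0
  symm
  apply LinearMap.ext
  intro x
  have h2 : Fil (ZMod p) Q n ≤ (LinearMap.ker φ).map (Fil (ZMod p) Q n).subtype := by
    conv_lhs => rw [h1, Fil_succ]
    rw [Submodule.mul_le]
    intro u hu v hv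
    induction hv using Submodule.span_induction with
    | mem v hv =>
      obtain ⟨g, rfl⟩ := hv
      refine ⟨⟨u * MonoidAlgebra.of (ZMod p) Q g, Fil_mul_right hu _⟩ - ⟨u, hu⟩, ?_, ?_⟩
      · rw [SetLike.mem_coe, LinearMap.mem_ker, map_sub, sub_eq_zero]
        exact LinearMap.congr_fun (hφ g) ⟨u, hu⟩
      · change u * MonoidAlgebra.of (ZMod p) Q g - u = _
        rw [mul_sub, mul_one]
    | zero => rw [mul_zero]; exact Submodule.zero_mem _
    | add a b _ _ ha hb => rw [mul_add]; exact Submodule.add_mem _ ha hb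
    | smul c a _ ha => rw [mul_smul_comm]; exact Submodule.smul_mem _ _ ha
  obtain ⟨y, hy, hyx⟩ := h2 x.2
  have h3 : y = x := Subtype.ext hyx
  rw [← h3]
  exact hy

end Pool.Agent.Helper93.IW
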