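import Pool.Agent.Helper93.IW.AutB

/-!
Groups of outer automorphisms acting trivially on the abelianisation modulo `p`: the lattice of
trace functions.
-/

set_option autoImplicit false

namespace Pool.Agent.Helper93.IW

section outer

variable {A : Type} [CommRing A] {B : Type} [Ring B] [Algebra A B] {H Γ : Type} [Group H] [Group Γ]

/-- the functions with values in a submodule -/
def PF (Γ : Type) (F : ℕ → Submodule A B) (k : ℕ) : Submodule A (Γ → B) where
  carrier := {b | ∀ β : Γ, b β ∈ F k}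
  add_mem' hb hc β := (F k).add_mem (hb β) (hc β)
  zero_mem' _ := (F k).zero_mem
  smul_mem' a _ hb β := (F k).smul_mem a (hb β)

theorem PF_mul {F : ℕ → Submodule A B} (hF : ∀ k l, F k * F l ≤ F (k + l)) (k l : ℕ) :
    PF Γ F k * PF Γ F l ≤ PF Γ F (k + l) := by
  rw [Submodule.mul_le]
  intro b hb c hc β
  exact hF k l (Submodule.mul_mem_mul (hb β) (hc β))

variable (α : Γ → MulAut H) (T : H →* B)

/-- the universal representation -/
def otau : H →* (Γ → B) where
  toFun h γ := T (α γ h)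
  map_one' := by
    funext γ
    rw [map_one, map_one]
    rfl
  map_mul' x y := by
    funext γ
    rw [map_mul, map_mul]
    rfl

theorem otau_apply (h : H) (γ : Γ) : otau α T h γ = T (α γ h) := rfl

theorem oI1_pow_le {F : ℕ → Submodule A B} (hF : ∀ k l, F k * F l ≤ F (k + l))
    (hT : ∀ h, T h - 1 ∈ F 1) (k : ℕ) : I1 A (otau α T) ^ (k + 1) ≤ PF Γ F (k + 1) := by
  have h1 : I1 A (otau α T) ≤ PF Γ F 1 := by
    rw [I1, Submodule.span_le]
    rintro _ ⟨h, rfl⟩ β
    exact hT _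
  induction k with
  | zero => rw [zero_add, pow_one]; exact h1
  | succ k ih =>
    rw [pow_succ]
    exact (mul_le_mul' ih h1).trans (PF_mul hF _ _)

theorem oI1_nilp {F : ℕ → Submodule A B} (hF : ∀ k l, F k * F l ≤ F (k + l))
    (hT : ∀ h, T h - 1 ∈ F 1) {m : ℕ} (hm : 1 ≤ m) (hFm : F m = ⊥) :
    I1 A (otau α T) ^ m = ⊥ := by
  obtain ⟨k, rfl⟩ := Nat.exists_eq_add_of_le' hm
  rw [eq_bot_iff]
  intro b hb
  rw [Submodule.mem_bot]
  funext β
  have h1 := oI1_pow_le α T hF hT k hb β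
  rw [hFm, Submodule.mem_bot] at h1
  exact h1

/-- the twisted translation -/
def orr (A : Type) [CommRing A] [Algebra A B] (T : H →* B) (c : Γ → Γ → H) (γ : Γ) :
    (Γ → B) →ₐ[A] (Γ → B) where
  toFun b β := T (c β γ)⁻¹ * b (β * γ) * T (c β γ)
  map_one' := by
    funext β
    change T (c β γ)⁻¹ * 1 * T (c β γ) = 1
    rw [mul_one, ← map_mul, inv_mul_cancel, map_one]
  map_mul' x y := by
    funext β
    change T (c β γ)⁻¹ * (x (β * γ) * y (β * γ)) * T (c β γ) =
      (T (c β γ)⁻¹ * x (β * γ) * T (c β γ)) * (T (c β γ)⁻¹ * y (β * γ) * T (c β γ))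
    have h1 : T (c β γ) * T (c β γ)⁻¹ = 1 := by rw [← map_mul, mul_inv_cancel, map_one]
    calc T (c β γ)⁻¹ * (x (β * γ) * y (β * γ)) * T (c β γ) =
        T (c β γ)⁻¹ * x (β * γ) * 1 * y (β * γ) * T (c β γ) := by
          rw [mul_one]; simp only [mul_assoc]
      _ = _ := by rw [← h1]; simp only [mul_assoc]
  map_zero' := by
    funext β
    change T (c β γ)⁻¹ * 0 * T (c β γ) = 0
    rw [mul_zero, zero_mul]
  map_add' x y := by
    funext β
    change T (c β γ)⁻¹ * (x (β * γ) + y (β * γ)) * T (c β γ) =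
      T (c β γ)⁻¹ * x (β * γ) * T (c β γ) + T (c β γ)⁻¹ * y (β * γ) * T (c β γ)
    rw [mul_add, add_mul]
  commutes' a := by
    funext β
    change T (c β γ)⁻¹ * algebraMap A B a * T (c β γ) = algebraMap A B a
    rw [mul_assoc, Algebra.commutes, ← mul_assoc, ← map_mul, inv_mul_cancel, map_one, one_mul]

theorem orr_apply (c : Γ → Γ → H) (γ : Γ) (b : Γ → B) (β : Γ) :
    orr A T c γ b β = T (c β γ)⁻¹ * b (β * γ) * T (c β γ) := rfl

theorem orr_tau (c : Γ → Γ → H)
    (hc : ∀ β γ h, α (β * γ) h = c β γ * α β (α γ h) * (c β γ)⁻¹) (γ : Γ) (h : H) :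
    orr A T c γ (otau α T h) = otau α T (α γ h) := by
  funext β
  rw [orr_apply, otau_apply, otau_apply, hc, ← map_mul, ← map_mul]
  congr 1
  group

end outer

section main

variable {A : Type} [CommRing A] [IsDomain A] [IsPrincipalIdealRing A] [CharZero A]
  {B : Type} [Ring B] [Algebra A B] {H Γ : Type} [Group H] [Group Γ]

/-- the translation of functions -/
def tl (A : Type) [CommRing A] {Γ : Type} [Group Γ] (γ : Γ) : (Γ → A) →ₗ[A] (Γ → A) :=
  LinearMap.funLeft A A fun β => β * γ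

theorem tl_apply (γ : Γ) (f : Γ → A) (β : Γ) : tl A γ f β = f (β * γ) := rfl

/-- the action on a lattice of functions -/
noncomputable def olatt (V : Submodule A (Γ → A)) (hV : ∀ γ : Γ, ∀ x ∈ V, tl A γ x ∈ V) :
    Γ →* Module.End A V where
  toFun γ := (tl A γ).restrict (hV γ)
  map_one' := by
    ext1 x
    apply Subtype.ext
    funext β
    change (x : Γ → A) (β * 1) = (x : Γ → A) β
    rw [mul_one]
  map_mul' γ γ' := by
    ext1 x
    apply Subtype.ext
    funext β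
    change (x : Γ → A) (β * (γ * γ')) = (x : Γ → A) (β * γ * γ')
    rw [mul_assoc]

/-- **The trace lattice.** -/
theorem CM_outer_aux [Group.FG H] (p : ℕ) (hp : p ≠ 0) (α : Γ → MulAut H) (c : Γ → Γ → H)
    (hc : ∀ β γ h, α (β * γ) h = c β γ * α β (α γ h) * (c β γ)⁻¹)
    (hact : ∀ γ h, α γ h * h⁻¹ ∈ Dp H p) (T : H →* B) (F : ℕ → Submodule A B)
    (hF : ∀ k l, F k * F l ≤ F (k + l)) (hT : ∀ h, T h - 1 ∈ F 1) (m : ℕ) (hm : 1 ≤ m)
    (hFm : F m = ⊥) (l : B →ₗ[A] A) (hl : ∀ x y, l (x * y) = l (y * x)) (γ : Γ) (h : H)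
    (hne : l (T (α γ h)) ≠ l (T (α 1 h))) :
    ∃ (V : Type) (_ : AddCommGroup V) (_ : Module A V) (_ : Module.Free A V)
      (_ : Module.Finite A V) (ρ : Γ →* Module.End A V), EM (p : A) ρ ∧ ρ γ ≠ 1 := by
  have hnil := oI1_nilp α T hF hT hm hFm
  set τ := otau α T with hτ
  set Λ : (Γ → B) →ₗ[A] (Γ → A) := l.compLeft Γ with hΛ
  have hΛa : ∀ b β, Λ b β = l (b β) := fun _ _ => rfl
  set V : Submodule A (Γ → A) := (MM A τ p ^ m).map Λ with hV
  have hmove : ∀ γ : Γ, ∀ x ∈ MM A τ p ^ m, orr A T c γ x - x ∈ MM A τ p ^ (m + 1) := by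
    intro γ
    exact act_MM τ p (orr A T c γ) (α γ) (orr_tau α T c hc γ) (hact γ) m
  have hdiv : ∀ x ∈ MM A τ p ^ (m + 1), ∃ y ∈ MM A τ p ^ m, x = (p : Γ → B) * y := by
    intro x hx
    apply mem_PP_mul p (R := A)
    have h1 := MM_pow_le τ p m hx
    rwa [pow_succ (I1 A τ), hnil, Submodule.bot_mul, bot_sup_eq] at h1
  have htr : ∀ γ : Γ, ∀ b : Γ → B, tl A γ (Λ b) = Λ (orr A T c γ b) := by
    intro γ b
    funext β
    rw [tl_apply, hΛa, hΛa, orr_apply, hl, ← mul_assoc, ← map_mul, mul_inv_cancel, map_one,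
      one_mul]
  have key : ∀ γ : Γ, ∀ v ∈ V, ∃ w ∈ V, tl A γ v = v + (p : A) • w := by
    intro γ v hv
    obtain ⟨x, hx, rfl⟩ := Submodule.mem_map.1 hv
    obtain ⟨y, hy, hxy⟩ := hdiv _ (hmove γ x hx)
    refine ⟨Λ y, Submodule.mem_map_of_mem hy, ?_⟩
    have h2 : (p : A) • y = (p : Γ → B) * y := by
      rw [Nat.cast_smul_eq_nsmul, nsmul_eq_mul]
    rw [htr, ← map_smul, h2, ← hxy, ← map_add]
    congr 1
    abel
  have hL : ∀ γ : Γ, ∀ x ∈ V, tl A γ x ∈ V := by
    intro γ x hx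
    obtain ⟨w, hw, e⟩ := key γ x hx
    rw [e]
    exact V.add_mem hx (V.smul_mem _ hw)
  have hfin : Module.Finite A V := Module.Finite.iff_fg.2 ((MM_fg τ p hnil hm m).map Λ)
  have hfree : Module.Free A V := by infer_instance
  refine ⟨V, inferInstance, inferInstance, hfree, hfin, olatt V hL, ?_, ?_⟩
  · intro β v
    obtain ⟨w, hw, e⟩ := key β v.1 v.2
    exact ⟨⟨w, hw⟩, Subtype.ext e⟩
  · intro e
    apply hne
    have hmem : (p : A) ^ m • (τ h - 1) ∈ MM A τ p ^ m := by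
      apply MM_anti τ p hm
      rw [pow_succ]
      have h2 : (p : A) ^ m • (τ h - 1) = (p : Γ → B) ^ m * (τ h - 1) := by
        rw [← Nat.cast_pow, Nat.cast_smul_eq_nsmul, nsmul_eq_mul, Nat.cast_pow]
      rw [h2]
      exact Submodule.mul_mem_mul (Submodule.pow_mem_pow _
        (PP_le_MM τ p (Submodule.mem_span_singleton_self _)) m) (I1_le_MM τ p (sub_one_mem_I1 τ h))
    have h3 := congrArg Subtype.val (LinearMap.congr_fun e ⟨_, Submodule.mem_map_of_mem (f := Λ) hmem⟩)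
    change tl A γ (Λ ((p : A) ^ m • (τ h - 1))) = Λ ((p : A) ^ m • (τ h - 1)) at h3
    have h4 := congrFun h3 1
    rw [tl_apply, hΛa, hΛa, one_mul] at h4
    have h5 : ∀ β, l (((p : A) ^ m • (τ h - 1)) β) = (p : A) ^ m * (l (T (α β h)) - l 1) := by
      intro β
      change l ((p : A) ^ m • (T (α β h) - 1)) = _
      rw [map_smul, map_sub, smul_eq_mul]
    rw [h5, h5] at h4
    have h6 := mul_left_cancel₀ (pow_ne_zero m (by exact_mod_cast hp)) h4
    exact sub_left_injective h6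

end main

end Pool.Agent.Helper93.IW
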