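import Mathlib

/-!
Cyclic words: nilpotent trace functionals on free groups.
-/

set_option autoImplicit false

namespace Pool.Agent.Helper93.IW

section words

variable {ι : Type} [DecidableEq ι]

/-- the value of a list of syllables -/
def evw (L : List (ι × ℤ)) : FreeGroup ι := (L.map fun s => FreeGroup.of s.1 ^ s.2).prod

theorem evw_nil : evw ([] : List (ι × ℤ)) = 1 := rfl

theorem evw_cons (s : ι × ℤ) (L : List (ι × ℤ)) : evw (s :: L) = FreeGroup.of s.1 ^ s.2 * evw L := by
  rw [evw, List.map_cons, List.prod_cons]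
  rfl

theorem evw_append (L L' : List (ι × ℤ)) : evw (L ++ L') = evw L * evw L' := by
  rw [evw, List.map_append, List.prod_append]
  rfl

/-- the number of weighted walks -/
def wt (idx : ℕ → ι) : List (ι × ℤ) → ℕ → ℕ → ℤ
  | [], q, q' => if q = q' then 1 else 0
  | (i, a) :: L, q, q' => wt idx L q q' + if idx q = i then a * wt idx L (q + 1) q' else 0

/-- the weight of the longest walk -/
def tp (idx : ℕ → ι) : List (ι × ℤ) → ℕ → ℤ
  | [], _ => 1
  | (i, a) :: L, q => (if idx q = i then a else 0) * tp idx L (q + 1)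

variable (idx : ℕ → ι)

theorem wt_lt (L : List (ι × ℤ)) : ∀ q q', q' < q → wt idx L q q' = 0 := by
  induction L with
  | nil =>
    intro q q' h
    rw [wt, if_neg (by omega)]
  | cons s L ih =>
    intro q q' h
    obtain ⟨i, a⟩ := s
    rw [wt, ih q q' h, ih (q + 1) q' (by omega), mul_zero, ite_self, add_zero]

theorem wt_self (L : List (ι × ℤ)) : ∀ q, wt idx L q q = 1 := by
  induction L with
  | nil =>
    intro q
    rw [wt, if_pos rfl]
  | cons s L ih =>
    intro q
    obtain ⟨i, a⟩ := s
    rw [wt, ih q, wt_lt idx L (q + 1) q (by omega), mul_zero, ite_self, add_zero]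

theorem wt_gt (L : List (ι × ℤ)) : ∀ q q', q + L.length < q' → wt idx L q q' = 0 := by
  induction L with
  | nil =>
    intro q q' h
    rw [List.length_nil] at h
    rw [wt, if_neg (by omega)]
  | cons s L ih =>
    intro q q' h
    obtain ⟨i, a⟩ := s
    rw [List.length_cons] at h
    rw [wt, ih q q' (by omega), ih (q + 1) q' (by omega), mul_zero, ite_self, add_zero]

theorem wt_per {m : ℕ} (hidx : ∀ q, idx (q + m) = idx q) (L : List (ι × ℤ)) :
    ∀ q q', wt idx L (q + m) (q' + m) = wt idx L q q' := by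
  induction L with
  | nil =>
    intro q q'
    rw [wt, wt]
    by_cases h : q = q'
    · rw [if_pos h, if_pos (by omega)]
    · rw [if_neg h, if_neg (by omega)]
  | cons s L ih =>
    intro q q'
    obtain ⟨i, a⟩ := s
    rw [wt, wt, ih q q', hidx, show q + m + 1 = (q + 1) + m by ring, ih (q + 1) q']

theorem wt_top (L : List (ι × ℤ)) : ∀ q, wt idx L q (q + L.length) = tp idx L q := by
  induction L with
  | nil =>
    intro q
    rw [wt, tp, List.length_nil, add_zero, if_pos rfl]
  | cons s L ih =>
    intro q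
    obtain ⟨i, a⟩ := s
    rw [wt, tp, List.length_cons, wt_gt idx L q _ (by omega), zero_add,
      show q + (L.length + 1) = (q + 1) + L.length by ring, ih (q + 1)]
    split_ifs with h
    · rfl
    · rw [zero_mul]

/-- the product of the exponents -/
def pe (L : List (ι × ℤ)) : ℤ := (L.map Prod.snd).prod

theorem tp_or (L : List (ι × ℤ)) : ∀ q, tp idx L q = pe L ∨ tp idx L q = 0 := by
  induction L with
  | nil => intro q; left; rfl
  | cons s L ih =>
    intro q
    obtain ⟨i, a⟩ := s
    rw [tp, pe, List.map_cons, List.prod_cons]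
    split_ifs with h
    · rcases ih (q + 1) with h1 | h1
      · left; rw [h1]; rfl
      · right; rw [h1, mul_zero]
    · right; rw [zero_mul]

theorem tp_match (L : List (ι × ℤ)) : ∀ q, (∀ s : ℕ, ∀ hs : s < L.length, idx (q + s) = (L[s]).1) →
    tp idx L q = pe L := by
  induction L with
  | nil => intro q _; rfl
  | cons t L ih =>
    intro q h
    obtain ⟨i, a⟩ := t
    have h0 : idx q = i := h 0 (by rw [List.length_cons]; omega)
    rw [tp, pe, List.map_cons, List.prod_cons, if_pos h0]
    congr 1
    apply ih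
    intro s hs
    have h1 := h (s + 1) (by rw [List.length_cons]; omega)
    rw [show q + 1 + s = q + (s + 1) by ring, h1]
    rfl

end words

section rep

variable {ι : Type} [DecidableEq ι] (A : Type) [CommRing A] (idx : ℕ → ι) (m : ℕ)

/-- the nilpotent matrices -/
def NI (i : ι) : Matrix (Fin m) (Fin m) (DualNumber A) := Matrix.of fun q q' =>
  if idx q = i then (if (q' : ℕ) = q + 1 then 1 else
    if (q : ℕ) + 1 = m ∧ (q' : ℕ) = 0 then DualNumber.eps else 0) else 0

theorem NI_mul (i : ι) (M : Matrix (Fin m) (Fin m) (DualNumber A)) (q q' : Fin m) :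
    (NI A idx m i * M) q q' = if idx q = i then
      (if h : (q : ℕ) + 1 < m then M ⟨q + 1, h⟩ q' else
        DualNumber.eps * M ⟨0, by have := q.2; omega⟩ q') else 0 := by
  rw [Matrix.mul_apply]
  split_ifs with h1 h2
  · rw [Finset.sum_eq_single ⟨(q : ℕ) + 1, h2⟩]
    · rw [NI, Matrix.of_apply, if_pos h1, if_pos rfl, one_mul]
    · intro s _ hs
      have h3 : (s : ℕ) ≠ q + 1 := fun e => hs (Fin.ext e)
      rw [NI, Matrix.of_apply, if_pos h1, if_neg h3, if_neg (by omega), zero_mul]
    · intro h; exact absurd (Finset.mem_univ _) h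
  · rw [Finset.sum_eq_single ⟨0, by have := q.2; omega⟩]
    · have h4 : (q : ℕ) + 1 = m := by have := q.2; omega
      rw [NI, Matrix.of_apply, if_pos h1, if_neg (by simp), if_pos ⟨h4, rfl⟩]
    · intro s _ hs
      have h3 : (s : ℕ) ≠ 0 := fun e => hs (Fin.ext e)
      have h4 := s.2
      rw [NI, Matrix.of_apply, if_pos h1, if_neg (by omega), if_neg (by omega), zero_mul]
    · intro h; exact absurd (Finset.mem_univ _) h
  · refine Finset.sum_eq_zero fun s _ => ?_
    rw [NI, Matrix.of_apply, if_neg h1, zero_mul]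

variable {idx m}

theorem NI_sq (hper : ∀ q, idx (q + m) = idx q) (hne : ∀ q, idx (q + 1) ≠ idx q) (i : ι) :
    NI A idx m i * NI A idx m i = 0 := by
  ext1 q q'
  rw [NI_mul]
  split_ifs with h1 h2
  · have h3 : idx (q + 1) ≠ i := fun e => hne q (e.trans h1.symm)
    rw [NI, Matrix.of_apply, if_neg h3]
    rfl
  · have h4 : (q : ℕ) + 1 = m := by have := q.2; omega
    have h3 : idx 0 ≠ i := by
      have h5 := hper 0
      rw [zero_add] at h5
      rw [← h5, ← h4]
      exact fun e => hne q (e.trans h1.symm)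
    rw [NI, Matrix.of_apply, if_neg h3, mul_zero]
    rfl
  · rfl

/-- the unipotent units -/
def NU (hper : ∀ q, idx (q + m) = idx q) (hne : ∀ q, idx (q + 1) ≠ idx q) (i : ι) :
    (Matrix (Fin m) (Fin m) (DualNumber A))ˣ where
  val := 1 + NI A idx m i
  inv := 1 - NI A idx m i
  val_inv := by
    have := NI_sq A hper hne i
    rw [mul_sub, mul_one, add_mul, one_mul, this, add_zero, add_sub_cancel_right]
  inv_val := by
    have := NI_sq A hper hne i
    rw [mul_add, mul_one, sub_mul, one_mul, this, sub_zero, sub_add_cancel]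

theorem NU_zpow (hper : ∀ q, idx (q + m) = idx q) (hne : ∀ q, idx (q + 1) ≠ idx q) (i : ι)
    (a : ℤ) : ((NU A hper hne i ^ a : (Matrix (Fin m) (Fin m) (DualNumber A))ˣ) :
      Matrix (Fin m) (Fin m) (DualNumber A)) = 1 + a • NI A idx m i := by
  have hsq := NI_sq A hper hne i
  induction a with
  | zero => rw [zpow_zero, zero_smul, add_zero]; rfl
  | succ a ih =>
    rw [zpow_add, Units.val_mul, ih, zpow_one]
    change (1 + (a : ℤ) • NI A idx m i) * (1 + NI A idx m i) = _
    rw [mul_add, mul_one, add_mul, one_mul, smul_mul_assoc, hsq, smul_zero, add_zero, add_smul,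
      one_smul, add_assoc]
  | pred a ih =>
    rw [zpow_sub, Units.val_mul, ih, zpow_one]
    change (1 + (-(a : ℤ)) • NI A idx m i) * (1 - NI A idx m i) = _
    rw [mul_sub, mul_one, add_mul, one_mul, smul_mul_assoc, hsq, smul_zero, add_zero, sub_smul,
      one_smul]
    abel

/-- the representation -/
noncomputable def NT (hper : ∀ q, idx (q + m) = idx q) (hne : ∀ q, idx (q + 1) ≠ idx q) :
    FreeGroup ι →* Matrix (Fin m) (Fin m) (DualNumber A) :=
  (Units.coeHom _).comp (FreeGroup.lift (NU A hper hne))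

theorem NT_ev (hper : ∀ q, idx (q + m) = idx q) (hne : ∀ q, idx (q + 1) ≠ idx q)
    (L : List (ι × ℤ)) (q q' : Fin m) : NT A hper hne (evw L) q q' =
      TrivSqZeroExt.inl ((wt idx L q q' : ℤ) : A) +
        TrivSqZeroExt.inr ((wt idx L q (q' + m) : ℤ) : A) := by
  induction L generalizing q with
  | nil =>
    have := q.2
    rw [evw_nil, map_one, wt, wt, if_neg (c := (q : ℕ) = q' + m) (by omega), Int.cast_zero,
      TrivSqZeroExt.inr_zero, add_zero, Matrix.one_apply]
    by_cases h : q = q'
    · rw [if_pos h, if_pos (by rw [h]), Int.cast_one, TrivSqZeroExt.inl_one]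
    · rw [if_neg h, if_neg (fun e => h (Fin.ext e)), Int.cast_zero, TrivSqZeroExt.inl_zero]
  | cons s L ih =>
    obtain ⟨i, a⟩ := s
    have h0 : NT A hper hne (FreeGroup.of i ^ a) = 1 + a • NI A idx m i := by
      rw [← NU_zpow A hper hne i a]
      change ((FreeGroup.lift (NU A hper hne) (FreeGroup.of i ^ a) :
        (Matrix (Fin m) (Fin m) (DualNumber A))ˣ) : Matrix (Fin m) (Fin m) (DualNumber A)) = _
      rw [map_zpow, FreeGroup.lift_apply_of]
    rw [evw_cons, map_mul, h0, add_mul, one_mul, smul_mul_assoc, Matrix.add_apply,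
      Matrix.smul_apply, NI_mul, ih q, wt, wt]
    by_cases h1 : idx q = i
    · rw [if_pos h1, if_pos h1, if_pos h1]
      split_ifs with h2
      · rw [ih ⟨q + 1, h2⟩]
        ext
        · simp
        · simp [mul_comm]
      · have h4 : (q : ℕ) + 1 = m := by have := q.2; omega
        rw [ih ⟨0, _⟩]
        have e1 : wt idx L (q + 1) q' = 0 := wt_lt idx L _ _ (by have := q'.2; omega)
        have e2 : wt idx L (q + 1) (q' + m) = wt idx L 0 q' := by
          rw [h4]
          have := wt_per idx hper L 0 q'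
          rwa [zero_add] at this
        rw [e1, e2]
        ext
        · simp
        · simp
    · rw [if_neg h1, if_neg h1, if_neg h1, smul_zero, add_zero, add_zero, add_zero]

/-- the filtration -/
def FB (A : Type) [CommRing A] (m k : ℕ) : Submodule A (Matrix (Fin m) (Fin m) (DualNumber A)) where
  carrier := {M | ∀ q q' : Fin m, ((q' : ℕ) < q + k → (M q q').fst = 0) ∧
    ((q' : ℕ) + m < q + k → (M q q').snd = 0)}
  add_mem' := by
    intro M N hM hN q q'
    rw [Matrix.add_apply, TrivSqZeroExt.fst_add, TrivSqZeroExt.snd_add]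
    constructor
    · intro h
      rw [(hM q q').1 h, (hN q q').1 h, add_zero]
    · intro h
      rw [(hM q q').2 h, (hN q q').2 h, add_zero]
  zero_mem' := by
    intro q q'
    exact ⟨fun _ => rfl, fun _ => rfl⟩
  smul_mem' := by
    intro a M hM q q'
    rw [Matrix.smul_apply, TrivSqZeroExt.fst_smul, TrivSqZeroExt.snd_smul]
    constructor
    · intro h
      rw [(hM q q').1 h, smul_zero]
    · intro h
      rw [(hM q q').2 h, smul_zero]

theorem FB_mul (m k l : ℕ) : FB A m k * FB A m l ≤ FB A m (k + l) := by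
  rw [Submodule.mul_le]
  intro M hM N hN q q'
  rw [Matrix.mul_apply]
  constructor
  · intro h
    rw [TrivSqZeroExt.fst_sum]
    refine Finset.sum_eq_zero fun s _ => ?_
    rw [TrivSqZeroExt.fst_mul]
    by_cases h1 : (s : ℕ) < q + k
    · rw [(hM q s).1 h1, zero_mul]
    · rw [(hN s q').1 (by omega), mul_zero]
  · intro h
    rw [TrivSqZeroExt.snd_sum]
    refine Finset.sum_eq_zero fun s _ => ?_
    rw [DualNumber.snd_mul]
    have e1 : (M q s).fst * (N s q').snd = 0 := by
      by_cases h1 : (s : ℕ) < q + k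
      · rw [(hM q s).1 h1, zero_mul]
      · rw [(hN s q').2 (by omega), mul_zero]
    have e2 : (M q s).snd * (N s q').fst = 0 := by
      by_cases h1 : (s : ℕ) + m < q + k
      · rw [(hM q s).2 h1, zero_mul]
      · rw [(hN s q').1 (by omega), mul_zero]
    rw [e1, e2, add_zero]

theorem FB_top (m : ℕ) : FB A m (2 * m) = ⊥ := by
  rw [eq_bot_iff]
  intro M hM
  rw [Submodule.mem_bot]
  ext q q'
  · exact (hM q q').1 (by have := q'.2; omega)
  · exact (hM q q').2 (by have := q'.2; omega)

/-- the trace functional -/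
noncomputable def trf (A : Type) [CommRing A] (m : ℕ) :
    Matrix (Fin m) (Fin m) (DualNumber A) →ₗ[A] A :=
  (TrivSqZeroExt.sndHom A A) ∘ₗ (Matrix.traceLinearMap (Fin m) A (DualNumber A))

theorem trf_apply (M : Matrix (Fin m) (Fin m) (DualNumber A)) :
    trf A m M = (Matrix.trace M).snd := rfl

theorem trf_comm (M N : Matrix (Fin m) (Fin m) (DualNumber A)) :
    trf A m (M * N) = trf A m (N * M) := by
  rw [trf_apply, trf_apply, Matrix.trace_mul_comm]

theorem trf_ev (hper : ∀ q, idx (q + m) = idx q) (hne : ∀ q, idx (q + 1) ≠ idx q)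
    (L : List (ι × ℤ)) : trf A m (NT A hper hne (evw L)) =
      ∑ q : Fin m, ((wt idx L q (q + m) : ℤ) : A) := by
  rw [trf_apply, Matrix.trace, TrivSqZeroExt.snd_sum]
  refine Finset.sum_congr rfl fun q _ => ?_
  rw [Matrix.diag_apply, NT_ev]
  simp

end rep

end Pool.Agent.Helper93.IW
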