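import Pool.Agent.Helper93.IW.OutA
import Pool.Agent.Helper93.IW.OutB

/-!
Endomorphisms of free groups which preserve all nilpotent trace functionals are inner.
-/

set_option autoImplicit false

namespace Pool.Agent.Helper93.IW

section lists

variable {ι : Type} [DecidableEq ι]

/-- reduced lists of syllables -/
def Red (L : List (ι × ℤ)) : Prop := L.IsChain (fun s t => s.1 ≠ t.1) ∧ ∀ s ∈ L, s.2 ≠ 0

/-- cyclically reduced lists with at least two syllables -/
def Cyc (L : List (ι × ℤ)) : Prop :=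
  Red L ∧ 2 ≤ L.length ∧ ∀ s ∈ L.head?, ∀ t ∈ L.getLast?, s.1 ≠ t.1

theorem Red.nil : Red ([] : List (ι × ℤ)) := ⟨List.isChain_nil, by simp⟩

theorem red_cons {s : ι × ℤ} {L : List (ι × ℤ)} :
    Red (s :: L) ↔ s.2 ≠ 0 ∧ (∀ t ∈ L.head?, s.1 ≠ t.1) ∧ Red L := by
  unfold Red
  rw [List.isChain_cons, List.forall_mem_cons]
  tauto

theorem red_append {L L' : List (ι × ℤ)} :
    Red (L ++ L') ↔ Red L ∧ Red L' ∧ ∀ s ∈ L.getLast?, ∀ t ∈ L'.head?, s.1 ≠ t.1 := by
  unfold Red
  rw [List.isChain_append, List.forall_mem_append]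
  tauto

theorem exists_cons_mul (i : ι) (a : ℤ) (L : List (ι × ℤ)) (hL : Red L) :
    ∃ L', Red L' ∧ evw L' = FreeGroup.of i ^ a * evw L ∧ L'.length ≤ L.length + 1 ∧
      ((∃ s ∈ L.head?, s.1 = i) → L'.length ≤ L.length) := by
  by_cases ha : a = 0
  · exact ⟨L, hL, by rw [ha, zpow_zero, one_mul], by omega, fun _ => le_rfl⟩
  cases L with
  | nil =>
    refine ⟨[(i, a)], ?_, ?_, le_rfl, ?_⟩
    · rw [red_cons]
      exact ⟨ha, by simp, Red.nil⟩
    · rw [evw_cons]
    · rintro ⟨s, hs, -⟩
      simp at hs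
  | cons t L =>
    obtain ⟨j, b⟩ := t
    rw [red_cons] at hL
    by_cases hij : i = j
    · subst hij
      by_cases hab : a + b = 0
      · refine ⟨L, hL.2.2, ?_, by rw [List.length_cons]; omega, fun _ => by
          rw [List.length_cons]; omega⟩
        rw [evw_cons, ← mul_assoc, ← zpow_add, hab, zpow_zero, one_mul]
      · refine ⟨(i, a + b) :: L, ?_, ?_, by rw [List.length_cons, List.length_cons]; omega,
          fun _ => le_rfl⟩
        · rw [red_cons]
          exact ⟨hab, hL.2.1, hL.2.2⟩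
        · rw [evw_cons, evw_cons, ← mul_assoc, ← zpow_add]
    · refine ⟨(i, a) :: (j, b) :: L, ?_, ?_, le_rfl, ?_⟩
      · rw [red_cons, red_cons]
        refine ⟨ha, ?_, hL⟩
        intro t ht
        rw [List.head?_cons, Option.mem_some_iff] at ht
        rw [← ht]
        exact hij
      · rw [evw_cons]
      · rintro ⟨s, hs, hsi⟩
        rw [List.head?_cons, Option.mem_some_iff] at hs
        rw [← hs] at hsi
        exact absurd hsi.symm hij

theorem exists_red (g : FreeGroup ι) : ∃ L, Red L ∧ evw L = g := by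
  have h1 : ∀ g : FreeGroup ι, ∃ L : List (ι × ℤ), evw L = g := by
    intro g
    induction g using FreeGroup.induction_on with
    | C1 => exact ⟨[], rfl⟩
    | of x => exact ⟨[(x, 1)], by rw [evw_cons, evw_nil, mul_one]; exact zpow_one _⟩
    | inv_of x _ => exact ⟨[(x, -1)], by rw [evw_cons, evw_nil, mul_one]; exact zpow_neg_one _⟩
    | mul x y hx hy =>
      obtain ⟨L, rfl⟩ := hx
      obtain ⟨L', rfl⟩ := hy
      exact ⟨L ++ L', evw_append L L'⟩
  obtain ⟨L, rfl⟩ := h1 g
  induction L with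
  | nil => exact ⟨[], Red.nil, rfl⟩
  | cons s L ih =>
    obtain ⟨L1, h1, h2⟩ := ih
    obtain ⟨L2, h3, h4, -⟩ := exists_cons_mul s.1 s.2 L1 h1
    exact ⟨L2, h3, by rw [h4, h2, evw_cons]⟩

/-- cyclic reduction -/
theorem exists_cyc (n : ℕ) : ∀ L : List (ι × ℤ), L.length ≤ n → Red L →
    ∃ u : FreeGroup ι, u * evw L * u⁻¹ = 1 ∨
      (∃ (i : ι) (a : ℤ), u * evw L * u⁻¹ = FreeGroup.of i ^ a) ∨
      ∃ L', Cyc L' ∧ u * evw L * u⁻¹ = evw L' := by
  induction n with
  | zero =>
    intro L hL _
    have h1 : L = [] := List.length_eq_zero_iff.1 (by omega)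
    subst h1
    exact ⟨1, Or.inl (by rw [evw_nil]; simp)⟩
  | succ n ih =>
    intro L hL hred
    rcases L with _ | ⟨⟨i, a⟩, L⟩
    · exact ⟨1, Or.inl (by rw [evw_nil]; simp)⟩
    · rcases List.eq_nil_or_concat L with h1 | ⟨M, ⟨j, b⟩, h1⟩
      · subst h1
        exact ⟨1, Or.inr (Or.inl ⟨i, a, by rw [evw_cons, evw_nil]; simp⟩)⟩
      · subst h1
        rw [List.concat_eq_append] at hL hred ⊢
        by_cases hij : i = j
        · subst hij
          have hM : Red M := (red_append.1 (red_cons.1 hred).2.2).1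
          obtain ⟨L', h2, h3, h4, h5⟩ := exists_cons_mul i (b + a) M hM
          rw [List.length_cons, List.length_append, List.length_singleton] at hL
          obtain ⟨u, hu⟩ := ih L' (by omega) h2
          refine ⟨u * FreeGroup.of i ^ b, ?_⟩
          have h6 : u * FreeGroup.of i ^ b * evw ((i, a) :: (M ++ [(i, b)])) *
              (u * FreeGroup.of i ^ b)⁻¹ = u * evw L' * u⁻¹ := by
            rw [h3, evw_cons, evw_append, evw_cons, evw_nil, zpow_add]
            group
          rw [h6]
          exact hu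
        · refine ⟨1, Or.inr (Or.inr ⟨(i, a) :: (M ++ [(j, b)]), ⟨hred, ?_, ?_⟩, by simp⟩)⟩
          · rw [List.length_cons, List.length_append, List.length_singleton]
            omega
          · intro s hs t ht
            rw [List.head?_cons, Option.mem_some_iff] at hs
            rw [← List.cons_append, List.getLast?_append, List.getLast?_singleton] at ht
            have ht' : (j, b) = t := by simpa using ht
            rw [← hs, ← ht']
            exact hij

/-- stripping -/
theorem exists_strip (i j : ι) (w : FreeGroup ι) : ∃ (a b : ℤ) (M : List (ι × ℤ)), Red M ∧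
    (∀ s ∈ M.head?, i ≠ s.1) ∧ (∀ s ∈ M.getLast?, s.1 ≠ j) ∧
    w = FreeGroup.of i ^ a * evw M * FreeGroup.of j ^ b := by
  obtain ⟨L, hL, rfl⟩ := exists_red w
  have h1 : ∃ (a : ℤ) (M : List (ι × ℤ)), Red M ∧ (∀ s ∈ M.head?, i ≠ s.1) ∧
      evw L = FreeGroup.of i ^ a * evw M := by
    rcases L with _ | ⟨⟨k, c⟩, L⟩
    · exact ⟨0, [], Red.nil, by simp, by rw [zpow_zero, one_mul]⟩
    · by_cases hk : i = k
      · subst hk
        rw [red_cons] at hL
        exact ⟨c, L, hL.2.2, hL.2.1, evw_cons _ _⟩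
      · refine ⟨0, (k, c) :: L, hL, ?_, by rw [zpow_zero, one_mul]⟩
        intro s hs
        rw [List.head?_cons, Option.mem_some_iff] at hs
        rw [← hs]
        exact hk
  obtain ⟨a, M, hM, hMi, hLM⟩ := h1
  rcases List.eq_nil_or_concat M with h2 | ⟨M', ⟨k, c⟩, h2⟩
  · subst h2
    exact ⟨a, 0, [], Red.nil, by simp, by simp, by rw [hLM, zpow_zero, mul_one]⟩
  · subst h2
    rw [List.concat_eq_append] at hM hMi hLM
    by_cases hk : k = j
    · subst hk
      refine ⟨a, c, M', (red_append.1 hM).1, ?_, ?_, ?_⟩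
      · intro s hs
        apply hMi
        rw [List.head?_append]
        rw [Option.mem_def] at hs ⊢
        rw [hs]
        rfl
      · intro s hs
        exact (red_append.1 hM).2.2 s hs (k, c) (by simp)
      · rw [hLM, evw_append, evw_cons, evw_nil, mul_one, mul_assoc]
    · refine ⟨a, 0, M' ++ [(k, c)], hM, hMi, ?_, by rw [hLM, zpow_zero, mul_one]⟩
      intro s hs
      have hs' : (k, c) = s := by simpa using hs
      rw [← hs']
      exact hk

/-- the inverse list -/
def il (L : List (ι × ℤ)) : List (ι × ℤ) := (L.map fun s => (s.1, -s.2)).reverse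

theorem evw_il (L : List (ι × ℤ)) : evw (il L) = (evw L)⁻¹ := by
  induction L with
  | nil => rw [il, List.map_nil, List.reverse_nil, evw_nil, inv_one]
  | cons s L ih =>
    have h1 : il (s :: L) = il L ++ [(s.1, -s.2)] := by
      rw [il, List.map_cons, List.reverse_cons]
      rfl
    rw [h1, evw_append, ih, evw_cons, evw_cons, evw_nil, mul_one, mul_inv_rev, zpow_neg]

theorem red_il {L : List (ι × ℤ)} (hL : Red L) : Red (il L) := by
  constructor
  · rw [il, List.isChain_reverse, List.isChain_map]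
    exact hL.1.imp fun s t h => h.symm
  · intro s hs
    rw [il, List.mem_reverse, List.mem_map] at hs
    obtain ⟨t, ht, rfl⟩ := hs
    exact neg_ne_zero.2 (hL.2 t ht)

theorem cyc_long {i j : ι} (hij : i ≠ j) {M : List (ι × ℤ)} (hM : Red M)
    (hMi : ∀ s ∈ M.head?, i ≠ s.1) (hMj : ∀ s ∈ M.getLast?, s.1 ≠ j) (hne : M ≠ []) :
    Cyc ((i, (1 : ℤ)) :: (M ++ (j, (1 : ℤ)) :: il M)) := by
  have hil := red_il hM
  have hhd : (il M).head? = M.getLast?.map fun s => (s.1, -s.2) := by
    rw [il, List.head?_reverse, List.getLast?_map]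
  have hlt : (il M).getLast? = M.head?.map fun s => (s.1, -s.2) := by
    rw [il, List.getLast?_reverse, List.head?_map]
  have hilne : il M ≠ [] := by
    intro h
    rw [il, List.reverse_eq_nil_iff, List.map_eq_nil_iff] at h
    exact hne h
  refine ⟨?_, ?_, ?_⟩
  · rw [red_cons, red_append, red_cons]
    refine ⟨one_ne_zero, ?_, hM, ⟨one_ne_zero, ?_, hil⟩, ?_⟩
    · intro t ht
      rw [List.head?_append_of_ne_nil _ hne] at ht
      exact hMi t ht
    · intro t ht
      rw [hhd, Option.mem_map] at ht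
      obtain ⟨s, hs, rfl⟩ := ht
      exact (hMj s hs).symm
    · intro s hs t ht
      rw [List.head?_cons, Option.mem_some_iff] at ht
      rw [← ht]
      exact hMj s hs
  · rw [List.length_cons, List.length_append, List.length_cons]
    omega
  · intro s hs t ht
    rw [List.head?_cons, Option.mem_some_iff] at hs
    have h1 : ((i, (1 : ℤ)) :: (M ++ (j, (1 : ℤ)) :: il M)) =
        ((i, (1 : ℤ)) :: (M ++ [(j, (1 : ℤ))])) ++ il M := by simp
    rw [h1, List.getLast?_append_of_ne_nil _ hilne, hlt, Option.mem_map] at ht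
    obtain ⟨r, hr, rfl⟩ := ht
    rw [← hs]
    exact hMi r hr

end lists

end Pool.Agent.Helper93.IW
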