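import Pool.Agent.Helper93.IW.OutC

/-!
Endomorphisms of free groups which preserve all nilpotent trace functionals are inner.
-/

set_option autoImplicit false

namespace Pool.Agent.Helper93.IW

/-- `g` and `h` have the same values under all nilpotent trace functionals -/
def NTF (A : Type) [CommRing A] {H : Type} [Group H] (g h : H) : Prop :=
  ∀ (B : Type) (_ : Ring B) (_ : Algebra A B) (T : H →* B) (F : ℕ → Submodule A B)
    (_ : ∀ k l, F k * F l ≤ F (k + l)) (_ : ∀ h, T h - 1 ∈ F 1) (m : ℕ) (_ : 1 ≤ m)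
    (_ : F m = ⊥) (l : B →ₗ[A] A) (_ : ∀ x y, l (x * y) = l (y * x)), l (T g) = l (T h)

section ntf

variable {A : Type} [CommRing A] {H : Type} [Group H]

theorem NTF.conj {g h : H} (hgh : NTF A g h) (u : H) : NTF A (u * g * u⁻¹) h := by
  intro B i1 i2 T F hF hT m hm hFm l hl
  rw [← hgh B i1 i2 T F hF hT m hm hFm l hl, T.map_mul (u * g), hl, ← T.map_mul,
    inv_mul_cancel_left]

/-- homomorphisms to the additive group -/
theorem NTF.hom {g h : H} (hgh : NTF A g h) (χ : H →* Multiplicative A) : χ g = χ h := by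
  let T : H →* DualNumber A :=
    { toFun := fun x => TrivSqZeroExt.inl 1 + TrivSqZeroExt.inr (Multiplicative.toAdd (χ x))
      map_one' := by
        rw [map_one, toAdd_one, TrivSqZeroExt.inr_zero, add_zero, TrivSqZeroExt.inl_one]
      map_mul' := fun x y => by
        rw [map_mul, toAdd_mul]
        ext
        · simp
        · simp [add_comm] }
  let F : ℕ → Submodule A (DualNumber A) := fun k =>
    { carrier := {x | (1 ≤ k → x.fst = 0) ∧ (2 ≤ k → x.snd = 0)}
      add_mem' := by
        rintro x y hx hy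
        refine ⟨fun hk => ?_, fun hk => ?_⟩
        · rw [TrivSqZeroExt.fst_add, hx.1 hk, hy.1 hk, add_zero]
        · rw [TrivSqZeroExt.snd_add, hx.2 hk, hy.2 hk, add_zero]
      zero_mem' := ⟨fun _ => rfl, fun _ => rfl⟩
      smul_mem' := by
        rintro a x hx
        refine ⟨fun hk => ?_, fun hk => ?_⟩
        · rw [TrivSqZeroExt.fst_smul, hx.1 hk, smul_zero]
        · rw [TrivSqZeroExt.snd_smul, hx.2 hk, smul_zero] }
  have h1 := hgh (DualNumber A) inferInstance inferInstance T F ?_ ?_ 2 (by norm_num) ?_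
    (TrivSqZeroExt.sndHom A A) ?_
  · have h2 : Multiplicative.toAdd (χ g) = Multiplicative.toAdd (χ h) := by
      have h3 : ∀ x, TrivSqZeroExt.sndHom A A (T x) = Multiplicative.toAdd (χ x) := by
        intro x
        change (TrivSqZeroExt.inl 1 + TrivSqZeroExt.inr (Multiplicative.toAdd (χ x)) :
          DualNumber A).snd = _
        simp
      rw [← h3, ← h3]
      exact h1
    exact h2
  · intro k l
    rw [Submodule.mul_le]
    intro x hx y hy
    refine ⟨fun hk => ?_, fun hk => ?_⟩
    · rw [TrivSqZeroExt.fst_mul]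
      by_cases h1 : 1 ≤ k
      · rw [hx.1 h1, zero_mul]
      · rw [hy.1 (by omega), mul_zero]
    · rw [DualNumber.snd_mul]
      by_cases h1 : 1 ≤ k
      · rw [hx.1 h1, zero_mul, zero_add]
        by_cases h2 : 2 ≤ k
        · rw [hx.2 h2, zero_mul]
        · rw [hy.1 (by omega), mul_zero]
      · rw [hy.1 (by omega), hy.2 (by omega), mul_zero, mul_zero, add_zero]
  · intro x
    refine ⟨fun _ => ?_, fun hk => by omega⟩
    change ((TrivSqZeroExt.inl 1 + TrivSqZeroExt.inr (Multiplicative.toAdd (χ x)) - 1 :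
      DualNumber A)).fst = 0
    simp
  · rw [eq_bot_iff]
    intro x hx
    rw [Submodule.mem_bot]
    ext
    · exact hx.1 (by norm_num)
    · exact hx.2 le_rfl
  · intro x y
    rw [mul_comm]

end ntf

section det

variable {ι : Type} [DecidableEq ι] {A : Type} [CommRing A] [IsDomain A] [CharZero A]

/-- **Detection of cyclically reduced words.** -/
theorem detect (L : List (ι × ℤ)) (hL : Cyc L) (L' : List (ι × ℤ)) (hlen : L'.length < L.length) :
    ¬ NTF A (evw L) (evw L') := by
  intro hNT
  obtain ⟨hred, h2, hcyc⟩ := hL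
  set m := L.length with hm
  have hm0 : 0 < m := by omega
  let idx : ℕ → ι := fun q => (L[q % m]'(Nat.mod_lt _ hm0)).1
  have hidx : ∀ q (hq : q < m), idx q = (L[q]).1 := by
    intro q hq
    have h3 : q % m = q := Nat.mod_eq_of_lt hq
    change (L[q % m]'(Nat.mod_lt _ hm0)).1 = _
    congr 2
  have hper : ∀ q, idx (q + m) = idx q := by
    intro q
    have h3 : (q + m) % m = q % m := Nat.add_mod_right q m
    change (L[(q + m) % m]'(Nat.mod_lt _ hm0)).1 = (L[q % m]'(Nat.mod_lt _ hm0)).1
    congr 2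
  have hper' : ∀ q, idx q = idx (q % m) := by
    intro q
    have h3 : q % m % m = q % m := Nat.mod_mod q m
    change (L[q % m]'(Nat.mod_lt _ hm0)).1 = (L[q % m % m]'(Nat.mod_lt _ hm0)).1
    congr 2
    exact h3.symm
  have hne : ∀ q, idx (q + 1) ≠ idx q := by
    have h4 : ∀ q, q < m → idx (q + 1) ≠ idx q := by
      intro q hq
      by_cases h5 : q + 1 < m
      · rw [hidx q hq, hidx (q + 1) h5]
        exact ((List.isChain_iff_getElem.1 hred.1) q h5).symm
      · have h6 : q + 1 = 0 + m := by omega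
        rw [h6, hper, hidx 0 hm0, hidx q hq]
        apply hcyc
        · rw [List.head?_eq_getElem?, Option.mem_def, List.getElem?_eq_getElem hm0]
        · rw [List.getLast?_eq_getElem?, Option.mem_def]
          have h7 : L.length - 1 = q := by omega
          rw [h7, List.getElem?_eq_getElem hq]
    intro q
    have h5 := h4 (q % m) (Nat.mod_lt _ hm0)
    have h6 : idx (q + 1) = idx (q % m + 1) := by
      rw [hper' (q + 1), hper' (q % m + 1)]
      congr 1
      rw [Nat.mod_add_mod]
    rw [h6, hper' q]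
    exact h5
  have key := hNT (Matrix (Fin m) (Fin m) (DualNumber A)) inferInstance inferInstance
    (NT A hper hne) (FB A m) (FB_mul A m) ?_ (2 * m) (by omega) (FB_top A m) (trf A m)
    (trf_comm A)
  · rw [trf_ev, trf_ev] at key
    have h3 : ∑ q : Fin m, ((wt idx L' q (q + m) : ℤ) : A) = 0 := by
      refine Finset.sum_eq_zero fun q _ => ?_
      rw [wt_gt idx L' _ _ (by omega), Int.cast_zero]
    rw [h3] at key
    have hpe : pe L ≠ 0 := by
      rw [pe]
      apply List.prod_ne_zero
      intro h4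
      obtain ⟨s, hs, hs'⟩ := List.mem_map.1 h4
      exact hred.2 s hs hs'
    have h5 : ∀ q : Fin m, wt idx L q (q + m) = if tp idx L q = 0 then 0 else pe L := by
      intro q
      have h7 := wt_top idx L q
      rw [← hm] at h7
      rw [h7]
      rcases tp_or idx L q with h6 | h6
      · rw [h6, if_neg hpe]
      · rw [h6, if_pos rfl]
    have h6 : ∑ q : Fin m, ((wt idx L q (q + m) : ℤ) : A) =
        ((Finset.univ.filter fun q : Fin m => ¬ tp idx L q = 0).card : A) * (pe L : A) := by
      rw [Finset.card_filter, Nat.cast_sum, Finset.sum_mul]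
      refine Finset.sum_congr rfl fun q _ => ?_
      rw [h5 q]
      split_ifs
      · simp
      · simp
    rw [h6] at key
    rcases mul_eq_zero.1 key with h7 | h7
    · have h8 : (Finset.univ.filter fun q : Fin m => ¬ tp idx L q = 0).card = 0 := by
        exact_mod_cast h7
      rw [Finset.card_eq_zero] at h8
      have h9 : (⟨0, hm0⟩ : Fin m) ∈ Finset.univ.filter fun q : Fin m => ¬ tp idx L q = 0 := by
        rw [Finset.mem_filter]
        refine ⟨Finset.mem_univ _, ?_⟩
        rw [tp_match idx L 0]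
        · exact hpe
        · intro s hs
          rw [zero_add]
          exact hidx s hs
      rw [h8] at h9
      exact absurd h9 (Finset.notMem_empty _)
    · exact hpe (by exact_mod_cast h7)
  · intro h
    obtain ⟨L1, -, rfl⟩ := exists_red h
    intro q q'
    rw [Matrix.sub_apply, NT_ev]
    constructor
    · intro hq
      have h3 : ((1 : Matrix (Fin m) (Fin m) (DualNumber A)) q q').fst =
          if q = q' then 1 else 0 := by
        rw [Matrix.one_apply]
        split_ifs <;> rfl
      rw [TrivSqZeroExt.fst_sub, h3]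
      by_cases h4 : q = q'
      · subst h4
        rw [wt_self, if_pos rfl]
        simp
      · have h5 : (q' : ℕ) < q := by
          have : (q : ℕ) ≠ q' := fun e => h4 (Fin.ext e)
          omega
        rw [wt_lt idx L1 _ _ h5, if_neg h4]
        simp
    · intro hq
      have := q.2
      omega

/-- the coordinate characters -/
noncomputable def ch (A : Type) [CommRing A] (i : ι) : FreeGroup ι →* Multiplicative A :=
  FreeGroup.lift fun j => Multiplicative.ofAdd (if j = i then (1 : A) else 0)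

theorem ch_zpow (i j : ι) (a : ℤ) : Multiplicative.toAdd (ch A i (FreeGroup.of j ^ a)) =
    if j = i then (a : A) else 0 := by
  rw [map_zpow, ch, FreeGroup.lift_apply_of, toAdd_zpow, toAdd_ofAdd]
  split_ifs
  · simp
  · simp

variable (A)

theorem step_one (φ : FreeGroup ι →* FreeGroup ι) (h : ∀ g, NTF A (φ g) g) (i : ι) :
    ∃ u, φ (FreeGroup.of i) = u * FreeGroup.of i * u⁻¹ := by
  obtain ⟨L, hL, hLi⟩ := exists_red (φ (FreeGroup.of i))
  obtain ⟨u, hu⟩ := exists_cyc L.length L le_rfl hL
  rw [hLi] at hu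
  have h1 := (h (FreeGroup.of i)).conj u
  have h2 : FreeGroup.of i = evw [(i, 1)] := by rw [evw_cons, evw_nil, mul_one]; exact (zpow_one _).symm
  rcases hu with hu | ⟨j, a, hu⟩ | ⟨L', hL', hu⟩
  · rw [hu] at h1
    have h3 := congrArg Multiplicative.toAdd (h1.hom (ch A i))
    rw [← zpow_one (FreeGroup.of i), ch_zpow, if_pos rfl, map_one] at h3
    simp at h3
  · rw [hu] at h1
    have h3 := congrArg Multiplicative.toAdd (h1.hom (ch A i))
    rw [← zpow_one (FreeGroup.of i), ch_zpow, ch_zpow, if_pos rfl] at h3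
    by_cases hji : j = i
    · subst hji
      rw [if_pos rfl] at h3
      have h4 : a = 1 := by exact_mod_cast h3
      rw [h4, zpow_one] at hu
      refine ⟨u⁻¹, ?_⟩
      calc φ (FreeGroup.of j) = u⁻¹ * (u * φ (FreeGroup.of j) * u⁻¹) * u⁻¹⁻¹ := by group
        _ = _ := by rw [hu]
    · rw [if_neg hji] at h3
      simp at h3
  · exfalso
    rw [hu, h2] at h1
    exact detect L' hL' [(i, 1)] (by rw [List.length_singleton]; exact hL'.2.1) h1

theorem step_two (φ : FreeGroup ι →* FreeGroup ι) (h : ∀ g, NTF A (φ g) g) (i j : ι)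
    (hij : i ≠ j) (u v : FreeGroup ι) (hu : φ (FreeGroup.of i) = u * FreeGroup.of i * u⁻¹)
    (hv : φ (FreeGroup.of j) = v * FreeGroup.of j * v⁻¹) :
    ∃ a b : ℤ, v = u * FreeGroup.of i ^ a * FreeGroup.of j ^ b := by
  obtain ⟨a, b, M, hM, hMi, hMj, hw⟩ := exists_strip i j (u⁻¹ * v)
  rcases List.eq_nil_or_concat M with h1 | ⟨M', t, h1⟩
  · refine ⟨a, b, ?_⟩
    rw [h1, evw_nil, mul_one] at hw
    rw [mul_assoc, ← hw, mul_inv_cancel_left]
  · exfalso
    have hne : M ≠ [] := by
      rw [h1, List.concat_eq_append]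
      simp
    have hc := cyc_long hij hM hMi hMj hne
    have h2 : FreeGroup.of i * FreeGroup.of j = evw [(i, 1), (j, 1)] := by
      rw [evw_cons, evw_cons, evw_nil, mul_one, zpow_one, zpow_one]
    have h3 := (h (FreeGroup.of i * FreeGroup.of j)).conj ((FreeGroup.of i ^ a)⁻¹ * u⁻¹)
    have h4 : (FreeGroup.of i ^ a)⁻¹ * u⁻¹ * φ (FreeGroup.of i * FreeGroup.of j) *
        ((FreeGroup.of i ^ a)⁻¹ * u⁻¹)⁻¹ =
        evw ((i, (1 : ℤ)) :: (M ++ (j, (1 : ℤ)) :: il M)) := by
      have hv' : v = u * (FreeGroup.of i ^ a * evw M * FreeGroup.of j ^ b) := by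
        rw [← hw, mul_inv_cancel_left]
      rw [evw_cons, evw_append, evw_cons, evw_il, map_mul, hu, hv, hv', zpow_one, zpow_one]
      group
    rw [h4, h2] at h3
    refine detect _ hc [(i, 1), (j, 1)] ?_ h3
    have hpos : 0 < M.length := List.length_pos_iff.2 hne
    simp only [List.length_cons, List.length_append, List.length_nil]
    omega

/-- **Endomorphisms which preserve all nilpotent trace functionals are inner.** -/
theorem inner_of_NTF (φ : FreeGroup ι →* FreeGroup ι) (h : ∀ g, NTF A (φ g) g) :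
    ∃ u, ∀ g, φ g = u * g * u⁻¹ := by
  suffices hs : ∃ u, ∀ i : ι, φ (FreeGroup.of i) = u * FreeGroup.of i * u⁻¹ by
    obtain ⟨u, hu⟩ := hs
    refine ⟨u, ?_⟩
    have h1 : φ = (MulAut.conj u).toMonoidHom := by
      apply FreeGroup.ext_hom
      intro i
      exact hu i
    intro g
    rw [h1]
    rfl
  choose w hw using step_one A φ h
  by_cases hne : ∃ i0 i1 : ι, i0 ≠ i1
  · obtain ⟨i0, i1, h01⟩ := hne
    obtain ⟨a, b, hab⟩ := step_two A φ h i0 i1 h01 _ _ (hw i0) (hw i1)
    refine ⟨w i0 * FreeGroup.of i0 ^ a, ?_⟩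
    intro j
    have hgoal : (∃ c : ℤ, w j = w i0 * FreeGroup.of i0 ^ a * FreeGroup.of j ^ c) →
        φ (FreeGroup.of j) = w i0 * FreeGroup.of i0 ^ a * FreeGroup.of j *
          (w i0 * FreeGroup.of i0 ^ a)⁻¹ := by
      rintro ⟨c, hc⟩
      rw [hw j, hc]
      group
    apply hgoal
    by_cases hj0 : i0 = j
    · subst hj0
      exact ⟨-a, by group⟩
    by_cases hj1 : i1 = j
    · subst hj1
      exact ⟨b, hab⟩
    obtain ⟨c, d, hcd⟩ := step_two A φ h i0 j hj0 _ _ (hw i0) (hw j)
    obtain ⟨c', d', hcd'⟩ := step_two A φ h i1 j hj1 _ _ (hw i1) (hw j)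
    have h2 : FreeGroup.of i0 ^ (c - a) * FreeGroup.of j ^ d =
        FreeGroup.of i1 ^ (b + c') * FreeGroup.of j ^ d' := by
      rw [hab, hcd] at hcd'
      have h3 : (FreeGroup.of i0 ^ a)⁻¹ * (w i0)⁻¹ *
          (w i0 * FreeGroup.of i0 ^ c * FreeGroup.of j ^ d) = (FreeGroup.of i0 ^ a)⁻¹ *
          (w i0)⁻¹ * (w i0 * FreeGroup.of i0 ^ a * FreeGroup.of i1 ^ b *
            FreeGroup.of i1 ^ c' * FreeGroup.of j ^ d') := by rw [hcd']
      have h4 : (FreeGroup.of i0 ^ a)⁻¹ * (w i0)⁻¹ *
          (w i0 * FreeGroup.of i0 ^ c * FreeGroup.of j ^ d) =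
          FreeGroup.of i0 ^ (c - a) * FreeGroup.of j ^ d := by
        rw [sub_eq_neg_add, zpow_add]
        group
      have h5 : (FreeGroup.of i0 ^ a)⁻¹ *
          (w i0)⁻¹ * (w i0 * FreeGroup.of i0 ^ a * FreeGroup.of i1 ^ b *
            FreeGroup.of i1 ^ c' * FreeGroup.of j ^ d') =
          FreeGroup.of i1 ^ (b + c') * FreeGroup.of j ^ d' := by
        rw [zpow_add]
        group
      rw [h4, h5] at h3
      exact h3
    have h6 : c - a = 0 := by
      have h7 := congrArg (fun g => Multiplicative.toAdd (ch ℤ i0 g)) h2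
      have e1 : ¬ j = i0 := fun e => hj0 e.symm
      have e2 : ¬ i1 = i0 := fun e => h01 e.symm
      simp only [map_mul, toAdd_mul, ch_zpow, if_true, if_neg e1, if_neg e2] at h7
      simpa using h7
    refine ⟨d, ?_⟩
    rw [hcd]
    have h8 : c = a := by omega
    rw [h8]
  · by_cases hemp : Nonempty ι
    · obtain ⟨i⟩ := hemp
      refine ⟨w i, fun j => ?_⟩
      have h9 : i = j := by
        by_contra hcon
        exact hne ⟨i, j, hcon⟩
      rw [← h9]
      exact hw i
    · exact ⟨1, fun j => absurd ⟨j⟩ hemp⟩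

end det

end Pool.Agent.Helper93.IW
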