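import Pool.Agent.Helper93.IW.OutD
import Pool.Agent.Helper93.IW.Mink2

/-!
Groups of outer automorphisms of free groups.
-/

set_option autoImplicit false

namespace Pool.Agent.Helper93.IW

section cm

variable {ι : Type} [DecidableEq ι] {Γ : Type} [Group Γ]

/-- **Level subgroups of outer automorphism groups of free groups are residually congruent to the
identity.** -/
theorem CM_outer {A : Type} [CommRing A] [IsDomain A] [IsPrincipalIdealRing A] [CharZero A]
    [Group.FG (FreeGroup ι)] (p : ℕ) (hp : p ≠ 0) (α : Γ → MulAut (FreeGroup ι))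
    (c : Γ → Γ → FreeGroup ι)
    (hc : ∀ β γ h, α (β * γ) h = c β γ * α β (α γ h) * (c β γ)⁻¹)
    (hact : ∀ γ h, α γ h * h⁻¹ ∈ Dp (FreeGroup ι) p)
    (hfaith : ∀ γ u, (∀ h, α γ h = u * h * u⁻¹) → γ = 1) : CM A (p : A) Γ := by
  intro γ hγ
  have h1 : ∃ h, ¬ NTF A (α γ h) h := by
    by_contra hcon
    push Not at hcon
    obtain ⟨u, hu⟩ := inner_of_NTF A (α γ).toMonoidHom hcon
    exact hγ (hfaith γ u hu)
  obtain ⟨h, hh⟩ := h1
  unfold NTF at hh
  push Not at hh
  obtain ⟨B, i1, i2, T, F, hF, hT, m, hm, hFm, l, hl, hne⟩ := hh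
  refine CM_outer_aux p hp α c hc hact T F hF hT m hm hFm l hl γ h ?_
  have h2 : l (T (α 1 h)) = l (T h) := by
    have h3 : α 1 h = (c 1 1)⁻¹ * h * c 1 1 := by
      have h4 := hc 1 1 ((α 1)⁻¹ h)
      rw [mul_one, MulAut.apply_inv_self] at h4
      conv_rhs => rw [h4]
      group
    rw [h3, T.map_mul, hl, ← T.map_mul, ← mul_assoc, mul_inv_cancel, one_mul]
  rw [h2]
  exact hne

end cm

section out

variable {H : Type} [Group H]

/-- inner automorphisms form a normal subgroup -/
instance Inn_normal (H : Type) [Group H] : (MulAut.conj : H →* MulAut H).range.Normal := by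
  apply Subgroup.Normal.mk
  rintro _ ⟨u, rfl⟩ φ
  refine ⟨φ u, ?_⟩
  ext h
  change φ u * h * (φ u)⁻¹ = φ (u * (φ⁻¹ h) * u⁻¹)
  rw [map_mul, map_mul, map_inv, MulAut.apply_inv_self]

/-- the outer automorphism group -/
abbrev OutG (H : Type) [Group H] : Type := MulAut H ⧸ (MulAut.conj : H →* MulAut H).range

variable {G : Type} [Group G] (act : G →* OutG H)

/-- the pullback -/
def pb : Subgroup (G × MulAut H) where
  carrier := {x | (QuotientGroup.mk x.2 : OutG H) = act x.1}
  mul_mem' := by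
    intro x y hx hy
    change (QuotientGroup.mk (x.2 * y.2) : OutG H) = act (x.1 * y.1)
    rw [map_mul, QuotientGroup.mk_mul, hx, hy]
  one_mem' := by
    change (QuotientGroup.mk (1 : MulAut H) : OutG H) = act 1
    rw [map_one, QuotientGroup.mk_one]
  inv_mem' := by
    intro x hx
    change (QuotientGroup.mk (x.2⁻¹) : OutG H) = act x.1⁻¹
    rw [map_inv, QuotientGroup.mk_inv, hx]

/-- the action of the pullback -/
def pa : pb act →* MulAut H := (MonoidHom.snd G (MulAut H)).comp (pb act).subtype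

/-- the projection of the pullback -/
def pq : pb act →* G := (MonoidHom.fst G (MulAut H)).comp (pb act).subtype

theorem pq_surj : Function.Surjective (pq act) := by
  intro g
  obtain ⟨φ, hφ⟩ := QuotientGroup.mk_surjective (act g)
  exact ⟨⟨(g, φ), hφ⟩, rfl⟩

/-- the level subgroup of the pullback -/
def lvl (p : ℕ) : Subgroup (pb act) := ((quotAct (pa act) p).toHomUnits).ker

theorem mem_lvl (p : ℕ) (k : pb act) : k ∈ lvl act p ↔ ∀ h, pa act k h * h⁻¹ ∈ Dp H p := by
  rw [lvl, MonoidHom.mem_ker, ← quotAct_eq_one]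
  exact ⟨fun h => congrArg Units.val h, fun h => Units.ext h⟩

theorem mem_map_lvl (p : ℕ) (g : G) : g ∈ (lvl act p).map (pq act) ↔
    ∃ φ : MulAut H, (QuotientGroup.mk φ : OutG H) = act g ∧ ∀ h, φ h * h⁻¹ ∈ Dp H p := by
  constructor
  · rintro ⟨k, hk, rfl⟩
    exact ⟨pa act k, k.2, (mem_lvl act p k).1 hk⟩
  · rintro ⟨φ, h1, h2⟩
    exact ⟨⟨(g, φ), h1⟩, (mem_lvl act p _).2 h2, rfl⟩

theorem index_map_lvl (p : ℕ) : ((lvl act p).map (pq act)).index ∣ (lvl act p).index :=
  Subgroup.index_map_dvd _ (pq_surj act)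

theorem lvl_fi [Group.FG H] (p : ℕ) (hp : 0 < p) : (lvl act p).FiniteIndex :=
  finiteIndex_level hp (pa act) _ (mem_lvl act p)

theorem map_lvl_fi [Group.FG H] (p : ℕ) (hp : 0 < p) :
    ((lvl act p).map (pq act)).FiniteIndex := by
  have h1 := (lvl_fi act p hp).index_ne_zero
  constructor
  intro h2
  have h3 := index_map_lvl act p
  rw [h2, zero_dvd_iff] at h3
  exact h1 h3

end out

section free

variable {ι : Type} [DecidableEq ι] {G : Type} [Group G] (act : G →* OutG (FreeGroup ι))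

theorem CR_out [Group.FG (FreeGroup ι)] (hact : Function.Injective act) (p : ℕ) [Fact p.Prime] :
    CR ℤ_[p] (p : ℤ_[p]) ((lvl act p).map (pq act)) := by
  have h1 : ∀ γ : ((lvl act p).map (pq act)), ∃ φ : MulAut (FreeGroup ι),
      (QuotientGroup.mk φ : OutG (FreeGroup ι)) = act γ ∧ ∀ h, φ h * h⁻¹ ∈ Dp (FreeGroup ι) p :=
    fun γ => (mem_map_lvl act p γ).1 γ.2
  choose α hα hlev using h1
  have h2 : ∀ β γ : ((lvl act p).map (pq act)), ∃ c : FreeGroup ι,
      ∀ h, α (β * γ) h = c * α β (α γ h) * c⁻¹ := by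
    intro β γ
    have h3 : (QuotientGroup.mk (α β * α γ) : OutG (FreeGroup ι)) =
        (QuotientGroup.mk (α (β * γ)) : OutG (FreeGroup ι)) := by
      rw [QuotientGroup.mk_mul, hα, hα, hα, Subgroup.coe_mul, map_mul]
    obtain ⟨u, hu⟩ := QuotientGroup.eq.1 h3
    refine ⟨(α β * α γ) u, fun h => ?_⟩
    have h4 : α (β * γ) = (α β * α γ) * MulAut.conj u := by
      rw [hu, mul_inv_cancel_left]
    rw [h4]
    change (α β * α γ) (u * h * u⁻¹) = (α β * α γ) u * (α β * α γ) h * ((α β * α γ) u)⁻¹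
    rw [map_mul, map_mul, map_inv]
  choose c hc using h2
  refine (CM_outer p (Fact.out (p := p.Prime)).ne_zero α c hc hlev ?_).toCR
  intro γ u hu
  apply Subtype.ext
  apply hact
  change act (γ : G) = act 1
  rw [← hα, map_one, QuotientGroup.eq_one_iff]
  refine ⟨u, ?_⟩
  ext h
  exact (hu h).symm

end free

section rank

theorem finrank_ab (n : ℕ) :
    Module.finrank ℤ (Additive (Abelianization (FreeGroup (Fin n)))) = n := by
  let e : Additive (Abelianization (FreeGroup (Fin n))) ≃+ (Fin n →₀ ℤ) :=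
    FreeAbelianGroup.equivFinsupp (Fin n)
  rw [e.toIntLinearEquiv.finrank_eq]
  simp

end rank

end Pool.Agent.Helper93.IW
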