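import Pool.Agent.Helper93.IW.Nilp

/-!
The monomial basis of the group algebra of a uniform finite `p`-group, and the dimension of the
left ideal generated by an element.
-/

set_option autoImplicit false

namespace Pool.Agent.Helper93.IW

open MvPolynomial

/-- the properties of the finite quotients of a uniform group of dimension `d` -/
structure UF (p d i : ℕ) [Fact p.Prime] (Q : Type) [Group Q] (g : Fin d → Q) : Prop where
  card : Nat.card Q = (p ^ i) ^ d
  pow : ∀ j, g j ^ p ^ i = 1
  comm : ∀ x y : Q, MonoidAlgebra.of (ZMod p) Q x * MonoidAlgebra.of (ZMod p) Q y -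
    MonoidAlgebra.of (ZMod p) Q y * MonoidAlgebra.of (ZMod p) Q x ∈ Fil (ZMod p) Q 3
  gen : aug (ZMod p) Q ≤ Submodule.span (ZMod p)
    (Set.range fun j => MonoidAlgebra.of (ZMod p) Q (g j) - 1) ⊔ Fil (ZMod p) Q 2

/-- the generators of the augmentation ideal -/
noncomputable def bb (k : Type) [Field k] {d : ℕ} {Q : Type} [Group Q] (g : Fin d → Q) (j : Fin d) :
    MonoidAlgebra k Q := MonoidAlgebra.of k Q (g j) - 1

theorem bb_mem (k : Type) [Field k] {d : ℕ} {Q : Type} [Group Q] (g : Fin d → Q) (j : Fin d) :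
    bb k g j ∈ Fil k Q 1 := by
  rw [Fil_one]; exact sub_one_mem _

variable {p d i : ℕ} [Fact p.Prime] {Q : Type} [Group Q] {g : Fin d → Q}

theorem UF.finite (h : UF p d i Q g) : Finite Q := by
  apply Nat.finite_of_card_ne_zero
  rw [h.card]
  exact pow_ne_zero _ (pow_ne_zero _ (Fact.out (p := p.Prime)).ne_zero)

theorem UF.pgroup (h : UF p d i Q g) : IsPGroup p Q := by
  apply IsPGroup.of_card (n := i * d)
  rw [h.card, pow_mul]

theorem UF.filt (h : UF p d i Q g) : Filt (Fil (ZMod p) Q) := filt_Fil h.comm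

theorem UF.bb_pow (h : UF p d i Q g) (j : Fin d) : bb (ZMod p) g j ^ p ^ i = 0 := by
  have : CharP (MonoidAlgebra (ZMod p) Q) p := by
    have h1 : Function.Injective (algebraMap (ZMod p) (MonoidAlgebra (ZMod p) Q)) :=
      (algebraMap (ZMod p) (MonoidAlgebra (ZMod p) Q)).injective
    exact charP_of_injective_algebraMap h1 p
  rw [bb, sub_pow_char_pow_of_commute _ _ (Commute.one_right _), one_pow, ← map_pow, h.pow,
    map_one, sub_self]

theorem UF.mo_zero_of (h : UF p d i Q g) (α : Fin d → ℕ) (j : Fin d) (hj : p ^ i ≤ α j) :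
    mo (bb (ZMod p) g) α = 0 := by
  rw [mo]
  apply List.prod_eq_zero
  rw [List.mem_ofFn]
  refine ⟨j, ?_⟩
  obtain ⟨m, hm⟩ := Nat.exists_eq_add_of_le hj
  rw [hm, pow_add, h.bb_pow, zero_mul]

/-- the span of the monomials of degree at least `n` -/
noncomputable def Sp (p i : ℕ) {d : ℕ} {Q : Type} [Group Q] (g : Fin d → Q) [Fact p.Prime] (n : ℕ) :
    Submodule (ZMod p) (MonoidAlgebra (ZMod p) Q) :=
  Submodule.span (ZMod p) {x | ∃ α : Fin d → Fin (p ^ i), n ≤ ∑ j, (α j : ℕ) ∧
    x = mo (bb (ZMod p) g) (fun j => (α j : ℕ))}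

theorem UF.mo_mem_Sp (h : UF p d i Q g) {n : ℕ} (α : Fin d → ℕ) (hα : n ≤ ∑ j, α j) :
    mo (bb (ZMod p) g) α ∈ Sp p i g n := by
  by_cases h1 : ∃ j, p ^ i ≤ α j
  · obtain ⟨j, hj⟩ := h1
    rw [h.mo_zero_of α j hj]
    exact Submodule.zero_mem _
  · push Not at h1
    exact Submodule.subset_span ⟨fun j => ⟨α j, h1 j⟩, hα, rfl⟩

theorem Sp_anti (n : ℕ) : Sp p i g (n + 1) ≤ Sp p i g n := by
  apply Submodule.span_mono
  rintro x ⟨α, hα, rfl⟩
  exact ⟨α, by omega, rfl⟩

theorem UF.Fil_le_Sp (h : UF p d i Q g) (n : ℕ) : Fil (ZMod p) Q n ≤ Sp p i g n := by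
  have := h.finite
  obtain ⟨N, hN⟩ := Fil_nilp (p := p) h.pgroup
  have key : ∀ m n : ℕ, N ≤ n + m → Fil (ZMod p) Q n ≤ Sp p i g n := by
    intro m
    induction m with
    | zero =>
      intro n hn
      have := Fil_le (k := ZMod p) (Q := Q) (show N ≤ n by omega)
      rw [hN] at this
      exact this.trans bot_le
    | succ m ih =>
      intro n hn x hx
      obtain ⟨f, hf, hf2⟩ := gen_Fil h.filt (bb (ZMod p) g) (bb_mem _ g) h.gen n x hx
      have h1 := Sp_anti n (ih (n + 1) (by omega) hf2)
      have h2 : Mo (bb (ZMod p) g) f ∈ Sp p i g n := by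
        rw [f.as_sum, map_sum]
        refine Submodule.sum_mem _ fun α hα => ?_
        rw [Mo_monomial]
        exact Submodule.smul_mem _ _ (h.mo_mem_Sp α (sum_of_hom hf hα).ge)
      have := Submodule.add_mem _ h1 h2
      rwa [sub_add_cancel] at this
  exact key N n (by omega)

theorem UF.linInd (h : UF p d i Q g) : LinearIndependent (ZMod p)
    (fun α : Fin d → Fin (p ^ i) => mo (bb (ZMod p) g) (fun j => (α j : ℕ))) := by
  have := h.finite
  have : Fintype Q := Fintype.ofFinite Q
  apply linearIndependent_of_top_le_span_of_card_eq_finrank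
  · rw [← Fil_zero]
    refine (h.Fil_le_Sp 0).trans (Submodule.span_mono ?_)
    rintro x ⟨α, -, rfl⟩
    exact ⟨α, rfl⟩
  · have h1 : Module.finrank (ZMod p) (MonoidAlgebra (ZMod p) Q) = Nat.card Q := by
      rw [Nat.card_eq_fintype_card, (MonoidAlgebra.coeffLinearEquiv (ZMod p)).finrank_eq,
        Module.finrank_finsupp_self]
    rw [h1, h.card]
    simp

theorem UF.Fil_eq_Sp (h : UF p d i Q g) (n : ℕ) : Fil (ZMod p) Q n = Sp p i g n := by
  apply le_antisymm (h.Fil_le_Sp n)
  rw [Sp, Submodule.span_le]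
  rintro x ⟨α, hα, rfl⟩
  exact Fil_le hα (mo_mem h.filt _ (bb_mem _ g) _)

/-- the monomial basis -/
noncomputable def UF.basis (h : UF p d i Q g) :
    Module.Basis (Fin d → Fin (p ^ i)) (ZMod p) (MonoidAlgebra (ZMod p) Q) :=
  Module.Basis.mk h.linInd (by
    rw [← Fil_zero]
    refine (h.Fil_le_Sp 0).trans (Submodule.span_mono ?_)
    rintro x ⟨α, -, rfl⟩
    exact ⟨α, rfl⟩)

theorem UF.basis_apply (h : UF p d i Q g) (α : Fin d → Fin (p ^ i)) :
    h.basis α = mo (bb (ZMod p) g) (fun j => (α j : ℕ)) := by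
  rw [UF.basis, Module.Basis.mk_apply]

theorem UF.repr_zero (h : UF p d i Q g) {n : ℕ} {x : MonoidAlgebra (ZMod p) Q}
    (hx : x ∈ Fil (ZMod p) Q n) (α : Fin d → Fin (p ^ i)) (hα : ∑ j, (α j : ℕ) < n) :
    h.basis.repr x α = 0 := by
  rw [h.Fil_eq_Sp] at hx
  induction hx using Submodule.span_induction with
  | mem x hx =>
    obtain ⟨β, hβ, rfl⟩ := hx
    rw [← h.basis_apply, Module.Basis.repr_self, Finsupp.single_apply, if_neg]
    rintro rfl
    omega
  | zero => simp
  | add x y _ _ hx hy => rw [map_add, Finsupp.add_apply, hx, hy, add_zero]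
  | smul a x _ hx => rw [map_smul, Finsupp.smul_apply, hx, smul_zero]

theorem UF.repr_Mo (h : UF p d i Q g) (f : MvPolynomial (Fin d) (ZMod p))
    (α : Fin d → Fin (p ^ i)) (γ : Fin d →₀ ℕ) (hγ : ∀ j, γ j = α j) :
    h.basis.repr (Mo (bb (ZMod p) g) f) α = f.coeff γ := by
  conv_lhs => rw [f.as_sum, map_sum, map_sum, Finsupp.finset_sum_apply]
  have key : ∀ β ∈ f.support, (h.basis.repr (Mo (bb (ZMod p) g) (monomial β (f.coeff β)))) α =
      if β = γ then f.coeff β else 0 := by
    intro β _
    rw [Mo_monomial, map_smul, Finsupp.smul_apply]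
    by_cases h1 : ∃ j, p ^ i ≤ β j
    · obtain ⟨j, hj⟩ := h1
      rw [h.mo_zero_of β j hj, map_zero, Finsupp.zero_apply, smul_zero, if_neg]
      rintro rfl
      have := hγ j
      have := (α j).2
      omega
    · push Not at h1
      have h2 : mo (bb (ZMod p) g) (β : Fin d → ℕ) = h.basis (fun j => ⟨β j, h1 j⟩) := by
        rw [h.basis_apply]
      rw [h2, Module.Basis.repr_self, Finsupp.single_apply]
      by_cases h3 : β = γ
      · subst h3
        rw [if_pos, if_pos rfl, smul_eq_mul, mul_one]
        funext j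
        exact Fin.ext (hγ j)
      · rw [if_neg, if_neg h3, smul_zero]
        intro h4
        apply h3
        ext j
        have := congrArg (fun f => (f j : ℕ)) h4
        rw [hγ j]
        exact this
  rw [Finset.sum_congr rfl key, Finset.sum_ite_eq']
  split_ifs with h1
  · rfl
  · rw [notMem_support_iff.1 h1]

/-- **the dimension of a left ideal** -/
theorem UF.rank_ge (h : UF p d i Q g) {K : ℕ} (hK : K ≤ p ^ i) {x : MonoidAlgebra (ZMod p) Q}
    (hx : x ∉ Fil (ZMod p) Q K) :
    (p ^ i - K) ^ d ≤ Module.finrank (ZMod p) (LinearMap.range (LinearMap.mulRight (ZMod p) x)) := by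
  classical
  have hfinQ := h.finite
  have hFQ : Fintype Q := Fintype.ofFinite Q
  have hF := h.filt
  -- the degree of `x`
  have hex : ∃ v, x ∉ Fil (ZMod p) Q v := ⟨K, hx⟩
  obtain ⟨v, hv, hv1, hvK⟩ : ∃ v, x ∈ Fil (ZMod p) Q v ∧ x ∉ Fil (ZMod p) Q (v + 1) ∧ v < K := by
    have h1 := Nat.find_spec hex
    have h2 : Nat.find hex ≤ K := Nat.find_min' hex hx
    rcases hn : Nat.find hex with _ | v
    · rw [hn] at h1
      exact absurd (hF.top x) h1
    · rw [hn] at h1 h2
      refine ⟨v, ?_, h1, by omega⟩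
      have := Nat.find_min hex (m := v) (by omega)
      rwa [not_not] at this
  obtain ⟨f, hf, hxf⟩ := gen_Fil hF (bb (ZMod p) g) (bb_mem _ g) h.gen v x hv
  have hf0 : f ≠ 0 := by
    rintro rfl
    rw [map_zero, sub_zero] at hxf
    exact hv1 hxf
  let m : MonomialOrder (Fin d) := MonomialOrder.lex
  set α := m.degree f with hα
  have hαs : α ∈ f.support := m.degree_mem_support hf0
  have hαsum : ∑ j, α j = v := sum_of_hom hf hαs
  have hαj : ∀ j, α j < K := fun j =>
    lt_of_le_of_lt (hαsum ▸ Finset.single_le_sum (fun _ _ => Nat.zero_le _) (Finset.mem_univ j)) hvK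
  -- the family
  let fam : (Fin d → Fin (p ^ i - K)) → MonoidAlgebra (ZMod p) Q := fun β =>
    mo (bb (ZMod p) g) (fun j => (β j : ℕ)) * x
  have hli : LinearIndependent (ZMod p) fam := by
    rw [Fintype.linearIndependent_iff]
    intro c hc
    by_contra hcne
    push Not at hcne
    obtain ⟨β0, hβ0⟩ := hcne
    let mm : (Fin d → Fin (p ^ i - K)) → (Fin d →₀ ℕ) := fun β =>
      Finsupp.equivFunOnFinite.symm (fun j => (β j : ℕ))
    have hmm : Function.Injective mm := by
      intro β β' hb
      funext j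
      apply Fin.ext
      exact congrArg (fun f : Fin d →₀ ℕ => f j) hb
    let G : MvPolynomial (Fin d) (ZMod p) := ∑ β, monomial (mm β) (c β)
    have hGc : ∀ β, G.coeff (mm β) = c β := by
      intro β
      rw [coeff_sum, Finset.sum_eq_single β]
      · rw [coeff_monomial, if_pos rfl]
      · intro β' _ hne
        rw [coeff_monomial, if_neg (fun h => hne (hmm h))]
      · intro hn
        exact absurd (Finset.mem_univ β) hn
    have hGs : ∀ γ ∈ G.support, ∃ β, γ = mm β := by
      intro γ hγ
      by_contra hne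
      push Not at hne
      rw [mem_support_iff, coeff_sum] at hγ
      apply hγ
      apply Finset.sum_eq_zero
      intro β _
      rw [coeff_monomial, if_neg (fun h => hne β h.symm)]
    have hG0 : G ≠ 0 := by
      intro h0
      apply hβ0
      rw [← hGc, h0, coeff_zero]
    have hMG : Mo (bb (ZMod p) g) G * x = 0 := by
      rw [← hc]
      simp only [G, map_sum, Mo_monomial, Finset.sum_mul, smul_mul_assoc]
      rfl
    -- the lowest component
    have hex2 : ∃ s, homogeneousComponent s G ≠ 0 := by
      by_contra hne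
      push Not at hne
      apply hG0
      rw [← sum_homogeneousComponent G]
      exact Finset.sum_eq_zero fun s _ => hne s
    set s := Nat.find hex2 with hs
    have hgs : homogeneousComponent s G ≠ 0 := Nat.find_spec hex2
    set gg := homogeneousComponent s G with hgg
    have hlow : Mo (bb (ZMod p) g) G - Mo (bb (ZMod p) g) gg ∈ Fil (ZMod p) Q (s + 1) := by
      have e : Mo (bb (ZMod p) g) G - Mo (bb (ZMod p) g) gg =
          ∑ t ∈ Finset.range (G.totalDegree + 1),
            (if t = s then 0 else Mo (bb (ZMod p) g) (homogeneousComponent t G)) := by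
        conv_lhs => rw [← sum_homogeneousComponent G, map_sum]
        rw [sub_eq_iff_eq_add]
        by_cases hsr : s ∈ Finset.range (G.totalDegree + 1)
        · rw [← Finset.add_sum_erase _ _ hsr, ← Finset.add_sum_erase _ _ hsr, if_pos rfl, zero_add,
            add_comm]
          congr 1
          refine Finset.sum_congr rfl fun t ht => ?_
          rw [if_neg (Finset.ne_of_mem_erase ht)]
        · exfalso
          apply hgs
          rw [hgg, homogeneousComponent_eq_zero]
          rw [Finset.mem_range] at hsr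
          omega
      rw [e]
      refine Submodule.sum_mem _ fun t _ => ?_
      split_ifs with ht
      · exact Submodule.zero_mem _
      · by_cases hts : t < s
        · have := Nat.find_min hex2 hts
          rw [not_not] at this
          rw [this, map_zero]
          exact Submodule.zero_mem _
        · exact Fil_le (show s + 1 ≤ t by omega) (Mo_mem hF _ (bb_mem _ g)
            (homogeneousComponent_isHomogeneous t G))
    have hggh : gg.IsHomogeneous s := homogeneousComponent_isHomogeneous s G
    have hprod : Mo (bb (ZMod p) g) (gg * f) ∈ Fil (ZMod p) Q (s + v + 1) := by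
      have e : Mo (bb (ZMod p) g) (gg * f) =
          Mo (bb (ZMod p) g) G * x
          - (Mo (bb (ZMod p) g) gg * Mo (bb (ZMod p) g) f - Mo (bb (ZMod p) g) (gg * f))
          - (Mo (bb (ZMod p) g) G - Mo (bb (ZMod p) g) gg) * x
          - Mo (bb (ZMod p) g) gg * (x - Mo (bb (ZMod p) g) f) := by noncomm_ring
      rw [e, hMG]
      refine Submodule.sub_mem _ (Submodule.sub_mem _ (Submodule.sub_mem _
        (Submodule.zero_mem _) ?_) ?_) ?_
      · exact Mo_mul hF _ (bb_mem _ g) hggh hf
      · exact Fil_le (by omega) (Fil_mul hlow hv)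
      · exact Fil_le (by omega) (Fil_mul (m := s) (Mo_mem hF _ (bb_mem _ g) hggh) hxf)
    -- the leading monomial
    have hdeg : m.degree (gg * f) = m.degree gg + α := m.degree_mul hgs hf0
    have hggs : m.degree gg ∈ gg.support := m.degree_mem_support hgs
    have hggG : m.degree gg ∈ G.support := by
      rw [mem_support_iff] at hggs ⊢
      rw [hgg, coeff_homogeneousComponent] at hggs
      split_ifs at hggs with h5
      · exact hggs
      · exact absurd rfl hggs
    obtain ⟨β, hβ⟩ := hGs _ hggG
    have hγj : ∀ j, (m.degree (gg * f)) j < p ^ i := by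
      intro j
      rw [hdeg, Finsupp.add_apply, hβ]
      have h6 : (mm β) j = (β j : ℕ) := rfl
      have h7 := (β j).2
      have h8 := hαj j
      omega
    have h9 := h.repr_zero hprod (fun j => ⟨(m.degree (gg * f)) j, hγj j⟩) (by
      have h10 : ∑ j, (m.degree (gg * f)) j = s + v := by
        rw [hdeg]
        simp only [Finsupp.add_apply, Finset.sum_add_distrib]
        rw [hαsum, sum_of_hom hggh hggs]
      change ∑ j, (m.degree (gg * f)) j < s + v + 1
      omega)
    rw [h.repr_Mo _ _ (m.degree (gg * f)) (fun j => rfl)] at h9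
    exact (m.degree_mem_support_iff (gg * f)).2 (mul_ne_zero hgs hf0) |> mem_support_iff.1 <| h9
  have hfin : Module.Finite (ZMod p) (MonoidAlgebra (ZMod p) Q) := inferInstance
  have h11 : ∀ β, fam β ∈ LinearMap.range (LinearMap.mulRight (ZMod p) x) := fun β =>
    ⟨mo (bb (ZMod p) g) (fun j => (β j : ℕ)), rfl⟩
  have h12 : LinearIndependent (ZMod p)
      (fun β => (⟨fam β, h11 β⟩ : LinearMap.range (LinearMap.mulRight (ZMod p) x))) := by
    apply LinearIndependent.of_comp (Submodule.subtype _)
    exact hli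
  have h13 := h12.fintype_card_le_finrank
  rwa [Fintype.card_fun, Fintype.card_fin, Fintype.card_fin] at h13

end Pool.Agent.Helper93.IW
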