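import Pool.Agent.Helper93.IW.Cls2
import Pool.Agent.Helper93.IW.AutB

/-!
Residually unitriangular groups.
-/

set_option autoImplicit false
set_option linter.unusedSectionVars false

namespace Pool.Agent.Helper93.IW

open Polynomial

/-- residually unitriangular over the integers -/
def RU (G : Type) [Group G] : Prop :=
  ∀ x : G, x ≠ 1 → ∃ (m : ℕ) (T : G →* Matrix (Fin m) (Fin m) ℤ), Uni T ∧ T x ≠ 1

variable {G : Type} [Group G]

/-- change of the ring -/
theorem RU.map {A : Type} [CommRing A] [CharZero A] (h : RU G) :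
    ∀ x : G, x ≠ 1 → ∃ (m : ℕ) (T : G →* Matrix (Fin m) (Fin m) A), Uni T ∧ T x ≠ 1 := by
  intro x hx
  obtain ⟨m, T, hT, hne⟩ := h x hx
  refine ⟨m, ((Int.castRingHom A).mapMatrix.toMonoidHom).comp T, ?_, ?_⟩
  · intro y i j
    constructor
    · intro hij
      change ((T y i j : ℤ) : A) = 0
      rw [(hT y i j).1 hij, Int.cast_zero]
    · change ((T y i i : ℤ) : A) = 1
      rw [(hT y i j).2, Int.cast_one]
  · intro e
    apply hne
    ext i j
    have h1 : ((T x i j : ℤ) : A) = (1 : Matrix (Fin m) (Fin m) A) i j :=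
      congrFun (congrFun e i) j
    rw [Matrix.one_apply] at h1 ⊢
    split_ifs with h2
    · rw [if_pos h2] at h1
      exact_mod_cast h1
    · rw [if_neg h2] at h1
      exact_mod_cast h1

theorem RU.toCR {R : Type} [CommRing R] [IsDomain R] [CharZero R] {t : R} (ht : t ≠ 0)
    (h : RU G) : CR R t G := by
  intro x hx
  obtain ⟨m, T, hT, hne⟩ := h.map (A := R) x hx
  let ρ : G →* Matrix (Fin m) (Fin m) R :=
    { toFun := fun y => Matrix.of fun i j => if i ≤ j then t ^ ((j : ℕ) - i) * T y i j else 0
      map_one' := by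
        ext i j
        rw [Matrix.of_apply, map_one, Matrix.one_apply]
        by_cases hij : i = j
        · subst hij
          simp
        · simp [hij]
      map_mul' := fun y z => by
        ext i j
        rw [Matrix.of_apply, Matrix.mul_apply]
        simp only [Matrix.of_apply]
        by_cases hij : i ≤ j
        · rw [if_pos hij, map_mul, Matrix.mul_apply, Finset.mul_sum]
          refine Finset.sum_congr rfl fun k _ => ?_
          by_cases hik : i ≤ k
          · by_cases hkj : k ≤ j
            · rw [if_pos hik, if_pos hkj]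
              have h1 : (j : ℕ) - i = ((k : ℕ) - i) + ((j : ℕ) - k) := by
                have := Fin.le_def.1 hik
                have := Fin.le_def.1 hkj
                omega
              rw [h1, pow_add]
              ring
            · rw [if_neg hkj, mul_zero, (hT z k j).1 (not_le.1 hkj), mul_zero, mul_zero]
          · rw [if_neg hik, zero_mul, (hT y i k).1 (not_le.1 hik), zero_mul, mul_zero]
        · rw [if_neg hij]
          symm
          refine Finset.sum_eq_zero fun k _ => ?_
          by_cases hik : i ≤ k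
          · rw [if_neg (c := k ≤ j) (fun h => hij (hik.trans h)), mul_zero]
          · rw [if_neg hik, zero_mul] }
  have hρ : ∀ y i j, ρ y i j = if i ≤ j then t ^ ((j : ℕ) - i) * T y i j else 0 :=
    fun _ _ _ => rfl
  refine ⟨Fin m, inferInstance, inferInstance, ρ, ?_, ?_⟩
  · intro y i j
    rw [Matrix.sub_apply, hρ]
    by_cases hij : i = j
    · subst hij
      rw [if_pos le_rfl, (hT y i i).2, Nat.sub_self, pow_zero, mul_one, Matrix.one_apply_eq,
        sub_self]
      exact dvd_zero _
    · rw [Matrix.one_apply_ne hij, sub_zero]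
      split_ifs with h1
      · have h2 : (j : ℕ) - i ≠ 0 := by
          have := Fin.le_def.1 h1
          have h3 : (i : ℕ) ≠ j := fun e => hij (Fin.ext e)
          omega
        exact dvd_mul_of_dvd_left (dvd_pow_self t h2) _
      · exact dvd_zero _
  · intro e
    apply hne
    ext i j
    have h1 := congrFun (congrFun e i) j
    rw [hρ] at h1
    by_cases hij : i ≤ j
    · rw [if_pos hij] at h1
      by_cases hij' : i = j
      · subst hij'
        rw [(hT x i i).2, Matrix.one_apply_eq]
      · rw [Matrix.one_apply_ne hij'] at h1 ⊢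
        exact (mul_eq_zero.1 h1).resolve_left (pow_ne_zero _ ht)
    · rw [(hT x i j).1 (not_le.1 hij), Matrix.one_apply_ne (fun e => hij e.le)]

/-- the truncated representation -/
noncomputable def trn {n : ℕ} (k : ℕ) (ρ : G →* Matrix (Fin n) (Fin n) ℤ[X]) :
    G →* Matrix (Fin k × Fin n) (Fin k × Fin n) ℤ where
  toFun y := Matrix.of fun P Q => if P.1 ≤ Q.1 then (ρ y P.2 Q.2).coeff ((Q.1 : ℕ) - P.1) else 0
  map_one' := by
    ext ⟨i, a⟩ ⟨j, b⟩
    rw [Matrix.of_apply, map_one]
    by_cases hij : i = j
    · subst hij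
      by_cases hab : a = b
      · subst hab
        rw [Matrix.one_apply_eq]
        simp
      · have h0 : ((i, a) : Fin k × Fin n) ≠ (i, b) := fun h => hab (congrArg Prod.snd h)
        rw [Matrix.one_apply_ne h0]
        simp [hab]
    · have h1 : ((i, a) : Fin k × Fin n) ≠ (j, b) := fun h => hij (congrArg Prod.fst h)
      rw [Matrix.one_apply_ne h1]
      split_ifs with h2
      · have h3 : (j : ℕ) - i ≠ 0 := by
          have := Fin.le_def.1 h2
          have h3 : (i : ℕ) ≠ j := fun e => hij (Fin.ext e)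
          change (i : ℕ) ≤ j at this
          omega
        change ((1 : Matrix (Fin n) (Fin n) ℤ[X]) a b).coeff ((j : ℕ) - i) = 0
        rw [Matrix.one_apply]
        split_ifs
        · rw [Polynomial.coeff_one, if_neg h3]
        · rw [Polynomial.coeff_zero]
      · rfl
  map_mul' y z := by
    classical
    ext ⟨i, a⟩ ⟨j, b⟩
    rw [Matrix.of_apply, Matrix.mul_apply, Fintype.sum_prod_type, Finset.sum_comm]
    simp only [Matrix.of_apply]
    by_cases hij : i ≤ j
    · rw [if_pos hij, map_mul, Matrix.mul_apply, Polynomial.finset_sum_coeff]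
      refine Finset.sum_congr rfl fun c _ => ?_
      rw [Polynomial.coeff_mul]
      have hij' := Fin.le_def.1 hij
      change (i : ℕ) ≤ j at hij'
      have h0 : ∀ s : Fin k, ((if i ≤ s then (ρ y a c).coeff ((s : ℕ) - i) else 0) *
          (if s ≤ j then (ρ z c b).coeff ((j : ℕ) - s) else 0)) =
          if i ≤ s ∧ s ≤ j then (ρ y a c).coeff ((s : ℕ) - i) * (ρ z c b).coeff ((j : ℕ) - s)
          else 0 := by
        intro s
        by_cases h1 : i ≤ s <;> by_cases h2 : s ≤ j <;> simp [h1, h2]
      rw [Finset.sum_congr rfl fun s _ => h0 s, ← Finset.sum_filter]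
      symm
      refine Finset.sum_nbij' (fun s : Fin k => (((s : ℕ) - i, (j : ℕ) - s) : ℕ × ℕ))
        (fun uv : ℕ × ℕ => if h : (i : ℕ) + uv.1 < k then (⟨(i : ℕ) + uv.1, h⟩ : Fin k) else i)
        ?_ ?_ ?_ ?_ ?_
      · intro s hs
        rw [Finset.mem_filter] at hs
        have h1 := Fin.le_def.1 hs.2.1
        have h2 := Fin.le_def.1 hs.2.2
        rw [Finset.HasAntidiagonal.mem_antidiagonal]
        change (s : ℕ) - i + (j - s) = j - i
        omega
      · intro uv huv
        rw [Finset.HasAntidiagonal.mem_antidiagonal] at huv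
        have hj := j.2
        have h3 : (i : ℕ) + uv.1 < k := by
          change uv.1 + uv.2 = (j : ℕ) - i at huv
          omega
        rw [dif_pos h3, Finset.mem_filter]
        refine ⟨Finset.mem_univ _, ?_, ?_⟩
        · rw [Fin.le_def]
          change (i : ℕ) ≤ i + uv.1
          omega
        · rw [Fin.le_def]
          change (i : ℕ) + uv.1 ≤ j
          change uv.1 + uv.2 = (j : ℕ) - i at huv
          omega
      · intro s hs
        rw [Finset.mem_filter] at hs
        have h1 := Fin.le_def.1 hs.2.1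
        have hs' := s.2
        have h3 : (i : ℕ) + ((s : ℕ) - i) < k := by omega
        change (if h : (i : ℕ) + ((s : ℕ) - i) < k then (⟨(i : ℕ) + ((s : ℕ) - i), h⟩ : Fin k)
          else i) = s
        rw [dif_pos h3]
        apply Fin.ext
        change (i : ℕ) + ((s : ℕ) - i) = s
        omega
      · intro uv huv
        rw [Finset.HasAntidiagonal.mem_antidiagonal] at huv
        change uv.1 + uv.2 = (j : ℕ) - i at huv
        have hj := j.2
        have h3 : (i : ℕ) + uv.1 < k := by omega
        rw [dif_pos h3]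
        apply Prod.ext
        · change (i : ℕ) + uv.1 - i = uv.1
          omega
        · change (j : ℕ) - (i + uv.1) = uv.2
          omega
      · intro s _
        rfl
    · rw [if_neg hij]
      symm
      refine Finset.sum_eq_zero fun c _ => Finset.sum_eq_zero fun s _ => ?_
      by_cases h1 : i ≤ s
      · rw [if_neg (c := s ≤ j) (fun h => hij (h1.trans h)), mul_zero]
      · rw [if_neg h1, zero_mul]

theorem trn_apply {n : ℕ} (k : ℕ) (ρ : G →* Matrix (Fin n) (Fin n) ℤ[X]) (y : G)
    (P Q : Fin k × Fin n) : trn k ρ y P Q =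
      if P.1 ≤ Q.1 then (ρ y P.2 Q.2).coeff ((Q.1 : ℕ) - P.1) else 0 := rfl

theorem CR.toRU (h : CR ℤ[X] X G) : RU G := by
  classical
  intro x hx
  obtain ⟨ν, i1, i2, ρ0, hρ0, hne0⟩ := h x hx
  -- reindex
  set n := Fintype.card ν with hn
  let e := Fintype.equivFin ν
  let ρ : G →* Matrix (Fin n) (Fin n) ℤ[X] :=
    ((Matrix.reindexAlgEquiv ℤ[X] ℤ[X] e).toAlgHom : Matrix ν ν ℤ[X] →* _).comp ρ0
  have hρe : ∀ y a b, ρ y a b = ρ0 y (e.symm a) (e.symm b) := fun _ _ _ => rfl
  have hρ : ∀ y a b, (ρ y a b).coeff 0 = if a = b then 1 else 0 := by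
    intro y a b
    have h1 := hρ0 y (e.symm a) (e.symm b)
    rw [Polynomial.X_dvd_iff, Matrix.sub_apply, Polynomial.coeff_sub, sub_eq_zero] at h1
    rw [hρe, h1, Matrix.one_apply]
    by_cases hab : a = b
    · rw [if_pos hab, if_pos (by rw [hab]), Polynomial.coeff_one_zero]
    · rw [if_neg hab, if_neg (fun h => hab (e.symm.injective h)), Polynomial.coeff_zero]
  obtain ⟨a, b, hab⟩ : ∃ a b, ρ x a b ≠ (1 : Matrix (Fin n) (Fin n) ℤ[X]) a b := by
    by_contra hcon
    push Not at hcon
    apply hne0
    ext1 a b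
    have h2 := hcon (e a) (e b)
    rw [hρe, e.symm_apply_apply, e.symm_apply_apply, Matrix.one_apply] at h2
    rw [h2, Matrix.one_apply]
    by_cases h3 : a = b
    · rw [if_pos h3, if_pos (by rw [h3])]
    · rw [if_neg h3, if_neg (fun h => h3 (e.injective h))]
  obtain ⟨s, hs⟩ : ∃ s, (ρ x a b).coeff s ≠ ((1 : Matrix (Fin n) (Fin n) ℤ[X]) a b).coeff s := by
    by_contra hcon
    push Not at hcon
    exact hab (Polynomial.ext hcon)
  have hs0 : s ≠ 0 := by
    rintro rfl
    apply hs
    rw [hρ, Matrix.one_apply]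
    split_ifs
    · rw [Polynomial.coeff_one_zero]
    · rw [Polynomial.coeff_zero]
  let f := finProdFinEquiv (m := s + 1) (n := n)
  let T : G →* Matrix (Fin ((s + 1) * n)) (Fin ((s + 1) * n)) ℤ :=
    ((Matrix.reindexAlgEquiv ℤ ℤ f).toAlgHom :
      Matrix (Fin (s + 1) × Fin n) (Fin (s + 1) × Fin n) ℤ →* _).comp (trn (s + 1) ρ)
  have hT : ∀ y P Q, T y P Q = trn (s + 1) ρ y (f.symm P) (f.symm Q) := fun _ _ _ => rfl
  refine ⟨(s + 1) * n, T, ?_, ?_⟩
  · intro y P Q
    constructor
    · intro hQP
      obtain ⟨⟨i, a'⟩, rfl⟩ := f.surjective P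
      obtain ⟨⟨j, b'⟩, rfl⟩ := f.surjective Q
      rw [hT, f.symm_apply_apply, f.symm_apply_apply, trn_apply]
      have h4 : (b' : ℕ) + n * j < a' + n * i := Fin.lt_def.1 hQP
      have h5 : (j : ℕ) ≤ i := by
        by_contra hcon
        push Not at hcon
        have h6 : n * (i : ℕ) + n ≤ n * j := by
          calc n * (i : ℕ) + n = n * (i + 1) := by ring
            _ ≤ n * j := Nat.mul_le_mul_left _ hcon
        have := a'.2
        omega
      rcases Nat.lt_or_ge (j : ℕ) i with h7 | h7
      · rw [if_neg]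
        rw [not_le, Fin.lt_def]
        exact h7
      · have h8 : i = j := Fin.ext (le_antisymm h7 h5)
        subst h8
        have h9 : a' ≠ b' := by
          rintro rfl
          exact absurd h4 (lt_irrefl _)
        rw [if_pos le_rfl, Nat.sub_self, hρ]
        exact if_neg h9
    · obtain ⟨⟨i, a'⟩, rfl⟩ := f.surjective P
      rw [hT, f.symm_apply_apply, trn_apply, if_pos le_rfl, Nat.sub_self, hρ]
      exact if_pos rfl
  · intro hone
    apply hs
    have h10 : T x (f (0, a)) (f (⟨s, Nat.lt_succ_self s⟩, b)) = 0 := by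
      rw [hone, Matrix.one_apply_ne]
      intro h11
      have h12 := congrArg Prod.fst (f.injective h11)
      exact hs0 (congrArg Fin.val h12).symm
    rw [hT, f.symm_apply_apply, f.symm_apply_apply, trn_apply, if_pos (Fin.zero_le _)] at h10
    change (ρ x a b).coeff (s - 0) = 0 at h10
    rw [Nat.sub_zero] at h10
    rw [h10, Matrix.one_apply]
    split_ifs
    · rw [Polynomial.coeff_one, if_neg hs0]
    · rw [Polynomial.coeff_zero]

theorem RU_iff : RU G ↔ CR ℤ[X] X G := ⟨fun h => h.toCR X_ne_zero, CR.toRU⟩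

theorem RU_coprodI {I : Type} {X : I → Type} [∀ i, Group (X i)] (h : ∀ i, RU (X i)) :
    RU (Monoid.CoprodI X) :=
  CR.toRU (CR_coprodI fun i => (h i).toCR X_ne_zero)

theorem RU_int : RU (Multiplicative ℤ) := CR.toRU (CR_int X_ne_zero)

theorem RU.of_inj {G' : Type} [Group G'] (f : G' →* G) (hf : Function.Injective f)
    (h : RU G) : RU G' := CR.toRU (CR.of_inj f hf (h.toCR X_ne_zero))

theorem RU.prod {G' : Type} [Group G'] (h : RU G) (h' : RU G') : RU (G × G') :=
  CR.toRU (CR.prod (h.toCR X_ne_zero) (h'.toCR X_ne_zero))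

theorem RU_free {I : Type} : RU (FreeGroup I) := by
  let φ : FreeGroup I →* Monoid.CoprodI (fun _ : I => Multiplicative ℤ) :=
    FreeGroup.lift fun j => Monoid.CoprodI.of (M := fun _ : I => Multiplicative ℤ) (i := j)
      (Multiplicative.ofAdd (1 : ℤ))
  let ψ : Monoid.CoprodI (fun _ : I => Multiplicative ℤ) →* FreeGroup I :=
    Monoid.CoprodI.lift fun j => zpowersHom _ (FreeGroup.of j)
  have h1 : ψ.comp φ = MonoidHom.id _ := by
    apply FreeGroup.ext_hom
    intro j
    change ψ (φ (FreeGroup.of j)) = FreeGroup.of j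
    change ψ (FreeGroup.lift _ (FreeGroup.of j)) = FreeGroup.of j
    rw [FreeGroup.lift_apply_of]
    refine (Monoid.CoprodI.lift_of (fun j => zpowersHom _ (FreeGroup.of j)) (i := j)
        (Multiplicative.ofAdd (1 : ℤ))).trans ?_
    rw [zpowersHom_apply]
    change FreeGroup.of j ^ (1 : ℤ) = _
    rw [zpow_one]
  refine RU.of_inj φ ?_ (RU_coprodI fun _ => RU_int)
  intro a b hab
  have h2 := congrArg ψ hab
  have h3 : ∀ x, ψ (φ x) = x := fun x => DFunLike.congr_fun h1 x
  rwa [h3, h3] at h2

end Pool.Agent.Helper93.IW
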