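import Pool.Agent.Helper93.IW.Main
import Pool.Agent.Helper93.IW.Uni

/-!
Finite subgroups of the finite overgroups of a torsion-free group.
-/

set_option autoImplicit false

namespace Pool.Agent.Helper93.IW

/-- finite subgroups act freely on the cosets of a torsion-free subgroup -/
theorem card_dvd_index {G : Type} [Group G] (H : Subgroup G) [Finite (G ⧸ H)]
    (htf : ∀ g : H, ∀ k : ℕ, 0 < k → g ^ k = 1 → g = 1) (K : Subgroup G) (hK : Finite K) :
    Nat.card K ∣ H.index := by
  have hst : ∀ b : G ⧸ H, MulAction.stabilizer K b = ⊥ := by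
    intro b
    induction b using QuotientGroup.induction_on with
    | H g =>
      rw [eq_bot_iff]
      intro k hk
      rw [Subgroup.mem_bot]
      rw [MulAction.mem_stabilizer_iff] at hk
      have h1 : (QuotientGroup.mk ((k : G) * g) : G ⧸ H) = QuotientGroup.mk g := hk
      have h2 : ((k : G) * g)⁻¹ * g ∈ H := QuotientGroup.eq.1 h1
      have h3 : g⁻¹ * (k : G)⁻¹ * g ∈ H := by simpa [mul_assoc] using h2
      have h4 := htf ⟨_, h3⟩ (Nat.card K) Nat.card_pos (by
        apply Subtype.ext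
        have h5 : ((k⁻¹ : K) : G) ^ Nat.card K = 1 := by
          rw [← SubmonoidClass.coe_pow, pow_card_eq_one']
          rfl
        have h6 : (g⁻¹ * (k : G)⁻¹ * g) ^ Nat.card K = g⁻¹ * ((k : G)⁻¹) ^ Nat.card K * g := by
          have := conj_pow (i := Nat.card K) (a := g⁻¹) (b := (k : G)⁻¹)
          simpa using this
        change (g⁻¹ * (k : G)⁻¹ * g) ^ Nat.card K = 1
        rw [h6]
        have h7 : ((k : G)⁻¹) ^ Nat.card K = 1 := h5
        rw [h7, mul_one, inv_mul_cancel])
      have h5 : g⁻¹ * (k : G)⁻¹ * g = 1 := congrArg Subtype.val h4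
      apply Subtype.ext
      change (k : G) = 1
      have h6 : (k : G)⁻¹ = 1 := by
        have := congrArg (fun x => g * x * g⁻¹) h5
        simpa [mul_assoc] using this
      exact inv_eq_one.1 h6
  have h1 := Nat.card_congr (MulAction.selfEquivOrbitsQuotientProd hst)
  rw [Nat.card_prod] at h1
  rw [Subgroup.index, h1]
  exact dvd_mul_left _ _

/-- a common multiple gives a least common multiple -/
theorem exists_lcm {G : Type} [Group G] {D : ℕ} (hpos : 0 < D)
    (hdiv : ∀ K : Subgroup G, Finite K → Nat.card K ∣ D) :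
    ∃ d : ℕ, (∃ N : ℕ, ∀ H : Subgroup G, Finite H → Nat.card H ≤ N) ∧
      (∀ H : Subgroup G, Finite H → Nat.card H ∣ d) ∧
      ∀ e : ℕ, (∀ H : Subgroup G, Finite H → Nat.card H ∣ e) → d ∣ e := by
  classical
  refine ⟨((D.divisors).filter fun c => ∃ K : Subgroup G, Finite K ∧
    Nat.card K = c).lcm id, ⟨D, fun K hK => Nat.le_of_dvd hpos (hdiv K hK)⟩, ?_, ?_⟩
  · intro K hK
    exact Finset.dvd_lcm (f := id) (Finset.mem_filter.2 ⟨Nat.mem_divisors.2
      ⟨hdiv K hK, hpos.ne'⟩, K, hK, rfl⟩)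
  · intro e he
    apply Finset.lcm_dvd
    intro c hc
    obtain ⟨K, hK, rfl⟩ := (Finset.mem_filter.1 hc).2
    exact he K hK

section reindex

variable {R : Type} [CommRing R] {t : R} {G : Type} [Group G]

/-- the class in terms of matrices indexed by `Fin n` -/
theorem CR_iff_fin : CR R t G ↔ ∀ g : G, g ≠ 1 → ∃ (n : ℕ) (ρ : G →* Matrix (Fin n) (Fin n) R),
    (∀ (x : G) (i j : Fin n), t ∣ (ρ x - 1) i j) ∧ ρ g ≠ 1 := by
  constructor
  · intro h g hg
    obtain ⟨ν, i1, i2, ρ0, hρ0, hne⟩ := h g hg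
    let e := Fintype.equivFin ν
    let E := Matrix.reindexAlgEquiv R R e
    refine ⟨Fintype.card ν, (E.toAlgHom : Matrix ν ν R →* _).comp ρ0, ?_, ?_⟩
    · intro x i j
      have h1 : E (ρ0 x) - 1 = E (ρ0 x - 1) := by rw [map_sub, map_one]
      change t ∣ (E (ρ0 x) - 1) i j
      rw [h1]
      exact hρ0 x _ _
    · intro h2
      apply hne
      apply E.injective
      rw [map_one]
      exact h2
  · intro h g hg
    obtain ⟨n, ρ, hρ, hne⟩ := h g hg
    exact ⟨Fin n, inferInstance, inferInstance, ρ, hρ, hne⟩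

end reindex

end Pool.Agent.Helper93.IW
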