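import Pool.Agent.Helper93.IW.Lim

/-!
The completed group ring over the `p`-adic integers is left noetherian.
-/

set_option autoImplicit false

namespace Pool.Agent.Helper93.IW

variable {p : ℕ} [Fact p.Prime]

theorem padic_sum (c : ℕ → ℤ_[p]) : ∃ s : ℤ_[p], ∀ m, ∃ z : ℤ_[p],
    s - ∑ n ∈ Finset.range m, (p : ℤ_[p]) ^ n * c n = (p : ℤ_[p]) ^ m * z := by
  have hsum : ∀ c : ℕ → ℤ_[p], Summable (fun n => (p : ℤ_[p]) ^ n * c n) := by
    intro c
    apply Summable.of_norm_bounded (g := fun n : ℕ => ((p : ℝ)⁻¹) ^ n)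
    · apply summable_geometric_of_lt_one (by positivity)
      apply inv_lt_one_of_one_lt₀
      exact_mod_cast (Fact.out (p := p.Prime)).one_lt
    · intro n
      rw [norm_mul, PadicInt.norm_p_pow]
      calc _ ≤ (p : ℝ) ^ (-n : ℤ) * 1 :=
            mul_le_mul_of_nonneg_left (PadicInt.norm_le_one _) (by positivity)
        _ = _ := by rw [mul_one, zpow_neg, zpow_natCast, inv_pow]
  refine ⟨∑' n, (p : ℤ_[p]) ^ n * c n, fun m => ⟨∑' n, (p : ℤ_[p]) ^ n * c (n + m), ?_⟩⟩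
  have h := (hsum (fun n => c (n + m))).tsum_mul_left ((p : ℤ_[p]) ^ m)
  rw [← (hsum c).sum_add_tsum_nat_add m, add_sub_cancel_left, ← h]
  congr 1
  ext n
  ring

theorem padic_sep (a : ℤ_[p]) (h : ∀ m : ℕ, ∃ z, a = (p : ℤ_[p]) ^ m * z) : a = 0 := by
  rw [← PadicInt.ext_of_toZModPow]
  intro n
  obtain ⟨z, hz⟩ := h n
  rw [hz, map_mul, map_zero, map_pow, map_natCast]
  have : ((p : ZMod (p ^ n)) ^ n) = 0 := by
    have := ZMod.natCast_self (p ^ n)
    rwa [Nat.cast_pow] at this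
  rw [this, zero_mul]

section alg

variable {Q : Type} [Group Q]

theorem alg_sum [Finite Q] (y : ℕ → MonoidAlgebra ℤ_[p] Q) : ∃ s : MonoidAlgebra ℤ_[p] Q,
    ∀ m, ∃ z : MonoidAlgebra ℤ_[p] Q,
      s - ∑ n ∈ Finset.range m, (p : ℤ_[p]) ^ n • y n = (p : ℤ_[p]) ^ m • z := by
  choose s hs using fun q : Q => padic_sum (fun n => (y n).coeff q)
  refine ⟨MonoidAlgebra.ofCoeff (Finsupp.equivFunOnFinite.symm s), fun m => ?_⟩
  choose z hz using fun q : Q => hs q m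
  refine ⟨MonoidAlgebra.ofCoeff (Finsupp.equivFunOnFinite.symm z), ?_⟩
  apply MonoidAlgebra.ext
  ext q
  have h1 := hz q
  simp only [MonoidAlgebra.coeff_sub, MonoidAlgebra.coeff_sum, MonoidAlgebra.coeff_smul,
    Finsupp.sub_apply, Finsupp.smul_apply, smul_eq_mul, MonoidAlgebra.coeff_ofCoeff,
    Finsupp.equivFunOnFinite_symm_apply_apply, Finsupp.finset_sum_apply]
  exact h1

theorem alg_sep (a : MonoidAlgebra ℤ_[p] Q)
    (h : ∀ m : ℕ, ∃ z : MonoidAlgebra ℤ_[p] Q, a = (p : ℤ_[p]) ^ m • z) : a = 0 := by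
  apply MonoidAlgebra.ext
  ext q
  apply padic_sep
  intro m
  obtain ⟨z, hz⟩ := h m
  exact ⟨z.coeff q, by rw [hz]; rfl⟩

theorem alg_inj (m : ℕ) {a b : MonoidAlgebra ℤ_[p] Q}
    (h : (p : ℤ_[p]) ^ m • a = (p : ℤ_[p]) ^ m • b) : a = b := by
  apply MonoidAlgebra.ext
  ext q
  have h1 : (p : ℤ_[p]) ^ m * a.coeff q = (p : ℤ_[p]) ^ m * b.coeff q :=
    congrArg (fun x : MonoidAlgebra ℤ_[p] Q => x.coeff q) h
  apply mul_left_cancel₀ _ h1
  exact pow_ne_zero _ (by exact_mod_cast (Fact.out (p := p.Prime)).ne_zero)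

/-- reduction -/
noncomputable def rd (p : ℕ) [Fact p.Prime] (Q : Type) [Group Q] :
    MonoidAlgebra ℤ_[p] Q →+* MonoidAlgebra (ZMod p) Q :=
  MonoidAlgebra.mapRingHom Q PadicInt.toZMod

theorem rd_coeff (x : MonoidAlgebra ℤ_[p] Q) (q : Q) :
    (rd p Q x).coeff q = PadicInt.toZMod (x.coeff q) := MonoidAlgebra.coeff_mapRingHom _ _ _

theorem toZMod_surj : Function.Surjective (PadicInt.toZMod : ℤ_[p] →+* ZMod p) := by
  intro x
  refine ⟨(x.val : ℤ_[p]), ?_⟩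
  rw [map_natCast, ZMod.natCast_zmod_val]

theorem toZMod_eq_zero {x : ℤ_[p]} (h : PadicInt.toZMod x = 0) : ∃ z, x = p * z := by
  have h1 : x ∈ RingHom.ker (PadicInt.toZMod : ℤ_[p] →+* ZMod p) := h
  rw [PadicInt.ker_toZMod, PadicInt.maximalIdeal_eq_span_p, Ideal.mem_span_singleton] at h1
  exact h1

theorem rd_surj : Function.Surjective (rd p Q) := by
  intro x
  induction x using MonoidAlgebra.induction_linear with
  | zero => exact ⟨0, map_zero _⟩
  | add x y hx hy =>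
    obtain ⟨a, rfl⟩ := hx
    obtain ⟨b, rfl⟩ := hy
    exact ⟨a + b, map_add _ _ _⟩
  | single q r =>
    obtain ⟨c, rfl⟩ := toZMod_surj r
    refine ⟨MonoidAlgebra.single q c, ?_⟩
    rw [rd]
    simp

theorem rd_eq_zero {x : MonoidAlgebra ℤ_[p] Q} (h : rd p Q x = 0) :
    ∃ z : MonoidAlgebra ℤ_[p] Q, x = (p : ℤ_[p]) • z := by
  classical
  have h1 : ∀ q, ∃ z, x.coeff q = p * z := fun q => by
    apply toZMod_eq_zero
    rw [← rd_coeff, h]
    rfl
  choose z hz using h1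
  refine ⟨MonoidAlgebra.ofCoeff (Finsupp.onFinset x.coeff.support (fun q => z q) ?_), ?_⟩
  · intro q hq
    rw [Finsupp.mem_support_iff]
    intro h0
    apply hq
    have h2 := hz q
    rw [h0] at h2
    rcases mul_eq_zero.1 h2.symm with h3 | h3
    · exact absurd h3 (by exact_mod_cast (Fact.out (p := p.Prime)).ne_zero)
    · exact h3
  · apply MonoidAlgebra.ext
    ext q
    exact hz q

theorem rd_p_smul (x : MonoidAlgebra ℤ_[p] Q) : rd p Q ((p : ℤ_[p]) • x) = 0 := by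
  apply MonoidAlgebra.ext
  ext q
  rw [rd_coeff]
  change PadicInt.toZMod ((p : ℤ_[p]) * x.coeff q) = 0
  rw [map_mul, map_natCast, ZMod.natCast_self, zero_mul]

end alg

variable {G : Type} [Group G] (N : ℕ → Subgroup G) [∀ i, (N i).Normal]
  (hN : ∀ i, N (i + 1) ≤ N i)

theorem rd_tr (i : ℕ) (x : MonoidAlgebra ℤ_[p] (G ⧸ N (i + 1))) :
    rd p _ (tr N hN ℤ_[p] i x) = tr N hN (ZMod p) i (rd p _ x) := by
  induction x using MonoidAlgebra.induction_linear with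
  | zero => simp
  | add x y hx hy => simp only [map_add, hx, hy]
  | single q r =>
    rw [tr, tr, rd, rd]
    simp

/-- reduction of the completed group ring -/
noncomputable def Rd (p : ℕ) [Fact p.Prime] : Lim N hN ℤ_[p] →+* Lim N hN (ZMod p) where
  toFun x := mkL N hN (ZMod p) (fun i => rd p _ (ev N hN ℤ_[p] i x)) (fun i => by
    rw [← rd_tr, tr_ev])
  map_one' := ev_ext N hN _ fun i => by rw [ev_mkL, map_one, map_one, map_one]
  map_zero' := ev_ext N hN _ fun i => by rw [ev_mkL, map_zero, map_zero, map_zero]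
  map_mul' x y := ev_ext N hN _ fun i => by
    rw [map_mul (ev N hN (ZMod p) i), ev_mkL, ev_mkL, ev_mkL, map_mul, map_mul]
  map_add' x y := ev_ext N hN _ fun i => by
    rw [map_add (ev N hN (ZMod p) i), ev_mkL, ev_mkL, ev_mkL, map_add, map_add]

theorem ev_Rd (i : ℕ) (x : Lim N hN ℤ_[p]) :
    ev N hN (ZMod p) i (Rd N hN p x) = rd p _ (ev N hN ℤ_[p] i x) := rfl

theorem lift_step (i : ℕ) (a : MonoidAlgebra ℤ_[p] (G ⧸ N i))
    (b : MonoidAlgebra (ZMod p) (G ⧸ N (i + 1))) (h : rd p _ a = tr N hN (ZMod p) i b) :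
    ∃ c, tr N hN ℤ_[p] i c = a ∧ rd p _ c = b := by
  obtain ⟨y, rfl⟩ := rd_surj b
  rw [← rd_tr] at h
  obtain ⟨z, hz⟩ := rd_eq_zero (x := tr N hN ℤ_[p] i y - a) (by rw [map_sub, h, sub_self])
  obtain ⟨z', rfl⟩ := tr_surj N hN ℤ_[p] i z
  refine ⟨y - (p : ℤ_[p]) • z', ?_, ?_⟩
  · rw [map_sub, map_smul, ← hz, sub_sub_cancel]
  · rw [map_sub, rd_p_smul, sub_zero]

theorem Rd_surj : Function.Surjective (Rd N hN p) := by
  intro y
  have hstep : ∀ i (a : {a : MonoidAlgebra ℤ_[p] (G ⧸ N i) // rd p _ a = ev N hN (ZMod p) i y}),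
      ∃ c : {c : MonoidAlgebra ℤ_[p] (G ⧸ N (i + 1)) // rd p _ c = ev N hN (ZMod p) (i + 1) y},
        tr N hN ℤ_[p] i c = a := by
    intro i a
    obtain ⟨c, hc1, hc2⟩ := lift_step N hN i a.1 (ev N hN (ZMod p) (i + 1) y) (by
      rw [tr_ev, a.2])
    exact ⟨⟨c, hc2⟩, hc1⟩
  choose F hF using hstep
  obtain ⟨a0, ha0⟩ := rd_surj (p := p) (ev N hN (ZMod p) 0 y)
  let X : ∀ i, {a : MonoidAlgebra ℤ_[p] (G ⧸ N i) // rd p _ a = ev N hN (ZMod p) i y} :=
    fun i => Nat.rec ⟨a0, ha0⟩ (fun i a => F i a) i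
  refine ⟨mkL N hN ℤ_[p] (fun i => (X i).1) (fun i => hF i (X i)), ?_⟩
  apply ev_ext
  intro i
  rw [ev_Rd, ev_mkL]
  exact (X i).2

theorem divL (m : ℕ) (x : Lim N hN ℤ_[p])
    (h : ∀ i, ∃ z : MonoidAlgebra ℤ_[p] (G ⧸ N i), ev N hN ℤ_[p] i x = (p : ℤ_[p]) ^ m • z) :
    ∃ z : Lim N hN ℤ_[p], x = (p : ℤ_[p]) ^ m • z := by
  choose z hz using h
  refine ⟨mkL N hN ℤ_[p] z (fun i => ?_), ?_⟩
  · apply alg_inj m
    rw [← map_smul, ← hz, tr_ev, hz]
  · apply ev_ext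
    intro i
    rw [map_smul, ev_mkL, hz]

theorem Rd_eq_zero {x : Lim N hN ℤ_[p]} (h : Rd N hN p x = 0) :
    ∃ z : Lim N hN ℤ_[p], x = (p : ℤ_[p]) • z := by
  obtain ⟨z, hz⟩ := divL N hN 1 x (fun i => by
    rw [pow_one]
    apply rd_eq_zero
    rw [← ev_Rd, h, map_zero])
  exact ⟨z, by rw [hz, pow_one]⟩

/-- the `p`-adic filtration -/
noncomputable def FP (m : ℕ) : AddSubgroup (Lim N hN ℤ_[p]) where
  carrier := {x | ∃ z : Lim N hN ℤ_[p], x = (p : ℤ_[p]) ^ m • z}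
  add_mem' := by
    rintro _ _ ⟨a, rfl⟩ ⟨b, rfl⟩
    exact ⟨a + b, (smul_add _ _ _).symm⟩
  zero_mem' := ⟨0, (smul_zero _).symm⟩
  neg_mem' := by
    rintro _ ⟨a, rfl⟩
    exact ⟨-a, (smul_neg _ _).symm⟩

theorem mem_FP {m : ℕ} {x : Lim N hN ℤ_[p]} :
    x ∈ FP N hN m ↔ ∃ z : Lim N hN ℤ_[p], x = (p : ℤ_[p]) ^ m • z := Iff.rfl

theorem FP_zero : FP N hN 0 = (⊤ : AddSubgroup (Lim N hN ℤ_[p])) := by
  rw [eq_top_iff]
  intro x _
  exact ⟨x, by rw [pow_zero, one_smul]⟩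

theorem FP_anti (m : ℕ) : FP N hN (m + 1) ≤ (FP N hN m : AddSubgroup (Lim N hN ℤ_[p])) := by
  rintro _ ⟨a, rfl⟩
  exact ⟨(p : ℤ_[p]) • a, by rw [pow_succ, mul_smul]⟩

theorem FP_le {m n : ℕ} (h : m ≤ n) : FP N hN n ≤ (FP N hN m : AddSubgroup (Lim N hN ℤ_[p])) := by
  induction h with
  | refl => exact le_rfl
  | step h ih => exact (FP_anti N hN _).trans ih

theorem FP_mul (m : ℕ) (x y : Lim N hN ℤ_[p]) (hx : x ∈ FP N hN m) : x * y ∈ FP N hN m := by
  obtain ⟨a, rfl⟩ := hx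
  exact ⟨a * y, by rw [smul_mul_assoc]⟩

theorem FP_sep (x : Lim N hN ℤ_[p]) (h : ∀ m, x ∈ FP N hN m) : x = 0 := by
  apply ev_ext
  intro i
  rw [map_zero]
  apply alg_sep
  intro m
  obtain ⟨z, hz⟩ := h m
  exact ⟨ev N hN ℤ_[p] i z, by rw [hz, map_smul]⟩

theorem FP_compl [∀ i, Finite (G ⧸ N i)] : Compl (FP N hN (p := p)) := by
  intro x hx
  choose y hy using hx
  choose X hX using fun i => alg_sum (fun n => ev N hN ℤ_[p] i (y n))
  have hcomp : ∀ i, tr N hN ℤ_[p] i (X (i + 1)) = X i := by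
    intro i
    rw [← sub_eq_zero]
    apply alg_sep
    intro m
    obtain ⟨z, hz⟩ := hX i m
    obtain ⟨z', hz'⟩ := hX (i + 1) m
    refine ⟨tr N hN ℤ_[p] i z' - z, ?_⟩
    rw [smul_sub, ← map_smul, ← hz', ← hz, map_sub, map_sum]
    simp only [map_smul, tr_ev]
    abel
  refine ⟨mkL N hN ℤ_[p] X hcomp, fun m => ?_⟩
  apply divL
  intro i
  obtain ⟨z, hz⟩ := hX i m
  refine ⟨z, ?_⟩
  rw [map_sub, ev_mkL, map_sum, ← hz]
  congr 1
  refine Finset.sum_congr rfl fun n _ => ?_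
  rw [hy n, map_smul]

/-- **The completed group ring over the `p`-adic integers is left noetherian** if it is so over the
residue field. -/
theorem noeth_Zp [∀ i, Finite (G ⧸ N i)] (hn : IsNoetherianRing (Lim N hN (ZMod p))) :
    IsNoetherianRing (Lim N hN ℤ_[p]) := by
  classical
  rw [isNoetherianRing_iff, isNoetherian_def]
  intro W
  -- the chain of left ideals over the residue field
  let C : ℕ → Submodule (Lim N hN (ZMod p)) (Lim N hN (ZMod p)) := fun k =>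
    { carrier := {ω | ∃ l : Lim N hN ℤ_[p], (p : ℤ_[p]) ^ k • l ∈ W ∧ Rd N hN p l = ω}
      add_mem' := by
        rintro _ _ ⟨a, ha, rfl⟩ ⟨b, hb, rfl⟩
        exact ⟨a + b, by rw [smul_add]; exact W.add_mem ha hb, map_add _ _ _⟩
      zero_mem' := ⟨0, by rw [smul_zero]; exact W.zero_mem, map_zero _⟩
      smul_mem' := by
        rintro c _ ⟨a, ha, rfl⟩
        obtain ⟨c', rfl⟩ := Rd_surj N hN c
        refine ⟨c' * a, ?_, map_mul _ _ _⟩
        rw [← mul_smul_comm]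
        exact W.smul_mem c' ha }
  have hC : ∀ k ω, ω ∈ C k ↔ ∃ l : Lim N hN ℤ_[p], (p : ℤ_[p]) ^ k • l ∈ W ∧ Rd N hN p l = ω :=
    fun _ _ => Iff.rfl
  have hps : ∀ (a : ℤ_[p]) (l : Lim N hN ℤ_[p]), l ∈ W → a • l ∈ W := by
    intro a l hl
    rw [← one_mul l, ← smul_mul_assoc]
    exact W.smul_mem _ hl
  have hmono : Monotone C := by
    apply monotone_nat_of_le_succ
    rintro k ω ⟨l, hl, rfl⟩
    exact ⟨l, by rw [pow_succ', mul_smul]; exact hps _ _ hl, rfl⟩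
  obtain ⟨k0, hk0⟩ := monotone_stabilizes_iff_noetherian.2
    ((isNoetherianRing_iff).1 hn) ⟨C, hmono⟩
  have hfg : ∀ k, ∃ S : Finset (Lim N hN (ZMod p)), Submodule.span _ (S : Set _) = C k := fun k =>
    ((isNoetherian_def.1 ((isNoetherianRing_iff).1 hn)) (C k))
  choose S hS using hfg
  have hSC : ∀ k (s : S k), ∃ l : Lim N hN ℤ_[p], (p : ℤ_[p]) ^ k • l ∈ W ∧ Rd N hN p l = s := by
    intro k s
    rw [← hC, ← hS]
    exact Submodule.subset_span s.2
  choose lam hlam1 hlam2 using hSC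
  let T := Σ k : Fin (k0 + 1), S k
  let w : T → Lim N hN ℤ_[p] := fun t => (p : ℤ_[p]) ^ (t.1 : ℕ) • lam t.1 t.2
  have hmain : W = Submodule.span _ (Set.range w) := by
    apply approx (FP_compl N hN) (FP_zero N hN) (FP_mul N hN) (FP_anti N hN) (FP_sep N hN) W w
      (fun t => hlam1 _ _) k0
    rintro n _ hu ⟨l, rfl⟩
    obtain ⟨k, hk, hkn, hkk⟩ : ∃ k : ℕ, k < k0 + 1 ∧ k ≤ n ∧ C n = C k := by
      rcases le_total n k0 with h | h
      · exact ⟨n, by omega, le_rfl, rfl⟩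
      · exact ⟨k0, by omega, h, (hk0 n h).symm⟩
    have h1 : Rd N hN p l ∈ C k := by
      rw [← hkk]
      exact ⟨l, hu, rfl⟩
    rw [← hS, Submodule.mem_span_finset] at h1
    obtain ⟨a, -, ha⟩ := h1
    rw [← Finset.sum_coe_sort] at ha
    choose a' ha' using fun s : S k => Rd_surj N hN (p := p) (a s)
    have h2 : Rd N hN p (l - ∑ s, a' s * lam k s) = 0 := by
      rw [map_sub, map_sum, ← ha, sub_eq_zero]
      refine Finset.sum_congr rfl fun s _ => ?_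
      rw [map_mul, ha', hlam2]
      rfl
    obtain ⟨z, hz⟩ := Rd_eq_zero N hN h2
    let kk : Fin (k0 + 1) := ⟨k, hk⟩
    refine ⟨fun t => if h : (t.1 : ℕ) = k then (p : ℤ_[p]) ^ (n - k) • a' (h ▸ t.2) else 0,
      fun t => ?_, ?_⟩
    · change (if h : (t.1 : ℕ) = k then (p : ℤ_[p]) ^ (n - k) • a' (h ▸ t.2) else 0) ∈ _
      split_ifs with h
      · exact FP_le N hN (show n - k0 ≤ n - k by omega) ⟨_, rfl⟩
      · exact AddSubgroup.zero_mem _
    · have h3 : ∑ t : T,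
          (if h : (t.1 : ℕ) = k then (p : ℤ_[p]) ^ (n - k) • a' (h ▸ t.2) else 0) * w t =
          (p : ℤ_[p]) ^ n • ∑ s, a' s * lam k s := by
        rw [Fintype.sum_sigma, Finset.sum_eq_single kk]
        · rw [Finset.smul_sum]
          refine Finset.sum_congr rfl fun s _ => ?_
          rw [dif_pos rfl]
          change ((p : ℤ_[p]) ^ (n - k) • a' s) * ((p : ℤ_[p]) ^ k • lam k s) = _
          rw [smul_mul_smul_comm, ← pow_add, Nat.sub_add_cancel hkn]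
        · intro k' _ hk'
          apply Finset.sum_eq_zero
          intro s _
          rw [dif_neg (fun h => hk' (Fin.ext h)), zero_mul]
        · intro h
          exact absurd (Finset.mem_univ _) h
      refine ⟨z, ?_⟩
      rw [h3, ← smul_sub, hz, pow_succ, mul_smul]
  rw [hmain]
  exact Submodule.fg_span (Set.finite_range w)

end Pool.Agent.Helper93.IW
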